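import Mathlib

/-!
# Prime divisors over an affine variety, log discrepancies, divisorial contractions

`R` is a finitely generated normal domain over `ℂ` with fraction field `K`, so `X = Spec R`.
A prime divisor over `X` is a discrete valuation ring `O` of `K` containing `R` whose residue
field has transcendence degree `dim X - 1` over `ℂ` (Zariski).
-/

open scoped TensorProduct
open AlgebraicGeometry CategoryTheory

namespace H5ML

section Field

variable {K : Type} [Field K]

/-- `t` is a uniformizer of the valuation ring `O`: `t` lies in `O`, is not a unit of `O`, and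
every nonzero `h ∈ K` is a power of `t` times a unit of `O`. Such a `t` exists exactly when `O`
is a discrete valuation ring. -/
def IsUnif (O : ValuationSubring K) (t : K) : Prop :=
  t ≠ 0 ∧ t ∈ O ∧ t⁻¹ ∉ O ∧ ∀ h : K, h ≠ 0 → ∃ n : ℤ, h * t ^ n ∈ O ∧ (h * t ^ n)⁻¹ ∈ O

/-- The normalised valuation of `O` is at least `n` on `h` (`ord_O (h) ≥ n`, with
`ord_O (0) = ∞`). -/
def OrdGe (O : ValuationSubring K) (n : ℕ) (h : K) : Prop :=
  ∃ t : K, IsUnif O t ∧ h * (t ^ n)⁻¹ ∈ O

variable [Algebra ℂ K]

/-- The `y i` lie in `O` and their residues are algebraically independent over `ℂ`: every nonzero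
polynomial in the `y i` is a unit of `O`. -/
def ResIndep {n : ℕ} (O : ValuationSubring K) (y : Fin n → K) : Prop :=
  ∀ P : MvPolynomial (Fin n) ℂ, P ≠ 0 →
    MvPolynomial.aeval y P ≠ 0 ∧ MvPolynomial.aeval y P ∈ O ∧ (MvPolynomial.aeval y P)⁻¹ ∈ O

/-- `O` is a discrete valuation ring of `K` with residue field of transcendence degree at least
`n` over `ℂ`. For `K` of transcendence degree `n + 1` these are the prime divisors of `K / ℂ`. -/
def IsDiv (n : ℕ) (O : ValuationSubring K) : Prop :=
  (∃ t, IsUnif O t) ∧ ∃ y : Fin n → K, ResIndep O y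

/-- The differential form `d z_0 ∧ ⋯ ∧ d z_{n-1}`. -/
noncomputable def dwedge {n : ℕ} (z : Fin n → K) : ⋀[K]^n Ω[K⁄ℂ] :=
  exteriorPower.ιMulti K n fun i => KaehlerDifferential.D ℂ K (z i)

/-- The log discrepancy of the prime divisor `O` with respect to the rational form `ω` of top
degree `n + 1` is `a`, i.e. `ord_O (ω) = a - 1`: for a uniformizer `t` and elements
`y_1, …, y_n` of `O` with algebraically independent residues,
`ω = ε t ^ (a - 1) dt ∧ dy_1 ∧ ⋯ ∧ dy_n` with `ε` a unit of `O`. If `ω` generates the canonical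
sheaf of `X` then this is the log discrepancy `a(E, X, 0)` of the prime divisor `E`
given by `O`. -/
def HasLogDisc {n : ℕ} (O : ValuationSubring K) (ω : ⋀[K]^(n + 1) Ω[K⁄ℂ]) (a : ℤ) : Prop :=
  ∃ (t : K) (y : Fin n → K) (ε : K), IsUnif O t ∧ ResIndep O y ∧ ε ≠ 0 ∧ ε ∈ O ∧ ε⁻¹ ∈ O ∧
    ω = (ε * t ^ (a - 1)) • dwedge (Fin.cons t y : Fin (n + 1) → K)

end Field

section Ring

variable {R K : Type} [CommRing R] [Field K] [Algebra R K]

/-- `O` contains `R`. -/
def Over (R : Type) {K : Type} [CommRing R] [Field K] [Algebra R K] (O : ValuationSubring K) :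
    Prop :=
  ∀ r : R, algebraMap R K r ∈ O

/-- `O` contains `R` and its centre on `Spec R` is the prime `x`. -/
def OverPoint (x : Ideal R) (O : ValuationSubring K) : Prop :=
  Over R O ∧ ∀ r : R, r ∈ x ↔ algebraMap R K r ∈ O.nonunits

/-- The localization of `R` at the prime `p`, inside `K`. -/
def locAt (K : Type) [Field K] [Algebra R K] (p : Ideal R) : Set K :=
  {h | ∃ a b : R, b ∉ p ∧ h * algebraMap R K b = algebraMap R K a}

variable [Algebra ℂ K]

/-- `ω` has neither zeros nor poles on the normal variety `Spec R` (so `K_X` is Cartier and `ω`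
generates the canonical sheaf): at every prime `p` of height one the localization `R_p` is a
prime divisor of log discrepancy one. -/
def CanonicalGen (R : Type) {K : Type} [CommRing R] [Field K] [Algebra R K] [Algebra ℂ K]
    {n : ℕ} (ω : ⋀[K]^(n + 1) Ω[K⁄ℂ]) : Prop :=
  ∀ p : Ideal R, p.IsPrime → p.height = 1 →
    ∃ O : ValuationSubring K, (O : Set K) = locAt K p ∧ HasLogDisc O ω 1

/-- Kawamata log terminal: every prime divisor over `Spec R` has a log discrepancy, it is unique,
and it is positive. -/
def Klt (R : Type) {K : Type} [CommRing R] [Field K] [Algebra R K] [Algebra ℂ K]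
    {n : ℕ} (ω : ⋀[K]^(n + 1) Ω[K⁄ℂ]) : Prop :=
  ∀ O : ValuationSubring K, IsDiv n O → Over R O →
    ∃ a : ℤ, 0 < a ∧ HasLogDisc O ω a ∧ ∀ b : ℤ, HasLogDisc O ω b → b = a

/-- The minimal log discrepancy of `Spec R` at the closed point `x` is `m`. -/
def IsMld (x : Ideal R) {n : ℕ} (ω : ⋀[K]^(n + 1) Ω[K⁄ℂ]) (m : ℤ) : Prop :=
  (∃ O : ValuationSubring K, IsDiv n O ∧ OverPoint x O ∧ HasLogDisc O ω m) ∧
    ∀ O : ValuationSubring K, IsDiv n O → OverPoint x O → ∀ a : ℤ, HasLogDisc O ω a → m ≤ a

end Ring

/-- The local ring of the integral scheme `Y` at `y`, inside the field `K` identified with the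
function field of `Y` by `φ`. -/
noncomputable def locRing {K : Type} [Field K] (Y : Scheme.{0}) [IsIntegral Y]
    (φ : Y.functionField ≃+* K) (y : Y) : Subring K :=
  ((φ : Y.functionField →+* K).comp (algebraMap (Y.presheaf.stalk y) Y.functionField)).range

/-- The stalk at `y` of the divisorial sheaf `𝒪_Y(-nE)` inside `K`, where `E` is the closure of
the point `η`, whose local ring is `O`. -/
def idealSheafStalk {K : Type} [Field K] (Y : Scheme.{0}) [IsIntegral Y]
    (φ : Y.functionField ≃+* K) (O : ValuationSubring K) (η : Y) (n : ℕ) (y : Y) : Set K :=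
  {h | h ∈ locRing Y φ y ∧ (η ⤳ y → OrdGe O n h)}

/-- A divisorial contraction `f : Y → X = Spec R` of the prime divisor `E` over `X` given by `O`:
a proper birational morphism from a normal integral scheme `Y` whose exceptional locus is the
prime divisor `E` and such that `-E` is ample over `X` (so `f` is projective). -/
structure DivisorialContraction (R : Type) {K : Type} [CommRing R] [Field K] [Algebra R K]
    (O : ValuationSubring K) where
  /-- the variety `Y` -/
  Y : Scheme.{0}
  /-- the morphism `f : Y → Spec R` -/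
  f : Y ⟶ Spec (CommRingCat.of R)
  [integral : IsIntegral Y]
  [proper : IsProper f]
  /-- `f` is birational: the function field of `Y` is `K`, as an extension of `R` -/
  φ : Y.functionField ≃+* K
  φ_comp : ∀ r : R, φ ((Y.presheaf.germ ⊤ (genericPoint Y) trivial).hom
    (f.appTop.hom ((Scheme.ΓSpecIso (.of R)).inv.hom r))) = algebraMap R K r
  normal : ∀ y : Y, IsIntegrallyClosed (Y.presheaf.stalk y)
  /-- the generic point of `E` -/
  η : Y
  loc_η : (locRing Y φ η : Set K) = O
  /-- `f` is a local isomorphism exactly outside `E` -/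
  exc : ∀ y : Y, η ⤳ y ↔ (locRing Y φ y : Set K) ≠ locAt K (f y).asIdeal
  /-- `-E` is `f`-ample: every point has an affine open neighbourhood which is the
  non-vanishing locus of a section `s` of `𝒪_Y(-nE)` for some `n ≥ 1` -/
  ample : ∀ y : Y, ∃ n : ℕ, 1 ≤ n ∧ ∃ s : R, OrdGe O n (algebraMap R K s) ∧
    ∃ U : Y.Opens, IsAffineOpen U ∧ y ∈ U ∧ ∀ y' : Y, y' ∈ U ↔
      idealSheafStalk Y φ O η n y' = {h | ∃ g ∈ locRing Y φ y', h = algebraMap R K s * g}

end H5ML
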