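import Pool.Agent.H5.ML.CasA

/-!
# CAS: the inertia groups
-/

namespace H5ML

open MvPolynomial

section General

variable {F : Type} [Field F] [Algebra ℂ F] {G₀ : Type} [Group G₀] [MulSemiringAction G₀ F]

theorem cas_mem {W : ValuationSubring F} {T : F} (hT : IsUnif W T) {g : G₀}
    (hg : g ∈ inert G₀ W) : (g • T) / T ∈ W := by
  have h := (inert_ord hT hg).2.1
  rwa [zpow_neg, zpow_one, ← div_eq_mul_inv] at h

theorem cas_ne {W : ValuationSubring F} {T : F} (hT : IsUnif W T) {g : G₀}
    (hg : g ∈ inert G₀ W) : (g • T) / T ∉ W.nonunits := by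
  have h := (inert_ord hT hg).2.2
  rw [zpow_neg, zpow_one, ← div_eq_mul_inv] at h
  have h0 : (g • T) / T ≠ 0 := div_ne_zero (inert_ord hT hg).1 hT.1
  rw [W.mem_nonunits_iff_or]
  rintro (h1 | h1)
  · exact h0 h1
  · exact h1 h

omit [Algebra ℂ F] in
theorem cas_res_eq_zero {W : ValuationSubring F} (x : W) :
    IsLocalRing.residue W x = 0 ↔ (x : F) ∈ W.nonunits := by
  rw [IsLocalRing.residue_eq_zero_iff, IsLocalRing.mem_maximalIdeal, mem_nonunits_iff,
    W.mem_nonunits_iff, ← W.valuation_lt_one_iff]
  rfl

/-- The character of the inertia group. -/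
noncomputable def cas_rho {W : ValuationSubring F} {T : F} (hT : IsUnif W T) :
    inert G₀ W →* IsLocalRing.ResidueField W where
  toFun g := IsLocalRing.residue W ⟨((g : G₀) • T) / T, cas_mem hT g.2⟩
  map_one' := by
    have : (⟨((1 : inert G₀ W) : G₀) • T / T, cas_mem hT (1 : inert G₀ W).2⟩ : W) = 1 := by
      apply Subtype.ext
      change ((1 : G₀) • T) / T = 1
      rw [one_smul, div_self hT.1]
    rw [this, map_one]
  map_mul' g h := by
    rw [← map_mul, ← sub_eq_zero, ← map_sub, cas_res_eq_zero]
    exact inert_mul hT g.2 h.2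

/-- The residues of the constants. -/
noncomputable def cas_cr {W : ValuationSubring F} (hC : ∀ c : ℂ, algebraMap ℂ F c ∈ W) :
    ℂ →+* IsLocalRing.ResidueField W :=
  (IsLocalRing.residue W).comp ((algebraMap ℂ F).codRestrict W.toSubring hC)

theorem cas_eig {W : ValuationSubring F} {T : F} (hT : IsUnif W T)
    (hC : ∀ c : ℂ, algebraMap ℂ F c ∈ W) (g : inert G₀ W) (z : F) (c : ℂ)
    (hz : (g : G₀) • z = algebraMap ℂ F c * z) (a : ℕ) (ha : OrdEq W T z a) :
    cas_cr hC c = cas_rho hT g ^ a := by
  have h := inert_eig hT g.2 z c hz a ha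
  have h1 : cas_rho hT g ^ a =
      IsLocalRing.residue W (⟨((g : G₀) • T) / T, cas_mem hT g.2⟩ ^ a) := by
    rw [map_pow]
    rfl
  rw [h1, ← sub_eq_zero]
  change IsLocalRing.residue W _ - _ = 0
  rw [← map_sub, cas_res_eq_zero]
  rw [zpow_natCast] at h
  exact h

omit [Algebra ℂ F] in
/-- The order of a nonunit is a positive natural number. -/
theorem cas_nat {W : ValuationSubring F} {T : F} (hT : IsUnif W T) {z : F} {a : ℤ}
    (ha : OrdEq W T z a) (hz : z ∈ W.nonunits) : ∃ n : ℕ, 1 ≤ n ∧ a = n := by
  have h := (ha.nonunit_iff hT).1 hz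
  obtain ⟨n, rfl⟩ := Int.eq_ofNat_of_zero_le (show 0 ≤ a by omega)
  exact ⟨n, by omega, rfl⟩

end General

theorem cas_smul (g : G) (a : A) : g • algebraMap A FA a = algebraMap A FA (act g a) := by
  rw [← smul_eq]
  exact (algebraMap.coe_smul' g a FA).symm

theorem cas_C (c : ℂ) : algebraMap A FA (C c) = algebraMap ℂ FA c := by
  rw [IsScalarTower.algebraMap_apply ℂ A FA]
  rfl

theorem cas_act_lin_inl (k : ZMod 241) (i : Fin 3) :
    act (.sr k) (lin k (.inl i)) = C (-1) * lin k (.inl i) := by
  have h : (C (chi (u i * k)) : A) * C (chi (-(u i * k))) = 1 := by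
    rw [← C_mul, mul_comm, chi_neg_mul, C_1]
  change act (.sr k) (xx i - C (chi (u i * k)) * yy i) = C (-1) * (xx i - C (chi (u i * k)) * yy i)
  have hC : act (.sr k) (C (chi (u i * k))) = C (chi (u i * k)) := by simp [act]
  rw [map_sub, map_mul, hC, act_xx_sr, act_yy_sr, C_neg, C_1]
  linear_combination (-xx i) * h

theorem cas_act_lin_inr (k : ZMod 241) (i : Fin 3) :
    act (.sr k) (lin k (.inr (.inl i))) = C 1 * lin k (.inr (.inl i)) := by
  have h : (C (chi (u i * k)) : A) * C (chi (-(u i * k))) = 1 := by
    rw [← C_mul, mul_comm, chi_neg_mul, C_1]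
  change act (.sr k) (xx i + C (chi (u i * k)) * yy i) = C 1 * (xx i + C (chi (u i * k)) * yy i)
  have hC : act (.sr k) (C (chi (u i * k))) = C (chi (u i * k)) := by simp [act]
  rw [map_add, map_mul, hC, act_xx_sr, act_yy_sr, C_1]
  linear_combination (xx i) * h

theorem cas_xx_ne (i : Fin 3) : algebraMap A FA (xx i) ≠ 0 := by
  rw [Ne, map_eq_zero_iff _ (IsFractionRing.injective A FA)]
  exact X_ne_zero _

theorem cas_yy_ne (i : Fin 3) : algebraMap A FA (yy i) ≠ 0 := by
  rw [Ne, map_eq_zero_iff _ (IsFractionRing.injective A FA)]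
  exact X_ne_zero _

theorem cas_tt_ne (l : Fin 5) : algebraMap A FA (tt l) ≠ 0 := by
  rw [Ne, map_eq_zero_iff _ (IsFractionRing.injective A FA)]
  exact X_ne_zero _

instance cas_fact : Fact (Nat.Prime 241) := ⟨by norm_num⟩

/-- Proof. Write `ρ g` for the class of `g • T / T` in the residue field `κ` of `W`, a
homomorphism from the inertia group to `κˣ` (`inert_mul`). `ℂ ⊆ κ` (by `hC`, a complex number is
in `W.nonunits` only if it is `0`).

(1) Rotations: let `r k ∈ inert`, `k ≠ 0`. `(r k) ^ 241 = 1`, so `(ρ (r k)) ^ 241 = 1`. By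
`inert_eig` with `z = x_0`, `c = χ (15 k) ≠ 1`: `ρ (r k) ≠ 1`, so `ρ (r k)` has order exactly
`241` (prime). With `z = t_l`, `c = 1`: `ρ (r k) ^ a = 1`, `a = ord t_l`, so `241 ∣ a`, and
`a ≥ 1` because `t_l` is a nonunit; so `a ≥ 241`. With `z = x_i * y_i`, `c = 1`: `241 ∣ a + b`,
`a + b ≥ 2`, so `a + b ≥ 241`.
In this case no reflection `sr j` is in `inert`: `sr j * r k * (sr j)⁻¹ = (r k)⁻¹`, so
`ρ (r k) = ρ (r k)⁻¹` (`κˣ` is commutative) and `ρ (r k) ^ 2 = 1`, impossible. So
`inert ⊆ {r k}` has at most `241` elements: second alternative.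

(2) No rotation `r k`, `k ≠ 0`, in `inert`. If there is no reflection, `inert` is trivial: first
alternative. Otherwise let `sr k ∈ inert`; for another reflection `sr j ∈ inert` the product
`sr k * sr j = r (j - k)` is in `inert`, so `j = k`. So `inert = {1, sr k}` has two elements. Let
`ρ = ρ (sr k)`; `ρ ^ 2 = 1` as `(sr k) ^ 2 = 1`. The forms `lin k v` are eigenvectors
(`act_xx_sr`, `act_yy_sr`, `act_tt_sr`, `chi_neg_mul`): with eigenvalue `-1` for `v = inl i`,
`inr (inr l)` and `1` for `v = inr (inl i)`. With `z = t_0`: `ρ ^ a = -1`, so `ρ ≠ 1` and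
`ρ = -1` (`κ` is a field, `-1 ≠ 1`). Since `lin k v ≠ 0` is a nonunit its order is `≥ 1`; for
`v = inr (inl i)`: `(-1) ^ a = 1` so `a` is even, hence `≥ 2`: third alternative. -/
theorem inert_cases (W : ValuationSubring FA) (T : FA) (hT : IsUnif W T)
    (hC : ∀ c : ℂ, algebraMap ℂ FA c ∈ W)
    (hA : ∀ v : Ix, algebraMap A FA (X v) ∈ W.nonunits) :
    Nat.card (inert G W) = 1 ∨
    (Nat.card (inert G W) ≤ 241 ∧
      (∀ (i : Fin 3) (a b : ℤ), OrdEq W T (algebraMap A FA (xx i)) a →
        OrdEq W T (algebraMap A FA (yy i)) b → 241 ≤ a + b) ∧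
      ∀ (l : Fin 5) (a : ℤ), OrdEq W T (algebraMap A FA (tt l)) a → 241 ≤ a) ∨
    (Nat.card (inert G W) = 2 ∧ ∃ k : ZMod 241, ∀ (v : Ix) (a : ℤ),
      OrdEq W T (algebraMap A FA (lin k v)) a → (wt v : ℤ) ≤ a) := by
  have hcrinj : Function.Injective (cas_cr hC) := (cas_cr hC).injective
  by_cases hrot : ∃ k : ZMod 241, k ≠ 0 ∧ (DihedralGroup.r k : G) ∈ inert G W
  · -- a rotation
    right; left
    obtain ⟨k, hk, hkm⟩ := hrot
    obtain ⟨p, hp⟩ : ∃ p, p = cas_rho hT (⟨DihedralGroup.r k, hkm⟩ : inert G W) := ⟨_, rfl⟩
    have hp241 : p ^ 241 = 1 := by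
      rw [hp, ← map_pow]
      have : (⟨DihedralGroup.r k, hkm⟩ : inert G W) ^ 241 = 1 := by
        apply Subtype.ext
        change (DihedralGroup.r k : G) ^ 241 = 1
        rw [DihedralGroup.r_pow]
        have : k * (241 : ℕ) = 0 := by
          rw [CharP.cast_eq_zero, mul_zero]
        rw [this]
        rfl
      rw [this, map_one]
    have hp1 : p ≠ 1 := by
      intro h1
      obtain ⟨a, ha⟩ := exists_ordEq hT (cas_xx_ne 0)
      obtain ⟨n, hn, rfl⟩ := cas_nat hT ha (hA _)
      have h2 := cas_eig hT hC (⟨DihedralGroup.r k, hkm⟩ : inert G W)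
        (algebraMap A FA (xx 0)) (chi (u 0 * k)) (by
          change (DihedralGroup.r k : G) • algebraMap A FA (xx 0) = _
          rw [cas_smul, act_xx_r, map_mul, cas_C]) n ha
      rw [← hp, h1, one_pow] at h2
      have h3 : chi (u 0 * k) = 1 := hcrinj (by rw [h2, map_one])
      rw [chi_eq_one_iff] at h3
      rcases mul_eq_zero.1 h3 with h4 | h4
      · revert h4
        change ((15 : ℕ) : ZMod 241) = 0 → False
        decide
      · exact hk h4
    have hord : orderOf p = 241 := orderOf_eq_prime hp241 hp1
    have hdvd : ∀ n : ℕ, 1 ≤ n → p ^ n = 1 → 241 ≤ n := by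
      intro n hn h
      rw [← hord]
      exact Nat.le_of_dvd (by omega) (orderOf_dvd_of_pow_eq_one h)
    refine ⟨?_, ?_, ?_⟩
    · -- no reflection
      have hnor : ∀ j : ZMod 241, (DihedralGroup.sr j : G) ∉ inert G W := by
        intro j hj
        have hk' : (DihedralGroup.r (-k) : G) ∈ inert G W := by
          have := (inert G W).inv_mem hkm
          rwa [DihedralGroup.inv_r] at this
        have e1 : (⟨DihedralGroup.sr j, hj⟩ : inert G W) * ⟨DihedralGroup.r k, hkm⟩ =
            ⟨DihedralGroup.r (-k), hk'⟩ * ⟨DihedralGroup.sr j, hj⟩ := by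
          apply Subtype.ext
          change (DihedralGroup.sr j : G) * DihedralGroup.r k =
            DihedralGroup.r (-k) * DihedralGroup.sr j
          rw [DihedralGroup.sr_mul_r, DihedralGroup.r_mul_sr]
          congr 1
          ring
        have e2 : (⟨DihedralGroup.r (-k), hk'⟩ : inert G W) * ⟨DihedralGroup.r k, hkm⟩ = 1 := by
          apply Subtype.ext
          change (DihedralGroup.r (-k) : G) * DihedralGroup.r k = 1
          rw [DihedralGroup.r_mul_r, neg_add_cancel]
          rfl
        have e3 := congrArg (cas_rho hT) e1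
        have e4 := congrArg (cas_rho hT) e2
        rw [map_mul, map_mul, ← hp] at e3
        rw [map_mul, map_one, ← hp] at e4
        have hne : cas_rho hT (⟨DihedralGroup.sr j, hj⟩ : inert G W) ≠ 0 := by
          intro h0
          have e5 : (⟨DihedralGroup.sr j, hj⟩ : inert G W) * ⟨DihedralGroup.sr j, hj⟩ = 1 := by
            apply Subtype.ext
            change (DihedralGroup.sr j : G) * DihedralGroup.sr j = 1
            exact DihedralGroup.sr_mul_self j
          have e6 := congrArg (cas_rho hT) e5
          rw [map_mul, map_one, h0, zero_mul] at e6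
          exact zero_ne_one e6
        have e7 : p = cas_rho hT (⟨DihedralGroup.r (-k), hk'⟩ : inert G W) := by
          apply mul_left_cancel₀ hne
          rw [e3, mul_comm]
        rw [← e7, ← pow_two] at e4
        have := hdvd 2 (by norm_num) e4
        omega
      have hall : ∀ g : inert G W, ∃ j : ZMod 241, (g : G) = DihedralGroup.r j := by
        rintro ⟨g, hg⟩
        rcases g with j | j
        · exact ⟨j, rfl⟩
        · exact absurd hg (hnor j)
      choose f hf using hall
      have hinj : Function.Injective f := by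
        intro g h hgh
        apply Subtype.ext
        rw [hf g, hf h, hgh]
      calc Nat.card (inert G W) ≤ Nat.card (ZMod 241) := Nat.card_le_card_of_injective f hinj
        _ = 241 := by rw [Nat.card_eq_fintype_card, ZMod.card]
    · intro i a b ha hb
      obtain ⟨n, hn, rfl⟩ := cas_nat hT ha (hA _)
      obtain ⟨m, hm, rfl⟩ := cas_nat hT hb (hA _)
      have h2 := cas_eig hT hC (⟨DihedralGroup.r k, hkm⟩ : inert G W)
        (algebraMap A FA (xx i) * algebraMap A FA (yy i)) 1 (by
          change (DihedralGroup.r k : G) • (algebraMap A FA (xx i) * algebraMap A FA (yy i)) = _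
          rw [smul_mul', cas_smul, cas_smul, act_xx_r, act_yy_r, map_mul, map_mul, cas_C, cas_C,
            map_one, one_mul]
          have : algebraMap ℂ FA (chi (u i * k)) * algebraMap ℂ FA (chi (-(u i * k))) = 1 := by
            rw [← map_mul, mul_comm, chi_neg_mul, map_one]
          linear_combination (algebraMap A FA (xx i) * algebraMap A FA (yy i)) * this)
        (n + m) (by push_cast; exact ha.mul hb hT)
      rw [map_one, ← hp] at h2
      have := hdvd (n + m) (by omega) h2.symm
      exact_mod_cast this
    · intro l a ha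
      obtain ⟨n, hn, rfl⟩ := cas_nat hT ha (hA _)
      have h2 := cas_eig hT hC (⟨DihedralGroup.r k, hkm⟩ : inert G W)
        (algebraMap A FA (tt l)) 1 (by
          change (DihedralGroup.r k : G) • algebraMap A FA (tt l) = _
          rw [cas_smul, act_tt_r, map_one, one_mul]) n ha
      rw [map_one, ← hp] at h2
      exact_mod_cast hdvd n hn h2.symm
  · push Not at hrot
    by_cases href : ∃ k : ZMod 241, (DihedralGroup.sr k : G) ∈ inert G W
    · right; right
      obtain ⟨k, hk⟩ := href
      refine ⟨?_, k, ?_⟩
      · have hset : (inert G W : Set G) = {1, DihedralGroup.sr k} := by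
          ext g
          rw [SetLike.mem_coe, Set.mem_insert_iff, Set.mem_singleton_iff]
          constructor
          · intro hg
            rcases g with j | j
            · left
              by_cases hj : j = 0
              · rw [hj]; rfl
              · exact absurd hg (hrot j hj)
            · right
              have h := (inert G W).mul_mem hk hg
              rw [DihedralGroup.sr_mul_sr] at h
              have hj : j - k = 0 := by
                by_contra hne
                exact hrot _ hne h
              rw [sub_eq_zero.1 hj]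
          · rintro (rfl | rfl)
            · exact (inert G W).one_mem
            · exact hk
        have h1 : Nat.card (inert G W) = (inert G W : Set G).ncard := rfl
        rw [h1, hset]
        exact Set.ncard_pair (by
          rw [DihedralGroup.one_def]
          exact fun h => by cases h)
      · obtain ⟨p, hp⟩ : ∃ p, p = cas_rho hT (⟨DihedralGroup.sr k, hk⟩ : inert G W) := ⟨_, rfl⟩
        have hp2 : p * p = 1 := by
          have e5 : (⟨DihedralGroup.sr k, hk⟩ : inert G W) * ⟨DihedralGroup.sr k, hk⟩ = 1 := by
            apply Subtype.ext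
            change (DihedralGroup.sr k : G) * DihedralGroup.sr k = 1
            exact DihedralGroup.sr_mul_self k
          have e6 := congrArg (cas_rho hT) e5
          rw [map_mul, map_one, ← hp] at e6
          exact e6
        have hne1 : cas_cr hC (-1) ≠ 1 := by
          intro h
          have h2 : (-1 : ℂ) = 1 := hcrinj (by rw [h, map_one])
          norm_num at h2
        have hpm : p = -1 := by
          have hpne : p ≠ 1 := by
            intro h1
            obtain ⟨a, ha⟩ := exists_ordEq hT (cas_tt_ne 0)
            obtain ⟨n, hn, rfl⟩ := cas_nat hT ha (hA _)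
            have h2 := cas_eig hT hC (⟨DihedralGroup.sr k, hk⟩ : inert G W)
              (algebraMap A FA (tt 0)) (-1) (by
                change (DihedralGroup.sr k : G) • algebraMap A FA (tt 0) = _
                rw [cas_smul, act_tt_sr, map_neg, map_neg, map_one, neg_one_mul]) n ha
            rw [← hp, h1, one_pow] at h2
            exact hne1 h2
          have h3 : (p - 1) * (p + 1) = 0 := by linear_combination hp2
          rcases mul_eq_zero.1 h3 with h4 | h4
          · exact absurd (sub_eq_zero.1 h4) hpne
          · exact eq_neg_of_add_eq_zero_left h4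
        have hnon : ∀ v : Ix, algebraMap A FA (lin k v) ∈ W.nonunits := by
          have hcy : ∀ i : Fin 3, algebraMap A FA (C (chi (u i * k)) * yy i) ∈ W.nonunits := by
            intro i
            rw [map_mul, mul_comm, cas_C]
            exact nonunit_mul (hA _) (hC _)
          rintro (i | i | l)
          · change algebraMap A FA (xx i - C (chi (u i * k)) * yy i) ∈ _
            rw [map_sub]
            exact W.nonunits.sub_mem (hA _) (hcy i)
          · change algebraMap A FA (xx i + C (chi (u i * k)) * yy i) ∈ _
            rw [map_add]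
            exact W.nonunits.add_mem (hA _) (hcy i)
          · exact hA _
        intro v a ha
        obtain ⟨n, hn, rfl⟩ := cas_nat hT ha (hnon v)
        rcases v with i | i | l
        · change ((1 : ℕ) : ℤ) ≤ n
          exact_mod_cast hn
        · change ((2 : ℕ) : ℤ) ≤ n
          have h2 := cas_eig hT hC (⟨DihedralGroup.sr k, hk⟩ : inert G W)
            (algebraMap A FA (lin k (.inr (.inl i)))) 1 (by
              change (DihedralGroup.sr k : G) • algebraMap A FA (lin k (.inr (.inl i))) = _
              rw [cas_smul, cas_act_lin_inr, map_mul, cas_C]) n ha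
          rw [← hp, map_one, hpm] at h2
          have h3 : n ≠ 1 := by
            rintro rfl
            rw [pow_one] at h2
            apply hne1
            rw [map_neg, map_one]
            exact h2.symm
          exact_mod_cast (by omega : 2 ≤ n)
        · change ((1 : ℕ) : ℤ) ≤ n
          exact_mod_cast hn
    · left
      push Not at href
      have hbot : inert G W = ⊥ := by
        rw [Subgroup.eq_bot_iff_forall]
        intro g hg
        rcases g with j | j
        · by_cases hj : j = 0
          · rw [hj]; rfl
          · exact absurd hg (hrot j hj)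
        · exact absurd hg (href j)
      rw [hbot]
      exact Subgroup.card_bot

end H5ML
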