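import Pool.Agent.H5.ML.Base

/-!
# Calculus of orders with respect to a uniformizer
-/

namespace H5ML

variable {K : Type} [Field K] {O : ValuationSubring K} {t g h : K} {m n : ℤ}

theorem unit_mul {a b : K} (ha : a ∈ O) (ha' : a⁻¹ ∈ O) (hb : b ∈ O) (hb' : b⁻¹ ∈ O) :
    a * b ∈ O ∧ (a * b)⁻¹ ∈ O :=
  ⟨O.mul_mem _ _ ha hb, by rw [mul_inv]; exact O.mul_mem _ _ ha' hb'⟩

theorem IsUnif.pow_mem_iff (ht : IsUnif O t) (k : ℤ) : t ^ k ∈ O ↔ 0 ≤ k := by
  constructor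
  · intro hk
    by_contra hc
    push Not at hc
    apply ht.2.2.1
    obtain ⟨j, rfl⟩ : ∃ j : ℕ, k = -(j + 1 : ℕ) := ⟨(-k - 1).toNat, by omega⟩
    rw [zpow_neg, zpow_natCast] at hk
    have h1 : t⁻¹ = t ^ j * (t ^ (j + 1))⁻¹ := by
      field_simp [ht.1]
      ring
    rw [h1]
    exact O.mul_mem _ _ (pow_mem ht.2.1 j) hk
  · intro hk
    obtain ⟨j, rfl⟩ := Int.eq_ofNat_of_zero_le hk
    rw [zpow_natCast]
    exact pow_mem ht.2.1 j

theorem exists_ordEq (ht : IsUnif O t) (hh : h ≠ 0) : ∃ n, OrdEq O t h n := by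
  obtain ⟨n, h1, h2⟩ := ht.2.2.2 h hh
  exact ⟨-n, hh, by simpa using h1, by simpa using h2⟩

theorem OrdEq.mul (h1 : OrdEq O t g m) (h2 : OrdEq O t h n) (ht : IsUnif O t) :
    OrdEq O t (g * h) (m + n) := by
  have e : g * h * t ^ (-(m + n)) = (g * t ^ (-m)) * (h * t ^ (-n)) := by
    rw [neg_add, zpow_add₀ ht.1]
    ring
  refine ⟨mul_ne_zero h1.1 h2.1, ?_, ?_⟩
  · rw [e]
    exact (unit_mul h1.2.1 h1.2.2 h2.2.1 h2.2.2).1
  · rw [e]
    exact (unit_mul h1.2.1 h1.2.2 h2.2.1 h2.2.2).2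

theorem OrdEq.inv (h1 : OrdEq O t g m) : OrdEq O t g⁻¹ (-m) := by
  have e : g⁻¹ * t ^ (-(-m)) = (g * t ^ (-m))⁻¹ := by
    rw [mul_inv, ← zpow_neg]
  refine ⟨inv_ne_zero h1.1, ?_, ?_⟩
  · rw [e]
    exact h1.2.2
  · rw [e, inv_inv]
    exact h1.2.1

theorem ordEq_zero_iff : OrdEq O t h 0 ↔ h ≠ 0 ∧ h ∈ O ∧ h⁻¹ ∈ O := by
  simp [OrdEq]

theorem ordEq_one : OrdEq O t 1 0 := by
  rw [ordEq_zero_iff]
  exact ⟨one_ne_zero, O.one_mem, by rw [inv_one]; exact O.one_mem⟩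

theorem ordEq_zpow (ht : IsUnif O t) (k : ℤ) : OrdEq O t (t ^ k) k := by
  have e : t ^ k * t ^ (-k) = 1 := by rw [← zpow_add₀ ht.1]; simp
  refine ⟨zpow_ne_zero _ ht.1, ?_, ?_⟩
  · rw [e]; exact O.one_mem
  · rw [e, inv_one]; exact O.one_mem

theorem ordEq_self (ht : IsUnif O t) : OrdEq O t t 1 := by
  simpa using ordEq_zpow ht 1

theorem OrdEq.pow (h1 : OrdEq O t g m) (ht : IsUnif O t) (k : ℕ) :
    OrdEq O t (g ^ k) (k * m) := by
  induction k with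
  | zero => simpa using ordEq_one
  | succ k ih =>
    rw [pow_succ]
    have := ih.mul h1 ht
    push_cast
    rwa [add_mul, one_mul]

theorem OrdEq.zpow (h1 : OrdEq O t g m) (ht : IsUnif O t) (k : ℤ) :
    OrdEq O t (g ^ k) (k * m) := by
  obtain ⟨j, rfl | rfl⟩ := Int.eq_nat_or_neg k
  · rw [zpow_natCast]
    exact h1.pow ht j
  · rw [zpow_neg, zpow_natCast, neg_mul]
    exact (h1.pow ht j).inv

theorem OrdEq.prod (ht : IsUnif O t) {ι : Type} (s : Finset ι) (f : ι → K) (a : ι → ℤ)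
    (h : ∀ i ∈ s, OrdEq O t (f i) (a i)) : OrdEq O t (∏ i ∈ s, f i) (∑ i ∈ s, a i) := by
  classical
  induction s using Finset.induction_on with
  | empty => simpa using ordEq_one
  | insert i s hi ih =>
    rw [Finset.prod_insert hi, Finset.sum_insert hi]
    exact (h i (Finset.mem_insert_self _ _)).mul
      (ih fun j hj => h j (Finset.mem_insert_of_mem hj)) ht

theorem OrdEq.mem_iff (h1 : OrdEq O t h n) (ht : IsUnif O t) : h ∈ O ↔ 0 ≤ n := by
  have e : h = (h * t ^ (-n)) * t ^ n := by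
    rw [mul_assoc, ← zpow_add₀ ht.1]
    simp
  constructor
  · intro hh
    have : t ^ n ∈ O := by
      have e2 : t ^ n = h * (h * t ^ (-n))⁻¹ := by
        rw [mul_inv, ← mul_assoc, mul_inv_cancel₀ h1.1, one_mul, ← zpow_neg, neg_neg]
      rw [e2]
      exact O.mul_mem _ _ hh h1.2.2
    exact (ht.pow_mem_iff n).1 this
  · intro hn
    rw [e]
    exact O.mul_mem _ _ h1.2.1 ((ht.pow_mem_iff n).2 hn)

theorem OrdEq.mul_mem_iff (h1 : OrdEq O t h n) (ht : IsUnif O t) (k : ℤ) :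
    h * t ^ (-k) ∈ O ↔ k ≤ n := by
  rw [(h1.mul (ordEq_zpow ht (-k)) ht).mem_iff ht]
  omega

theorem OrdEq.unique (h1 : OrdEq O t h m) (h2 : OrdEq O t h n) (ht : IsUnif O t) : m = n := by
  have a := (h1.mul_mem_iff ht n).1 h2.2.1
  have b := (h2.mul_mem_iff ht m).1 h1.2.1
  omega

theorem OrdEq.nonunit_iff (h1 : OrdEq O t h n) (ht : IsUnif O t) : h ∈ O.nonunits ↔ 1 ≤ n := by
  rw [O.mem_nonunits_iff_or, h1.inv.mem_iff ht]
  constructor
  · rintro (h0 | h0)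
    · exact absurd h0 h1.1
    · omega
  · intro h0
    right
    omega

theorem OrdEq.isUnif_iff (h1 : OrdEq O t h n) (ht : IsUnif O t) : IsUnif O h ↔ n = 1 := by
  constructor
  · intro hh
    obtain ⟨k, hk⟩ := exists_ordEq hh ht.1
    have h2 := (ht.2.2.2 t ht.1)
    -- `t = unit * h ^ k`, so `1 = k * n`
    have h3 : OrdEq O t (t * h ^ (-k)) 0 := by
      rw [ordEq_zero_iff]
      exact ⟨mul_ne_zero ht.1 (zpow_ne_zero _ hh.1), hk.2.1, hk.2.2⟩
    have h4 := (ordEq_self ht).mul (h1.zpow ht (-k)) ht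
    have h5 : (1 : ℤ) + -k * n = 0 := h4.unique h3 ht
    have h6 : 1 ≤ n := by
      have := (h1.nonunit_iff ht).1 (by
        rw [O.mem_nonunits_iff_or]
        exact Or.inr hh.2.2.1)
      exact this
    have h7 : k * n = 1 := by linarith
    exact Int.eq_one_or_neg_one_of_mul_eq_one' h7 |>.elim (fun h => h.2) fun h => by omega
  · rintro rfl
    refine ⟨h1.1, (h1.mem_iff ht).2 (by norm_num), ?_, ?_⟩
    · rw [h1.inv.mem_iff ht]
      norm_num
    · intro g hg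
      obtain ⟨k, hk⟩ := exists_ordEq ht hg
      have h2 := hk.mul (h1.zpow ht (-k)) ht
      have h3 : k + -k * 1 = 0 := by ring
      rw [h3, ordEq_zero_iff] at h2
      exact ⟨-k, h2.2⟩

theorem OrdEq.congr_unif {t' : K} (h1 : OrdEq O t h n) (ht : IsUnif O t) (ht' : IsUnif O t') :
    OrdEq O t' h n := by
  obtain ⟨k, hk⟩ := exists_ordEq ht' h1.1
  obtain ⟨j, hj⟩ := exists_ordEq ht ht'.1
  have hj1 : j = 1 := (hj.isUnif_iff ht).1 ht'
  subst hj1
  -- `h = unit * t' ^ k`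
  have h2 : OrdEq O t (h * t' ^ (-k)) 0 := by
    rw [ordEq_zero_iff]
    exact ⟨mul_ne_zero h1.1 (zpow_ne_zero _ ht'.1), hk.2.1, hk.2.2⟩
  have h3 := (h1.mul (hj.zpow ht (-k)) ht).unique h2 ht
  have h4 : n = k := by omega
  rw [h4]
  exact hk

theorem ordGe_iff (ht : IsUnif O t) (k : ℕ) (h : K) : OrdGe O k h ↔ h * (t ^ k)⁻¹ ∈ O := by
  constructor
  · rintro ⟨t', ht', hh⟩
    rcases eq_or_ne h 0 with rfl | h0
    · rw [zero_mul]
      exact O.zero_mem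
    · obtain ⟨n, hn⟩ := exists_ordEq ht' h0
      have h1 := (hn.mul_mem_iff ht' k).1 (by rwa [zpow_neg, zpow_natCast])
      have h2 := ((hn.congr_unif ht' ht).mul_mem_iff ht k).2 h1
      rwa [zpow_neg, zpow_natCast] at h2
  · intro hh
    exact ⟨t, ht, hh⟩

theorem OrdEq.ordGe_iff (h1 : OrdEq O t h n) (ht : IsUnif O t) (k : ℕ) :
    OrdGe O k h ↔ (k : ℤ) ≤ n := by
  rw [H5ML.ordGe_iff ht, ← zpow_natCast, ← zpow_neg, h1.mul_mem_iff ht]

theorem OrdEq.unit_mul (h1 : OrdEq O t g m) (hh : h ≠ 0) (ho : h ∈ O) (ho' : h⁻¹ ∈ O)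
    (ht : IsUnif O t) : OrdEq O t (h * g) m := by
  have h2 : OrdEq O t h 0 := ordEq_zero_iff.2 ⟨hh, ho, ho'⟩
  have := h2.mul h1 ht
  rwa [zero_add] at this

theorem OrdEq.of_ne_zero_of_const [Algebra ℂ K] (hC : ∀ c : ℂ, algebraMap ℂ K c ∈ O) (c : ℂ)
    (hc : c ≠ 0) : OrdEq O t (algebraMap ℂ K c) 0 := by
  rw [ordEq_zero_iff]
  refine ⟨by simpa using hc, hC c, ?_⟩
  rw [← map_inv₀]
  exact hC _

/-- Ultrametric inequality in the form used below. -/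
theorem ordGe_sum {ι : Type} (s : Finset ι) (f : ι → K) (k : ℤ)
    (h : ∀ i ∈ s, f i * t ^ (-k) ∈ O) : (∑ i ∈ s, f i) * t ^ (-k) ∈ O := by
  rw [Finset.sum_mul]
  exact sum_mem h

/-- A sum `g + h` with `ord g = m` and `h` of larger order has order `m`. -/
theorem OrdEq.add (h1 : OrdEq O t g m) (ht : IsUnif O t) (h2 : h * t ^ (-(m + 1)) ∈ O) :
    OrdEq O t (g + h) m := by
  have e : h * t ^ (-m) = (h * t ^ (-(m + 1))) * t := by
    rw [mul_assoc, ← zpow_add_one₀ ht.1]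
    congr 2
    ring
  have hn : h * t ^ (-m) ∈ O.nonunits := by
    rw [e, mul_comm]
    refine nonunit_mul ?_ h2
    rw [O.mem_nonunits_iff_or]
    exact Or.inr ht.2.2.1
  have hu : O.valuation (g * t ^ (-m)) = 1 := by
    have : IsUnit (⟨g * t ^ (-m), h1.2.1⟩ : O) := by
      rw [isUnit_iff_exists_inv]
      refine ⟨⟨_, h1.2.2⟩, ?_⟩
      ext
      change g * t ^ (-m) * (g * t ^ (-m))⁻¹ = 1
      exact mul_inv_cancel₀ (mul_ne_zero h1.1 (zpow_ne_zero _ ht.1))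
    exact (O.valuation_eq_one_iff _).1 this
  have hv : O.valuation (g * t ^ (-m) + h * t ^ (-m)) = 1 := by
    rw [O.mem_nonunits_iff] at hn
    rw [Valuation.map_add_eq_of_lt_left _ (by rw [hu]; exact hn), hu]
  have hne : g * t ^ (-m) + h * t ^ (-m) ≠ 0 := by
    intro h0
    rw [h0, map_zero] at hv
    exact zero_ne_one hv
  rw [← add_mul] at hv hne
  refine ⟨fun h0 => hne (by rw [h0, zero_mul]), ?_, ?_⟩
  · rw [← O.valuation_le_one_iff, hv]
  · rw [← O.valuation_le_one_iff, map_inv₀, hv, inv_one]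

end H5ML
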