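import Pool.Agent.H5.ML.Coo
import Pool.Agent.H5.ML.Ord

/-!
# CEN: centres of valuation rings of `FA` over invariants
-/

namespace H5ML

open MvPolynomial

theorem cen_integral (a : A) : IsIntegral R a := by
  haveI : Algebra.IsInvariant R A G := ⟨fun b hb => exists_R b hb⟩
  have h := Algebra.IsInvariant.isIntegral R A G
  exact h.isIntegral a

/-- Proof. `A` is integral over `R` (every `a` is a root of the monic polynomial
`∏_g (X - g • a)` with coefficients in `R`; `Algebra.IsInvariant.isIntegral` or
`isGaloisGroup_R` of `Inv.lean`, or directly: `ℂ`, the `t_l` (`t_l² ∈ R`), and the `x_i`, `y_i`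
(roots of `Z^482 - (x_i^241 + y_i^241) Z^241 + (x_i y_i)^241`) are integral over `R`), and `W` is
integrally closed. -/
theorem contains_A (W : ValuationSubring FA) (hW : ∀ r : R, algebraMap A FA (algebraMap R A r) ∈ W)
    (a : A) : algebraMap A FA a ∈ W := by
  let φ : R →+* W := ((algebraMap A FA).comp (algebraMap R A)).codRestrict W hW
  obtain ⟨p, hp, hpa⟩ := cen_integral a
  have h1 : IsIntegral W (algebraMap A FA a) := by
    refine ⟨p.map φ, hp.map φ, ?_⟩
    rw [Polynomial.eval₂_map]
    have h2 : (algebraMap W FA).comp φ = (algebraMap A FA).comp (algebraMap R A) := rfl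
    rw [h2, ← Polynomial.hom_eval₂, hpa, map_zero]
  obtain ⟨y, hy⟩ := IsIntegrallyClosed.isIntegral_iff.mp h1
  rw [← hy]
  exact y.2

theorem cen_pow {F : Type} [Field F] (W : ValuationSubring F) {y : F} {n : ℕ}
    (h : y ^ n ∈ W.nonunits) : y ∈ W.nonunits := by
  rw [W.mem_nonunits_iff] at h ⊢
  rw [map_pow] at h
  by_contra hc
  push Not at hc
  exact absurd h (not_lt.mpr (one_le_pow₀ hc))

theorem cen_chi (a : ZMod 241) : chi a ^ 241 = 1 := by
  have h : ∀ n : ℕ, chi a ^ n = chi (n * a) := by
    intro n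
    induction n with
    | zero => simp [chi_zero]
    | succ n ih =>
      rw [pow_succ, ih, ← chi_add]
      congr 1
      push_cast
      ring
  rw [h]
  have h2 : ((241 : ℕ) : ZMod 241) = 0 := by decide
  rw [h2, zero_mul, chi_zero]

theorem cen_inv (a : A) (h0 : constantCoeff a = 0) (ha : ∀ g : G, act g a = a)
    (W : ValuationSubring FA)
    (hx : ∀ r ∈ x0, algebraMap A FA (algebraMap R A r) ∈ W.nonunits) :
    algebraMap A FA a ∈ W.nonunits := by
  obtain ⟨r, hr⟩ := exists_R a (fun g => by rw [smul_eq]; exact ha g)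
  have h1 : r ∈ x0 := by
    show constantCoeff (algebraMap R A r) = 0
    rw [hr, h0]
  have := hx r h1
  rwa [hr] at this

/-- Proof. `t_l ^ 2` is invariant without constant term, so `t_l ^ 2 ∈ W.nonunits` and
`t_l ∈ W.nonunits`. `x_i y_i` and `x_i^241 + y_i^241` are invariant without constant term and
`(x_i^241)^2 = (x_i^241 + y_i^241) x_i^241 - (x_i y_i)^241` is a nonunit, so `x_i` is a nonunit
(it lies in `W` by `contains_A`); the same for `y_i`. -/
theorem centre_A (W : ValuationSubring FA) (hW : ∀ r : R, algebraMap A FA (algebraMap R A r) ∈ W)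
    (hx : ∀ r ∈ x0, algebraMap A FA (algebraMap R A r) ∈ W.nonunits) (v : Ix) :
    algebraMap A FA (X v) ∈ W.nonunits := by
  have hC : ∀ (c : ℂ), (C c : A) ^ 241 = C (c ^ 241) := fun c => (C_pow c 241).symm
  have hp : ∀ i, algebraMap A FA (xx i ^ 241 + yy i ^ 241) ∈ W.nonunits := by
    intro i
    apply cen_inv _ _ _ W hx
    · simp [xx, yy]
    · rintro (k | k)
      · rw [map_add, map_pow, map_pow, act_xx_r, act_yy_r, mul_pow, mul_pow, hC, hC, cen_chi,
          cen_chi, C_1, one_mul, one_mul]
      · rw [map_add, map_pow, map_pow, act_xx_sr, act_yy_sr, mul_pow, mul_pow, hC, hC, cen_chi,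
          cen_chi, C_1, one_mul, one_mul, add_comm]
  have hs : ∀ i, algebraMap A FA (xx i * yy i) ∈ W.nonunits := by
    intro i
    apply cen_inv _ _ _ W hx
    · simp [xx, yy]
    · rintro (k | k)
      · rw [map_mul, act_xx_r, act_yy_r]
        have h1 : (C (chi (u i * k)) * C (chi (-(u i * k))) : A) = 1 := by
          rw [← C_mul, mul_comm, chi_neg_mul, C_1]
        linear_combination (xx i * yy i) * h1
      · rw [map_mul, act_xx_sr, act_yy_sr]
        have h1 : (C (chi (u i * k)) * C (chi (-(u i * k))) : A) = 1 := by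
          rw [← C_mul, mul_comm, chi_neg_mul, C_1]
        linear_combination (xx i * yy i) * h1
  have key : ∀ a b : A, algebraMap A FA (a ^ 241 + b ^ 241) ∈ W.nonunits →
      algebraMap A FA (a * b) ∈ W.nonunits → algebraMap A FA a ∈ W.nonunits := by
    intro a b h1 h2
    have h3 : algebraMap A FA ((a ^ 241 + b ^ 241) * a ^ 241) ∈ W.nonunits := by
      rw [map_mul]
      exact nonunit_mul h1 (contains_A W hW _)
    have h4 : algebraMap A FA ((a * b) ^ 241) ∈ W.nonunits := by
      rw [pow_succ', map_mul]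
      exact nonunit_mul h2 (contains_A W hW _)
    have h5 : algebraMap A FA (a ^ 482) ∈ W.nonunits := by
      have h6 : (a ^ 482 : A) = (a ^ 241 + b ^ 241) * a ^ 241 - (a * b) ^ 241 := by ring
      rw [h6, map_sub, sub_eq_add_neg]
      exact W.nonunits.add_mem h3 (W.nonunits.neg_mem h4)
    rw [map_pow] at h5
    exact cen_pow W h5
  rcases v with i | i | l
  · exact key (xx i) (yy i) (hp i) (hs i)
  · refine key (yy i) (xx i) ?_ ?_
    · rw [add_comm]; exact hp i
    · rw [mul_comm]; exact hs i
  · have h1 : algebraMap A FA (tt l ^ 2) ∈ W.nonunits := by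
      apply cen_inv _ _ _ W hx
      · simp [tt]
      · rintro (k | k)
        · rw [map_pow, act_tt_r]
        · rw [map_pow, act_tt_sr, neg_sq]
    rw [map_pow] at h1
    exact cen_pow W h1

end H5ML
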