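import Pool.Agent.H5.ML.Frame

/-!
# EQC: the case of equality
-/

namespace H5ML

variable {M : Type} [Field M] [Algebra ℂ M]

/-- Chain rule for a derivation and a polynomial. -/
theorem eqc_chain {n : ℕ} (D : Derivation ℂ M M) (η : Fin n → M) (P : MvPolynomial (Fin n) ℂ) :
    D (MvPolynomial.aeval η P) = ∑ j, MvPolynomial.aeval η (MvPolynomial.pderiv j P) * D (η j) := by
  induction P using MvPolynomial.induction_on with
  | C c =>
    simp only [MvPolynomial.algHom_C, MvPolynomial.pderiv_C, map_zero, zero_mul,
      Finset.sum_const_zero]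
    exact D.map_algebraMap c
  | add p q hp hq =>
    simp only [map_add, hp, hq, add_mul, Finset.sum_add_distrib]
  | mul_X p i hp =>
    have h1 : ∀ j, MvPolynomial.aeval η (MvPolynomial.pderiv j (p * MvPolynomial.X i)) * D (η j)
        = η i * (MvPolynomial.aeval η (MvPolynomial.pderiv j p) * D (η j))
          + (if j = i then MvPolynomial.aeval η p * D (η i) else 0) := by
      intro j
      rw [MvPolynomial.pderiv_mul, map_add, map_mul, map_mul, MvPolynomial.aeval_X]
      by_cases h : j = i
      · subst h
        rw [MvPolynomial.pderiv_X_self, map_one, if_pos rfl]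
        ring
      · rw [MvPolynomial.pderiv_X_of_ne (fun h' => h h'.symm), map_zero, if_neg h]
        ring
    simp_rw [h1]
    rw [Finset.sum_add_distrib, ← Finset.mul_sum, ← hp, Finset.sum_ite_eq' Finset.univ i,
      if_pos (Finset.mem_univ i), map_mul, MvPolynomial.aeval_X, D.leibniz, smul_eq_mul, smul_eq_mul]
    ring

theorem eqc_deg {n : ℕ} (P : MvPolynomial (Fin n) ℂ) (i : Fin n)
    (h : MvPolynomial.pderiv i P ≠ 0) :
    (MvPolynomial.pderiv i P).totalDegree < P.totalDegree := by
  have key : ∀ m ∈ (MvPolynomial.pderiv i P).support, (m.sum fun _ e => e) < P.totalDegree := by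
    intro m hm
    rw [MvPolynomial.mem_support_iff, MvPolynomial.coeff_pderiv] at hm
    have h1 : m + Finsupp.single i 1 ∈ P.support := by
      rw [MvPolynomial.mem_support_iff]
      exact left_ne_zero_of_mul hm
    have h2 := MvPolynomial.le_totalDegree h1
    rw [Finsupp.sum_add_index' (fun _ => rfl) (fun _ _ _ => rfl), Finsupp.sum_single_index rfl] at h2
    omega
  obtain ⟨m, hm⟩ := MvPolynomial.support_nonempty.2 h
  unfold MvPolynomial.totalDegree
  rw [Finset.sup_lt_iff]
  · exact key
  · have := key m hm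
    exact lt_of_le_of_lt (Nat.zero_le _) this

theorem eqc_const {n : ℕ} (P : MvPolynomial (Fin n) ℂ)
    (h : ∀ i, MvPolynomial.pderiv i P = 0) : P = MvPolynomial.C (MvPolynomial.coeff 0 P) := by
  ext m
  rw [MvPolynomial.coeff_C]
  by_cases hm : m = 0
  · subst hm
    simp
  · rw [if_neg (fun h' => hm h'.symm)]
    obtain ⟨i, hi⟩ : ∃ i, m i ≠ 0 := by
      by_contra hc
      push Not at hc
      exact hm (Finsupp.ext hc)
    have h1 : (m - Finsupp.single i 1) + Finsupp.single i 1 = m := by
      apply tsub_add_cancel_of_le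
      rw [Finsupp.single_le_iff]
      omega
    have h2 := MvPolynomial.coeff_pderiv (i := i) P (m - Finsupp.single i 1)
    rw [h i, h1, MvPolynomial.coeff_zero] at h2
    rcases mul_eq_zero.1 h2.symm with h3 | h3
    · exact h3
    · exfalso
      norm_cast at h3

omit [Algebra ℂ M] in
theorem eqc_unit_of_not {W : ValuationSubring M} {x : M} (hx : x ∈ W) (h : x ∉ W.nonunits) :
    x ≠ 0 ∧ x ∈ W ∧ x⁻¹ ∈ W := by
  rw [W.mem_nonunits_iff_or] at h
  push Not at h
  exact ⟨h.1, hx, h.2⟩

theorem eqc_aeval_mem {n : ℕ} {W : ValuationSubring M} (hC : ∀ c : ℂ, algebraMap ℂ M c ∈ W)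
    (η : Fin n → M) (hη : ∀ j, η j ∈ W) (P : MvPolynomial (Fin n) ℂ) :
    MvPolynomial.aeval η P ∈ W := by
  induction P using MvPolynomial.induction_on with
  | C c =>
    rw [MvPolynomial.algHom_C]
    exact hC c
  | add p q hp hq =>
    rw [map_add]
    exact W.add_mem _ _ hp hq
  | mul_X p i hp =>
    rw [map_mul, MvPolynomial.aeval_X]
    exact W.mul_mem _ _ hp (hη i)

/-- Proof. By the computation in `lb` (which gives `jac D ζ * T ^ (1 - ∑ a j) = unit * det N`) the
determinant of `N` is a unit of `W`. Here `ζ 0 = T`, `a 0 = 1`, `ε 0 = 1`, so the row `j = 0` of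
`N` is `(1, 0, …, 0)` and `det N = det N'`, `N' j i = D (i + 1) (ε (j + 1)) / ε (j + 1)` for
`i, j : Fin n`. Suppose `ResIndep` fails for `η j = ζ (j + 1) * T ^ (- a (j + 1)) = ε (j + 1)`
(units of `W`): the values `P (η)` lie in `W` (constants are in `W`), so there is `P ≠ 0` with
`P (η)` a nonunit (zero or with inverse not in `W`, i.e. `P (η) ∈ W.nonunits`). Choose such a `P`
of minimal total degree. For `i ≥ 1` the derivation `D i` maps `W.nonunits = T W` to itself
(`D i (T h) = T D i h`), so `D i (P (η)) = ∑_j (∂_j P) (η) * D i (η j) ∈ W.nonunits`. Since the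
matrix `(D i (η j))` has a unit determinant (it is `N'` with rows multiplied by the units `η j`),
multiplying by its adjugate gives `(∂_j P) (η) ∈ W.nonunits` for all `j`; by minimality
`∂_j P = 0` for all `j`, so `P` is a constant (characteristic zero), nonzero, and its value is a
unit: contradiction. -/
theorem eqc {n : ℕ} {W : ValuationSubring M} {T : M} {D : Fin (n + 1) → Derivation ℂ M M}
    (hD : IsFrame W T D) (ζ : Fin (n + 1) → M) (h0 : ζ 0 = T) (a : Fin (n + 1) → ℤ)
    (ha : ∀ j, OrdEq W T (ζ j) (a j)) (hJ : OrdEq W T (jac D ζ) (∑ j, a j - 1)) :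
    ResIndep W fun j : Fin n => ζ j.succ * T ^ (-a j.succ) := by
  obtain ⟨hT, hDW, y, hy, hdual⟩ := hD
  have hC := hy.const_mem
  set η : Fin n → M := fun j => ζ j.succ * T ^ (-a j.succ) with hη
  have hT0 : T ≠ 0 := hT.1
  have ha0 : a 0 = 1 := by
    have := ha 0
    rw [h0] at this
    exact this.unique (ordEq_self hT) hT
  have hDT : ∀ i : Fin n, D i.succ T = 0 := by
    intro i
    have := hdual i.succ 0
    rwa [Fin.cons_zero, if_neg (Fin.succ_ne_zero i)] at this
  have hD0T : ∀ i : Fin (n + 1), D i T = if i = 0 then 1 else 0 := by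
    intro i
    have := hdual i 0
    rwa [Fin.cons_zero] at this
  have hηW : ∀ j, η j ∈ W := fun j => (ha j.succ).2.1
  have hDz : ∀ (i : Fin n) (k : ℤ), D i.succ (T ^ k) = 0 := by
    intro i k
    rw [Derivation.leibniz_zpow, hDT i]
    simp
  have hζη : ∀ j : Fin n, ζ j.succ = T ^ (a j.succ) * η j := by
    intro j
    simp only [hη]
    rw [mul_comm (ζ j.succ), ← mul_assoc, ← zpow_add₀ hT0]
    simp
  -- the matrix
  set B : Matrix (Fin n) (Fin n) M := Matrix.of fun j i => D i.succ (η j) with hB
  have hdet : jac D ζ = (∏ j : Fin n, T ^ (a j.succ)) * B.det := by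
    unfold jac
    rw [Matrix.det_succ_row_zero, Fin.sum_univ_succ]
    have hz : ∀ i : Fin n, (Matrix.of fun j i => D i (ζ j)) 0 i.succ = 0 := by
      intro i
      rw [Matrix.of_apply, h0, hDT]
    have ho : (Matrix.of fun j i => D i (ζ j)) 0 0 = (1 : M) := by
      rw [Matrix.of_apply, h0, hD0T, if_pos rfl]
    simp_rw [hz, ho]
    simp only [mul_zero, zero_mul, Finset.sum_const_zero, add_zero, Fin.val_zero, pow_zero, one_mul]
    have hsub : (Matrix.of fun j i => D i (ζ j)).submatrix Fin.succ (Fin.succAbove 0)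
        = Matrix.of fun j i => (T ^ (a (Fin.succ j))) * B j i := by
      ext j i
      rw [Matrix.submatrix_apply, Matrix.of_apply, Matrix.of_apply, hB, Matrix.of_apply,
        Fin.succAbove_zero, hζη j, (D i.succ).leibniz, hDz, smul_zero, add_zero, smul_eq_mul]
    rw [hsub, Matrix.det_mul_column]
  have hBord : OrdEq W T B.det 0 := by
    have h1 : OrdEq W T (∏ j : Fin n, T ^ (a j.succ)) (∑ j : Fin n, a j.succ) :=
      OrdEq.prod hT _ _ _ fun j _ => ordEq_zpow hT _
    have h2 : B.det = (∏ j : Fin n, T ^ (a j.succ))⁻¹ * jac D ζ := by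
      rw [hdet, ← mul_assoc, inv_mul_cancel₀ h1.1, one_mul]
    rw [h2]
    have h3 := h1.inv.mul hJ hT
    have h4 : -(∑ j : Fin n, a j.succ) + (∑ j, a j - 1) = 0 := by
      rw [Fin.sum_univ_succ, ha0]
      ring
    rwa [h4] at h3
  obtain ⟨hB0, hBW, hBW'⟩ := ordEq_zero_iff.1 hBord
  have hBent : ∀ j i, B j i ∈ W := fun j i => hDW _ _ (hηW j)
  -- nonunits are stable under the `D i`
  have hTn : T ∈ W.nonunits := by
    rw [W.mem_nonunits_iff_or]
    exact Or.inr hT.2.2.1
  have hDn : ∀ (i : Fin n) (x : M), x ∈ W.nonunits → D i.succ x ∈ W.nonunits := by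
    intro i x hx
    rcases eq_or_ne x 0 with rfl | hx0
    · rw [map_zero]
      exact W.nonunits.zero_mem
    · obtain ⟨k, hk⟩ := exists_ordEq hT hx0
      have hk1 := (hk.nonunit_iff hT).1 hx
      have h1 : T⁻¹ * x ∈ W := by
        have := (ordEq_self hT).inv.mul hk hT
        rw [this.mem_iff hT]
        omega
      have h2 : x = T * (T⁻¹ * x) := by
        rw [← mul_assoc, mul_inv_cancel₀ hT0, one_mul]
      rw [h2, (D i.succ).leibniz, hDT, smul_zero, add_zero, smul_eq_mul]
      exact nonunit_mul hTn (hDW _ _ h1)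
  -- induction on the degree
  have key : ∀ d : ℕ, ∀ P : MvPolynomial (Fin n) ℂ, P.totalDegree = d → P ≠ 0 →
      MvPolynomial.aeval η P ∉ W.nonunits := by
    intro d
    induction d using Nat.strong_induction_on with
    | _ d ih =>
      intro P hPd hP hv
      -- `w j = (∂_j P)(η)`
      set w : Fin n → M := fun j => MvPolynomial.aeval η (MvPolynomial.pderiv j P) with hw
      have hwB : ∀ i : Fin n, Matrix.vecMul w B i ∈ W.nonunits := by
        intro i
        have h1 := hDn i _ hv
        rw [eqc_chain] at h1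
        exact h1
      have hadj : ∀ j i, B.adjugate j i ∈ W := by
        intro j i
        rw [Matrix.adjugate_apply]
        refine det_mem _ fun k l => ?_
        rw [Matrix.updateRow_apply]
        split_ifs
        · rw [Pi.single_apply]
          split_ifs
          · exact W.one_mem
          · exact W.zero_mem
        · exact hBent k l
      have hwn : ∀ j, w j ∈ W.nonunits := by
        intro j
        have h1 : Matrix.vecMul (Matrix.vecMul w B) B.adjugate = B.det • w := by
          rw [Matrix.vecMul_vecMul, Matrix.mul_adjugate, Matrix.vecMul_smul, Matrix.vecMul_one]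
        have h2 : B.det * w j ∈ W.nonunits := by
          have h3 := congrFun h1 j
          rw [Pi.smul_apply, smul_eq_mul] at h3
          rw [← h3]
          have h5 : Matrix.vecMul (Matrix.vecMul w B) B.adjugate j
              = ∑ i, Matrix.vecMul w B i * B.adjugate i j := rfl
          rw [h5]
          exact sum_mem fun i _ => nonunit_mul (hwB i) (hadj i j)
        have h4 : w j = (B.det * w j) * B.det⁻¹ := by
          field_simp
        rw [h4]
        exact nonunit_mul h2 hBW'
      have hp0 : ∀ j, MvPolynomial.pderiv j P = 0 := by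
        intro j
        by_contra hne
        have hlt := eqc_deg P j hne
        rw [hPd] at hlt
        exact ih _ hlt _ rfl hne (hwn j)
      have hPc := eqc_const P hp0
      have hc0 : MvPolynomial.coeff 0 P ≠ 0 := by
        intro h
        rw [h, map_zero] at hPc
        exact hP hPc
      rw [hPc, MvPolynomial.algHom_C, W.mem_nonunits_iff_or] at hv
      rcases hv with hv | hv
      · exact hc0 (by simpa using hv)
      · apply hv
        have : (algebraMap ℂ M (MvPolynomial.coeff 0 P))⁻¹
            = algebraMap ℂ M (MvPolynomial.coeff 0 P)⁻¹ := (map_inv₀ _ _).symm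
        rw [this]
        exact hC _
  intro P hP
  exact eqc_unit_of_not (eqc_aeval_mem hC η hηW P) (key _ P rfl hP)

end H5ML
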