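import Pool.Agent.H5.ML.Frame

/-!
# PULL: the form `dζ` descends to the invariants
-/

open scoped TensorProduct

namespace H5ML

/-- The form `ω` on `K` pulls back to `dζ_1 ∧ ⋯ ∧ dζ_N` on `F`. -/
def IsPull {K F : Type} [Field K] [Field F] [Algebra ℂ K] [Algebra ℂ F] [Algebra K F]
    [IsScalarTower ℂ K F] {N : ℕ} (ζ : Fin N → F) (ω : ⋀[K]^N Ω[K⁄ℂ]) : Prop :=
  ∀ D : Fin N → Derivation ℂ F F, detFun D ω = jac D ζ

theorem pull_exists_tb {K : Type} [Field K] [Algebra ℂ K] {N : ℕ} (hK : Algebra.trdeg ℂ K = N) :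
    ∃ z : Fin N → K, AlgebraicIndependent ℂ z := by
  obtain ⟨s, hs⟩ := exists_isTranscendenceBasis ℂ K
  have h1 := hs.cardinalMk_eq_trdeg
  rw [hK] at h1
  have h2 : Nonempty (Fin N ≃ s) := by
    rw [← Cardinal.eq, h1, Cardinal.mk_fin]
  obtain ⟨e⟩ := h2
  exact ⟨_, hs.1.comp e e.injective⟩

theorem pull_smul_const {K F : Type} [Field K] [Field F] [Algebra ℂ K] [Algebra ℂ F]
    [Algebra K F] [IsScalarTower ℂ K F] (G₀ : Type) [Group G₀] [MulSemiringAction G₀ F]
    [IsGaloisGroup G₀ K F] (g : G₀) (c : ℂ) : g • algebraMap ℂ F c = algebraMap ℂ F c := by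
  have := (IsGaloisGroup.commutes (G := G₀) (A := K) (B := F))
  rw [IsScalarTower.algebraMap_apply ℂ K F, smul_algebraMap]

theorem pull_smul_smul {K F : Type} [Field K] [Field F] [Algebra ℂ K] [Algebra ℂ F]
    [Algebra K F] [IsScalarTower ℂ K F] (G₀ : Type) [Group G₀] [MulSemiringAction G₀ F]
    [IsGaloisGroup G₀ K F] (g : G₀) (c : ℂ) (x : F) : g • (c • x) = c • (g • x) := by
  rw [Algebra.smul_def, Algebra.smul_def, smul_mul', pull_smul_const (K := K)]

/-- The conjugate derivation. -/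
noncomputable def pullConj {K F : Type} [Field K] [Field F] [Algebra ℂ K] [Algebra ℂ F]
    [Algebra K F] [IsScalarTower ℂ K F] (G₀ : Type) [Group G₀] [MulSemiringAction G₀ F]
    [IsGaloisGroup G₀ K F] (g : G₀) (D : Derivation ℂ F F) : Derivation ℂ F F :=
  Derivation.mk'
    { toFun := fun h => g • D (g⁻¹ • h)
      map_add' := fun a b => by rw [smul_add, map_add, smul_add]
      map_smul' := fun c a => by
        rw [pull_smul_smul (K := K), D.map_smul, pull_smul_smul (K := K), RingHom.id_apply] }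
    fun a b => by
      simp only [LinearMap.coe_mk, AddHom.coe_mk]
      rw [smul_mul', D.leibniz, smul_eq_mul, smul_eq_mul, smul_add, smul_mul', smul_mul',
        smul_inv_smul, smul_inv_smul, smul_eq_mul, smul_eq_mul]

theorem pullConj_apply {K F : Type} [Field K] [Field F] [Algebra ℂ K] [Algebra ℂ F]
    [Algebra K F] [IsScalarTower ℂ K F] (G₀ : Type) [Group G₀] [MulSemiringAction G₀ F]
    [IsGaloisGroup G₀ K F] (g : G₀) (D : Derivation ℂ F F) (h : F) :
    pullConj (K := K) G₀ g D h = g • D (g⁻¹ • h) := rfl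

/-- Proof. Let `z : Fin N → K` be a transcendence basis of `K` over `ℂ` (`trdeg K = N` since
`F / K` is algebraic, or the hypothesis `hK`); its image in `F` is algebraically independent, and
a transcendence basis of `F`. Let `∂` be the derivations of `F` dual to `ζ` (`exists_dual`) and
`E` those dual to `z` (`exists_dual`). Put `J = jac ∂ z`. By `jac_mul` (chain rule)
`1 = jac E z = jac E ζ * jac ∂ z`, so `J ≠ 0`. `J` is `G`-invariant: for `g ∈ G` let `∂^g_i` be
the derivation `h ↦ g • ∂ i (g⁻¹ • h)` (`G` fixes `K ⊇ ℂ`, so it is a `ℂ`-derivation). As `z` is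
fixed, `g • J = jac ∂^g z = jac ∂^g ζ * jac ∂ z` by the chain rule, and
`∂^g_i (ζ_j) = g • ∂ i (g⁻¹ • ζ j) = g • (m j i) = m j i` for `g⁻¹ • ζ j = ∑ m j l ζ l`, so
`jac ∂^g ζ = det m = 1`. Hence `J = algebraMap K F c` with `c ∈ K` (`IsGaloisGroup`,
`Algebra.IsInvariant.isInvariant`), `c ≠ 0`. Put `ω = c⁻¹ • dwedge z`. By `detFun_dwedge`,
`detFun D ω = J⁻¹ * jac D z = J⁻¹ * (jac D ζ * jac ∂ z) = jac D ζ`. `ω ≠ 0` because
`detFun ∂ ω = jac ∂ ζ = 1`. -/
theorem exists_pull {K F : Type} [Field K] [Field F] [Algebra ℂ K] [Algebra ℂ F] [Algebra K F]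
    [IsScalarTower ℂ K F] (G₀ : Type) [Group G₀] [Finite G₀] [MulSemiringAction G₀ F]
    [IsGaloisGroup G₀ K F] {N : ℕ} (hK : Algebra.trdeg ℂ K = N)
    (hF : Algebra.trdeg ℂ F = N) (hFf : Algebra.EssFiniteType ℂ F)
    (ζ : Fin N → F) (hζ : AlgebraicIndependent ℂ ζ)
    (hG : ∀ g : G₀, ∃ m : Matrix (Fin N) (Fin N) ℂ, m.det = 1 ∧
      ∀ j, g • ζ j = ∑ l, m j l • ζ l) :
    ∃ ω : ⋀[K]^N Ω[K⁄ℂ], ω ≠ 0 ∧ IsPull ζ ω := by
  obtain ⟨z, hz⟩ := pull_exists_tb hK
  have hzF : AlgebraicIndependent ℂ fun j => algebraMap K F (z j) :=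
    hz.map' (f := IsScalarTower.toAlgHom ℂ K F) (algebraMap K F).injective
  have halgz := (tb_fin hFf hF _ hzF).1
  have halg := (tb_fin hFf hF _ hζ).1
  obtain ⟨P, hP⟩ := exists_dual ζ hζ halg
  obtain ⟨E, hE⟩ := exists_dual (fun j => algebraMap K F (z j)) hzF halgz
  set J := jac P fun j => algebraMap K F (z j) with hJ
  have hJ0 : J ≠ 0 := by
    have h1 := jac_mul ζ hζ halg P hP E fun j => algebraMap K F (z j)
    rw [jac_dual _ E hE] at h1
    exact right_ne_zero_of_mul_eq_one h1.symm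
  have hcomm := (IsGaloisGroup.commutes (G := G₀) (A := K) (B := F))
  have hJinv : ∀ g : G₀, g • J = J := by
    intro g
    have h1 := jac_mul ζ hζ halg P hP (fun i => pullConj (K := K) G₀ g (P i))
      fun j => algebraMap K F (z j)
    have h2 : jac (fun i => pullConj (K := K) G₀ g (P i)) (fun j => algebraMap K F (z j)) =
        g • J := by
      have h3 := RingHom.map_det (MulSemiringAction.toRingHom G₀ F g)
        (Matrix.of fun j i => P i (algebraMap K F (z j)))
      rw [MulSemiringAction.toRingHom_apply] at h3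
      rw [hJ]
      unfold jac
      rw [h3]
      congr 1
      ext j i
      rw [Matrix.of_apply, pullConj_apply, smul_algebraMap]
      rfl
    have h4 : jac (fun i => pullConj (K := K) G₀ g (P i)) ζ = 1 := by
      obtain ⟨m, hm1, hm⟩ := hG g⁻¹
      have h5 : (Matrix.of fun j i => pullConj (K := K) G₀ g (P i) (ζ j)) =
          (algebraMap ℂ F).mapMatrix m := by
        ext j i
        rw [Matrix.of_apply, pullConj_apply, hm, map_sum]
        have h6 : ∀ l, P i (m j l • ζ l) = if i = l then algebraMap ℂ F (m j l) else 0 := by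
          intro l
          rw [(P i).map_smul, hP]
          split_ifs
          · rw [Algebra.smul_def, mul_one]
          · rw [smul_zero]
        simp_rw [h6]
        rw [Finset.sum_ite_eq, if_pos (Finset.mem_univ i), pull_smul_const (K := K)]
        rfl
      unfold jac
      rw [h5, ← RingHom.map_det, hm1, map_one]
    rw [h2, h4, one_mul] at h1
    exact h1
  obtain ⟨c, hc⟩ := (IsGaloisGroup.isInvariant (G := G₀) (A := K) (B := F)).isInvariant J hJinv
  have hc0 : c ≠ 0 := by
    rintro rfl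
    rw [map_zero] at hc
    exact hJ0 hc.symm
  have hpull : IsPull ζ (c⁻¹ • dwedge z) := by
    intro D
    rw [map_smul, detFun_dwedge, jac_mul ζ hζ halg P hP D fun j => algebraMap K F (z j), ← hJ,
      Algebra.smul_def, map_inv₀, hc]
    field_simp
  refine ⟨c⁻¹ • dwedge z, ?_, hpull⟩
  intro h0
  have h1 := hpull P
  rw [h0, map_zero, jac_dual ζ P hP] at h1
  exact zero_ne_one h1

end H5ML
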