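import Pool.Agent.H5.ML.Frame
import Pool.Agent.H5.ML.Pull

/-!
# EXA: existence and uniqueness of log discrepancies
-/

open scoped TensorProduct

namespace H5ML

variable {K : Type} [Field K] [Algebra ℂ K]

theorem exists_logDisc {n : ℕ} (hK : Algebra.EssFiniteType ℂ K)
    (htr : Algebra.trdeg ℂ K = (n + 1 : ℕ)) (O : ValuationSubring K) (hO : IsDiv n O)
    (ω : ⋀[K]^(n + 1) Ω[K⁄ℂ]) (hω : ω ≠ 0) : ∃ a : ℤ, HasLogDisc O ω a := by
  obtain ⟨⟨t, ht⟩, y, hy⟩ := hO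
  have hz := tb_indep ht hy
  have halg := (tb_fin hK htr _ hz).1
  obtain ⟨h, rfl⟩ := dwedge_span _ hz halg ω
  have hh : h ≠ 0 := by
    rintro rfl
    exact hω (zero_smul _ _)
  obtain ⟨m, hm⟩ := exists_ordEq ht hh
  refine ⟨m + 1, t, y, h * t ^ (-m), ht, hy, mul_ne_zero hh (zpow_ne_zero _ ht.1), hm.2.1,
    hm.2.2, ?_⟩
  congr 1
  rw [mul_assoc, ← zpow_add₀ ht.1]
  simp

/-- One inequality. -/
theorem exa_le {n : ℕ} (hK : Algebra.EssFiniteType ℂ K)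
    (htr : Algebra.trdeg ℂ K = (n + 1 : ℕ)) (O : ValuationSubring K)
    (ω : ⋀[K]^(n + 1) Ω[K⁄ℂ]) (a b : ℤ) (ha : HasLogDisc O ω a) (hb : HasLogDisc O ω b) :
    b ≤ a := by
  obtain ⟨t, y, ε, ht, hy, e0, e1, e2, rfl⟩ := ha
  obtain ⟨t', y', ε', ht', hy', e0', e1', e2', hω⟩ := hb
  obtain ⟨D, hDW, hD⟩ := exists_frame hK htr ht hy
  have h1 := congrArg (detFun (F := K) D) hω
  rw [map_smul, map_smul, detFun_dwedge, detFun_dwedge] at h1
  simp only [Algebra.algebraMap_self, RingHom.id_apply, smul_eq_mul] at h1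
  rw [jac_dual _ _ hD, mul_one] at h1
  have hJ : jac D (fun j => (Fin.cons t' y' : Fin (n + 1) → K) j) ∈ O := by
    refine det_mem _ fun j i => hDW i _ ?_
    refine Fin.cases ?_ (fun j => ?_) j
    · simpa using ht'.2.1
    · simpa using hy'.mem j
  have h2 : OrdEq O t (ε * t ^ (a - 1)) (a - 1) := (ordEq_zpow ht _).unit_mul e0 e1 e2 ht
  have h3 : OrdEq O t (ε' * t' ^ (b - 1)) (b - 1) :=
    ((ordEq_zpow ht' _).unit_mul e0' e1' e2' ht').congr_unif ht' ht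
  have hJ0 : jac D (fun j => (Fin.cons t' y' : Fin (n + 1) → K) j) ≠ 0 := by
    intro h
    rw [h, mul_zero] at h1
    exact h2.1 h1
  obtain ⟨k, hk⟩ := exists_ordEq ht hJ0
  have h4 := (hk.mem_iff ht).1 hJ
  have h5 := h3.mul hk ht
  rw [← h1] at h5
  have h6 := h2.unique h5 ht
  omega

theorem logDisc_unique {n : ℕ} (hK : Algebra.EssFiniteType ℂ K)
    (htr : Algebra.trdeg ℂ K = (n + 1 : ℕ)) (O : ValuationSubring K)
    (ω : ⋀[K]^(n + 1) Ω[K⁄ℂ]) (a b : ℤ) (ha : HasLogDisc O ω a) (hb : HasLogDisc O ω b) :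
    b = a :=
  le_antisymm (exa_le hK htr O ω a b ha hb) (exa_le hK htr O ω b a hb ha)

end H5ML
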