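import Pool.Agent.H5.ML.Ord

/-!
# EXT: extension of a discrete valuation ring to a Galois extension
-/

namespace H5ML

open WithZero IsDedekindDomain

section Dedekind

variable {B F : Type} [CommRing B] [IsDedekindDomain B] [Field F] [Algebra B F]
  [IsFractionRing B F] (v : HeightOneSpectrum B)

theorem ext_val_eq_exp {h : F} (hh : h ≠ 0) : ∃ n : ℤ, v.valuation F h = exp n := by
  have h0 : v.valuation F h ≠ 0 := by simpa using hh
  exact ⟨log (v.valuation F h), (exp_log h0).symm⟩

theorem ext_ordEq {T h : F} (hT : v.valuation F T = exp (-1 : ℤ)) {n : ℤ}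
    (hh : v.valuation F h = exp (-n)) : OrdEq (v.valuation F).valuationSubring T h n := by
  have hT0 : T ≠ 0 := by
    rintro rfl
    rw [map_zero] at hT
    exact exp_ne_zero hT.symm
  have h0 : h ≠ 0 := by
    rintro rfl
    rw [map_zero] at hh
    exact exp_ne_zero hh.symm
  have key : v.valuation F (h * T ^ (-n)) = 1 := by
    rw [map_mul, map_zpow₀, hT, hh, ← exp_zsmul, ← exp_add]
    simp
  refine ⟨h0, ?_, ?_⟩
  · rw [Valuation.mem_valuationSubring_iff, key]
  · rw [Valuation.mem_valuationSubring_iff, map_inv₀, key, inv_one]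

theorem ext_isUnif {T : F} (hT : v.valuation F T = exp (-1 : ℤ)) :
    IsUnif (v.valuation F).valuationSubring T := by
  have hT0 : T ≠ 0 := by
    rintro rfl
    rw [map_zero] at hT
    exact exp_ne_zero hT.symm
  refine ⟨hT0, ?_, ?_, ?_⟩
  · rw [Valuation.mem_valuationSubring_iff, hT, ← exp_zero, exp_le_exp]
    norm_num
  · rw [Valuation.mem_valuationSubring_iff, map_inv₀, hT, ← exp_neg, ← exp_zero, exp_le_exp]
    norm_num
  · intro h hh
    obtain ⟨n, hn⟩ := ext_val_eq_exp v hh
    have := (ext_ordEq v hT (n := -n) (by rw [hn, neg_neg])).2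
    rw [neg_neg] at this
    exact ⟨n, this⟩

/-- The inertia group of the localization at `v` in terms of the Dedekind domain. -/
theorem ext_inert (G₀ : Type) [Group G₀] [MulSemiringAction G₀ F] [MulSemiringAction G₀ B]
    [SMulDistribClass G₀ B F] (g : G₀) :
    g ∈ inert G₀ (v.valuation F).valuationSubring ↔ g ∈ v.asIdeal.inertia G₀ := by
  have hmem : ∀ b : B, algebraMap B F b ∈ (v.valuation F).valuationSubring.nonunits ↔
      b ∈ v.asIdeal := by
    intro b
    rw [← v.valuation_lt_one_iff_mem (K := F)]
    rw [ValuationSubring.mem_nonunits_iff_or]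
    rw [Valuation.mem_valuationSubring_iff, map_inv₀]
    rcases eq_or_ne (algebraMap B F b) 0 with h | h
    · simp [h]
    · have h0 : v.valuation F (algebraMap B F b) ≠ 0 := by simpa using h
      simp only [h, false_or, not_le]
      rw [one_lt_inv₀ (zero_lt_iff.2 h0)]
  have hsmul : ∀ b : B, algebraMap B F (g • b) = g • algebraMap B F b := fun b =>
    algebraMap.coe_smul' g b F
  have hB : ∀ b : B, algebraMap B F b ∈ (v.valuation F).valuationSubring := fun b => by
    rw [Valuation.mem_valuationSubring_iff]
    exact v.valuation_le_one b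
  constructor
  · intro hg b
    have := hg _ (hB b)
    rw [← hsmul, ← map_sub, hmem] at this
    exact this
  · intro hg h hh
    rw [Valuation.mem_valuationSubring_iff] at hh
    obtain ⟨b, s, hbs⟩ := v.exists_primeCompl_mul_eq_of_integer h hh
    have hg' : ∀ b : B, g • b - b ∈ v.asIdeal := hg
    have hs : (s : B) ∉ v.asIdeal := s.2
    have hgs : g • (s : B) ∉ v.asIdeal := by
      intro hc
      apply hs
      have := v.asIdeal.sub_mem hc (hg' s)
      simpa using this
    have hs0 : algebraMap B F s ≠ 0 := by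
      intro hc
      rw [FaithfulSMul.algebraMap_eq_zero_iff B F] at hc
      exact hs (hc ▸ v.asIdeal.zero_mem)
    have hgs0 : algebraMap B F (g • (s : B)) ≠ 0 := by
      intro hc
      rw [FaithfulSMul.algebraMap_eq_zero_iff B F] at hc
      exact hgs (hc ▸ v.asIdeal.zero_mem)
    have hh2 : h = algebraMap B F b / algebraMap B F s := by
      rw [eq_div_iff hs0, hbs]
    have hgh : g • h = algebraMap B F (g • b) / algebraMap B F (g • (s : B)) := by
      rw [hh2, smul_div₀', hsmul, hsmul]
    have hdiff : g • h - h = algebraMap B F (s * (g • b - b) - b * (g • (s : B) - s)) /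
        algebraMap B F (g • (s : B) * s) := by
      rw [hgh, hh2, div_sub_div _ _ hgs0 hs0]
      congr 1
      · rw [map_sub, map_mul, map_mul, map_sub, map_sub]
        ring
      · rw [map_mul]
    have hnum : s * (g • b - b) - b * (g • (s : B) - s) ∈ v.asIdeal :=
      v.asIdeal.sub_mem (v.asIdeal.mul_mem_left _ (hg' b)) (v.asIdeal.mul_mem_left _ (hg' s))
    have hden : g • (s : B) * s ∉ v.asIdeal := fun hc =>
      (v.isPrime.mem_or_mem hc).elim hgs hs
    have hden1 : v.valuation F (algebraMap B F (g • (s : B) * s)) = 1 := by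
      rw [v.valuation_of_algebraMap]
      exact (v.intValuation_eq_one_iff_mem_primeCompl _).2 hden
    rw [hdiff, div_eq_mul_inv]
    refine nonunit_mul ((hmem _).2 hnum) ?_
    rw [Valuation.mem_valuationSubring_iff, map_inv₀, hden1, inv_one]

end Dedekind

variable {K : Type} [Field K]

theorem ext_dvr {O : ValuationSubring K} {t : K} (ht : IsUnif O t) :
    IsDiscreteValuationRing O ∧ ∃ h : t ∈ O, Irreducible (⟨t, h⟩ : O) := by
  have hirr : Irreducible (⟨t, ht.2.1⟩ : O) := by
    constructor
    · intro hu
      obtain ⟨s, hs⟩ := isUnit_iff_exists_inv.1 hu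
      apply ht.2.2.1
      have hs' : t * (s : K) = 1 := congrArg Subtype.val hs
      rw [← eq_inv_of_mul_eq_one_right hs']
      exact s.2
    · intro a b hab
      have hab' : t = (a : K) * b := congrArg Subtype.val hab
      have ha0 : (a : K) ≠ 0 := fun h => ht.1 (by rw [hab', h, zero_mul])
      have hb0 : (b : K) ≠ 0 := fun h => ht.1 (by rw [hab', h, mul_zero])
      obtain ⟨m, hm⟩ := exists_ordEq ht ha0
      obtain ⟨n, hn⟩ := exists_ordEq ht hb0
      have h1 := (hm.mem_iff ht).1 a.2
      have h2 := (hn.mem_iff ht).1 b.2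
      have hmn := hm.mul hn ht
      rw [← hab'] at hmn
      have h3 := (ordEq_self ht).unique hmn ht
      have aux : ∀ (c : O), OrdEq O t (c : K) 0 → IsUnit c := by
        intro c hc
        rw [ordEq_zero_iff] at hc
        rw [isUnit_iff_exists_inv]
        exact ⟨⟨_, hc.2.2⟩, Subtype.ext (mul_inv_cancel₀ hc.1)⟩
      rcases (by omega : m = 0 ∨ n = 0) with h | h
      · exact Or.inl (aux a (h ▸ hm))
      · exact Or.inr (aux b (h ▸ hn))
  refine ⟨?_, ht.2.1, hirr⟩
  refine IsDiscreteValuationRing.ofHasUnitMulPowIrreducibleFactorization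
    ⟨⟨t, ht.2.1⟩, hirr, ?_⟩
  intro x hx
  have hx0 : (x : K) ≠ 0 := fun h => hx (Subtype.ext h)
  obtain ⟨n, hn⟩ := exists_ordEq ht hx0
  obtain ⟨k, rfl⟩ := Int.eq_ofNat_of_zero_le ((hn.mem_iff ht).1 x.2)
  refine ⟨k, ?_⟩
  have h1 : (x : K) * t ^ (-(k : ℤ)) ∈ O := hn.2.1
  have h2 : ((x : K) * t ^ (-(k : ℤ)))⁻¹ ∈ O := hn.2.2
  have h3 : (x : K) * t ^ (-(k : ℤ)) ≠ 0 := mul_ne_zero hx0 (zpow_ne_zero _ ht.1)
  let w : Oˣ := ⟨⟨_, h1⟩, ⟨_, h2⟩, Subtype.ext (mul_inv_cancel₀ h3),
    Subtype.ext (inv_mul_cancel₀ h3)⟩
  refine ⟨w, Subtype.ext ?_⟩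
  change t ^ k * ((x : K) * t ^ (-(k : ℤ))) = x
  rw [zpow_neg, zpow_natCast, mul_comm (x : K), ← mul_assoc, mul_inv_cancel₀ (pow_ne_zero k ht.1),
    one_mul]

/-- Proof. See the text: `W` is the localization at a maximal ideal `P` of the integral closure
`B` of `O` in `F`; the ramification index is the order of the inertia group. -/
theorem ext_val {F : Type} [Field F] [Algebra ℂ K] [Algebra ℂ F] [Algebra K F]
    [IsScalarTower ℂ K F] (G₀ : Type) [Group G₀] [Finite G₀] [MulSemiringAction G₀ F]
    [IsGaloisGroup G₀ K F] {O : ValuationSubring K} {t : K} (ht : IsUnif O t)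
    (hC : ∀ c : ℂ, algebraMap ℂ K c ∈ O) :
    ∃ (W : ValuationSubring F) (T : F), IsUnif W T ∧ (∀ x : K, algebraMap K F x ∈ W ↔ x ∈ O) ∧
      OrdEq W T (algebraMap K F t) (Nat.card (inert G₀ W)) := by
  obtain ⟨hdvr, htO, hirr⟩ := ext_dvr ht
  have hgal : IsGalois K F := IsGaloisGroup.isGalois G₀ K F
  have hfd : FiniteDimensional K F := IsGaloisGroup.finiteDimensional G₀ K F
  have hchar : CharZero K := by
    have := (algebraMap ℂ K).injective
    exact charZero_of_injective_algebraMap this
  have hFO : FaithfulSMul O F := by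
    rw [faithfulSMul_iff_algebraMap_injective]
    have : (algebraMap O F : O → F) = fun x : O => algebraMap K F (x : K) := rfl
    rw [this]
    exact (algebraMap K F).injective.comp Subtype.val_injective
  let B := integralClosure O F
  have hBD : IsDedekindDomain B := integralClosure.isDedekindDomain O K F
  have hBF : IsFractionRing B F := integralClosure.isFractionRing_of_finite_extension K F
  have hBfin : Module.Finite O B := IsIntegralClosure.finite O K F B
  let hact : MulSemiringAction Gal(F/K) B := IsIntegralClosure.MulSemiringAction O K F B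
  have hdist : SMulDistribClass Gal(F/K) B F := inferInstance
  have hGG : IsGaloisGroup Gal(F/K) O B := IsGaloisGroup.of_isFractionRing Gal(F/K) O B K F
  have hfs : FaithfulSMul O B := inferInstance
  have htf : Module.IsTorsionFree O B := inferInstance
  have hflat : Module.Flat O B := inferInstance
  set p : Ideal O := IsLocalRing.maximalIdeal O with hp
  have hp0 : p ≠ ⊥ := by
    intro h
    have h1 : (⟨t, htO⟩ : O) ∈ p := (IsLocalRing.mem_maximalIdeal _).2 hirr.not_isUnit
    rw [h, Ideal.mem_bot] at h1
    exact ht.1 (congrArg Subtype.val h1)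
  obtain ⟨P, hPm, hPl⟩ : ∃ P : Ideal B, P.IsMaximal ∧ P.LiesOver p :=
    Ideal.exists_maximal_ideal_liesOver_of_isIntegral p
  have hover : ∀ x : O, x ∈ p ↔ algebraMap O B x ∈ P := fun x => by
    rw [hPl.over]
    rfl
  have hP0 : P ≠ ⊥ := by
    intro h
    apply hp0
    rw [eq_bot_iff]
    intro x hx
    have h1 := (hover x).1 hx
    rw [h, Ideal.mem_bot, FaithfulSMul.algebraMap_eq_zero_iff O B] at h1
    exact h1
  let v : HeightOneSpectrum B := ⟨P, hPm.isPrime, hP0⟩
  have hperf : PerfectField p.ResidueField := by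
    let f : ℂ →+* O :=
      { toFun := fun c => ⟨algebraMap ℂ K c, hC c⟩
        map_one' := Subtype.ext (map_one _)
        map_mul' := fun a b => Subtype.ext (map_mul _ a b)
        map_zero' := Subtype.ext (map_zero _)
        map_add' := fun a b => Subtype.ext (map_add _ a b) }
    let g : ℂ →+* p.ResidueField := (algebraMap O p.ResidueField).comp f
    have : CharZero p.ResidueField := charZero_of_injective_ringHom g.injective
    infer_instance
  have hcard : Nat.card (P.inertia Gal(F/K)) = P.ramificationIdx O := by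
    rw [Ideal.card_inertia_eq_ramificationIdxIn p P,
      Ideal.ramificationIdxIn_eq_ramificationIdx p P Gal(F/K)]
  rw [← Ideal.ramificationIdx'_eq_ramificationIdx p P hp0] at hcard
  set e : ℕ := p.ramificationIdx' P with he
  have hpt : p = Ideal.span {(⟨t, htO⟩ : O)} :=
    (IsDiscreteValuationRing.irreducible_iff_uniformizer _).1 hirr
  set b : B := algebraMap O B ⟨t, htO⟩ with hb
  have hmap : p.map (algebraMap O B) = Ideal.span {b} := by
    rw [hpt, Ideal.map_span, Set.image_singleton]
  have hbF : algebraMap B F b = algebraMap K F t := rfl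
  have hb0 : algebraMap B F b ≠ 0 := by
    rw [hbF]
    simpa using ht.1
  obtain ⟨n, hn⟩ := ext_val_eq_exp v hb0
  have hn0 : n ≤ 0 := by
    have := v.valuation_le_one (K := F) b
    rw [hn, ← exp_zero, exp_le_exp] at this
    exact this
  obtain ⟨k, hk⟩ : ∃ k : ℕ, n = -(k : ℤ) := ⟨n.natAbs, by omega⟩
  subst hk
  have hint : v.intValuation b = exp (-(k : ℤ)) := by
    rw [← v.valuation_of_algebraMap (K := F), hn]
  have h1 : b ∈ P ^ k := (v.intValuation_le_pow_iff_mem b k).1 hint.le
  have h2 : b ∉ P ^ (k + 1) := by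
    intro h
    have := (v.intValuation_le_pow_iff_mem b (k + 1)).2 h
    rw [hint, exp_le_exp] at this
    push_cast at this
    omega
  have hek : e = k := by
    rw [he]
    refine Ideal.ramificationIdx'_spec ?_ ?_
    · rw [hmap, Ideal.span_singleton_le_iff_mem]
      exact h1
    · rw [hmap, Ideal.span_singleton_le_iff_mem]
      exact h2
  obtain ⟨T, hT⟩ := v.valuation_exists_uniformizer F
  refine ⟨(v.valuation F).valuationSubring, T, ext_isUnif v hT, ?_, ?_⟩
  · intro x
    have hle : O ≤ (v.valuation F).valuationSubring.comap (algebraMap K F) := by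
      intro y hy
      change algebraMap B F (algebraMap O B ⟨y, hy⟩) ∈ (v.valuation F).valuationSubring
      rw [Valuation.mem_valuationSubring_iff]
      exact v.valuation_le_one _
    have hne : (v.valuation F).valuationSubring.comap (algebraMap K F) ≠ ⊤ := by
      intro h
      have h3 : t⁻¹ ∈ (v.valuation F).valuationSubring.comap (algebraMap K F) := by
        rw [h]
        exact ValuationSubring.mem_top _
      have h4 : algebraMap K F t⁻¹ ∈ (v.valuation F).valuationSubring := h3
      rw [Valuation.mem_valuationSubring_iff, map_inv₀, map_inv₀, ← hbF, hn, ← exp_neg, ← exp_zero,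
        exp_le_exp] at h4
      have h5 : b ∈ P := (hover _).1 ((IsLocalRing.mem_maximalIdeal _).2 hirr.not_isUnit)
      have h6 := (v.intValuation_lt_one_iff_mem b).2 h5
      rw [hint, ← exp_zero, exp_lt_exp] at h6
      omega
    have heq := ValuationSubring.eq_of_le_of_ne_top O hle hne
    constructor
    · intro hx
      rw [heq]
      exact hx
    · intro hx
      exact hle hx
  · have hc : Nat.card (inert G₀ (v.valuation F).valuationSubring) = k := by
      rw [← hek, ← hcard]
      let E := IsGaloisGroup.mulEquivAlgEquiv G₀ K F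
      refine Nat.card_congr (Equiv.subtypeEquiv E.toEquiv fun g => ?_)
      rw [← ext_inert (F := F) v Gal(F/K)]
      rfl
    rw [hc]
    exact ext_ordEq v hT hn

end H5ML
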