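import Pool.Agent.H5.ML.Ord

/-!
# GEOB: local rings of an integral scheme in its function field
-/

open AlgebraicGeometry CategoryTheory

namespace H5ML

variable {R K : Type} [CommRing R] [Field K] [Algebra R K]

/-- The local ring of every point of `Y` contains `R`. -/
theorem mem_locRing {O : ValuationSubring K}
    (C : DivisorialContraction R O) (y : C.Y) (r : R) :
    algebraMap R K r ∈ locRing C.Y C.φ y := by
  refine ⟨(C.Y.presheaf.germ ⊤ y trivial).hom
    (C.f.appTop.hom ((Scheme.ΓSpecIso (.of R)).inv.hom r)), ?_⟩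
  rw [← C.φ_comp r]
  change C.φ _ = C.φ _
  congr 1
  have h := C.Y.presheaf.germ_stalkSpecializes (U := ⊤) (y := y) trivial
    ((genericPoint_spec C.Y).specializes trivial)
  have h2 := congrArg (fun m => m.hom (C.f.appTop.hom ((Scheme.ΓSpecIso (.of R)).inv.hom r))) h
  exact h2

/-- Proof. The map `𝒪_{Y,y} → K(Y)` factors through `𝒪_{Y,η}` (`stalkSpecializes_comp`). -/
theorem locRing_mono (Y : Scheme.{0}) [IsIntegral Y] (φ : Y.functionField ≃+* K)
    (η y : Y) (h : η ⤳ y) (z : K) (hz : z ∈ locRing Y φ y) : z ∈ locRing Y φ η := by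
  obtain ⟨s, rfl⟩ := hz
  refine ⟨(Y.presheaf.stalkSpecializes h).hom s, ?_⟩
  change φ _ = φ _
  congr 1
  have h1 := Y.presheaf.stalkSpecializes_comp ((genericPoint_spec Y).specializes trivial) h
  have h2 := congrArg (fun m => m.hom s) h1
  exact h2

/-- If `η ⤳ y` then the local ring of `η` is a localization of that of `y`. -/
theorem frac_of_specializes (Y : Scheme.{0}) [IsIntegral Y] (φ : Y.functionField ≃+* K)
    (η y : Y) (h : η ⤳ y) (z : K) (hz : z ∈ locRing Y φ η) :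
    ∃ a ∈ locRing Y φ y, ∃ a' ∈ locRing Y φ y, a' ≠ 0 ∧ a'⁻¹ ∈ locRing Y φ η ∧ z = a * a'⁻¹ := by
  obtain ⟨_, ⟨U, hU, rfl⟩, hyU, -⟩ :=
    Y.isBasis_affineOpens.exists_subset_of_mem_open (Set.mem_univ y) isOpen_univ
  have hηU : η ∈ U := h.mem_open U.isOpen hyU
  obtain ⟨s, rfl⟩ := hz
  have : Nonempty U := ⟨⟨y, hyU⟩⟩
  let halg := Y.presheaf.algebra_section_stalk (⟨η, hηU⟩ : U)
  have hloc : IsLocalization.AtPrime (Y.presheaf.stalk η) (hU.primeIdealOf ⟨η, hηU⟩).asIdeal :=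
    hU.isLocalization_stalk ⟨η, hηU⟩
  obtain ⟨⟨n, d⟩, hnd⟩ := IsLocalization.surj (M := (hU.primeIdealOf ⟨η, hηU⟩).asIdeal.primeCompl)
    (S := Y.presheaf.stalk η) s
  have hunit := IsLocalization.map_units (S := Y.presheaf.stalk η) d
  have hcomp : ∀ w : Γ(Y, U), algebraMap (Y.presheaf.stalk y) Y.functionField
      ((Y.presheaf.germ U y hyU).hom w) =
      algebraMap (Y.presheaf.stalk η) Y.functionField ((Y.presheaf.germ U η hηU).hom w) := by
    intro w
    have h1 := Y.presheaf.germ_stalkSpecializes (U := U) hyU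
      ((genericPoint_spec Y).specializes trivial)
    have h2 := Y.presheaf.germ_stalkSpecializes (U := U) hηU
      ((genericPoint_spec Y).specializes trivial)
    exact (congrArg (fun m => m.hom w) h1).trans (congrArg (fun m => m.hom w) h2).symm
  have hg : ∀ w : Γ(Y, U), algebraMap Γ(Y, U) (Y.presheaf.stalk η) w =
      (Y.presheaf.germ U η hηU).hom w := fun _ => rfl
  set δ : K := φ (algebraMap (Y.presheaf.stalk y) Y.functionField
    ((Y.presheaf.germ U y hyU).hom (d : Γ(Y, U)))) with hδ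
  have hδ' : δ = φ (algebraMap (Y.presheaf.stalk η) Y.functionField
      (algebraMap Γ(Y, U) (Y.presheaf.stalk η) (d : Γ(Y, U)))) := by
    rw [hδ, hcomp]
    rfl
  obtain ⟨w, hw⟩ := hunit
  have hwδ : δ * φ (algebraMap (Y.presheaf.stalk η) Y.functionField (w⁻¹ : (Y.presheaf.stalk η)ˣ)) =
      1 := by
    rw [hδ', ← hw, ← map_mul, ← map_mul, Units.mul_inv, map_one, map_one]
  have hδ0 : δ ≠ 0 := left_ne_zero_of_mul_eq_one hwδ
  refine ⟨φ (algebraMap (Y.presheaf.stalk y) Y.functionField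
    ((Y.presheaf.germ U y hyU).hom n)), ⟨_, rfl⟩, δ, ⟨_, rfl⟩, hδ0, ?_, ?_⟩
  · rw [← eq_inv_of_mul_eq_one_right hwδ]
    exact ⟨_, rfl⟩
  · rw [eq_mul_inv_iff_mul_eq₀ hδ0, hcomp]
    change φ (algebraMap _ _ s) * δ = _
    rw [hδ', ← map_mul, ← map_mul, hnd]
    rfl

end H5ML
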