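import Pool.Agent.H5.ML.GeoA
import Pool.Agent.H5.ML.GeoB

/-!
# GEOC: consequences of the existence of a divisorial contraction
-/

open AlgebraicGeometry CategoryTheory

namespace H5ML

variable {R K : Type} [CommRing R] [Field K] [Algebra R K]

/-- Divisibility by powers of a section which generates `𝒪_Y(-nE)` at `y`. -/
theorem geoc_point {O : ValuationSubring K} (C : DivisorialContraction R O) {t : K}
    (ht : IsUnif O t) (y : C.Y) (n : ℕ) (s : R) (hs : OrdGe O n (algebraMap R K s))
    (hU : idealSheafStalk C.Y C.φ O C.η n y =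
      {h | ∃ g ∈ locRing C.Y C.φ y, h = algebraMap R K s * g}) :
    ∀ (N : ℕ), ∀ b ∈ locRing C.Y C.φ y, (C.η ⤳ y → OrdGe O (N * n) b) →
      ∃ c ∈ locRing C.Y C.φ y, b = algebraMap R K s ^ N * c := by
  have hO : ∀ z : K, z ∈ locRing C.Y C.φ C.η ↔ z ∈ O := fun z => by
    have := C.loc_η
    rw [Set.ext_iff] at this
    exact this z
  by_cases hη : C.η ⤳ y
  · obtain ⟨a, ha, a', ha', ha0, hai, hta⟩ :=
      frac_of_specializes C.Y C.φ C.η y hη t ((hO t).2 ht.2.1)
    have ha'O : a' ∈ O := (hO _).1 (locRing_mono C.Y C.φ C.η y hη a' ha')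
    have haiO : a'⁻¹ ∈ O := (hO _).1 hai
    have haeq : a = a' * t := by
      rw [hta, mul_comm a, ← mul_assoc, mul_inv_cancel₀ ha0, one_mul]
    have hord : OrdEq O t a 1 := by
      rw [haeq]
      exact (ordEq_self ht).unit_mul ha0 ha'O haiO ht
    have hordn : OrdEq O t (a ^ n) n := by
      simpa using hord.pow ht n
    have hmem : a ^ n ∈ idealSheafStalk C.Y C.φ O C.η n y :=
      ⟨pow_mem ha n, fun _ => (hordn.ordGe_iff ht n).2 le_rfl⟩
    rw [hU] at hmem
    obtain ⟨g, hg, hag⟩ := hmem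
    have hgO : g ∈ O := (hO _).1 (locRing_mono C.Y C.φ C.η y hη g hg)
    have hsne : algebraMap R K s ≠ 0 := fun h => hordn.1 (by rw [hag, h, zero_mul])
    have hgne : g ≠ 0 := fun h => hordn.1 (by rw [hag, h, mul_zero])
    obtain ⟨m, hm⟩ := exists_ordEq ht hsne
    obtain ⟨k, hk⟩ := exists_ordEq ht hgne
    have h1 := (hm.ordGe_iff ht n).1 hs
    have h2 := (hk.mem_iff ht).1 hgO
    have h3 := hm.mul hk ht
    rw [← hag] at h3
    have h4 := hordn.unique h3 ht
    have hmn : m = n := by omega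
    subst hmn
    intro N
    induction N with
    | zero =>
      intro b hb _
      exact ⟨b, hb, by simp⟩
    | succ N ih =>
      intro b hb hbo
      have hbo' := hbo hη
      have hbn : OrdGe O n b := by
        rcases eq_or_ne b 0 with rfl | hb0
        · exact ⟨t, ht, by rw [zero_mul]; exact O.zero_mem⟩
        · obtain ⟨j, hj⟩ := exists_ordEq ht hb0
          have := (hj.ordGe_iff ht _).1 hbo'
          rw [hj.ordGe_iff ht]
          push_cast at this
          nlinarith
      have hbm : b ∈ idealSheafStalk C.Y C.φ O C.η n y := ⟨hb, fun _ => hbn⟩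
      rw [hU] at hbm
      obtain ⟨g', hg', hbg⟩ := hbm
      obtain ⟨c, hc, hgc⟩ := ih g' hg' (fun _ => by
        rcases eq_or_ne g' 0 with rfl | hg0
        · exact ⟨t, ht, by rw [zero_mul]; exact O.zero_mem⟩
        · obtain ⟨j, hj⟩ := exists_ordEq ht hg0
          have h5 := hm.mul hj ht
          rw [← hbg] at h5
          have := (h5.ordGe_iff ht _).1 hbo'
          rw [hj.ordGe_iff ht]
          push_cast at this ⊢
          linarith)
      exact ⟨c, hc, by rw [hbg, hgc, pow_succ]; ring⟩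
  · have hmem : (1 : K) ∈ idealSheafStalk C.Y C.φ O C.η n y :=
      ⟨one_mem _, fun h => absurd h hη⟩
    rw [hU] at hmem
    obtain ⟨g, hg, hg1⟩ := hmem
    intro N b hb _
    refine ⟨g ^ N * b, mul_mem (pow_mem hg N) hb, ?_⟩
    rw [← mul_assoc, ← mul_pow, ← hg1, one_pow, one_mul]

theorem geo {O : ValuationSubring K} (C : DivisorialContraction R O) (hO : ∃ t, IsUnif O t) :
    ∃ q : ℕ, 1 ≤ q ∧ ∃ I : Finset R, (∀ s ∈ I, OrdGe O q (algebraMap R K s)) ∧
      ∀ V : ValuationSubring K, Over R V → ∃ s ∈ I, ∀ (j : ℕ) (b : R),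
        OrdGe O (q * j) (algebraMap R K b) →
          ∃ c ∈ V, algebraMap R K b = algebraMap R K s ^ j * c := by
  classical
  obtain ⟨t, ht⟩ := hO
  have hcomp : CompactSpace C.Y := QuasiCompact.compactSpace_of_compactSpace C.f
  choose n hn s hs U hUa hyU hU using C.ample
  obtain ⟨T, hT⟩ := CompactSpace.elim_nhds_subcover (fun y => (U y : Set C.Y))
    (fun y => (U y).isOpen.mem_nhds (hyU y))
  set q : ℕ := ∏ y ∈ T, n y with hq
  have hq1 : 1 ≤ q := Nat.one_le_iff_ne_zero.2
    (Finset.prod_ne_zero_iff.2 fun y _ => by have := hn y; omega)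
  have hdiv : ∀ y ∈ T, q / n y * n y = q := fun y hy =>
    Nat.div_mul_cancel (Finset.dvd_prod_of_mem n hy)
  refine ⟨q, hq1, T.image fun y => s y ^ (q / n y), ?_, ?_⟩
  · intro r hr
    obtain ⟨y, hy, rfl⟩ := Finset.mem_image.1 hr
    rw [map_pow]
    rcases eq_or_ne (algebraMap R K (s y)) 0 with h0 | h0
    · have hne : q / n y ≠ 0 := by
        intro h
        have := hdiv y hy
        rw [h] at this
        omega
      rw [h0, zero_pow hne]
      exact ⟨t, ht, by rw [zero_mul]; exact O.zero_mem⟩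
    · obtain ⟨m, hm⟩ := exists_ordEq ht h0
      have h1 := (hm.ordGe_iff ht _).1 (hs y)
      rw [(hm.pow ht _).ordGe_iff ht]
      have h2 : ((q : ℕ) : ℤ) = ((q / n y : ℕ) : ℤ) * (n y : ℤ) := by
        exact_mod_cast (hdiv y hy).symm
      rw [h2]
      exact mul_le_mul_of_nonneg_left h1 (by positivity)
  · intro V hV
    obtain ⟨z, hz⟩ := exists_center C V hV
    have hzT : z ∈ ⋃ y ∈ T, (U y : Set C.Y) := by
      rw [hT]
      trivial
    simp only [Set.mem_iUnion] at hzT
    obtain ⟨y, hy, hzy⟩ := hzT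
    refine ⟨s y ^ (q / n y), Finset.mem_image_of_mem _ hy, fun j b hb => ?_⟩
    obtain ⟨c, hc, hbc⟩ := geoc_point C ht z (n y) (s y) (hs y) ((hU y z).1 hzy)
      (q / n y * j) _ (mem_locRing C z b) (fun _ => by
        have : q / n y * j * n y = q * j := by
          rw [mul_right_comm, hdiv y hy]
        rw [this]
        exact hb)
    refine ⟨c, hz c hc, ?_⟩
    rw [map_pow, ← pow_mul]
    exact hbc

end H5ML
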