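import Pool.Agent.H5.ML.DualA

/-!
# DUAL: derivations dual to a transcendence basis
-/

open scoped TensorProduct

namespace H5ML

variable {M : Type} [Field M] [Algebra ℂ M]

/-- Proof. The dual basis of the basis of `exists_basis`, composed with `D`. -/
theorem exists_dual {N : ℕ} (z : Fin N → M) (hz : AlgebraicIndependent ℂ z)
    (halg : Algebra.IsAlgebraic (IntermediateField.adjoin ℂ (Set.range z)) M) :
    ∃ D : Fin N → Derivation ℂ M M, ∀ i j, D i (z j) = if i = j then 1 else 0 := by
  obtain ⟨b, hb⟩ := exists_basis z hz halg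
  refine ⟨fun i => (b.coord i).compDer (KaehlerDifferential.D ℂ M), fun i j => ?_⟩
  change b.coord i (KaehlerDifferential.D ℂ M (z j)) = _
  rw [← hb, Module.Basis.coord_apply, Module.Basis.repr_self, Finsupp.single_apply]
  simp [eq_comm]

/-- Proof. `D` and `∑ k, D (z k) • D' k` agree on the `z j`, and a derivation which vanishes on
the `z j` vanishes (its linear form on `Ω` vanishes on the basis). -/
theorem deriv_expand {N : ℕ} (z : Fin N → M) (hz : AlgebraicIndependent ℂ z)
    (halg : Algebra.IsAlgebraic (IntermediateField.adjoin ℂ (Set.range z)) M)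
    (D' : Fin N → Derivation ℂ M M) (hD' : ∀ i j, D' i (z j) = if i = j then 1 else 0)
    (D : Derivation ℂ M M) (h : M) : D h = ∑ k, D (z k) * D' k h := by
  obtain ⟨b, hb⟩ := exists_basis z hz halg
  have key : D.liftKaehlerDifferential =
      ∑ k, D (z k) • (D' k).liftKaehlerDifferential := by
    refine b.ext fun j => ?_
    rw [hb, LinearMap.sum_apply]
    simp only [LinearMap.smul_apply, Derivation.liftKaehlerDifferential_comp_D, hD', smul_eq_mul]
    simp
  have h1 := congrArg (fun f => f (KaehlerDifferential.D ℂ M h)) key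
  simp only [LinearMap.sum_apply, LinearMap.smul_apply, Derivation.liftKaehlerDifferential_comp_D,
    smul_eq_mul] at h1
  exact h1

/-- Proof. `⋀[M]^N Ω` is spanned by the values of `ιMulti` on families taken from the basis
`d z_i`, and such a value is zero (two equal entries) or, up to sign, `dwedge z`. -/
theorem dwedge_span {N : ℕ} (z : Fin N → M) (hz : AlgebraicIndependent ℂ z)
    (halg : Algebra.IsAlgebraic (IntermediateField.adjoin ℂ (Set.range z)) M)
    (ω : ⋀[M]^N Ω[M⁄ℂ]) : ∃ h : M, ω = h • dwedge z := by
  obtain ⟨b, hb⟩ := exists_basis z hz halg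
  have hspan := exteriorPower.ιMulti_span_of_span (R := M) (n := N) (M := Ω[M⁄ℂ])
    (s := Set.range b) b.span_eq
  have hzb : dwedge z = exteriorPower.ιMulti M N (fun i => b i) := by
    unfold dwedge
    congr 1
    funext i
    rw [hb]
  have hle : Submodule.span M (exteriorPower.ιMulti M N '' {a | Set.range a ⊆ Set.range b}) ≤
      Submodule.span M {dwedge z} := by
    rw [Submodule.span_le]
    rintro - ⟨a, ha, rfl⟩
    have hf : ∀ i, ∃ j, b j = a i := fun i => ha (Set.mem_range_self i)
    choose f hf using hf
    have haf : a = (fun i => b i) ∘ f := by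
      funext i
      exact (hf i).symm
    by_cases hinj : Function.Injective f
    · let σ : Equiv.Perm (Fin N) := Equiv.ofBijective f (Finite.injective_iff_bijective.1 hinj)
      have h1 := (exteriorPower.ιMulti M N (M := Ω[M⁄ℂ])).map_perm (fun i => b i) σ
      have h2 : a = (fun i => b i) ∘ σ := haf
      rw [h2, h1, ← hzb]
      exact Submodule.smul_of_tower_mem _ _ (Submodule.mem_span_singleton_self _)
    · rw [Function.not_injective_iff] at hinj
      obtain ⟨i, j, hij, hne⟩ := hinj
      have h1 : exteriorPower.ιMulti M N a = 0 :=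
        AlternatingMap.map_eq_zero_of_eq _ a (by rw [haf]; simp [hij]) hne
      rw [h1]
      exact Submodule.zero_mem _
  have hmem : ω ∈ Submodule.span M {dwedge z} := hle (by rw [hspan]; trivial)
  obtain ⟨h, hh⟩ := Submodule.mem_span_singleton.1 hmem
  exact ⟨h, hh.symm⟩

end H5ML
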