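import Pool.Agent.H5.ML.Pres
import Pool.Agent.H5.ML.Dual

/-!
# Frames
-/

namespace H5ML

variable {M : Type} [Field M] [Algebra ℂ M]

theorem exists_frame {n : ℕ} (hM : Algebra.EssFiniteType ℂ M)
    (htr : Algebra.trdeg ℂ M = (n + 1 : ℕ)) {W : ValuationSubring M} {T : M} (hT : IsUnif W T)
    {y : Fin n → M} (hy : ResIndep W y) :
    ∃ D : Fin (n + 1) → Derivation ℂ M M, (∀ i, ∀ h ∈ W, D i h ∈ W) ∧
      ∀ i j, D i ((Fin.cons T y : Fin (n + 1) → M) j) = if i = j then 1 else 0 := by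
  have hz := tb_indep hT hy
  have halg := (tb_fin hM htr _ hz).1
  obtain ⟨D, hD⟩ := exists_dual _ hz halg
  refine ⟨D, fun i => ?_, hD⟩
  have hmem : ∀ i j, D i ((Fin.cons T y : Fin (n + 1) → M) j) ∈ W := by
    intro i j
    rw [hD]
    split_ifs
    · exact W.one_mem
    · exact W.zero_mem
  refine pres hM htr hT hy (D i) ?_ ?_
  · simpa using hmem i 0
  · intro j
    simpa using hmem i j.succ

/-- Chain rule. -/
theorem jac_mul {N : ℕ} (z : Fin N → M) (hz : AlgebraicIndependent ℂ z)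
    (halg : Algebra.IsAlgebraic (IntermediateField.adjoin ℂ (Set.range z)) M)
    (D' : Fin N → Derivation ℂ M M) (hD' : ∀ i j, D' i (z j) = if i = j then 1 else 0)
    (D : Fin N → Derivation ℂ M M) (ζ : Fin N → M) : jac D ζ = jac D z * jac D' ζ := by
  have h1 : (Matrix.of fun j i => D i (ζ j)) =
      (Matrix.of fun j i => D' i (ζ j)) * (Matrix.of fun j i => D i (z j)) := by
    ext j i
    rw [Matrix.mul_apply, Matrix.of_apply, deriv_expand z hz halg D' hD' (D i) (ζ j)]
    refine Finset.sum_congr rfl fun k _ => ?_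
    rw [Matrix.of_apply, Matrix.of_apply, mul_comm]
  unfold jac
  rw [h1, Matrix.det_mul, mul_comm]

theorem jac_dual {N : ℕ} (z : Fin N → M) (D : Fin N → Derivation ℂ M M)
    (hD : ∀ i j, D i (z j) = if i = j then 1 else 0) : jac D z = 1 := by
  unfold jac
  have : (Matrix.of fun j i => D i (z j)) = 1 := by
    ext j i
    rw [Matrix.of_apply, hD, Matrix.one_apply]
    simp [eq_comm]
  rw [this, Matrix.det_one]

omit [Algebra ℂ M] in
theorem det_mem {W : ValuationSubring M} {N : ℕ} (A : Matrix (Fin N) (Fin N) M)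
    (hA : ∀ i j, A i j ∈ W) : A.det ∈ W := by
  rw [Matrix.det_apply]
  refine sum_mem fun σ _ => ?_
  rcases Int.units_eq_one_or (Equiv.Perm.sign σ) with h | h
  · rw [h, one_smul]
    exact prod_mem fun i _ => hA _ _
  · rw [h, Units.neg_smul, one_smul]
    exact neg_mem (prod_mem fun i _ => hA _ _)

theorem ResIndep.mem {W : ValuationSubring M} {n : ℕ} {y : Fin n → M} (hy : ResIndep W y)
    (j : Fin n) : y j ∈ W := by
  have := (hy (MvPolynomial.X j) (MvPolynomial.X_ne_zero j)).2.1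
  simpa using this

theorem ResIndep.const_mem {W : ValuationSubring M} {n : ℕ} {y : Fin n → M} (hy : ResIndep W y)
    (c : ℂ) : algebraMap ℂ M c ∈ W := by
  rcases eq_or_ne c 0 with rfl | hc
  · rw [map_zero]
    exact W.zero_mem
  · have := (hy (MvPolynomial.C c) (by simpa using hc)).2.1
    simpa using this

/-- Two frames of `W` have Jacobians which differ by a unit. -/
theorem frame_cmp {n : ℕ} (hM : Algebra.EssFiniteType ℂ M)
    (htr : Algebra.trdeg ℂ M = (n + 1 : ℕ)) {W : ValuationSubring M} {T T' : M}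
    {D D' : Fin (n + 1) → Derivation ℂ M M} (h : IsFrame W T D) (h' : IsFrame W T' D')
    (ζ : Fin (n + 1) → M) :
    ∃ ε : M, ε ≠ 0 ∧ ε ∈ W ∧ ε⁻¹ ∈ W ∧ jac D ζ = ε * jac D' ζ := by
  obtain ⟨hT, hDW, y, hy, hD⟩ := h
  obtain ⟨hT', hDW', y', hy', hD'⟩ := h'
  have hz := tb_indep hT hy
  have hz' := tb_indep hT' hy'
  have halg := (tb_fin hM htr _ hz).1
  have halg' := (tb_fin hM htr _ hz').1
  have hmem : ∀ j, (Fin.cons T y : Fin (n + 1) → M) j ∈ W := by
    intro j
    refine Fin.cases ?_ (fun j => ?_) j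
    · simpa using hT.2.1
    · simpa using hy.mem j
  have hmem' : ∀ j, (Fin.cons T' y' : Fin (n + 1) → M) j ∈ W := by
    intro j
    refine Fin.cases ?_ (fun j => ?_) j
    · simpa using hT'.2.1
    · simpa using hy'.mem j
  have e1 : jac D (Fin.cons T' y') * jac D' (Fin.cons T y) = 1 := by
    rw [← jac_mul _ hz' halg' D' hD' D (Fin.cons T y), jac_dual _ _ hD]
  have m1 : jac D (Fin.cons T' y') ∈ W := det_mem _ fun j i => hDW i _ (hmem' j)
  have m2 : jac D' (Fin.cons T y) ∈ W := det_mem _ fun j i => hDW' i _ (hmem j)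
  refine ⟨jac D (Fin.cons T' y'), left_ne_zero_of_mul_eq_one e1, m1, ?_,
    jac_mul _ hz' halg' D' hD' D ζ⟩
  rw [eq_inv_of_mul_eq_one_left e1, inv_inv]
  exact m2

end H5ML
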