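import Pool.Agent.H5.ML.Coo
import Pool.Agent.H5.ML.Frame

/-!
# HONA: primes of height one of the invariants
-/

namespace H5ML

open MvPolynomial

/-- Proof. `A` is integral over `R` (`contains`: see `Inv.lean`, `Algebra.IsInvariant.isIntegral`),
so there is a prime `P` of `A` with `P ∩ R = p` (lying over, `R → A` injective). `P ≠ 0` because
`p ≠ 0` (height one). `A` is a UFD, so `P` contains an irreducible element `f` (a prime factor of
a nonzero element of `P`). The ideal `(f) ∩ R` is a prime contained in `p`, and nonzero: the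
constant coefficient of the minimal integral equation of `f` over `R` is a nonzero multiple of
`f` in `R` (`Ideal.exists_…` / `comap_ne_bot_of_integral_mem`). As `p` has height one,
`(f) ∩ R = p`. -/
theorem exists_irreducible (p : Ideal R) (hp : p.IsPrime) (hp1 : p.height = 1) :
    ∃ f : A, Irreducible f ∧ ∀ r : R, r ∈ p ↔ f ∣ algebraMap R A r := by
  have hinv : Algebra.IsInvariant R A G := ⟨fun a ha => exists_R a ha⟩
  have hint : Algebra.IsIntegral R A := Algebra.IsInvariant.isIntegral R A G
  obtain ⟨P, hP, hPp⟩ := Ideal.exists_ideal_over_prime_of_isIntegral_of_isDomain p (by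
    rw [(RingHom.injective_iff_ker_eq_bot _).1 R_injective]
    exact bot_le)
  have hp0 : p ≠ ⊥ := Ideal.ne_bot_of_height_eq_one hp1
  have hP0 : P ≠ ⊥ := by
    rintro rfl
    apply hp0
    rw [← hPp, eq_bot_iff]
    intro r hr
    rw [Ideal.mem_comap, Ideal.mem_bot] at hr
    rw [Ideal.mem_bot]
    exact R_injective (by rw [hr, map_zero])
  obtain ⟨f, hf, hfp⟩ := hP.exists_mem_prime_of_ne_bot hP0
  have hq : (Ideal.span {f}).IsPrime := (Ideal.span_singleton_prime hfp.ne_zero).2 hfp
  let q : Ideal R := (Ideal.span {f}).comap (algebraMap R A)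
  have hqp : q.IsPrime := Ideal.comap_isPrime _ _
  have hqle : q ≤ p := by
    rw [← hPp]
    exact Ideal.comap_mono ((Ideal.span_singleton_le_iff_mem _).2 hf)
  have hq0 : q ≠ ⊥ := Ideal.comap_ne_bot_of_integral_mem hfp.ne_zero
    (Ideal.mem_span_singleton_self f) (hint.isIntegral f)
  have hqe : q = p := by
    by_contra hne
    have hlt : q < p := lt_of_le_of_ne hqle hne
    have h1 := Ideal.height_add_one_le_of_lt_of_isPrime hlt
    rw [hp1] at h1
    have h2 : q.height = 0 := by
      have h3 : q.height + 1 ≤ 0 + 1 := by simpa using h1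
      have h4 := (ENat.add_le_add_iff_right (by simp : (1 : ℕ∞) ≠ ⊤)).1 h3
      exact le_antisymm h4 bot_le
    exact hq0 (Ideal.height_eq_zero_iff_eq_bot.1 h2)
  refine ⟨f, hfp.irreducible, fun r => ?_⟩
  rw [← hqe, ← Ideal.mem_span_singleton]
  exact Iff.rfl

end H5ML
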