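import Pool.Agent.H5.ML.Coo
import Pool.Agent.H5.ML.Frame

/-!
# HONB: the valuation rings of the prime divisors of affine space
-/

namespace H5ML

open MvPolynomial

theorem honb_prime (f : A) (hf : Irreducible f) : Prime f :=
  UniqueFactorizationMonoid.irreducible_iff_prime.mp hf

theorem honb_inj {a : A} (ha : a ≠ 0) : algebraMap A FA a ≠ 0 := by
  intro h
  exact ha ((IsFractionRing.injective A FA) (by rw [h, map_zero]))

theorem honb_ne {f b : A} (hb : ¬ f ∣ b) : b ≠ 0 := by
  rintro rfl
  exact hb (dvd_zero f)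

/-- The localization of `A` at `(f)`. -/
noncomputable def honbW (f : A) (hf : Irreducible f) : ValuationSubring FA where
  carrier := {h | ∃ a b : A, ¬ f ∣ b ∧ h = algebraMap A FA a / algebraMap A FA b}
  mul_mem' := by
    rintro x y ⟨a, b, hb, rfl⟩ ⟨c, d, hd, rfl⟩
    refine ⟨a * c, b * d, fun h => ?_, ?_⟩
    · rcases (honb_prime f hf).dvd_or_dvd h with h | h
      · exact hb h
      · exact hd h
    · rw [map_mul, map_mul, div_mul_div_comm]
  one_mem' := ⟨1, 1, fun h => hf.not_isUnit (isUnit_of_dvd_one h), by simp⟩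
  add_mem' := by
    rintro x y ⟨a, b, hb, rfl⟩ ⟨c, d, hd, rfl⟩
    refine ⟨a * d + b * c, b * d, fun h => ?_, ?_⟩
    · rcases (honb_prime f hf).dvd_or_dvd h with h | h
      · exact hb h
      · exact hd h
    · rw [map_mul, map_add, map_mul, map_mul,
        div_add_div _ _ (honb_inj (honb_ne hb)) (honb_inj (honb_ne hd))]
  zero_mem' := ⟨0, 1, fun h => hf.not_isUnit (isUnit_of_dvd_one h), by simp⟩
  neg_mem' := by
    rintro x ⟨a, b, hb, rfl⟩
    exact ⟨-a, b, hb, by rw [map_neg]; ring⟩
  mem_or_inv_mem' := by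
    intro x
    obtain ⟨a, b, hab, hx⟩ := IsFractionRing.exists_reduced_fraction A x
    rw [IsFractionRing.mk'_eq_div] at hx
    by_cases hb : f ∣ (b : A)
    · right
      have ha : ¬ f ∣ a := fun h => hf.not_isUnit (hab h hb)
      exact ⟨b, a, ha, by rw [← hx, inv_div]⟩
    · left
      exact ⟨a, b, hb, hx.symm⟩

theorem honb_mem (f : A) (hf : Irreducible f) (h : FA) : h ∈ honbW f hf ↔
    ∃ a b : A, ¬ f ∣ b ∧ h = algebraMap A FA a / algebraMap A FA b := Iff.rfl

/-- Proof. `f` is prime in the UFD `A`. Let `W` be the valuation ring of the `f`-adic valuation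
(multiplicity of `f`), i.e. the localization of `A` at the prime ideal `(f)`: the set of the
`a / b` with `¬ f ∣ b`. -/
theorem exists_adic (f : A) (hf : Irreducible f) : ∃ W : ValuationSubring FA,
    IsUnif W (algebraMap A FA f) ∧
    ∀ h : FA, h ∈ W ↔ ∃ a b : A, ¬ f ∣ b ∧ h = algebraMap A FA a / algebraMap A FA b := by
  refine ⟨honbW f hf, ⟨honb_inj hf.ne_zero, ?_, ?_, ?_⟩, honb_mem f hf⟩
  · exact ⟨f, 1, fun h => hf.not_isUnit (isUnit_of_dvd_one h), by simp⟩
  · rintro ⟨a, b, hb, h⟩
    have hb0 := honb_inj (honb_ne hb)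
    have hf0 := honb_inj hf.ne_zero
    apply hb
    refine ⟨a, (IsFractionRing.injective A FA) ?_⟩
    rw [map_mul]
    field_simp at h
    exact h
  · intro h hh
    obtain ⟨a, b, hab, hx⟩ := IsFractionRing.exists_reduced_fraction A h
    rw [IsFractionRing.mk'_eq_div] at hx
    have hb0 : (b : A) ≠ 0 := nonZeroDivisors.coe_ne_zero b
    have ha0 : a ≠ 0 := by
      rintro rfl
      apply hh
      rw [← hx, map_zero, zero_div]
    have hfa : FiniteMultiplicity f a := FiniteMultiplicity.of_prime_left (honb_prime f hf) ha0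
    have hfb : FiniteMultiplicity f (b : A) :=
      FiniteMultiplicity.of_prime_left (honb_prime f hf) hb0
    obtain ⟨a', ha', hfa'⟩ := hfa.exists_eq_pow_mul_and_not_dvd
    obtain ⟨b', hb', hfb'⟩ := hfb.exists_eq_pow_mul_and_not_dvd
    set m := multiplicity f a with hm
    set n := multiplicity f (b : A) with hn
    have hf0 := honb_inj hf.ne_zero
    have ha'0 := honb_inj (honb_ne hfa')
    have hb'0 := honb_inj (honb_ne hfb')
    have key : h * algebraMap A FA f ^ ((n : ℤ) - m) =
        algebraMap A FA a' / algebraMap A FA b' := by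
      rw [← hx, ha', hb', map_mul, map_mul, map_pow, map_pow, zpow_sub₀ hf0, zpow_natCast,
        zpow_natCast]
      field_simp
    refine ⟨(n : ℤ) - m, ?_, ?_⟩
    · rw [key]
      exact ⟨a', b', hfb', rfl⟩
    · rw [key, inv_div]
      exact ⟨b', a', hfa', rfl⟩

/-- Some variable occurs in a nonconstant polynomial. -/
theorem honb_var (f : A) (hf : Irreducible f) : ∃ v : Ix, 1 ≤ degreeOf v f := by
  by_contra hcon
  push Not at hcon
  have h0 : ∀ m ∈ f.support, m = 0 := by
    intro m hm
    ext v
    have h1 := monomial_le_degreeOf v hm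
    have h2 := hcon v
    simp only [Finsupp.coe_zero, Pi.zero_apply]
    omega
  have h1 : f = C (coeff 0 f) := by
    ext m
    rw [coeff_C]
    split_ifs with h
    · rw [h]
    · by_contra hc
      exact h (h0 m (mem_support_iff.mpr hc)).symm
  apply hf.not_isUnit
  rw [h1]
  refine IsUnit.map C ?_
  rw [isUnit_iff_ne_zero]
  intro h
  apply hf.ne_zero
  rw [h1, h, C_0]

theorem honb_degreeOf_rename (v : Ix) (e : Fin 10 → Ix) (he : ∀ j, e j ≠ v)
    (P : MvPolynomial (Fin 10) ℂ) : degreeOf v (rename e P) = 0 := by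
  classical
  by_contra hc
  have h1 : 0 < degreeOf v (rename e P) := Nat.pos_of_ne_zero hc
  rw [degreeOf_eq_sup] at h1
  rw [Finset.lt_sup_iff] at h1
  obtain ⟨m, hm, hmv⟩ := h1
  have h2 : coeff m (rename e P) ≠ 0 := mem_support_iff.mp hm
  obtain ⟨d, hd, -⟩ := coeff_rename_ne_zero e P m h2
  have h3 : m v = 0 := by
    rw [← hd]
    apply Finsupp.mapDomain_of_notMem_range
    rintro ⟨j, hj⟩
    exact he j hj
  omega

/-- Proof. `f` is not constant, so some variable `X v` occurs in `f`: `degreeOf v f ≥ 1`. Take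
for `ε` the ten other variables. A nonzero polynomial in the other variables is not divisible by
`f` (its degree in `X v` is `0`, and `degreeOf v` is additive on products), so it is a unit of
`W`. -/
theorem adic_resIndep (f : A) (hf : Irreducible f) (W : ValuationSubring FA)
    (hW : ∀ h : FA, h ∈ W ↔ ∃ a b : A, ¬ f ∣ b ∧ h = algebraMap A FA a / algebraMap A FA b) :
    ∃ ε : Fin 10 → FA, ResIndep W ε := by
  obtain ⟨v, hv⟩ := honb_var f hf
  have hcard : Fintype.card {i : Ix // i ≠ v} = 10 := by
    rw [Fintype.card_subtype_compl]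
    simp [Ix]
  let e0 : Fin 10 ≃ {i : Ix // i ≠ v} := (Fintype.equivFinOfCardEq hcard).symm
  let e : Fin 10 → Ix := fun j => (e0 j).1
  have he : ∀ j, e j ≠ v := fun j => (e0 j).2
  have hinj : Function.Injective e := fun i j h => e0.injective (Subtype.ext h)
  refine ⟨fun j => algebraMap A FA (X (e j)), fun P hP => ?_⟩
  have h1 : aeval (fun j => algebraMap A FA (X (e j))) P = algebraMap A FA (rename e P) := by
    have h2 : (IsScalarTower.toAlgHom ℂ A FA).comp (rename e) =
        aeval (fun j => algebraMap A FA (X (e j))) := by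
      apply MvPolynomial.algHom_ext
      intro j
      simp
    rw [← h2]
    rfl
  rw [h1]
  have h3 : rename e P ≠ 0 := by
    intro h
    exact hP (rename_injective e hinj (by rw [h, map_zero]))
  have h4 : ¬ f ∣ rename e P := by
    rintro ⟨g, hg⟩
    have hg0 : g ≠ 0 := by
      rintro rfl
      exact h3 (by rw [hg, mul_zero])
    have h5 := honb_degreeOf_rename v e he P
    rw [hg, degreeOf_mul_eq hf.ne_zero hg0] at h5
    omega
  refine ⟨honb_inj h3, ?_, ?_⟩
  · rw [hW]
    exact ⟨rename e P, 1, fun h => hf.not_isUnit (isUnit_of_dvd_one h), by simp⟩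
  · rw [hW]
    exact ⟨1, rename e P, h4, by simp⟩

end H5ML
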