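import Pool.Agent.H5.ML.Coo
import Pool.Agent.H5.ML.Frame
import Pool.Agent.H5.ML.HonB

/-!
# HONC: localizations of the invariants at primes of height one
-/

namespace H5ML

open MvPolynomial

theorem honc_exists_unif {K F : Type} [Field K] [Field F] [Algebra K F]
    (W : ValuationSubring F) {T : F} (hT : IsUnif W T) (r : K) (hr : r ≠ 0)
    (hr1 : algebraMap K F r ∈ W.nonunits) : ∃ t, IsUnif (W.comap (algebraMap K F)) t := by
  classical
  have hex : ∃ n : ℕ, 1 ≤ n ∧ ∃ h : K, OrdEq W T (algebraMap K F h) n := by
    obtain ⟨n, hn⟩ := exists_ordEq hT (show algebraMap K F r ≠ 0 by simpa using hr)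
    have h1 := (hn.nonunit_iff hT).1 hr1
    refine ⟨n.toNat, by omega, r, ?_⟩
    rwa [Int.toNat_of_nonneg (by omega)]
  have hfind := Nat.find_spec hex
  have hmin : ∀ m : ℕ, m < Nat.find hex → ¬ (1 ≤ m ∧ ∃ h : K, OrdEq W T (algebraMap K F h) m) :=
    fun m hm => Nat.find_min hex hm
  generalize Nat.find hex = n at hfind hmin
  obtain ⟨h1, t, ht⟩ := hfind
  have hmem : ∀ h : K, h ∈ W.comap (algebraMap K F) ↔ algebraMap K F h ∈ W := fun h => Iff.rfl
  refine ⟨t, ?_, ?_, ?_, ?_⟩
  · rintro rfl
    exact ht.1 (map_zero _)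
  · rw [hmem, ht.mem_iff hT]
    omega
  · rw [hmem, map_inv₀, ht.inv.mem_iff hT]
    omega
  · intro h hh
    obtain ⟨m, hm⟩ := exists_ordEq hT (show algebraMap K F h ≠ 0 by simpa using hh)
    have h2 := hm.mul (ht.zpow hT (-(m / n))) hT
    have h3 : m + -(m / n) * n = m % n := by
      have := Int.emod_add_mul_ediv m n
      linarith
    rw [h3] at h2
    have h4 : 0 ≤ m % n := Int.emod_nonneg _ (by omega)
    have h5 : m % n < n := Int.emod_lt_of_pos _ (by omega)
    have h6 : m % n = 0 := by
      by_contra hne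
      refine hmin (m % n).toNat (by omega) ⟨by omega, h * t ^ (-(m / n)), ?_⟩
      rw [Int.toNat_of_nonneg h4, map_mul, map_zpow₀]
      exact h2
    rw [h6, ordEq_zero_iff] at h2
    refine ⟨-(m / n), ?_, ?_⟩
    · rw [hmem, map_mul, map_zpow₀]
      exact h2.2.1
    · rw [hmem, map_inv₀, map_mul, map_zpow₀]
      exact h2.2.2

theorem honc_map_R (r : R) :
    algebraMap KR FA (algebraMap R KR r) = algebraMap A FA (algebraMap R A r) := by
  rw [← IsScalarTower.algebraMap_apply R KR FA, ← IsScalarTower.algebraMap_apply R A FA]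

theorem honc_smul_A (g : G) (a : A) : algebraMap A FA (g • a) = g • algebraMap A FA a :=
  algebraMap.smul' g a FA

theorem honc_smul_KR (g : G) (h : KR) : g • algebraMap KR FA h = algebraMap KR FA h := by
  obtain ⟨a, b, hb, rfl⟩ := IsFractionRing.div_surjective (A := R) h
  rw [map_div₀, honc_map_R, honc_map_R, div_eq_mul_inv, smul_mul', smul_inv'', ← honc_smul_A,
    ← honc_smul_A, R_smul, R_smul]

/-- Proof. `O = W ∩ KR`. `R_p ⊆ O` is clear. `R_p` is a discrete valuation ring of `KR`: `R` is a
Noetherian (`finiteType_R`) integrally closed (`isIntegrallyClosed_R`) domain and `p` has height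
one. A discrete valuation ring is a maximal proper subring of its fraction field and `O ≠ KR`
(`f` divides a nonzero element of `p`, whose inverse is not in `W`), so `O = R_p` and it has a
uniformizer. (Other proof of `O ⊆ R_p`: for `h ∈ KR ∩ W` the ideal `J = {b ∈ A : b h ∈ A}` is
`G`-stable and not contained in `(f)`, hence not contained in any `(g f)`, `g ∈ G`; by prime
avoidance it contains an element `b` outside all `(g f)`; then the norm `N b = ∏ g b` is in
`R \ p` and `N b * h ∈ A` is invariant.) -/
theorem comap_eq_locAt (hfin : Algebra.FiniteType ℂ R) (hic : IsIntegrallyClosed R)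
    (p : Ideal R) (hp : p.IsPrime) (hp1 : p.height = 1) (f : A)
    (hf : Irreducible f) (hfp : ∀ r : R, r ∈ p ↔ f ∣ algebraMap R A r)
    (W : ValuationSubring FA)
    (hW : ∀ h : FA, h ∈ W ↔ ∃ a b : A, ¬ f ∣ b ∧ h = algebraMap A FA a / algebraMap A FA b) :
    ((W.comap (algebraMap KR FA) : ValuationSubring KR) : Set KR) = locAt KR p ∧
      ∃ t, IsUnif (W.comap (algebraMap KR FA)) t := by
  have hfprime : Prime f := hf.prime
  have hAinj : Function.Injective (algebraMap A FA) := IsFractionRing.injective A FA
  have hRinj : Function.Injective (algebraMap R KR) := IsFractionRing.injective R KR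
  have hpne : p ≠ ⊥ := by
    rintro rfl
    have : (⊥ : Ideal R).height = 0 := by
      rw [Ideal.height_bot]
    rw [this] at hp1
    exact zero_ne_one hp1
  obtain ⟨r0, hr0, hr0ne⟩ := Submodule.exists_mem_ne_zero_of_ne_bot hpne
  obtain ⟨W', hW'unif, hW'⟩ := exists_adic f hf
  have hWW : W = W' := by
    ext h
    rw [hW, hW']
  subst hWW
  refine ⟨?_, honc_exists_unif W hW'unif (algebraMap R KR r0) ?_ ?_⟩
  · ext h
    constructor
    · intro hh
      have hh1 : algebraMap KR FA h ∈ W := hh
      let J : Ideal A :=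
        { carrier := {b | ∃ c : A, algebraMap A FA b * algebraMap KR FA h = algebraMap A FA c}
          add_mem' := by
            rintro a b ⟨c, hc⟩ ⟨d, hd⟩
            exact ⟨c + d, by rw [map_add, add_mul, hc, hd, map_add]⟩
          zero_mem' := ⟨0, by simp⟩
          smul_mem' := by
            rintro x a ⟨c, hc⟩
            exact ⟨x * c, by rw [smul_eq_mul, map_mul, mul_assoc, hc, map_mul]⟩ }
      have hJmem : ∀ b, b ∈ J ↔
          ∃ c : A, algebraMap A FA b * algebraMap KR FA h = algebraMap A FA c := fun b => Iff.rfl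
      have hJG : ∀ (g : G) b, b ∈ J → g • b ∈ J := by
        intro g b hb
        obtain ⟨c, hc⟩ := (hJmem b).1 hb
        refine (hJmem _).2 ⟨g • c, ?_⟩
        rw [honc_smul_A, honc_smul_A, ← hc, smul_mul', honc_smul_KR]
      have hspan : (Ideal.span {f} : Ideal A).IsPrime := by
        rw [Ideal.span_singleton_prime hfprime.ne_zero]
        exact hfprime
      let Q : G → Ideal A := fun g => Ideal.comap (MulSemiringAction.toRingHom G A g)
        (Ideal.span {f})
      have hQmem : ∀ g b, b ∈ Q g ↔ f ∣ g • b := by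
        intro g b
        change MulSemiringAction.toRingHom G A g b ∈ Ideal.span {f} ↔ _
        rw [Ideal.mem_span_singleton]
        rfl
      obtain ⟨b, hbJ, hbQ⟩ : ∃ b ∈ J, ∀ g : G, ¬ f ∣ g • b := by
        by_contra hcon
        push Not at hcon
        have hsub : (J : Set A) ⊆ ⋃ i ∈ ((Finset.univ : Finset G) : Set G), (Q i : Set A) := by
          intro b hb
          obtain ⟨g, hg⟩ := hcon b hb
          simp only [Finset.coe_univ, Set.mem_univ, Set.iUnion_true, Set.mem_iUnion]
          exact ⟨g, (hQmem g b).2 hg⟩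
        rw [Ideal.subset_union_prime (1 : G) (1 : G)
          (fun i _ _ _ => Ideal.comap_isPrime _ _)] at hsub
        obtain ⟨g, -, hg⟩ := hsub
        obtain ⟨a, b, hfb, hab⟩ := (hW _).1 hh1
        have hbne : b ≠ 0 := by
          rintro rfl
          exact hfb (dvd_zero f)
        have hbJ : b ∈ J := by
          refine (hJmem b).2 ⟨a, ?_⟩
          rw [hab]
          have : algebraMap A FA b ≠ 0 := by
            rw [Ne, map_eq_zero_iff _ hAinj]
            exact hbne
          field_simp
        have h1 := (hQmem g _).1 (hg (hJG g⁻¹ b hbJ))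
        rw [smul_inv_smul] at h1
        exact hfb h1
      have hNinv : ∀ g : G, g • (∏ k : G, k • b) = ∏ k : G, k • b := by
        intro g
        rw [Finset.smul_prod']
        exact Fintype.prod_equiv (Equiv.mulLeft g) _ _ fun k => by
          simp [mul_smul]
      obtain ⟨r, hr⟩ := exists_R _ hNinv
      have hrp : r ∉ p := by
        rw [hfp, hr]
        intro hdvd
        rw [hfprime.dvd_finsetProd_iff] at hdvd
        obtain ⟨g, -, hg⟩ := hdvd
        exact hbQ g hg
      obtain ⟨c, hc⟩ : ∃ c : A, algebraMap A FA (∏ k : G, k • b) * algebraMap KR FA h =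
          algebraMap A FA c := by
        have : (∏ k : G, k • b) ∈ J := by
          refine J.mem_of_dvd ?_ hbJ
          have := Finset.dvd_prod_of_mem (fun k : G => k • b) (Finset.mem_univ (1 : G))
          simpa using this
        exact (hJmem _).1 this
      have hcinv : ∀ g : G, g • c = c := by
        intro g
        apply hAinj
        rw [honc_smul_A, ← hc, smul_mul', honc_smul_KR, ← honc_smul_A, hNinv]
      obtain ⟨s, hs⟩ := exists_R _ hcinv
      refine ⟨s, r, hrp, ?_⟩
      apply (algebraMap KR FA).injective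
      rw [map_mul, honc_map_R, honc_map_R, hr, hs, ← hc, mul_comm]
    · rintro ⟨a, b, hb, hab⟩
      change algebraMap KR FA h ∈ W
      rw [hW]
      refine ⟨algebraMap R A a, algebraMap R A b, fun hd => hb ((hfp b).2 hd), ?_⟩
      have hbne : b ≠ 0 := by
        rintro rfl
        exact hb p.zero_mem
      have h1 : algebraMap A FA (algebraMap R A b) ≠ 0 := by
        rw [Ne, map_eq_zero_iff _ hAinj, map_eq_zero_iff _ R_injective]
        exact hbne
      rw [eq_div_iff h1, ← honc_map_R, ← honc_map_R, ← map_mul, hab]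
  · rw [Ne, map_eq_zero_iff _ hRinj]
    exact hr0ne
  · rw [honc_map_R, W.mem_nonunits_iff_or]
    right
    intro hcon
    obtain ⟨a, b, hfb, hab⟩ := (hW _).1 hcon
    have hne : algebraMap R A r0 ≠ 0 := by
      rw [Ne, map_eq_zero_iff _ R_injective]
      exact hr0ne
    have hbne : b ≠ 0 := by
      rintro rfl
      exact hfb (dvd_zero f)
    have h1 : algebraMap A FA (algebraMap R A r0) ≠ 0 := by
      rw [Ne, map_eq_zero_iff _ hAinj]
      exact hne
    have h2 : algebraMap A FA b ≠ 0 := by
      rw [Ne, map_eq_zero_iff _ hAinj]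
      exact hbne
    have h3 : b = a * algebraMap R A r0 := by
      apply hAinj
      rw [map_mul]
      field_simp at hab
      rw [hab, mul_comm]
    exact hfb (h3 ▸ Dvd.dvd.mul_left ((hfp r0).1 hr0) a)

end H5ML
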