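import Pool.Agent.H5.ML.Coo
import Pool.Agent.H5.ML.Frame

/-!
# HOND: the standard form has no zero or pole on affine space
-/

namespace H5ML

open MvPolynomial

/-- A derivation with constant values on the variables preserves polynomials. -/
theorem hond_deriv (d : Derivation ℂ FA FA)
    (hd : ∀ s : Ix, ∃ c : A, d (algebraMap A FA (X s)) = algebraMap A FA c) (a : A) :
    ∃ c : A, d (algebraMap A FA a) = algebraMap A FA c := by
  induction a using MvPolynomial.induction_on with
  | C r =>
    refine ⟨0, ?_⟩
    have : algebraMap A FA (C r) = algebraMap ℂ FA r := by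
      rw [IsScalarTower.algebraMap_apply ℂ A FA]; rfl
    rw [this, Derivation.map_algebraMap, map_zero]
  | add p q hp hq =>
    obtain ⟨c, hc⟩ := hp
    obtain ⟨c', hc'⟩ := hq
    exact ⟨c + c', by rw [map_add, map_add, hc, hc', map_add]⟩
  | mul_X p s hp =>
    obtain ⟨c, hc⟩ := hp
    obtain ⟨c', hc'⟩ := hd s
    refine ⟨p * c' + X s * c, ?_⟩
    rw [map_mul, Derivation.leibniz, hc, hc', map_add, map_mul, map_mul, smul_eq_mul, smul_eq_mul]

/-- Proof. Let `∂` be the derivations of `FA` dual to `zc` (`exists_dual`, `zc` is a transcendence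
basis). They map `A` to `A` (a derivation with constant values on the variables) and hence
`W` to `W` by the quotient rule. Let `z = cons T y` be the system of the frame `D`. By the chain
rule (`jac_mul` for `zc`, `∂`) `1 = jac D z = jac D zc * jac ∂ z`, and `jac ∂ z ∈ W`, while
`jac D zc ∈ W`. -/
theorem adic_jac (hind : AlgebraicIndependent ℂ zc)
    (halg : Algebra.IsAlgebraic (IntermediateField.adjoin ℂ (Set.range zc)) FA)
    (f : A) (hf : Irreducible f) (W : ValuationSubring FA)
    (hW : ∀ h : FA, h ∈ W ↔ ∃ a b : A, ¬ f ∣ b ∧ h = algebraMap A FA a / algebraMap A FA b)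
    (T : FA) (D : Fin (10 + 1) → Derivation ℂ FA FA) (hD : IsFrame W T D) :
    OrdEq W T (jac D zc) 0 := by
  obtain ⟨E, hE⟩ := exists_dual zc hind halg
  obtain ⟨hT, hDW, y, hy, hDd⟩ := hD
  have hprime : Prime f := hf.prime
  -- `E i` preserves `A`
  have hEA : ∀ i (a : A), ∃ c : A, E i (algebraMap A FA a) = algebraMap A FA c := by
    intro i a
    refine hond_deriv (E i) (fun s => ?_) a
    obtain ⟨j, rfl⟩ := idx_bijective.2 s
    refine ⟨if i = j then 1 else 0, ?_⟩
    have := hE i j
    unfold zc at this
    rw [this]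
    split_ifs <;> simp
  -- `E i` preserves `W`
  have hEW : ∀ i, ∀ h ∈ W, E i h ∈ W := by
    intro i h hh
    obtain ⟨a, b, hb, rfl⟩ := (hW h).1 hh
    obtain ⟨a', ha'⟩ := hEA i a
    obtain ⟨b', hb'⟩ := hEA i b
    have hb0 : algebraMap A FA b ≠ 0 := by
      intro h0
      apply hb
      rw [(map_eq_zero_iff _ (IsFractionRing.injective A FA)).1 h0]
      exact dvd_zero f
    rw [hW]
    refine ⟨a' * b - a * b', b * b, ?_, ?_⟩
    · intro h1
      rcases hprime.dvd_or_dvd h1 with h2 | h2 <;> exact hb h2
    · have h1 : E i (algebraMap A FA a / algebraMap A FA b) * algebraMap A FA b =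
          E i (algebraMap A FA a) -
            algebraMap A FA a / algebraMap A FA b * E i (algebraMap A FA b) := by
        have h2 := (E i).leibniz (algebraMap A FA a / algebraMap A FA b) (algebraMap A FA b)
        rw [div_mul_cancel₀ _ hb0, smul_eq_mul, smul_eq_mul] at h2
        rw [h2]
        ring
      rw [ha', hb'] at h1
      rw [map_sub, map_mul, map_mul, map_mul, eq_div_iff (mul_ne_zero hb0 hb0)]
      calc E i (algebraMap A FA a / algebraMap A FA b) * (algebraMap A FA b * algebraMap A FA b)
          = (E i (algebraMap A FA a / algebraMap A FA b) * algebraMap A FA b) *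
              algebraMap A FA b := by ring
        _ = _ := by rw [h1]; field_simp
  have hzcW : ∀ j, zc j ∈ W := by
    intro j
    rw [hW]
    refine ⟨X (idx j), 1, fun h => hf.not_isUnit (isUnit_of_dvd_one h), ?_⟩
    rw [map_one, div_one]
    rfl
  have hmem : ∀ j, (Fin.cons T y : Fin (10 + 1) → FA) j ∈ W := by
    intro j
    refine Fin.cases ?_ (fun j => ?_) j
    · simpa using hT.2.1
    · simpa using hy.mem j
  have e1 : jac D zc * jac E (Fin.cons T y) = 1 := by
    rw [← jac_mul zc hind halg E hE D (Fin.cons T y), jac_dual _ _ hDd]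
  have m1 : jac D zc ∈ W := det_mem _ fun j i => hDW i _ (hzcW j)
  have m2 : jac E (Fin.cons T y) ∈ W := det_mem _ fun j i => hEW i _ (hmem j)
  refine ⟨left_ne_zero_of_mul_eq_one e1, ?_, ?_⟩
  · simpa using m1
  · have h1 : (jac D zc)⁻¹ = jac E (Fin.cons T y) := inv_eq_of_mul_eq_one_right e1
    simpa [h1] using m2

end H5ML
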