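import Pool.Agent.H5.ML.InvB

/-!
# INVC: transcendence degrees
-/

namespace H5ML

open MvPolynomial

theorem invc_inj : Function.Injective (algebraMap A FA) := IsFractionRing.injective A FA

/-- Proof. The fraction field of the polynomial ring in the `11` variables `Ix`. -/
theorem trdeg_FA : Algebra.trdeg ℂ FA = (10 + 1 : ℕ) := by
  have h1 : Algebra.trdeg ℂ A = (10 + 1 : ℕ) := by
    rw [MvPolynomial.trdeg_of_isDomain]
    simp
  have h2 : Algebra.IsAlgebraic A FA := IsLocalization.isAlgebraic FA (nonZeroDivisors A)
  have h3 : Algebra.trdeg A FA = 0 := trdeg_eq_zero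
  have : FaithfulSMul A FA := (faithfulSMul_iff_algebraMap_injective A FA).mpr invc_inj
  have h4 := trdeg_add_eq ℂ A (A := FA)
  rw [← h4, h3, add_zero, h1]

/-- Proof. `FA` is algebraic over `KR` (finite Galois), so the transcendence degrees agree. -/
theorem trdeg_KR : Algebra.trdeg ℂ KR = (10 + 1 : ℕ) := by
  have : FiniteDimensional KR FA := IsGaloisGroup.finiteDimensional G KR FA
  have h3 : Algebra.trdeg KR FA = 0 := trdeg_eq_zero
  have h4 := trdeg_add_eq ℂ KR (A := FA)
  rw [h3, add_zero, trdeg_FA] at h4
  exact h4

/-- Proof. Localization of a finitely generated algebra. -/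
theorem essFiniteType_FA : Algebra.EssFiniteType ℂ FA := by
  have h1 : Algebra.EssFiniteType A FA := Algebra.EssFiniteType.of_isLocalization FA (nonZeroDivisors A)
  exact Algebra.EssFiniteType.comp ℂ A FA

/-- Proof. Localization of the finitely generated algebra `R`. -/
theorem essFiniteType_KR : Algebra.EssFiniteType ℂ KR := by
  have h0 := finiteType_R
  have h1 : Algebra.EssFiniteType R KR := Algebra.EssFiniteType.of_isLocalization KR (nonZeroDivisors R)
  exact Algebra.EssFiniteType.comp ℂ R KR

/-- Proof. The kernel of the surjective ring homomorphism `R → ℂ` (constants are invariant). -/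
theorem isMaximal_x0 : x0.IsMaximal := by
  apply RingHom.ker_isMaximal_of_surjective
  intro c
  refine ⟨algebraMap ℂ R c, ?_⟩
  rw [RingHom.comp_apply, ← IsScalarTower.algebraMap_apply ℂ R A]
  exact constantCoeff_C _ c

/-- Proof. The variables are algebraically independent in `FA` and `idx` is injective. -/
theorem zc_indep : AlgebraicIndependent ℂ zc := by
  have h1 : AlgebraicIndependent ℂ (X : Ix → A) := MvPolynomial.algebraicIndependent_X Ix ℂ
  have h2 : AlgebraicIndependent ℂ ((IsScalarTower.toAlgHom ℂ A FA) ∘ (X : Ix → A)) :=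
    h1.map' (f := IsScalarTower.toAlgHom ℂ A FA) invc_inj
  exact h2.comp idx idx_bijective.injective

end H5ML
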