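import Pool.Agent.H5.ML.Coo

/-!
# INVD: the group acts with determinant one
-/

namespace H5ML

open MvPolynomial

/-- The permutation `x_i ↔ y_i`. -/
def invdP : Equiv.Perm Ix := Equiv.swap (Sum.inl 0) (Sum.inr (Sum.inl 0)) *
  (Equiv.swap (Sum.inl 1) (Sum.inr (Sum.inl 1)) * Equiv.swap (Sum.inl 2) (Sum.inr (Sum.inl 2)))

theorem invdP_sign : Equiv.Perm.sign invdP = -1 := by
  rw [invdP, Equiv.Perm.sign_mul, Equiv.Perm.sign_mul, Equiv.Perm.sign_swap (by decide),
    Equiv.Perm.sign_swap (by decide), Equiv.Perm.sign_swap (by decide)]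
  simp

theorem invd_key (g : G) (s : Equiv.Perm Ix) (c : Ix → ℂ)
    (hc : ((Equiv.Perm.sign s : ℤ) : ℂ) * ∏ v, c v = 1)
    (h : ∀ v, act g (X v) = C (c v) * X (s v)) :
    ∃ m : Matrix (Fin (10 + 1)) (Fin (10 + 1)) ℂ, m.det = 1 ∧
    ∀ j, g • zc j = ∑ l, m j l • zc l := by
  classical
  let e : Fin (10 + 1) ≃ Ix := Equiv.ofBijective idx idx_bijective
  let D : Matrix Ix Ix ℂ := Matrix.diagonal (fun v => c (s.symm v))
  refine ⟨(D.submatrix s id).submatrix e e, ?_, ?_⟩
  · rw [Matrix.det_submatrix_equiv_self, Matrix.det_permute, Matrix.det_diagonal]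
    rw [Equiv.prod_comp s.symm c]
    exact hc
  · intro j
    have h1 : ∑ l, ((D.submatrix s id).submatrix e e) j l • zc l =
        ∑ w : Ix, (D (s (e j)) w) • algebraMap A FA (X w) := by
      rw [← Equiv.sum_comp e]
      rfl
    rw [h1, Finset.sum_eq_single (s (e j))]
    · have h2 : D (s (e j)) (s (e j)) = c (e j) := by
        simp [D]
      rw [h2]
      have h3 : g • zc j = algebraMap A FA (act g (X (e j))) := by
        rw [← smul_eq]
        exact (algebraMap.smul' (B := A) (C := FA) g (X (e j))).symm
      rw [h3, h, ← MvPolynomial.smul_eq_C_mul]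
      exact map_smul (IsScalarTower.toAlgHom ℂ A FA) (c (e j)) (X (s (e j)))
    · intro w _ hw
      have : D (s (e j)) w = 0 := Matrix.diagonal_apply_ne' _ hw
      rw [this, zero_smul]
    · intro hh
      exact absurd (Finset.mem_univ _) hh

/-- Proof. For `g = r k` the matrix is diagonal with entries `1, χ (u_i k), χ (- u_i k), 1, …` and
determinant `1`. For `g = sr k`: `t_l ↦ - t_l`, `x_i ↦ χ (u_i k) y_i`, `y_i ↦ χ (- u_i k) x_i`:
determinant `(-1)^5 * ∏_i (- χ (u_i k) χ (- u_i k)) = (-1)^5 (-1)^3 = 1`. One can treat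
`g = sr 0` (a permutation matrix up to sign: product of three transpositions and five signs) and
`g = r k` and use multiplicativity (`sr k = sr 0 * r k`), or expand the determinant
(`Matrix.det_succ_row_zero`, `simp`), or compute with the index set `Ix` and block matrices. -/
theorem linear_action (g : G) : ∃ m : Matrix (Fin (10 + 1)) (Fin (10 + 1)) ℂ, m.det = 1 ∧
    ∀ j, g • zc j = ∑ l, m j l • zc l := by
  rcases g with k | k
  · refine invd_key (.r k) 1 (fun v => match v with
      | .inl i => chi (u i * k)
      | .inr (.inl i) => chi (-(u i * k))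
      | .inr (.inr _) => 1) ?_ ?_
    · rw [Fintype.prod_sum_type, Fintype.prod_sum_type]
      simp only [Equiv.Perm.sign_one, Units.val_one, Int.cast_one, one_mul, Finset.prod_const_one,
        mul_one]
      rw [← Finset.prod_mul_distrib]
      refine Finset.prod_eq_one fun i _ => ?_
      rw [mul_comm]
      exact chi_neg_mul _
    · rintro (i | i | l)
      · exact act_xx_r k i
      · exact act_yy_r k i
      · simp only [C_1, one_mul]
        exact act_tt_r k l
  · refine invd_key (.sr k) invdP (fun v => match v with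
      | .inl i => chi (u i * k)
      | .inr (.inl i) => chi (-(u i * k))
      | .inr (.inr _) => -1) ?_ ?_
    · rw [Fintype.prod_sum_type, Fintype.prod_sum_type]
      have h1 : ((∏ i : Fin 3, chi (u i * k)) * ∏ i : Fin 3, chi (-(u i * k))) = 1 := by
        rw [← Finset.prod_mul_distrib]
        refine Finset.prod_eq_one fun i _ => ?_
        rw [mul_comm]
        exact chi_neg_mul _
      rw [← mul_assoc (∏ i : Fin 3, chi (u i * k)), h1, invdP_sign]
      norm_num
    · have hp : ∀ i : Fin 3, invdP (.inl i) = .inr (.inl i) := by decide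
      have hq : ∀ i : Fin 3, invdP (.inr (.inl i)) = .inl i := by decide
      have hr : ∀ i : Fin 5, invdP (.inr (.inr i)) = .inr (.inr i) := by decide
      rintro (i | i | l)
      · rw [hp]
        exact act_xx_sr k i
      · rw [hq]
        exact act_yy_sr k i
      · rw [hr]
        simp only [map_neg, C_1, neg_mul, one_mul]
        exact act_tt_sr k l

end H5ML
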