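import Pool.Agent.H5.ML.Frame

/-!
# JEX: the Jacobian of monomial coordinates
-/

namespace H5ML

variable {M : Type} [Field M] [Algebra ℂ M]

omit [Algebra ℂ M] in
/-- A matrix whose first row is `(1, 0, …, 0)`. -/
theorem jex_det {n : ℕ} (A : Matrix (Fin (n + 1)) (Fin (n + 1)) M) (h0 : A 0 0 = 1)
    (h1 : ∀ i : Fin n, A 0 i.succ = 0) :
    A.det = Matrix.det (Matrix.of fun j i : Fin n => A j.succ i.succ) := by
  rw [Matrix.det_succ_row_zero, Fin.sum_univ_succ]
  simp only [Fin.val_zero, pow_zero, one_mul, h0, h1, mul_zero, zero_mul, Finset.sum_const_zero,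
    add_zero]
  congr 1

theorem jex_zpow {D : Derivation ℂ M M} {T : M} (hD : D T = 0) (k : ℤ) :
    D (T ^ k) = 0 := by
  obtain ⟨j, rfl | rfl⟩ := Int.eq_nat_or_neg k
  · rw [zpow_natCast, D.leibniz_pow, hD]
    simp
  · rw [zpow_neg, zpow_natCast, D.leibniz_inv, D.leibniz_pow, hD]
    simp

/-- Exact value for a frame built from the coordinates themselves. -/
theorem jac_exact {n : ℕ} {T : M} {y : Fin n → M} (hT : T ≠ 0)
    {D : Fin (n + 1) → Derivation ℂ M M}
    (hD : ∀ i j, D i ((Fin.cons T y : Fin (n + 1) → M) j) = if i = j then 1 else 0)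
    (a : Fin n → ℤ) (ζ : Fin (n + 1) → M) (h0 : ζ 0 = T)
    (h1 : ∀ j, ζ j.succ = T ^ a j * y j) : jac D ζ = T ^ (∑ j, a j) := by
  have hDT0 : D 0 T = 1 := by simpa using hD 0 0
  have hDT : ∀ i : Fin n, D i.succ T = 0 := fun i => by
    simpa using hD i.succ 0
  have hDy : ∀ i j : Fin n, D i.succ (y j) = if i = j then 1 else 0 := fun i j => by
    simpa using hD i.succ j.succ
  unfold jac
  rw [jex_det _ (by rw [Matrix.of_apply, h0, hDT0]) (fun i => by rw [Matrix.of_apply, h0, hDT])]
  have h2 : (Matrix.of fun j i : Fin n => (Matrix.of fun j i => D i (ζ j)) j.succ i.succ) =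
      Matrix.diagonal fun j => T ^ a j := by
    ext j i
    rw [Matrix.of_apply, Matrix.of_apply, h1, Derivation.leibniz, jex_zpow (hDT i), hDy,
      Matrix.diagonal_apply]
    rcases eq_or_ne i j with rfl | hij
    · simp
    · simp [hij, hij.symm]
  rw [h2, Matrix.det_diagonal]
  induction n with
  | zero => simp
  | succ n _ =>
    classical
    have : ∀ s : Finset (Fin (n + 1)), ∏ i ∈ s, T ^ a i = T ^ (∑ i ∈ s, a i) := by
      intro s
      induction s using Finset.induction_on with
      | empty => simp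
      | insert i s hi ih => rw [Finset.prod_insert hi, Finset.sum_insert hi, ih, zpow_add₀ hT]
    exact this _

end H5ML
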