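import Pool.Agent.H5.ML.Frame

/-!
# LB: the logarithmic form estimate
-/

namespace H5ML

variable {M : Type} [Field M] [Algebra ℂ M]

/-- The logarithmic Jacobian matrix. -/
noncomputable def lbN {n : ℕ} (T : M) (D : Fin (n + 1) → Derivation ℂ M M)
    (ζ : Fin (n + 1) → M) : Matrix (Fin (n + 1)) (Fin (n + 1)) M :=
  Matrix.of fun j i => (if i = 0 then T else 1) * ((ζ j)⁻¹ * D i (ζ j))

theorem lb_det {n : ℕ} (T : M) (D : Fin (n + 1) → Derivation ℂ M M) (ζ : Fin (n + 1) → M) :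
    (lbN T D ζ).det = T * ((∏ j, (ζ j)⁻¹) * jac D ζ) := by
  unfold lbN jac
  have h1 := Matrix.det_mul_row (fun i : Fin (n + 1) => if i = 0 then T else 1)
    (Matrix.of fun j i => (ζ j)⁻¹ * D i (ζ j))
  have h2 := Matrix.det_mul_column (fun j : Fin (n + 1) => (ζ j)⁻¹)
    (Matrix.of fun j i => D i (ζ j))
  have h3 : ∏ i : Fin (n + 1), (if i = 0 then T else 1) = T := by
    rw [Finset.prod_ite_eq']
    simp
  rw [h3] at h1
  simp only [Matrix.of_apply] at h1 h2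
  rw [h1, h2]

theorem lb_entry {n : ℕ} {W : ValuationSubring M} {T : M} {D : Fin (n + 1) → Derivation ℂ M M}
    (hD : IsFrame W T D) (ζ : Fin (n + 1) → M) (a : Fin (n + 1) → ℤ)
    (ha : ∀ j, OrdEq W T (ζ j) (a j)) (j i : Fin (n + 1)) :
    lbN T D ζ j i = (if i = 0 then (a j : M) else 0) +
      (if i = 0 then T else 1) * ((ζ j * T ^ (-a j))⁻¹ * D i (ζ j * T ^ (-a j))) := by
  obtain ⟨hT, hDW, y, hy, hDy⟩ := hD
  have hDT : D i T = if i = 0 then 1 else 0 := by simpa using hDy i 0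
  have hζ := (ha j).1
  have hTz : T ^ (-a j) ≠ 0 := zpow_ne_zero _ hT.1
  rw [lbN, Matrix.of_apply, Derivation.leibniz, Derivation.leibniz_zpow, hDT]
  have h1 : T ^ (-a j) = T ^ (-a j - 1) * T := by
    rw [← zpow_add_one₀ hT.1]
    congr 1
    ring
  split_ifs with hi
  · simp only [smul_eq_mul, zsmul_eq_mul, mul_one, mul_inv]
    have h2 : T ^ (-a j - 1) ≠ 0 := zpow_ne_zero _ hT.1
    rw [h1]
    field_simp [hT.1]
    push_cast
    ring
  · simp only [smul_eq_mul, zsmul_eq_mul, mul_zero, mul_inv, zero_add, one_mul]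
    field_simp

theorem lb_mem {n : ℕ} {W : ValuationSubring M} {T : M} {D : Fin (n + 1) → Derivation ℂ M M}
    (hD : IsFrame W T D) (ζ : Fin (n + 1) → M) (a : Fin (n + 1) → ℤ)
    (ha : ∀ j, OrdEq W T (ζ j) (a j)) (j i : Fin (n + 1)) : lbN T D ζ j i ∈ W := by
  rw [lb_entry hD ζ a ha]
  refine W.add_mem _ _ ?_ (W.mul_mem _ _ ?_ (W.mul_mem _ _ (ha j).2.2 (hD.2.1 i _ (ha j).2.1)))
  · split_ifs
    · exact intCast_mem W _
    · exact W.zero_mem
  · split_ifs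
    · exact hD.1.2.1
    · exact W.one_mem

theorem lb {n : ℕ} {W : ValuationSubring M} {T : M} {D : Fin (n + 1) → Derivation ℂ M M}
    (hD : IsFrame W T D) (ζ : Fin (n + 1) → M) (a : Fin (n + 1) → ℤ)
    (ha : ∀ j, OrdEq W T (ζ j) (a j)) : jac D ζ * T ^ (1 - ∑ j, a j) ∈ W := by
  have hT := hD.1
  have h1 : (lbN T D ζ).det ∈ W := det_mem _ fun j i => lb_mem hD ζ a ha j i
  have h2 : OrdEq W T (∏ j, ζ j) (∑ j, a j) := OrdEq.prod hT _ _ _ fun j _ => ha j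
  have h3 : jac D ζ * T ^ (1 - ∑ j, a j) =
      (lbN T D ζ).det * ((∏ j, ζ j) * T ^ (-∑ j, a j)) := by
    rw [lb_det, Finset.prod_inv_distrib, sub_eq_add_neg, zpow_add₀ hT.1, zpow_one]
    have h4 : (∏ j, ζ j) ≠ 0 := h2.1
    field_simp
  rw [h3]
  exact W.mul_mem _ _ h1 h2.2.1

end H5ML
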