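import Pool.Agent.H5.ML.MonA

/-!
# MON: monomial valuations
-/

namespace H5ML

open MvPolynomial

/-- The weight of an exponent. -/
noncomputable def mon_w (α : Ix →₀ ℕ) : ℕ := ∑ v, α v * wt v

theorem mon_w_idx (α : Ix →₀ ℕ) :
    mon_w α = α (idx 0) + ∑ i : Fin 10, α (idx i.succ) * wt (idx i.succ) := by
  rw [mon_w, ← idx_bijective.sum_comp (fun v => α v * wt v), Fin.sum_univ_succ]
  have : wt (idx 0) = 1 := rfl
  rw [this, mul_one]

theorem mon_zk (k : ZMod 241) (ht : t0 ≠ 0) (i : Fin 10) :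
    zk k i.succ = zq k i * t0 ^ (wt (idx i.succ)) := by
  rw [zq, mul_assoc, zpow_neg, zpow_natCast, inv_mul_cancel₀ (pow_ne_zero _ ht), mul_one]

theorem mon_monomial (k : ZMod 241) (ht : t0 ≠ 0) (α : Ix →₀ ℕ) (c : ℂ) :
    algebraMap A FA (aeval (lin k) (monomial α c)) =
      algebraMap ℂ FA c * t0 ^ mon_w α * ∏ i : Fin 10, zq k i ^ α (idx i.succ) := by
  rw [aeval_monomial, Finsupp.prod_fintype _ _ (fun _ => pow_zero _), map_mul, map_prod,
    ← idx_bijective.prod_comp, Fin.prod_univ_succ, ← IsScalarTower.algebraMap_apply ℂ A FA]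
  have h0 : algebraMap A FA (lin k (idx 0) ^ α (idx 0)) = t0 ^ α (idx 0) := by
    rw [map_pow]; rfl
  have h1 : ∀ i : Fin 10, algebraMap A FA (lin k (idx i.succ) ^ α (idx i.succ)) =
      zq k i ^ α (idx i.succ) * t0 ^ (α (idx i.succ) * wt (idx i.succ)) := by
    intro i
    rw [map_pow]
    change zk k i.succ ^ _ = _
    rw [mon_zk k ht, mul_pow, ← pow_mul, mul_comm (wt _)]
  rw [h0, Finset.prod_congr rfl (fun i _ => h1 i), Finset.prod_mul_distrib,
    Finset.prod_pow_eq_pow_sum, mon_w_idx, pow_add]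
  ring

/-- The constants. -/
noncomputable def mon_tc : Ix → ℂ
  | .inl _ => 2
  | .inr (.inl _) => 2
  | .inr (.inr _) => 1

theorem mon_tc_ne (v : Ix) : mon_tc v ≠ 0 := by
  rcases v with i | i | l <;> simp [mon_tc]

theorem mon_thc (v : Ix) : thc v = C (mon_tc v) := by
  rcases v with i | i | l
  · change (2 : A) = C 2
    exact (map_ofNat C 2).symm
  · change (2 : A) = C 2
    exact (map_ofNat C 2).symm
  · change (1 : A) = C 1
    exact (map_one C).symm

/-- The constant of an exponent. -/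
noncomputable def mon_c (α : Ix →₀ ℕ) : ℂ := ∏ v, mon_tc v ^ α v

theorem mon_c_ne (α : Ix →₀ ℕ) : mon_c α ≠ 0 :=
  Finset.prod_ne_zero_iff.2 fun v _ => pow_ne_zero _ (mon_tc_ne v)

theorem mon_theta_monomial (α : Ix →₀ ℕ) (c : ℂ) :
    aeval (fun v : Ix => Polynomial.C (thc v * X v) * Polynomial.X ^ wt v) (monomial α c) =
      Polynomial.C (monomial α (c * mon_c α)) * Polynomial.X ^ mon_w α := by
  rw [aeval_monomial, Finsupp.prod_fintype _ _ (fun _ => pow_zero _)]
  have h1 : ∀ v : Ix, (Polynomial.C (thc v * X v) * Polynomial.X ^ wt v) ^ α v =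
      Polynomial.C (C (mon_tc v ^ α v) * X v ^ α v) * Polynomial.X ^ (α v * wt v) := by
    intro v
    rw [mul_pow, ← pow_mul, mul_comm (wt v), ← Polynomial.C_pow, mul_pow, mon_thc, ← C_pow]
  rw [Finset.prod_congr rfl (fun v _ => h1 v), Finset.prod_mul_distrib,
    Finset.prod_pow_eq_pow_sum, ← map_prod, Finset.prod_mul_distrib, ← map_prod]
  have h2 : algebraMap ℂ (Polynomial A) c = Polynomial.C (C c) := rfl
  rw [h2, ← mul_assoc, ← Polynomial.C_mul]
  congr 2
  rw [monomial_eq, Finsupp.prod_fintype _ _ (fun _ => pow_zero _), C_mul, mul_assoc]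
  rfl

theorem mon_theta (H : A) :
    aeval (fun v : Ix => Polynomial.C (thc v * X v) * Polynomial.X ^ wt v) H =
      ∑ α ∈ H.support, Polynomial.C (monomial α (coeff α H * mon_c α)) *
        Polynomial.X ^ mon_w α := by
  conv_lhs => rw [H.as_sum]
  rw [map_sum]
  exact Finset.sum_congr rfl fun α _ => mon_theta_monomial α _

theorem mon_dvd (H : A) (m : ℕ) :
    Polynomial.X ^ m ∣
      aeval (fun v : Ix => Polynomial.C (thc v * X v) * Polynomial.X ^ wt v) H ↔
      ∀ α ∈ H.support, m ≤ mon_w α := by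
  rw [mon_theta, Polynomial.X_pow_dvd_iff]
  have hc : ∀ j, (∑ α ∈ H.support, Polynomial.C (monomial α (coeff α H * mon_c α)) *
        Polynomial.X ^ mon_w α).coeff j =
      ∑ α ∈ H.support, if j = mon_w α then monomial α (coeff α H * mon_c α) else 0 := by
    intro j
    rw [Polynomial.finsetSum_coeff]
    exact Finset.sum_congr rfl fun α _ => Polynomial.coeff_C_mul_X_pow _ _ _
  constructor
  · intro h α hα
    by_contra hlt
    push Not at hlt
    have h1 := h _ hlt
    rw [hc] at h1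
    have h2 := congrArg (coeff α) h1
    rw [coeff_sum, coeff_zero, Finset.sum_eq_single α] at h2
    · rw [if_pos rfl, coeff_monomial, if_pos rfl] at h2
      rw [mem_support_iff] at hα
      exact mul_ne_zero hα (mon_c_ne α) h2
    · intro β _ hβ
      split_ifs
      · rw [coeff_monomial, if_neg hβ]
      · rw [coeff_zero]
    · intro hn
      exact absurd hα hn
  · intro h j hj
    rw [hc]
    refine Finset.sum_eq_zero fun α hα => ?_
    rw [if_neg]
    have := h α hα
    omega

theorem mon_contra {F : Type*} [Field F] (W : ValuationSubring F) (t P x z : F) (m m0 : ℕ)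
    (hlt : m0 < m) (ht : t ≠ 0) (htW : t ∈ W) (htn : t⁻¹ ∉ W) (hP1 : P ≠ 0) (hP3 : P⁻¹ ∈ W)
    (hz : z ∈ W) (hx : x * t ^ (-(m : ℤ)) ∈ W) (he : x * t ^ (-(m0 : ℤ)) = P + t * z) :
    False := by
  have h5 : x * t ^ (-(m0 : ℤ)) = t * (t ^ (m - m0 - 1) * (x * t ^ (-(m : ℤ)))) := by
    have h6 : t * t ^ (m - m0 - 1) * t ^ (-(m : ℤ)) = t ^ (-(m0 : ℤ)) := by
      rw [← pow_succ', ← zpow_natCast, ← zpow_add₀ ht]
      congr 1
      omega
    rw [← h6]
    ring
  have h7 : P = t * (t ^ (m - m0 - 1) * (x * t ^ (-(m : ℤ))) - z) := by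
    rw [mul_sub, ← h5, he]
    ring
  apply htn
  have h8 : t⁻¹ = P⁻¹ * (t ^ (m - m0 - 1) * (x * t ^ (-(m : ℤ))) - z) := by
    rw [eq_inv_mul_iff_mul_eq₀ hP1]
    conv_lhs => rw [h7]
    rw [mul_assoc, mul_comm, mul_assoc, inv_mul_cancel₀ ht, mul_one]
  rw [h8]
  exact mul_mem hP3 (sub_mem (mul_mem (pow_mem htW _) hx) hz)

theorem mon_split {F ι : Type*} [Field F] (S : Finset ι) (c M : ι → F) (t : F) (w : ι → ℕ)
    (m0 : ℕ) (hmin : ∀ α ∈ S, m0 ≤ w α) :
    ∑ α ∈ S, c α * t ^ (w α - m0) * M α =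
      (∑ α ∈ S.filter (fun α => w α = m0), c α * M α) +
        t * ∑ α ∈ S.filter (fun α => ¬ w α = m0), c α * t ^ (w α - m0 - 1) * M α := by
  rw [← Finset.sum_filter_add_sum_filter_not S (fun α => w α = m0), Finset.mul_sum]
  congr 1
  · refine Finset.sum_congr rfl fun α hα => ?_
    rw [Finset.mem_filter] at hα
    rw [hα.2, Nat.sub_self, pow_zero, mul_one]
  · refine Finset.sum_congr rfl fun α hα => ?_
    rw [Finset.mem_filter] at hα
    have h3 := hmin α hα.1
    have h4 : w α - m0 = (w α - m0 - 1) + 1 := by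
      have := hα.2
      omega
    conv_lhs => rw [h4, pow_succ]
    ring

/-- Proof. By `exists_lin` write `h = H (lin)`, `H = ∑ H_α X^α`. (1) `X ^ m ∣ thetak k h` iff
`m ≤ wt·α := ∑ α_v wt v` for all `α` in the support of `H`: `thetak k h = ∑_α H_α c_α X^α ϖ^{wt·α}`
with nonzero constants `c_α`, and the coefficient of `ϖ^j` is the sum over `wt·α = j` of
`H_α c_α X^α`. (2) In `FA`: `algebraMap h = ∑ H_α t0^{wt·α} ∏_j (zq k j)^{α_{idx j}}`. If all
`wt·α ≥ m` this is in `t0^m W` (`hres.mem`, constants). Conversely let `m₀` be the minimum of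
`wt·α` over the support of `H` (`h ≠ 0`); `algebraMap h * t0^(-m₀) = P (zq) + t0 * (element of W)`
with `P = ∑_{wt·α = m₀} H_α X^{α'}`, `α'` the exponents at `idx j.succ`, `j : Fin 10`. The map
`α ↦ α'` is injective on `{wt·α = m₀}` (the exponent of `t_0`, of weight one, is determined), so
`P ≠ 0` and `P (zq)` is a unit of `W`. So `algebraMap h` has order exactly `m₀`. -/
theorem mono_val (W : ValuationSubring FA) (k : ZMod 241) (hT : IsUnif W t0)
    (hres : ResIndep W (zq k)) (h : A) (m : ℕ) :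
    algebraMap A FA h * t0 ^ (-(m : ℤ)) ∈ W ↔ Polynomial.X ^ m ∣ thetak k h := by
  classical
  obtain ⟨H, hH, hth⟩ := exists_lin k h
  rw [hth, mon_dvd]
  have ht : t0 ≠ 0 := hT.1
  have htW : t0 ∈ W := hT.2.1
  have hsum : algebraMap A FA h = ∑ α ∈ H.support, algebraMap ℂ FA (coeff α H) * t0 ^ mon_w α *
      ∏ i : Fin 10, zq k i ^ α (idx i.succ) := by
    conv_lhs => rw [hH, H.as_sum]
    rw [map_sum, map_sum]
    exact Finset.sum_congr rfl fun α _ => mon_monomial k ht α _
  have hmemM : ∀ α : Ix →₀ ℕ, ∏ i : Fin 10, zq k i ^ α (idx i.succ) ∈ W := fun α =>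
    prod_mem fun i _ => pow_mem (hres.mem i) _
  -- multiplication by a power of `t0`
  have hshift : ∀ m0 : ℕ, (∀ α ∈ H.support, m0 ≤ mon_w α) → algebraMap A FA h * t0 ^ (-(m0 : ℤ)) =
      ∑ α ∈ H.support, algebraMap ℂ FA (coeff α H) * t0 ^ (mon_w α - m0) *
        ∏ i : Fin 10, zq k i ^ α (idx i.succ) := by
    intro m0 hm0
    rw [hsum, Finset.sum_mul]
    refine Finset.sum_congr rfl fun α hα => ?_
    have h1 : t0 ^ mon_w α * t0 ^ (-(m0 : ℤ)) = t0 ^ (mon_w α - m0) := by
      rw [zpow_neg, zpow_natCast, ← div_eq_mul_inv, div_eq_iff (pow_ne_zero _ ht), ← pow_add,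
        Nat.sub_add_cancel (hm0 α hα)]
    rw [← h1]
    ring
  constructor
  · intro hW
    by_contra hcon
    push Not at hcon
    obtain ⟨α1, hα1, hlt1⟩ := hcon
    obtain ⟨α0, hα0, hmin⟩ := H.support.exists_min_image mon_w ⟨α1, hα1⟩
    have hlt : mon_w α0 < m := lt_of_le_of_lt (hmin α1 hα1) hlt1
    -- the leading part
    let r : (Ix →₀ ℕ) → (Fin 10 →₀ ℕ) := fun α =>
      Finsupp.equivFunOnFinite.symm (fun i => α (idx i.succ))
    let P : MvPolynomial (Fin 10) ℂ :=
      ∑ α ∈ H.support.filter (fun α => mon_w α = mon_w α0), monomial (r α) (coeff α H)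
    have hinj : ∀ α β : Ix →₀ ℕ, mon_w α = mon_w β → r α = r β → α = β := by
      intro α β hw hr
      have h1 : ∀ i : Fin 10, α (idx i.succ) = β (idx i.succ) := by
        intro i
        have := DFunLike.congr_fun hr i
        simpa [r] using this
      have h2 : α (idx 0) = β (idx 0) := by
        rw [mon_w_idx, mon_w_idx, Finset.sum_congr rfl (fun i _ => by rw [h1 i])] at hw
        omega
      ext v
      obtain ⟨j, rfl⟩ := idx_bijective.surjective v
      refine Fin.cases h2 (fun i => h1 i) j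
    have hP : P ≠ 0 := by
      intro h0
      have h1 := congrArg (coeff (r α0)) h0
      rw [coeff_zero] at h1
      simp only [P] at h1
      rw [coeff_sum, Finset.sum_eq_single α0] at h1
      · rw [coeff_monomial, if_pos rfl] at h1
        rw [mem_support_iff] at hα0
        exact hα0 h1
      · intro β hβ hne
        rw [coeff_monomial, if_neg]
        intro hr
        rw [Finset.mem_filter] at hβ
        exact hne (hinj β α0 hβ.2 hr)
      · intro hn
        exact (hn (Finset.mem_filter.2 ⟨hα0, rfl⟩)).elim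
    have hPv : aeval (zq k) P = ∑ α ∈ H.support.filter (fun α => mon_w α = mon_w α0),
        algebraMap ℂ FA (coeff α H) * ∏ i : Fin 10, zq k i ^ α (idx i.succ) := by
      simp only [P]
      rw [map_sum]
      refine Finset.sum_congr rfl fun α _ => ?_
      rw [aeval_monomial, Finsupp.prod_fintype _ _ (fun _ => pow_zero _)]
      rfl
    obtain ⟨hP1, hP2, hP3⟩ := hres P hP
    -- the tail
    have htail : ∃ z ∈ W, algebraMap A FA h * t0 ^ (-(mon_w α0 : ℤ)) =
        aeval (zq k) P + t0 * z := by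
      refine ⟨∑ α ∈ H.support.filter (fun α => ¬ mon_w α = mon_w α0),
        algebraMap ℂ FA (coeff α H) * t0 ^ (mon_w α - mon_w α0 - 1) *
          ∏ i : Fin 10, zq k i ^ α (idx i.succ), ?_, ?_⟩
      · refine sum_mem fun α _ => ?_
        exact mul_mem (mul_mem (hres.const_mem _) (pow_mem htW _)) (hmemM α)
      · rw [hshift _ hmin, hPv]
        exact mon_split _ _ _ _ _ _ hmin
    obtain ⟨z, hz, hzeq⟩ := htail
    exact mon_contra W t0 _ _ z m (mon_w α0) hlt ht htW hT.2.2.1 hP1 hP3 hz hW hzeq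
  · intro hall
    rw [hshift m hall]
    refine sum_mem fun α _ => ?_
    exact mul_mem (mul_mem (hres.const_mem _) (pow_mem htW _)) (hmemM α)

end H5ML
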