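import Pool.Agent.H5.ML.Coo

/-!
# MONB: the twisted substitution on invariants
-/

namespace H5ML

open MvPolynomial

/-- The images of the variables under the twist. -/
noncomputable def monb_sX (j : ZMod 241) : Ix → A
  | .inl i => C (chi (-(u i * j))) * xx i
  | .inr (.inl i) => C (chi (-(u i * j))) * yy i
  | .inr (.inr l) => tt l

/-- The twist. -/
noncomputable def monb_s (j : ZMod 241) : A →ₐ[ℂ] A := aeval (monb_sX j)

theorem monb_s_xx (j : ZMod 241) (i : Fin 3) :
    monb_s j (xx i) = C (chi (-(u i * j))) * xx i := by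
  rw [monb_s, xx, aeval_X]
  rfl

theorem monb_s_yy (j : ZMod 241) (i : Fin 3) :
    monb_s j (yy i) = C (chi (-(u i * j))) * yy i := by
  rw [monb_s, yy, aeval_X]
  rfl

theorem monb_s_tt (j : ZMod 241) (l : Fin 5) : monb_s j (tt l) = tt l := by
  rw [monb_s, tt, aeval_X]
  rfl

theorem monb_s_C (j : ZMod 241) (c : ℂ) : monb_s j (C c) = C c := by
  rw [monb_s, aeval_C]
  rfl

theorem monb_chi (a : ZMod 241) : chi a * chi (-a) = 1 := by
  rw [mul_comm]
  exact chi_neg_mul a

theorem monb_s_neg (j : ZMod 241) : (monb_s (-j)).comp (monb_s j) = AlgHom.id ℂ A := by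
  apply MvPolynomial.algHom_ext
  rintro (i | i | l)
  · change monb_s (-j) (monb_s j (xx i)) = xx i
    rw [monb_s_xx, map_mul, monb_s_C, monb_s_xx, ← mul_assoc, ← C_mul, mul_neg, neg_neg,
      chi_neg_mul, C_1, one_mul]
  · change monb_s (-j) (monb_s j (yy i)) = yy i
    rw [monb_s_yy, map_mul, monb_s_C, monb_s_yy, ← mul_assoc, ← C_mul, mul_neg, neg_neg,
      chi_neg_mul, C_1, one_mul]
  · change monb_s (-j) (monb_s j (tt l)) = tt l
    rw [monb_s_tt, monb_s_tt]

theorem monb_act_tt (k : ZMod 241) (l : Fin 5) : act (.r k) (tt l) = tt l := by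
  rw [act, tt, aeval_X]
  rfl

theorem monb_thetak_xx (k : ZMod 241) (i : Fin 3) : thetak k (xx i) =
    Polynomial.C (yy i) * Polynomial.X ^ 2 + Polynomial.C (xx i) * Polynomial.X := by
  rw [thetak, xx, aeval_X]
  rfl

theorem monb_thetak_yy (k : ZMod 241) (i : Fin 3) : thetak k (yy i) =
    Polynomial.C (C (chi (-(u i * k)))) *
      (Polynomial.C (yy i) * Polynomial.X ^ 2 - Polynomial.C (xx i) * Polynomial.X) := by
  rw [thetak, yy, aeval_X]
  rfl

theorem monb_thetak_tt (k : ZMod 241) (l : Fin 5) : thetak k (tt l) =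
    Polynomial.C (tt l) * Polynomial.X := by
  rw [thetak, tt, aeval_X]
  rfl

/-- the twist on polynomials -/
noncomputable def monb_p (j : ZMod 241) : Polynomial A →+* Polynomial A :=
  Polynomial.mapRingHom (monb_s j : A →+* A)

theorem monb_p_C (j : ZMod 241) (a : A) :
    monb_p j (Polynomial.C a) = Polynomial.C (monb_s j a) := by
  simp [monb_p]

theorem monb_p_X (j : ZMod 241) : monb_p j Polynomial.X = Polynomial.X := by
  simp [monb_p]

theorem monb_p_neg (j : ZMod 241) (q : Polynomial A) : monb_p (-j) (monb_p j q) = q := by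
  have h : ∀ a : A, monb_s (-j) (monb_s j a) = a := fun a =>
    DFunLike.congr_fun (monb_s_neg j) a
  ext1 n
  simp [monb_p, Polynomial.coeff_map, h]

theorem monb_main (j k : ZMod 241) (hjk : j + j = k) (h : A) :
    thetak k h = monb_p j (theta (act (.r j) h)) := by
  have hxx : ∀ i, monb_p j (theta (act (.r j) (xx i))) = thetak k (xx i) := by
    intro i
    rw [act_xx_r, map_mul, theta_C, theta_xx, monb_thetak_xx, map_mul, map_add, map_mul, map_mul,
      map_pow, monb_p_C, monb_p_C, monb_p_C, monb_p_X, monb_s_C, monb_s_xx, monb_s_yy,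
      Polynomial.C_mul, Polynomial.C_mul]
    have h1 : (Polynomial.C (C (chi (u i * j))) * Polynomial.C (C (chi (-(u i * j)))) :
        Polynomial A) = 1 := by
      rw [← Polynomial.C_mul, ← C_mul, monb_chi, C_1, Polynomial.C_1]
    linear_combination (Polynomial.C (yy i) * Polynomial.X ^ 2 +
      Polynomial.C (xx i) * Polynomial.X) * h1
  have hyy : ∀ i, monb_p j (theta (act (.r j) (yy i))) = thetak k (yy i) := by
    intro i
    rw [act_yy_r, map_mul, theta_C, theta_yy, monb_thetak_yy, map_mul, map_sub, map_mul, map_mul,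
      map_pow, monb_p_C, monb_p_C, monb_p_C, monb_p_X, monb_s_C, monb_s_xx, monb_s_yy,
      Polynomial.C_mul, Polynomial.C_mul]
    have h1 : (Polynomial.C (C (chi (-(u i * j)))) * Polynomial.C (C (chi (-(u i * j)))) :
        Polynomial A) = Polynomial.C (C (chi (-(u i * k)))) := by
      rw [← Polynomial.C_mul, ← C_mul, ← chi_add, ← hjk]
      congr 3
      ring
    linear_combination (Polynomial.C (yy i) * Polynomial.X ^ 2 -
      Polynomial.C (xx i) * Polynomial.X) * h1
  have htt : ∀ l, monb_p j (theta (act (.r j) (tt l))) = thetak k (tt l) := by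
    intro l
    rw [monb_act_tt, theta_tt, monb_thetak_tt, map_mul, monb_p_C, monb_p_X, monb_s_tt]
  have hC : ∀ c : ℂ, monb_p j (theta (act (.r j) (C c))) = thetak k (C c) := by
    intro c
    have h1 : act (.r j) (C c) = C c := by simp [act]
    have h2 : thetak k (C c) = Polynomial.C (C c) := by
      rw [thetak, aeval_C]
      rfl
    rw [h1, h2, theta_C, monb_p_C, monb_s_C]
  induction h using MvPolynomial.induction_on with
  | C c => exact (hC c).symm
  | add p q hp hq => rw [map_add, map_add, map_add, map_add, hp, hq]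
  | mul_X p v hp =>
    rw [map_mul, map_mul, map_mul, map_mul, hp]
    congr 1
    rcases v with i | i | l
    · exact (hxx i).symm
    · exact (hyy i).symm
    · exact (htt l).symm

/-- Proof. Let `2 j = k` in `ZMod 241`. Let `σ` be the automorphism of `A[ϖ]` over `ℂ[ϖ]` which
multiplies `xx i` and `yy i` by `χ (- u_i j)` and fixes `tt l`. Then
`thetak k = σ ∘ theta ∘ act (r j)` (check on the variables: for `x_i`
`act (r j)` gives `χ (u_i j) x_i`, `theta` gives `χ (u_i j) (Q ϖ² + P ϖ)`, `σ` gives
`Q ϖ² + P ϖ`; for `y_i` one gets `χ (- u_i j) χ (- u_i j) (Q ϖ² - P ϖ)`,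
`χ (- 2 u_i j) = χ (- u_i k)`). Since `act (r j) h = h`: `thetak k h = σ (theta h)`, and `σ` is
an automorphism fixing `ϖ`. -/
theorem thetak_dvd_iff (k : ZMod 241) (h : A) (hh : ∀ j : ZMod 241, act (.r j) h = h) (m : ℕ) :
    Polynomial.X ^ m ∣ thetak k h ↔ Polynomial.X ^ m ∣ theta h := by
  have hjk : 121 * k + 121 * k = k := by
    have h1 : (242 : ZMod 241) = 1 := by decide
    linear_combination k * h1
  have hm := monb_main (121 * k) k hjk h
  rw [hh] at hm
  have hX : ∀ j, monb_p j (Polynomial.X ^ m) = Polynomial.X ^ m := by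
    intro j
    rw [map_pow, monb_p_X]
  constructor
  · intro hd
    rw [hm] at hd
    have h1 := map_dvd (monb_p (-(121 * k))) hd
    rwa [monb_p_neg, hX] at h1
  · intro hd
    rw [hm]
    have h1 := map_dvd (monb_p (121 * k)) hd
    rwa [hX] at h1

end H5ML
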