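import Mathlib

/-!
# VAL: the valuation ring given by an injective homomorphism to a polynomial ring
-/

namespace H5ML

/-- Auxiliary: divisibility in a power series ring over a field by orders. -/
theorem val_dvd_iff {K : Type} [Field K] (p q : PowerSeries K) (hp : p ≠ 0) :
    p ∣ q ↔ ∀ M : ℕ, (PowerSeries.X : PowerSeries K) ^ M ∣ p → PowerSeries.X ^ M ∣ q := by
  constructor
  · intro h M hM
    exact hM.trans h
  · intro h
    obtain ⟨n, hn⟩ := IsDiscreteValuationRing.associated_pow_irreducible hp
      (PowerSeries.X_irreducible (R := K))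
    exact hn.dvd.trans (h n hn.symm.dvd)

/-- Auxiliary: the map from polynomials over a domain to power series over its fraction field. -/
theorem val_X_pow_dvd {B K : Type} [CommRing B] [IsDomain B] [Field K] [Algebra B K]
    [IsFractionRing B K] (p : Polynomial B) (M : ℕ) :
    (PowerSeries.X : PowerSeries K) ^ M ∣
      ((p.map (algebraMap B K) : Polynomial K) : PowerSeries K) ↔ Polynomial.X ^ M ∣ p := by
  rw [PowerSeries.X_pow_dvd_iff, Polynomial.X_pow_dvd_iff]
  constructor
  · intro h i hi
    have := h i hi
    rw [Polynomial.coeff_coe, Polynomial.coeff_map] at this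
    exact (map_eq_zero_iff _ (IsFractionRing.injective B K)).1 this
  · intro h i hi
    rw [Polynomial.coeff_coe, Polynomial.coeff_map, h i hi, map_zero]

/-- Proof. For `B` a domain the order `ord : B[X] → ℕ ∪ {∞}` (the largest `M` with
`X ^ M ∣ p`; `Polynomial.natTrailingDegree` for `p ≠ 0`) satisfies `ord (p q) = ord p + ord q` and
`ord (p + q) ≥ min`. Put `v (a / b) = ord (ψ a) - ord (ψ b) ∈ ℤ ∪ {∞}`, a valuation of `F₀`
(for instance `Valuation.extendToLocalization` of the valuation `ψ` composed with the `X`-adic
one, or define the valuation subring directly by the condition below). Its valuation ring `V` has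
the property: for `a, b` with `b ≠ 0`, `a / b ∈ V` iff `ord (ψ b) ≤ ord (ψ a)`. -/
theorem exists_val {A₀ F₀ B : Type} [CommRing A₀] [IsDomain A₀] [Field F₀] [Algebra A₀ F₀]
    [IsFractionRing A₀ F₀] [CommRing B] [IsDomain B] (ψ : A₀ →+* Polynomial B)
    (hψ : Function.Injective ψ) :
    ∃ V : ValuationSubring F₀, ∀ a b : A₀, b ≠ 0 →
      (algebraMap A₀ F₀ a / algebraMap A₀ F₀ b ∈ V ↔
        ∀ M : ℕ, Polynomial.X ^ M ∣ ψ b → Polynomial.X ^ M ∣ ψ a) := by
  let K := FractionRing B
  let P := PowerSeries K
  let L := FractionRing P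
  let φ : A₀ →+* P := ((Polynomial.coeToPowerSeries.ringHom (R := K)).comp
    (Polynomial.mapRingHom (algebraMap B K))).comp ψ
  have hφe : ∀ a, φ a = (((ψ a).map (algebraMap B K) : Polynomial K) : PowerSeries K) :=
    fun a => rfl
  have hφ : Function.Injective φ := by
    intro a b hab
    rw [hφe, hφe, Polynomial.coe_inj] at hab
    exact hψ (Polynomial.map_injective _ (IsFractionRing.injective B K) hab)
  let g : A₀ →+* L := (algebraMap P L).comp φ
  have hg : Function.Injective g := (IsFractionRing.injective P L).comp hφ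
  let h : F₀ →+* L := IsFractionRing.lift hg
  have hh : ∀ a, h (algebraMap A₀ F₀ a) = algebraMap P L (φ a) := by
    intro a
    exact IsFractionRing.lift_algebraMap hg a
  refine ⟨((ValuationRing.valuation P L).valuationSubring).comap h, ?_⟩
  intro a b hb
  rw [ValuationSubring.mem_comap, map_div₀, hh, hh]
  have hφb : φ b ≠ 0 := fun h0 => hb (hφ (by rw [h0, map_zero]))
  have hmem : ∀ x : L, x ∈ (ValuationRing.valuation P L).valuationSubring ↔
      ∃ c : P, algebraMap P L c = x := by
    intro x
    exact ValuationRing.mem_integer_iff P L x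
  rw [hmem]
  have h1 : (∃ c : P, algebraMap P L c = algebraMap P L (φ a) / algebraMap P L (φ b)) ↔
      φ b ∣ φ a := by
    have hb' : algebraMap P L (φ b) ≠ 0 := by
      intro h0
      exact hφb ((map_eq_zero_iff _ (IsFractionRing.injective P L)).1 h0)
    constructor
    · rintro ⟨c, hc⟩
      rw [eq_div_iff hb', ← map_mul] at hc
      exact ⟨c, by rw [mul_comm]; exact (IsFractionRing.injective P L hc).symm⟩
    · rintro ⟨c, hc⟩
      exact ⟨c, by rw [eq_div_iff hb', ← map_mul, hc, mul_comm]⟩
  rw [h1, val_dvd_iff _ _ hφb]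
  refine forall_congr' fun M => ?_
  rw [hφe, hφe, val_X_pow_dvd, val_X_pow_dvd]

end H5ML
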