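import Pool.Agent.H5.ML.MonA
import Pool.Agent.H5.ML.Val

/-!
# OSVA: the monomial valuation
-/

namespace H5ML

open MvPolynomial

theorem osva_dvd_iff {p : Polynomial A} (hp : p ≠ 0) (M : ℕ) :
    Polynomial.X ^ M ∣ p ↔ M ≤ p.natTrailingDegree := by
  rw [Polynomial.X_pow_dvd_iff]
  constructor
  · intro h
    exact Polynomial.le_natTrailingDegree hp h
  · intro h d hd
    exact Polynomial.coeff_eq_zero_of_lt_natTrailingDegree (lt_of_lt_of_le hd h)

/-- The left inverse of `theta`. -/
noncomputable def osvaInv : A →ₐ[ℂ] A :=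
  aeval fun
    | .inl i => C (1 / 2) * (xx i - yy i)
    | .inr (.inl i) => C (1 / 2) * (xx i + yy i)
    | .inr (.inr l) => tt l

theorem osvaInv_xx (i : Fin 3) : osvaInv (xx i) = C (1 / 2) * (xx i - yy i) := by
  rw [osvaInv, xx, aeval_X]
  rfl

theorem osvaInv_yy (i : Fin 3) : osvaInv (yy i) = C (1 / 2) * (xx i + yy i) := by
  rw [osvaInv, yy, aeval_X]
  rfl

theorem osvaInv_tt (l : Fin 5) : osvaInv (tt l) = tt l := by
  rw [osvaInv, tt, aeval_X]
  rfl

theorem osva_theta_injective : Function.Injective theta := by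
  have key : ((osvaInv.comp ((Polynomial.aeval (R := A) (1 : A)).restrictScalars ℂ)).comp theta) =
      AlgHom.id ℂ A := by
    have h2 : (C (1 / 2) : A) + C (1 / 2) = 1 := by
      rw [← C_add]
      norm_num
    apply MvPolynomial.algHom_ext
    rintro (i | i | l)
    · change osvaInv (Polynomial.aeval (1 : A) (theta (xx i))) = xx i
      rw [theta_xx]
      simp only [map_add, map_mul, map_pow, Polynomial.aeval_C, Polynomial.aeval_X, one_pow,
        mul_one, Algebra.algebraMap_self, RingHom.id_apply, osvaInv_xx, osvaInv_yy]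
      linear_combination xx i * h2
    · change osvaInv (Polynomial.aeval (1 : A) (theta (yy i))) = yy i
      rw [theta_yy]
      simp only [map_sub, map_mul, map_pow, Polynomial.aeval_C, Polynomial.aeval_X, one_pow,
        mul_one, Algebra.algebraMap_self, RingHom.id_apply, osvaInv_xx, osvaInv_yy]
      linear_combination yy i * h2
    · change osvaInv (Polynomial.aeval (1 : A) (theta (tt l))) = tt l
      rw [theta_tt]
      simp only [map_mul, Polynomial.aeval_C, Polynomial.aeval_X,
        mul_one, Algebra.algebraMap_self, RingHom.id_apply, osvaInv_tt]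
  intro a b hab
  have h1 := congrArg (fun f : A →ₐ[ℂ] A => f a) key
  have h2 := congrArg (fun f : A →ₐ[ℂ] A => f b) key
  simp only [AlgHom.comp_apply, AlgHom.id_apply] at h1 h2
  rw [← h1, ← h2, hab]

/-- The constants of `thc` as complex numbers. -/
noncomputable def osvaC : Ix → ℂ
  | .inl _ => 2
  | .inr (.inl _) => 2
  | .inr (.inr _) => 1

theorem osvaC_ne (v : Ix) : osvaC v ≠ 0 := by
  rcases v with i | i | l <;> simp [osvaC]

theorem osva_theta_lin (v : Ix) : theta (lin 0 v) =
    Polynomial.C (C (osvaC v) * X v) * Polynomial.X ^ wt v := by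
  have h2 : (C (2 : ℂ) : A) = 2 := map_ofNat C 2
  rcases v with i | i | l
  · simp only [lin, osvaC, wt, mul_zero, chi_zero, map_one, one_mul, map_sub, theta_xx, theta_yy,
      h2, pow_one]
    change _ = Polynomial.C (2 * xx i) * Polynomial.X
    rw [map_mul, show (Polynomial.C (2 : A)) = 2 from map_ofNat Polynomial.C 2]
    ring
  · simp only [lin, osvaC, wt, mul_zero, chi_zero, map_one, one_mul, map_add, theta_xx, theta_yy,
      h2]
    change _ = Polynomial.C (2 * yy i) * Polynomial.X ^ 2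
    rw [map_mul, show (Polynomial.C (2 : A)) = 2 from map_ofNat Polynomial.C 2]
    ring
  · simp only [lin, osvaC, wt, theta_tt, map_one, one_mul, pow_one]
    rfl

theorem osva_wt_le_two (v : Ix) : wt v ≤ 2 := by
  rcases v with i | i | l <;> simp [wt]

/-- The enumeration as an equivalence. -/
noncomputable def osvaIdxE : Fin (10 + 1) ≃ Ix := Equiv.ofBijective idx idx_bijective

/-- The specialisation used to detect nonvanishing. -/
noncomputable def osvaPhi : A →ₐ[ℂ] MvPolynomial (Fin 10) ℂ :=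
  aeval fun v => (Fin.cons 1 (fun j : Fin 10 => C (osvaC (idx j.succ))⁻¹ * X j) :
    Fin (10 + 1) → MvPolynomial (Fin 10) ℂ) (osvaIdxE.symm v)

theorem osvaPhi_t : osvaPhi (tt 0) = 1 := by
  have h : osvaIdxE.symm (Sum.inr (Sum.inr 0)) = 0 := by
    rw [Equiv.symm_apply_eq]
    rfl
  rw [osvaPhi, tt, aeval_X, h]
  rfl

theorem osvaPhi_X (j : Fin 10) : osvaPhi (C (osvaC (idx j.succ)) * X (idx j.succ)) = X j := by
  have h : osvaIdxE.symm (idx j.succ) = j.succ := by
    rw [Equiv.symm_apply_eq]
    rfl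
  have hC : osvaPhi (C (osvaC (idx j.succ))) = C (osvaC (idx j.succ)) := by
    rw [osvaPhi, aeval_C]
    rfl
  rw [map_mul, hC, osvaPhi, aeval_X, h, Fin.cons_succ, ← mul_assoc, ← C_mul,
    mul_inv_cancel₀ (osvaC_ne _), C_1, one_mul]

/-- The exponent of `t₀` absorbed by a monomial. -/
noncomputable def osvaS (d : Fin 10 →₀ ℕ) : ℕ := ∑ j : Fin 10, wt (idx j.succ) * d j

theorem osvaS_le (P : MvPolynomial (Fin 10) ℂ) {d : Fin 10 →₀ ℕ} (hd : d ∈ P.support) :
    osvaS d ≤ 2 * P.totalDegree := by
  have h1 := MvPolynomial.le_totalDegree hd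
  rw [Finsupp.sum_fintype _ _ (fun _ => rfl)] at h1
  refine le_trans ?_ (Nat.mul_le_mul_left 2 h1)
  rw [osvaS, Finset.mul_sum]
  exact Finset.sum_le_sum fun j _ => Nat.mul_le_mul_right _ (osva_wt_le_two _)

/-- The numerator. -/
noncomputable def osvaNum (P : MvPolynomial (Fin 10) ℂ) : A :=
  ∑ d ∈ P.support, C (coeff d P) * ((∏ j : Fin 10, lin 0 (idx j.succ) ^ d j) *
    tt 0 ^ (2 * P.totalDegree - osvaS d))

/-- The leading coefficient of the image of the numerator. -/
noncomputable def osvaLead (P : MvPolynomial (Fin 10) ℂ) : A :=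
  ∑ d ∈ P.support, C (coeff d P) *
    ((∏ j : Fin 10, (C (osvaC (idx j.succ)) * X (idx j.succ)) ^ d j) *
    tt 0 ^ (2 * P.totalDegree - osvaS d))

theorem theta_osvaNum (P : MvPolynomial (Fin 10) ℂ) :
    theta (osvaNum P) = Polynomial.C (osvaLead P) * Polynomial.X ^ (2 * P.totalDegree) := by
  rw [osvaNum, osvaLead, map_sum, map_sum, Finset.sum_mul]
  refine Finset.sum_congr rfl fun d hd => ?_
  have h1 : ∀ j : Fin 10, theta (lin 0 (idx j.succ)) ^ d j =
      Polynomial.C ((C (osvaC (idx j.succ)) * X (idx j.succ)) ^ d j) *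
        Polynomial.X ^ (wt (idx j.succ) * d j) := by
    intro j
    rw [osva_theta_lin, mul_pow, ← pow_mul, map_pow]
  rw [map_mul, map_mul, map_prod, map_pow, theta_C, theta_tt]
  simp only [map_pow]
  rw [Finset.prod_congr rfl fun j _ => h1 j, Finset.prod_mul_distrib, Finset.prod_pow_eq_pow_sum,
    mul_pow, map_mul, map_mul, map_prod, map_pow]
  have h2 : (2 * P.totalDegree) = osvaS d + (2 * P.totalDegree - osvaS d) := by
    have := osvaS_le P hd
    omega
  have h3 : (Polynomial.X : Polynomial A) ^ (2 * P.totalDegree) =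
      Polynomial.X ^ (∑ j : Fin 10, wt (idx j.succ) * d j) *
        Polynomial.X ^ (2 * P.totalDegree - osvaS d) := by
    rw [← pow_add]
    congr 1
  rw [h3]
  ring

theorem osvaLead_ne (P : MvPolynomial (Fin 10) ℂ) (hP : P ≠ 0) : osvaLead P ≠ 0 := by
  intro h0
  apply hP
  have h1 : osvaPhi (osvaLead P) = P := by
    rw [osvaLead, map_sum]
    conv_rhs => rw [P.as_sum]
    refine Finset.sum_congr rfl fun d hd => ?_
    rw [map_mul, map_mul, map_prod, map_pow, osvaPhi_t, one_pow, mul_one]
    simp only [map_pow, osvaPhi_X]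
    rw [osvaPhi, aeval_C, MvPolynomial.monomial_eq, Finsupp.prod_fintype _ _ (fun _ => pow_zero _)]
    rfl
  rw [← h1, h0, map_zero]

theorem osvaNum_eq (P : MvPolynomial (Fin 10) ℂ) :
    algebraMap A FA (osvaNum P) = aeval (zq 0) P * t0 ^ (2 * P.totalDegree) := by
  have ht : t0 ≠ 0 := by
    rw [t0, map_ne_zero_iff _ (IsFractionRing.injective A FA)]
    exact X_ne_zero _
  rw [aeval_def, eval₂_eq', Finset.sum_mul, osvaNum, map_sum]
  refine Finset.sum_congr rfl fun d hd => ?_
  rw [map_mul, map_mul, map_prod, map_pow]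
  have h1 : algebraMap A FA (C (coeff d P)) = algebraMap ℂ FA (coeff d P) :=
    (IsScalarTower.algebraMap_apply ℂ A FA _).symm
  rw [h1, mul_assoc]
  congr 1
  have h2 : ∀ j : Fin 10, zq 0 j ^ d j = algebraMap A FA (lin 0 (idx j.succ) ^ d j) *
      t0 ^ (-((wt (idx j.succ) * d j : ℕ) : ℤ)) := by
    intro j
    rw [zq, zk, mul_pow, map_pow, ← zpow_natCast (t0 ^ _) (d j), ← zpow_mul]
    congr 2
    push_cast
    ring
  rw [Finset.prod_congr rfl fun j _ => h2 j, Finset.prod_mul_distrib]
  have h3 : ∏ j : Fin 10, t0 ^ (-((wt (idx j.succ) * d j : ℕ) : ℤ)) =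
      t0 ^ (-((osvaS d : ℕ) : ℤ)) := by
    have : ∀ s : Finset (Fin 10), ∏ j ∈ s, t0 ^ (-((wt (idx j.succ) * d j : ℕ) : ℤ)) =
        t0 ^ (-((∑ j ∈ s, wt (idx j.succ) * d j : ℕ) : ℤ)) := by
      intro s
      induction s using Finset.induction_on with
      | empty => simp
      | insert a s ha ih =>
        rw [Finset.prod_insert ha, Finset.sum_insert ha, ih, ← zpow_add₀ ht]
        congr 1
        push_cast
        ring
    exact this _
  rw [h3, mul_assoc]
  congr 1
  have h4 := osvaS_le P hd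
  change t0 ^ (2 * P.totalDegree - osvaS d) = _
  rw [← zpow_natCast, ← zpow_natCast, ← zpow_add₀ ht]
  congr 1
  omega

theorem exists_W : ∃ W : ValuationSubring FA, IsUnif W t0 ∧ ResIndep W (zq 0) ∧
    ∀ (h : A) (m : ℕ), algebraMap A FA h * t0 ^ (-(m : ℤ)) ∈ W ↔ Polynomial.X ^ m ∣ theta h := by
  obtain ⟨V, hV⟩ := exists_val (F₀ := FA) (theta : A →+* Polynomial A) osva_theta_injective
  have hne : ∀ a : A, a ≠ 0 → theta a ≠ 0 := fun a ha h0 =>
    ha (osva_theta_injective (by rw [h0, map_zero]))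
  let o : A → ℕ := fun a => (theta a).natTrailingDegree
  have hinj := IsFractionRing.injective A FA
  have key : ∀ a b : A, a ≠ 0 → b ≠ 0 →
      (algebraMap A FA a / algebraMap A FA b ∈ V ↔ o b ≤ o a) := by
    intro a b ha hb
    rw [hV a b hb]
    constructor
    · intro h
      have h1 := h (o b) ((osva_dvd_iff (hne b hb) _).2 le_rfl)
      exact (osva_dvd_iff (hne a ha) _).1 h1
    · intro h M hM
      have h1 := (osva_dvd_iff (hne b hb) _).1 hM
      exact (osva_dvd_iff (hne a ha) _).2 (h1.trans h)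
  have omul : ∀ a b : A, a ≠ 0 → b ≠ 0 → o (a * b) = o a + o b := by
    intro a b ha hb
    change (theta (a * b)).natTrailingDegree = _
    rw [map_mul, Polynomial.natTrailingDegree_mul (hne a ha) (hne b hb)]
  have htt : (tt 0 : A) ≠ 0 := X_ne_zero _
  have opow : ∀ m : ℕ, o (tt 0 ^ m) = m := by
    intro m
    change (theta (tt 0 ^ m)).natTrailingDegree = m
    rw [map_pow, theta_tt, mul_pow, ← map_pow, Polynomial.natTrailingDegree_mul,
      Polynomial.natTrailingDegree_C, Polynomial.natTrailingDegree_X_pow, zero_add]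
    · rw [Ne, Polynomial.C_eq_zero]
      exact pow_ne_zero _ htt
    · exact pow_ne_zero _ Polynomial.X_ne_zero
  have oone : o 1 = 0 := by
    have := opow 0
    rwa [pow_zero] at this
  have ht0 : t0 ≠ 0 := by
    rw [t0, map_ne_zero_iff _ hinj]
    exact htt
  have hunit : ∀ a b : A, a ≠ 0 → b ≠ 0 → o a = o b →
      algebraMap A FA a / algebraMap A FA b ∈ V ∧
        (algebraMap A FA a / algebraMap A FA b)⁻¹ ∈ V := by
    intro a b ha hb h
    refine ⟨(key a b ha hb).2 h.ge, ?_⟩
    rw [inv_div]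
    exact (key b a hb ha).2 h.le
  have hthird : ∀ (h : A) (m : ℕ), algebraMap A FA h * t0 ^ (-(m : ℤ)) ∈ V ↔
      Polynomial.X ^ m ∣ theta h := by
    intro h m
    have e1 : algebraMap A FA h * t0 ^ (-(m : ℤ)) =
        algebraMap A FA h / algebraMap A FA (tt 0 ^ m) := by
      rw [zpow_neg, zpow_natCast, map_pow, div_eq_mul_inv]
      rfl
    rcases eq_or_ne h 0 with rfl | hh
    · rw [map_zero, zero_mul, map_zero]
      exact ⟨fun _ => dvd_zero _, fun _ => V.zero_mem⟩
    · rw [e1, key h _ hh (pow_ne_zero _ htt), opow, osva_dvd_iff (hne h hh)]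
  refine ⟨V, ⟨ht0, ?_, ?_, ?_⟩, ?_, hthird⟩
  · have := (key (tt 0) 1 htt one_ne_zero).2 (by
      rw [oone]
      exact Nat.zero_le _)
    rwa [map_one, div_one] at this
  · intro h
    have h1 : algebraMap A FA 1 / algebraMap A FA (tt 0) ∈ V := by
      rw [map_one, one_div]
      exact h
    rw [key 1 (tt 0) one_ne_zero htt, oone] at h1
    have := opow 1
    rw [pow_one] at this
    omega
  · intro h hh
    obtain ⟨a, b, hb, rfl⟩ := IsFractionRing.div_surjective (A := A) h
    have hb0 : b ≠ 0 := nonZeroDivisors.ne_zero hb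
    have ha0 : a ≠ 0 := by
      rintro rfl
      exact hh (by simp)
    have hbF : algebraMap A FA b ≠ 0 := (map_ne_zero_iff _ hinj).2 hb0
    refine ⟨(o b : ℤ) - o a, ?_⟩
    have e : algebraMap A FA a / algebraMap A FA b * t0 ^ ((o b : ℤ) - o a) =
        algebraMap A FA (a * tt 0 ^ (o b)) / algebraMap A FA (b * tt 0 ^ (o a)) := by
      rw [map_mul, map_mul, map_pow, map_pow, zpow_sub₀ ht0, zpow_natCast, zpow_natCast]
      change _ = algebraMap A FA a * t0 ^ (o b) / (algebraMap A FA b * t0 ^ (o a))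
      field_simp
    rw [e]
    refine hunit _ _ (mul_ne_zero ha0 (pow_ne_zero _ htt)) (mul_ne_zero hb0 (pow_ne_zero _ htt)) ?_
    rw [omul _ _ ha0 (pow_ne_zero _ htt), omul _ _ hb0 (pow_ne_zero _ htt), opow, opow, add_comm]
  · intro P hP
    have hlead := osvaLead_ne P hP
    have hnum : osvaNum P ≠ 0 := by
      intro h0
      have h1 := theta_osvaNum P
      rw [h0, map_zero] at h1
      have h2 := h1.symm
      rw [mul_eq_zero, Polynomial.C_eq_zero] at h2
      rcases h2 with h2 | h2
      · exact hlead h2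
      · exact pow_ne_zero _ Polynomial.X_ne_zero h2
    have honum : o (osvaNum P) = 2 * P.totalDegree := by
      change (theta (osvaNum P)).natTrailingDegree = _
      rw [theta_osvaNum, Polynomial.natTrailingDegree_mul, Polynomial.natTrailingDegree_C,
        Polynomial.natTrailingDegree_X_pow, zero_add]
      · rw [Ne, Polynomial.C_eq_zero]
        exact hlead
      · exact pow_ne_zero _ Polynomial.X_ne_zero
    have e : aeval (zq 0) P = algebraMap A FA (osvaNum P) /
        algebraMap A FA (tt 0 ^ (2 * P.totalDegree)) := by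
      rw [osvaNum_eq, map_pow]
      change _ = _ / t0 ^ _
      rw [mul_div_assoc, div_self (pow_ne_zero _ ht0), mul_one]
    rw [e]
    refine ⟨div_ne_zero ((map_ne_zero_iff _ hinj).2 hnum)
      ((map_ne_zero_iff _ hinj).2 (pow_ne_zero _ htt)), ?_⟩
    exact hunit _ _ hnum (pow_ne_zero _ htt) (by rw [honum, opow])

end H5ML
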