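import Pool.Agent.H5.ML.MonA
import Pool.Agent.H5.ML.Val
import Pool.Agent.H5.ML.Ord

/-!
# OSVB: ramification of the monomial valuation over the invariants
-/

namespace H5ML

open MvPolynomial

/-- The substitution `ϖ ↦ -ϖ`. -/
noncomputable def osvb_nu : Polynomial A →ₐ[ℂ] Polynomial A :=
  (Polynomial.aeval (-Polynomial.X : Polynomial A) : Polynomial A →ₐ[A] Polynomial A).restrictScalars ℂ

theorem osvb_nu_X : osvb_nu Polynomial.X = -Polynomial.X := by
  simp [osvb_nu]

theorem osvb_nu_C (a : A) : osvb_nu (Polynomial.C a) = Polynomial.C a := by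
  simp [osvb_nu]

theorem osvb_theta_s (a : A) : theta (act (.sr 0) a) = osvb_nu (theta a) := by
  have h : theta.comp (act (.sr 0)) = osvb_nu.comp theta := by
    apply MvPolynomial.algHom_ext
    rintro (i | i | l)
    · change theta (act (.sr 0) (xx i)) = osvb_nu (theta (xx i))
      rw [act_xx_sr, mul_zero, chi_zero, map_one, one_mul, theta_yy, theta_xx, map_add, map_mul,
        map_mul, map_pow, osvb_nu_X, osvb_nu_C, osvb_nu_C]
      ring
    · change theta (act (.sr 0) (yy i)) = osvb_nu (theta (yy i))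
      rw [act_yy_sr, mul_zero, neg_zero, chi_zero, map_one, one_mul, theta_yy, theta_xx, map_sub,
        map_mul, map_mul, map_pow, osvb_nu_X, osvb_nu_C, osvb_nu_C]
      ring
    · change theta (act (.sr 0) (tt l)) = osvb_nu (theta (tt l))
      rw [act_tt_sr, map_neg, theta_tt, map_mul, osvb_nu_X, osvb_nu_C]
      ring
  exact DFunLike.congr_fun h a

theorem osvb_coeff (p : Polynomial A) (n : ℕ) : (osvb_nu p).coeff n = (-1) ^ n * p.coeff n := by
  induction p using Polynomial.induction_on' with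
  | add p q hp hq => rw [map_add, Polynomial.coeff_add, hp, hq, Polynomial.coeff_add, mul_add]
  | monomial k a =>
    have h1 : osvb_nu (Polynomial.monomial k a)
        = Polynomial.C ((-1) ^ k) * (Polynomial.C a * Polynomial.X ^ k) := by
      rw [← Polynomial.C_mul_X_pow_eq_monomial, map_mul, map_pow, osvb_nu_X, osvb_nu_C,
        neg_pow (Polynomial.X : Polynomial A) k]
      simp only [map_pow, map_neg, map_one]
      ring
    rw [h1, Polynomial.coeff_C_mul, Polynomial.coeff_C_mul_X_pow,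
      ← Polynomial.C_mul_X_pow_eq_monomial, Polynomial.coeff_C_mul_X_pow]
    split_ifs with h
    · rw [h]
    · simp

theorem osvb_even (r : R) (k : ℕ)
    (h : Polynomial.X ^ (2 * k + 1) ∣ theta (algebraMap R A r)) :
    Polynomial.X ^ (2 * k + 2) ∣ theta (algebraMap R A r) := by
  rw [Polynomial.X_pow_dvd_iff] at h ⊢
  intro d hd
  rcases Nat.lt_or_ge d (2 * k + 1) with h1 | h1
  · exact h d h1
  · have h2 : d = 2 * k + 1 := by omega
    subst h2
    have h3 := R_smul (.sr 0) r
    rw [smul_eq] at h3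
    have h4 := osvb_theta_s (algebraMap R A r)
    rw [h3] at h4
    have h5 := osvb_coeff (theta (algebraMap R A r)) (2 * k + 1)
    rw [← h4, pow_succ, pow_mul, neg_one_sq, one_pow, one_mul, neg_one_mul] at h5
    exact self_eq_neg.mp h5

theorem osvb_map (r : R) : algebraMap KR FA (algebraMap R KR r) =
    algebraMap A FA (algebraMap R A r) := by
  rw [← IsScalarTower.algebraMap_apply R KR FA, IsScalarTower.algebraMap_apply R A FA]

theorem osvb_R (W : ValuationSubring FA) (hT : IsUnif W t0)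
    (hW : ∀ (h : A) (m : ℕ), algebraMap A FA h * t0 ^ (-(m : ℤ)) ∈ W ↔
      Polynomial.X ^ m ∣ theta h) (r : R) (hr : r ≠ 0) :
    ∃ k : ℤ, OrdEq W t0 (algebraMap KR FA (algebraMap R KR r)) (2 * k) := by
  have hne : algebraMap KR FA (algebraMap R KR r) ≠ 0 := by
    intro h0
    apply hr
    have h1 : algebraMap R KR r = 0 := (map_eq_zero_iff _ (algebraMap KR FA).injective).1 h0
    exact (map_eq_zero_iff _ (IsFractionRing.injective R KR)).1 h1
  obtain ⟨n, hn⟩ := exists_ordEq hT hne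
  have key : ∀ m : ℕ, (m : ℤ) ≤ n ↔ Polynomial.X ^ m ∣ theta (algebraMap R A r) := by
    intro m
    rw [← hW, ← osvb_map, hn.mul_mem_iff hT]
  have h0 : 0 ≤ n := by
    have := (key 0).2 (by simp)
    simpa using this
  obtain ⟨m, rfl⟩ := Int.eq_ofNat_of_zero_le h0
  rcases Nat.even_or_odd' m with ⟨k, rfl | rfl⟩
  · refine ⟨k, ?_⟩
    have : ((2 * k : ℕ) : ℤ) = 2 * (k : ℤ) := by push_cast; ring
    rwa [this] at hn
  · exfalso
    have h1 := (key (2 * k + 1)).1 le_rfl
    have h2 := (key (2 * k + 2)).2 (osvb_even r k h1)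
    push_cast at h2
    omega

theorem osvb_K (W : ValuationSubring FA) (hT : IsUnif W t0)
    (hW : ∀ (h : A) (m : ℕ), algebraMap A FA h * t0 ^ (-(m : ℤ)) ∈ W ↔
      Polynomial.X ^ m ∣ theta h) (h : KR) (hh : h ≠ 0) :
    ∃ k : ℤ, OrdEq W t0 (algebraMap KR FA h) (2 * k) := by
  obtain ⟨a, b, hb, rfl⟩ := IsFractionRing.div_surjective (A := R) h
  have hb0 : b ≠ 0 := nonZeroDivisors.ne_zero hb
  have ha0 : a ≠ 0 := by
    rintro rfl
    apply hh
    rw [map_zero, zero_div]
  obtain ⟨k, hk⟩ := osvb_R W hT hW a ha0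
  obtain ⟨j, hj⟩ := osvb_R W hT hW b hb0
  refine ⟨k - j, ?_⟩
  have h1 := hk.mul hj.inv hT
  rw [map_div₀, div_eq_mul_inv]
  have h2 : 2 * (k - j) = 2 * k + -(2 * j) := by ring
  rw [h2]
  exact h1

theorem osvb_tsq : ∃ r : R, algebraMap R A r = tt 0 ^ 2 := by
  apply exists_R
  rintro (k | k)
  · rw [smul_eq, map_pow, act_tt_r]
  · rw [smul_eq, map_pow, act_tt_sr, neg_sq]

/-- Proof. `sr 0` multiplies `lin 0 v` by `(-1)^wt v` (`act_xx_sr` and so on with `k = 0`), so for
`a ∈ A` one has `theta (sr 0 • a) = (theta a) (-ϖ)` (both sides are algebra homomorphisms which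
agree on the variables: `theta (y_i) = Q ϖ² - P ϖ`, `theta (x_i) = Q ϖ² + P ϖ`). Hence if
`a` is invariant, `theta a` is a polynomial in `ϖ²`, and its order is even. Every `h ∈ KR` is
`a / b` with `a, b ∈ R`, so its order in `W` is even. The element `t_0² ∈ R` has order two. So
for `O = W ∩ KR`, `t_0²` is a uniformizer of `O` and every uniformizer of `O` has order two in
`W`. -/
theorem ramified (W : ValuationSubring FA) (hT : IsUnif W t0)
    (hW : ∀ (h : A) (m : ℕ), algebraMap A FA h * t0 ^ (-(m : ℤ)) ∈ W ↔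
      Polynomial.X ^ m ∣ theta h) :
    (∃ t, IsUnif (W.comap (algebraMap KR FA)) t) ∧
    ∀ t, IsUnif (W.comap (algebraMap KR FA)) t → OrdEq W t0 (algebraMap KR FA t) 2 := by
  obtain ⟨r, hr⟩ := osvb_tsq
  set T : KR := algebraMap R KR r with hTdef
  have hmT : algebraMap KR FA T = t0 ^ (2 : ℤ) := by
    rw [hTdef, osvb_map, hr, map_pow]
    rfl
  have hT0 : T ≠ 0 := by
    intro h0
    rw [h0, map_zero] at hmT
    exact (zpow_ne_zero 2 hT.1) hmT.symm
  have hO2 : OrdEq W t0 (algebraMap KR FA T) 2 := by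
    rw [hmT]
    exact ordEq_zpow hT 2
  have hU : IsUnif (W.comap (algebraMap KR FA)) T := by
    refine ⟨hT0, ?_, ?_, ?_⟩
    · rw [ValuationSubring.mem_comap]
      exact (hO2.mem_iff hT).2 (by norm_num)
    · rw [ValuationSubring.mem_comap, map_inv₀, hO2.inv.mem_iff hT]
      norm_num
    · intro h hh
      obtain ⟨k, hk⟩ := osvb_K W hT hW h hh
      refine ⟨-k, ?_⟩
      have h1 : algebraMap KR FA (h * T ^ (-k)) = algebraMap KR FA h * t0 ^ (-(2 * k)) := by
        rw [map_mul, map_zpow₀, hmT, ← zpow_mul]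
        congr 2
        ring
      rw [ValuationSubring.mem_comap, ValuationSubring.mem_comap, map_inv₀, h1]
      exact hk.2
  refine ⟨⟨T, hU⟩, fun t ht => ?_⟩
  obtain ⟨n, hn⟩ := exists_ordEq hU ht.1
  have hn1 : n = 1 := (hn.isUnif_iff hU).1 ht
  subst hn1
  obtain ⟨h0, h1, h2⟩ := hn
  rw [ValuationSubring.mem_comap] at h1 h2
  have h3 : algebraMap KR FA (t * T ^ (-1 : ℤ)) = algebraMap KR FA t * t0 ^ (-2 : ℤ) := by
    rw [map_mul, map_zpow₀, hmT, ← zpow_mul]
    norm_num
  rw [map_inv₀, h3] at h2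
  rw [h3] at h1
  refine ⟨?_, h1, h2⟩
  intro h4
  exact h0 ((map_eq_zero_iff _ (algebraMap KR FA).injective).1 h4)

end H5ML
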