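import Pool.Agent.H5.ML.MonA
import Pool.Agent.H5.ML.Val

/-!
# OSVC: the centre of the monomial valuation
-/

namespace H5ML

open MvPolynomial

theorem osvc_coeff (h : A) : (theta h).coeff 0 = C (constantCoeff h) := by
  induction h using MvPolynomial.induction_on with
  | C c => rw [theta_C]; simp
  | add p q hp hq => rw [map_add, Polynomial.coeff_add, hp, hq, map_add, C_add]
  | mul_X p v hp =>
    rw [map_mul, Polynomial.mul_coeff_zero, hp, map_mul, constantCoeff_X, mul_zero, C_0]
    rcases v with i | i | l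
    · have := theta_xx i
      rw [xx] at this
      rw [this]
      simp
    · have := theta_yy i
      rw [yy] at this
      rw [this]
      simp
    · have := theta_tt l
      rw [tt] at this
      rw [this]
      simp

theorem osvc_dvd (h : A) : Polynomial.X ∣ theta h ↔ constantCoeff h = 0 := by
  rw [Polynomial.X_dvd_iff, osvc_coeff, C_eq_zero]

theorem osvc_nonunits {F : Type} [Field F] (W : ValuationSubring F) {t : F} (hT : IsUnif W t)
    (a : F) : a ∈ W.nonunits ↔ a * t⁻¹ ∈ W := by
  obtain ⟨ht0, htW, htI, hex⟩ := hT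
  have htn : t ∈ W.nonunits := by
    have h1 := W.inv_mem_nonunits_iff (x := t⁻¹)
    rw [inv_inv] at h1
    exact h1.mpr (Or.inr htI)
  constructor
  · intro ha
    by_cases ha0 : a = 0
    · rw [ha0, zero_mul]
      exact W.zero_mem
    · obtain ⟨n, hn1, hn2⟩ := hex a ha0
      have hai : a⁻¹ ∉ W := by
        have h1 := W.inv_mem_nonunits_iff (x := a⁻¹)
        rw [inv_inv] at h1
        rcases h1.mp ha with h2 | h2
        · exact absurd (inv_eq_zero.mp h2) ha0
        · exact h2
      have hn : n < 0 := by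
        by_contra hn
        push Not at hn
        apply hai
        obtain ⟨m, rfl⟩ := Int.eq_ofNat_of_zero_le hn
        have h1 : a⁻¹ = (a * t ^ (m : ℤ))⁻¹ * t ^ m := by
          rw [zpow_natCast]
          field_simp
        rw [h1]
        exact W.mul_mem _ _ hn2 (pow_mem htW m)
      obtain ⟨m, hm⟩ : ∃ m : ℕ, n = -(m : ℤ) - 1 := ⟨(-n - 1).toNat, by omega⟩
      have h1 : a * t⁻¹ = (a * t ^ n) * t ^ m := by
        rw [hm, zpow_sub₀ ht0, zpow_neg, zpow_natCast, zpow_one]
        field_simp
      rw [h1]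
      exact W.mul_mem _ _ hn1 (pow_mem htW m)
  · intro ha
    have h1 : a = t * (a * t⁻¹) := by field_simp
    rw [h1]
    exact nonunit_mul htn ha

/-- Proof. `r ∈ R` lies in `W` (`m = 0`) and it is a nonunit of `W` iff `ϖ ∣ theta r` iff the
constant coefficient of `r` is zero (`theta r` at `ϖ = 0` is the constant coefficient of `r`,
since all variables are mapped to multiples of `ϖ`). -/
theorem overPoint_W (W : ValuationSubring FA) (hT : IsUnif W t0)
    (hW : ∀ (h : A) (m : ℕ), algebraMap A FA h * t0 ^ (-(m : ℤ)) ∈ W ↔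
      Polynomial.X ^ m ∣ theta h) :
    OverPoint x0 (W.comap (algebraMap KR FA)) := by
  have hmap : ∀ r : R, algebraMap KR FA (algebraMap R KR r) =
      algebraMap A FA (algebraMap R A r) := by
    intro r
    rw [← IsScalarTower.algebraMap_apply R KR FA, IsScalarTower.algebraMap_apply R A FA]
  have hR : ∀ r : R, algebraMap KR FA (algebraMap R KR r) ∈ W := by
    intro r
    have h1 := (hW (algebraMap R A r) 0).mpr (by simp)
    simp only [Nat.cast_zero, neg_zero, zpow_zero, mul_one] at h1
    rw [hmap]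
    exact h1
  refine ⟨fun r => ValuationSubring.mem_comap.mpr (hR r), fun r => ?_⟩
  have h1 : r ∈ x0 ↔ constantCoeff (algebraMap R A r) = 0 := Iff.rfl
  rw [h1, ← osvc_dvd]
  have h2 := hW (algebraMap R A r) 1
  rw [pow_one] at h2
  rw [← h2, Nat.cast_one, zpow_neg, zpow_one, ← osvc_nonunits W hT, ← hmap]
  set x := algebraMap R KR r
  have h3 : ∀ y : KR, y ∈ (W.comap (algebraMap KR FA)).nonunits ↔
      y⁻¹ = 0 ∨ y⁻¹ ∉ W.comap (algebraMap KR FA) := by
    intro y
    have h4 := (W.comap (algebraMap KR FA)).inv_mem_nonunits_iff (x := y⁻¹)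
    rwa [inv_inv] at h4
  have h5 : ∀ y : FA, y ∈ W.nonunits ↔ y⁻¹ = 0 ∨ y⁻¹ ∉ W := by
    intro y
    have h4 := W.inv_mem_nonunits_iff (x := y⁻¹)
    rwa [inv_inv] at h4
  rw [h3, h5, ValuationSubring.mem_comap, map_inv₀, inv_eq_zero, inv_eq_zero,
    map_eq_zero_iff _ (algebraMap KR FA).injective]

end H5ML
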