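import Pool.Agent.H5.ML.Pol

/-!
# PSIA: `psi` is injective
-/

namespace H5ML

open MvPolynomial

/-- Auxiliary: the images of the variables under the partial inverse of `psi`. -/
noncomputable def psia_inv : Ix → FractionRing A
  | .inl i => -(algebraMap A (FractionRing A) (xx i) / algebraMap A (FractionRing A) (yy i))
  | .inr (.inl i) => algebraMap A (FractionRing A) (yy i)
  | .inr (.inr l) => algebraMap A (FractionRing A) (tt l)

/-- Proof. Compose with the homomorphism `Polynomial (Polynomial A) → A` which is the identity on
`A`, `τ ↦ 0`, `ϖ ↦ 1`: the composition is `y_i ↦ y_i`, `x_i ↦ - y_i x_i` (as `u i ≥ 1`),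
`t_l ↦ t_l`, which is injective (it maps distinct monomials to distinct monomials up to sign:
`x^b y^c t^e ↦ ± x^b y^(b+c) t^e`). -/
theorem psi_injective (H k : ℕ) : Function.Injective (psi H k) := by
  let η : A →ₐ[ℂ] FractionRing A := aeval psia_inv
  let E : Polynomial (Polynomial A) →+* FractionRing A :=
    Polynomial.eval₂RingHom (Polynomial.eval₂RingHom (η : A →+* FractionRing A) 0) 1
  have hu : ∀ i, u i ≠ 0 := by decide
  have hy : ∀ i, algebraMap A (FractionRing A) (yy i) ≠ 0 := by
    intro i h
    have := (map_eq_zero_iff _ (IsFractionRing.injective A (FractionRing A))).1 h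
    exact MvPolynomial.X_ne_zero _ this
  have hηx : ∀ i, η (xx i) = -(algebraMap A (FractionRing A) (xx i) /
      algebraMap A (FractionRing A) (yy i)) := fun i => aeval_X _ _
  have hηy : ∀ i, η (yy i) = algebraMap A (FractionRing A) (yy i) := fun i => aeval_X _ _
  have hηt : ∀ i, η (tt i) = algebraMap A (FractionRing A) (tt i) := fun i => aeval_X _ _
  have key : E.comp (psi H k : A →+* Polynomial (Polynomial A)) =
      algebraMap A (FractionRing A) := by
    apply MvPolynomial.ringHom_ext
    · intro c
      have h1 : (psi H k : A →+* Polynomial (Polynomial A)) (C c) =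
          Polynomial.C (Polynomial.C (C c)) := by
        show psi H k (C c) = _
        rw [psi, aeval_C]
        rfl
      rw [RingHom.comp_apply, h1]
      simp only [E, Polynomial.coe_eval₂RingHom, Polynomial.eval₂_C]
      show η (C c) = _
      rw [show (C c : A) = algebraMap ℂ A c from rfl, AlgHom.commutes]
      rfl
    · intro i
      have h1 : (psi H k : A →+* Polynomial (Polynomial A)) (X i) = psiX H k i := by
        show psi H k (X i) = _
        rw [psi, aeval_X]
      rw [RingHom.comp_apply, h1]
      rcases i with i | i | l
      · simp only [E, psiX, Polynomial.coe_eval₂RingHom, Polynomial.eval₂_C, map_neg, map_mul,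
          map_add, Polynomial.eval₂_neg, Polynomial.eval₂_mul, Polynomial.eval₂_add,
          Polynomial.eval₂_X_pow, one_pow, mul_one, zero_pow (hu i), zero_add]
        show -(η (yy i) * η (xx i)) = algebraMap A (FractionRing A) (xx i)
        rw [hηx, hηy]
        have := hy i
        field_simp
      · simp only [E, psiX, Polynomial.coe_eval₂RingHom, Polynomial.eval₂_C,
          Polynomial.eval₂_mul, Polynomial.eval₂_X_pow, one_pow, mul_one]
        exact hηy i
      · simp only [E, psiX, Polynomial.coe_eval₂RingHom, Polynomial.eval₂_C,
          Polynomial.eval₂_mul, Polynomial.eval₂_X_pow, one_pow, mul_one]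
        exact hηt l
  intro a b hab
  apply IsFractionRing.injective A (FractionRing A)
  rw [← key, RingHom.comp_apply, RingHom.comp_apply]
  exact congrArg E hab

end H5ML
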