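import Pool.Agent.H5.ML.Frame
import Pool.Agent.H5.ML.Pull

/-!
# RH: Riemann-Hurwitz formula for the order of a top form
-/

open scoped TensorProduct

namespace H5ML

/-- A matrix whose rows with positive index are unit vectors. -/
theorem rh_det {F : Type} [Field F] {n : ℕ} (A : Matrix (Fin (n + 1)) (Fin (n + 1)) F)
    (h : ∀ (j : Fin n) (i : Fin (n + 1)), A j.succ i = if i = j.succ then 1 else 0) :
    A.det = A 0 0 := by
  rw [Matrix.det_succ_column_zero, Fin.sum_univ_succ]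
  have h1 : ∀ i : Fin n, A i.succ 0 = 0 := fun i => by
    rw [h, if_neg (Fin.succ_ne_zero i).symm]
  simp only [Fin.val_zero, pow_zero, one_mul, h1, mul_zero, zero_mul, Finset.sum_const_zero,
    add_zero]
  have h2 : A.submatrix (Fin.succAbove 0) Fin.succ = 1 := by
    ext j i
    rw [Matrix.submatrix_apply, Fin.succAbove_zero, h, Matrix.one_apply]
    simp [Fin.succ_inj, eq_comm]
  rw [h2, Matrix.det_one, mul_one]

variable {K F : Type} [Field K] [Field F] [Algebra ℂ K] [Algebra ℂ F] [Algebra K F]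
    [IsScalarTower ℂ K F]

theorem rh_resIndep {n : ℕ} {O : ValuationSubring K} {W : ValuationSubring F}
    (hc : ∀ x : K, algebraMap K F x ∈ W ↔ x ∈ O) {y : Fin n → K} (hy : ResIndep O y) :
    ResIndep W fun j => algebraMap K F (y j) := by
  intro P hP
  obtain ⟨h1, h2, h3⟩ := hy P hP
  have e : MvPolynomial.aeval (fun j => algebraMap K F (y j)) P =
      algebraMap K F (MvPolynomial.aeval y P) :=
    MvPolynomial.aeval_algebraMap_apply F y P
  rw [e]
  refine ⟨(map_ne_zero _).2 h1, (hc _).2 h2, ?_⟩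
  rw [← map_inv₀]
  exact (hc _).2 h3

theorem rh {n : ℕ} (hFf : Algebra.EssFiniteType ℂ F) (hF : Algebra.trdeg ℂ F = (n + 1 : ℕ))
    {O : ValuationSubring K} {W : ValuationSubring F}
    (hc : ∀ x : K, algebraMap K F x ∈ W ↔ x ∈ O) {T : F} (hT : IsUnif W T) (e : ℕ) (he : 1 ≤ e)
    (heq : ∀ t, IsUnif O t → OrdEq W T (algebraMap K F t) e) (ζ : Fin (n + 1) → F)
    (ω : ⋀[K]^(n + 1) Ω[K⁄ℂ]) (hω : IsPull ζ ω) (a : ℤ) (h : HasLogDisc O ω a) :
    ∃ D : Fin (n + 1) → Derivation ℂ F F, IsFrame W T D ∧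
      OrdEq W T (jac D ζ) (e * a - 1) := by
  obtain ⟨t, y, ε, ht, hy, hε0, hε, hεi, rfl⟩ := h
  have hy' := rh_resIndep hc hy
  obtain ⟨D, hDW, hD⟩ := exists_frame hFf hF hT hy'
  refine ⟨D, ⟨hT, hDW, _, hy', hD⟩, ?_⟩
  rw [← hω D, map_smul, detFun_dwedge, Algebra.smul_def, map_mul, map_zpow₀]
  have htT := heq t ht
  have hu : OrdEq W T (algebraMap K F ε) 0 := by
    rw [ordEq_zero_iff]
    refine ⟨by simpa using hε0, (hc _).2 hε, ?_⟩
    rw [← map_inv₀]
    exact (hc _).2 hεi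
  -- the determinant
  have hdet : jac D (fun j => algebraMap K F ((Fin.cons t y : Fin (n + 1) → K) j)) =
      D 0 (algebraMap K F t) := by
    unfold jac
    rw [rh_det]
    · rfl
    · intro j i
      have := hD i j.succ
      simpa using this
  rw [hdet]
  -- the derivative of `t`
  have hD0 : OrdEq W T (D 0 (algebraMap K F t)) (e - 1) := by
    set τ : F := algebraMap K F t with hτ
    set η : F := τ * T ^ (-(e : ℤ)) with hη
    have hηW : η ∈ W := htT.2.1
    have hτη : τ = T ^ e * η := by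
      rw [hη, mul_comm, mul_assoc, ← zpow_natCast, ← zpow_add₀ hT.1]
      simp
    have hDT : D 0 T = 1 := by simpa using hD 0 0
    have h1 : D 0 τ = ((e : ℕ) : F) * (T ^ (e - 1) * η) + T ^ e * D 0 η := by
      rw [hτη, Derivation.leibniz, Derivation.leibniz_pow, hDT]
      simp only [smul_eq_mul, nsmul_eq_mul]
      ring
    have hη0 : OrdEq W T η 0 := by
      rw [ordEq_zero_iff]
      exact ⟨mul_ne_zero htT.1 (zpow_ne_zero _ hT.1), htT.2.1, htT.2.2⟩
    have hconst : ∀ c : ℂ, algebraMap ℂ F c ∈ W := hy'.const_mem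
    have he0 : OrdEq W T ((e : ℕ) : F) 0 := by
      have := OrdEq.of_ne_zero_of_const (t := T) hconst (e : ℂ) (by
        have : e ≠ 0 := by omega
        exact_mod_cast this)
      simpa using this
    have h2 : OrdEq W T (((e : ℕ) : F) * (T ^ (e - 1) * η)) (e - 1) := by
      have h3 := he0.mul (((ordEq_self hT).pow hT (e - 1)).mul hη0 hT) hT
      have h4 : (0 : ℤ) + (((e - 1 : ℕ) : ℤ) * 1 + 0) = e - 1 := by
        push_cast [Nat.cast_sub he]
        ring
      rwa [h4] at h3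
    rw [h1]
    refine h2.add hT ?_
    have h5 : T ^ e * D 0 η * T ^ (-((e : ℤ) - 1 + 1)) = D 0 η := by
      rw [mul_comm (T ^ e), mul_assoc, ← zpow_natCast, ← zpow_add₀ hT.1]
      simp
    rw [h5]
    exact hDW 0 _ hηW
  have h6 := (hu.mul (htT.zpow hT (a - 1)) hT).mul hD0 hT
  have h7 : (0 : ℤ) + (a - 1) * e + (e - 1) = e * a - 1 := by ring
  rwa [h7] at h6

end H5ML
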