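import Pool.Agent.H5.ML.Frame

/-!
# RIN: residually independent elements of a subfield
-/

namespace H5ML

variable {K F : Type} [Field K] [Field F] [Algebra ℂ K] [Algebra ℂ F] [Algebra K F]
    [IsScalarTower ℂ K F]

/-- In an algebraic extension `B` of `A` algebraically independent families have the same size. -/
theorem rin_field {k A B : Type} [Field k] [Field A] [Field B] [Algebra k A] [Algebra A B]
    [Algebra k B] [IsScalarTower k A B] (halg : Algebra.IsAlgebraic A B) {n : ℕ} (x : Fin n → B)
    (hx : AlgebraicIndependent k x) : ∃ y : Fin n → A, AlgebraicIndependent k y := by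
  have h1 : (n : Cardinal) ≤ Algebra.trdeg k B := by
    simpa using hx.cardinalMk_le_trdeg
  have h2 : Algebra.trdeg k A = Algebra.trdeg k B := by
    have h3 := trdeg_add_eq k A (A := B)
    rw [trdeg_eq_zero (R := A) (A := B), add_zero] at h3
    exact h3
  obtain ⟨s, hs⟩ := exists_isTranscendenceBasis k A
  have h4 : Cardinal.mk s = Algebra.trdeg k A := hs.cardinalMk_eq_trdeg
  have h5 : Cardinal.mk (Fin n) ≤ Cardinal.mk s := by
    rw [h4, h2, Cardinal.mk_fin]
    exact h1
  obtain ⟨e⟩ := Cardinal.le_def _ _ |>.1 h5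
  exact ⟨fun i => ((e i : s) : A), hs.1.comp e e.injective⟩

/-- Constants as a ring homomorphism to the valuation ring. -/
noncomputable def rin_const (W : ValuationSubring F) (hc : ∀ c : ℂ, algebraMap ℂ F c ∈ W) :
    ℂ →+* W :=
  (algebraMap ℂ F).codRestrict W hc

theorem rin_const_coe (W : ValuationSubring F) (hc : ∀ c : ℂ, algebraMap ℂ F c ∈ W) (c : ℂ) :
    ((rin_const W hc c : W) : F) = algebraMap ℂ F c := rfl

omit [Algebra ℂ F] in
/-- Units of a valuation ring. -/
theorem rin_unit {W : ValuationSubring F} (w : W) :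
    IsLocalRing.residue W w ≠ 0 ↔ (w : F) ≠ 0 ∧ (w : F)⁻¹ ∈ W := by
  rw [IsLocalRing.residue_ne_zero_iff_isUnit]
  constructor
  · intro h
    obtain ⟨v, hv⟩ := h.exists_right_inv
    have hv' : (w : F) * (v : F) = 1 := congrArg Subtype.val hv
    refine ⟨left_ne_zero_of_mul_eq_one hv', ?_⟩
    rw [inv_eq_of_mul_eq_one_right hv']
    exact v.2
  · rintro ⟨h0, h1⟩
    refine IsUnit.of_mul_eq_one ⟨(w : F)⁻¹, h1⟩ ?_
    ext
    exact mul_inv_cancel₀ h0

/-- Evaluation of polynomials at elements of the valuation ring. -/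
theorem rin_eval {W : ValuationSubring F} (hc : ∀ c : ℂ, algebraMap ℂ F c ∈ W) {n : ℕ}
    (ε : Fin n → W) (P : MvPolynomial (Fin n) ℂ) :
    ((MvPolynomial.eval₂Hom (rin_const W hc) ε P : W) : F) =
      MvPolynomial.aeval (fun i => (ε i : F)) P := by
  have h := MvPolynomial.comp_eval₂Hom (rin_const W hc) ε (algebraMap W F)
  have h2 := congrArg (fun g : MvPolynomial (Fin n) ℂ →+* F => g P) h
  exact h2

/-- Residual independence is algebraic independence of the residues. -/
theorem rin_iff {W : ValuationSubring F} (hc : ∀ c : ℂ, algebraMap ℂ F c ∈ W) {n : ℕ}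
    (ε : Fin n → W) :
    ResIndep W (fun i => (ε i : F)) ↔
      ∀ P : MvPolynomial (Fin n) ℂ, P ≠ 0 →
        MvPolynomial.eval₂Hom ((IsLocalRing.residue W).comp (rin_const W hc))
          (fun i => IsLocalRing.residue W (ε i)) P ≠ 0 := by
  have key : ∀ P : MvPolynomial (Fin n) ℂ,
      MvPolynomial.eval₂Hom ((IsLocalRing.residue W).comp (rin_const W hc))
        (fun i => IsLocalRing.residue W (ε i)) P =
      IsLocalRing.residue W (MvPolynomial.eval₂Hom (rin_const W hc) ε P) := by
    intro P
    have h := MvPolynomial.comp_eval₂Hom (rin_const W hc) ε (IsLocalRing.residue W)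
    exact (congrArg (fun g : MvPolynomial (Fin n) ℂ →+* _ => g P) h).symm
  constructor
  · intro h P hP
    rw [key, rin_unit, rin_eval]
    exact ⟨(h P hP).1, (h P hP).2.2⟩
  · intro h P hP
    have h1 := h P hP
    rw [key, rin_unit, rin_eval] at h1
    refine ⟨h1.1, ?_, h1.2⟩
    rw [← rin_eval hc]
    exact Subtype.property _

/-- The inclusion of the valuation rings. -/
noncomputable def rin_incl {O : ValuationSubring K} {W : ValuationSubring F}
    (hc : ∀ x : K, algebraMap K F x ∈ W ↔ x ∈ O) : O →+* W :=
  ((algebraMap K F).comp O.subtype).codRestrict W fun x => (hc x).2 x.2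

omit [Algebra ℂ K] [Algebra ℂ F] [IsScalarTower ℂ K F] in
theorem rin_incl_coe {O : ValuationSubring K} {W : ValuationSubring F}
    (hc : ∀ x : K, algebraMap K F x ∈ W ↔ x ∈ O) (x : O) :
    ((rin_incl hc x : W) : F) = algebraMap K F x := rfl

omit [Algebra ℂ K] [Algebra ℂ F] [IsScalarTower ℂ K F] in
theorem rin_local {O : ValuationSubring K} {W : ValuationSubring F}
    (hc : ∀ x : K, algebraMap K F x ∈ W ↔ x ∈ O) : IsLocalHom (rin_incl hc) := by
  constructor
  intro a ha
  rw [← IsLocalRing.residue_ne_zero_iff_isUnit, rin_unit] at ha ⊢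
  rw [rin_incl_coe] at ha
  refine ⟨fun h => ha.1 (by rw [h, map_zero]), ?_⟩
  rw [← hc, map_inv₀]
  exact ha.2

/-- The residue field extension is algebraic. -/
theorem rin_alg {O : ValuationSubring K} {W : ValuationSubring F}
    (hc : ∀ x : K, algebraMap K F x ∈ W ↔ x ∈ O) (halg : Algebra.IsAlgebraic K F) (w : W) :
    ∃ q : Polynomial (IsLocalRing.ResidueField O), q ≠ 0 ∧
      letI := rin_local hc
      Polynomial.eval₂ (IsLocalRing.ResidueField.map (rin_incl hc))
        (IsLocalRing.residue W w) q = 0 := by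
  obtain ⟨p, hp, hpw⟩ := halg.isAlgebraic (w : F)
  obtain ⟨i, hi, hmax⟩ := Finset.exists_max_image p.support (fun i => O.valuation (p.coeff i))
    (Polynomial.support_nonempty.2 hp)
  have hi0 : p.coeff i ≠ 0 := Polynomial.mem_support_iff.1 hi
  set p' : Polynomial K := Polynomial.C (p.coeff i)⁻¹ * p with hp'
  have hco : ∀ j, p'.coeff j ∈ O := by
    intro j
    rw [hp', Polynomial.coeff_C_mul]
    by_cases hj : j ∈ p.support
    · rw [← O.valuation_le_one_iff, map_mul, map_inv₀]
      have h1 := hmax j hj
      have h0 : O.valuation (p.coeff i) ≠ 0 := by simpa using hi0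
      calc (O.valuation (p.coeff i))⁻¹ * O.valuation (p.coeff j)
          ≤ (O.valuation (p.coeff i))⁻¹ * O.valuation (p.coeff i) := by gcongr
        _ = 1 := inv_mul_cancel₀ h0
    · rw [Polynomial.notMem_support_iff.1 hj, mul_zero]
      exact O.zero_mem
  have hlift : p' ∈ Polynomial.lifts (O.subtype : O →+* K) := by
    rw [Polynomial.lifts_iff_coeff_lifts]
    intro j
    exact ⟨⟨_, hco j⟩, rfl⟩
  obtain ⟨q, hq⟩ := (Polynomial.mem_lifts _).1 hlift
  have hqi : q.coeff i = 1 := by
    apply Subtype.ext
    have h1 : (O.subtype : O →+* K) (q.coeff i) = p'.coeff i := by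
      rw [← hq, Polynomial.coeff_map]
    have h2 : p'.coeff i = 1 := by
      rw [hp', Polynomial.coeff_C_mul]
      exact inv_mul_cancel₀ hi0
    exact h1.trans h2
  refine ⟨q.map (IsLocalRing.residue O), ?_, ?_⟩
  · intro h0
    have h1 := congrArg (fun g => Polynomial.coeff g i) h0
    simp only [Polynomial.coeff_map, hqi, map_one, Polynomial.coeff_zero] at h1
    exact one_ne_zero h1
  · letI := rin_local hc
    have h1 : Polynomial.eval₂ (rin_incl hc) w q = 0 := by
      apply Subtype.ext
      have h2 : ((Polynomial.eval₂ (rin_incl hc) w q : W) : F) =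
          Polynomial.eval₂ ((algebraMap K F).comp O.subtype) (w : F) q := by
        exact Polynomial.hom_eval₂ q (rin_incl hc) (algebraMap W F) w
      rw [h2, ← Polynomial.eval₂_map, hq, hp', Polynomial.eval₂_mul]
      have h3 : Polynomial.eval₂ (algebraMap K F) (w : F) p = 0 := hpw
      rw [h3, mul_zero]
      rfl
    change Polynomial.eval₂ (IsLocalRing.ResidueField.map (rin_incl hc))
        (IsLocalRing.residue W w) (q.map (IsLocalRing.residue O)) = 0
    rw [Polynomial.eval₂_map]
    have h4 : (IsLocalRing.ResidueField.map (rin_incl hc)).comp (IsLocalRing.residue O) =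
        (IsLocalRing.residue W).comp (rin_incl hc) := by
      ext x
      rfl
    rw [h4, ← Polynomial.hom_eval₂, h1, map_zero]

/-- Proof. `ℂ ⊆ O` (constants are in `W` by `ResIndep.const_mem` and `hc`), so the residue
fields `κ(O)`, `κ(W)` are `ℂ`-algebras. `κ(W) / κ(O)` is algebraic: let `h ∈ W`; it is algebraic
over `K`, so there is a nonzero polynomial over `K` vanishing at `h`; divide by a coefficient of
largest valuation: the coefficients are now in `O` and one of them is `1`, so the reduction is a
nonzero polynomial over `κ(O)` which vanishes at the residue of `h`. The residues of the `ε i` are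
algebraically independent, so `trdeg_ℂ κ(W) ≥ n`, hence `trdeg_ℂ κ(O) ≥ n`
(`Algebra.IsAlgebraic` transitivity: a transcendence basis of `κ(O)` is one of `κ(W)`), and there
are `n` algebraically independent elements of `κ(O)`; lift them to `O`. -/
theorem rindep {n : ℕ} {O : ValuationSubring K} {W : ValuationSubring F}
    (hc : ∀ x : K, algebraMap K F x ∈ W ↔ x ∈ O) (halg : Algebra.IsAlgebraic K F)
    (ε : Fin n → F) (hε : ResIndep W ε) : ∃ y : Fin n → K, ResIndep O y := by
  have cW : ∀ c : ℂ, algebraMap ℂ F c ∈ W := hε.const_mem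
  have cO : ∀ c : ℂ, algebraMap ℂ K c ∈ O := by
    intro c
    rw [← hc, ← IsScalarTower.algebraMap_apply ℂ K F]
    exact cW c
  letI := rin_local hc
  letI iO : Algebra ℂ (IsLocalRing.ResidueField O) :=
    ((IsLocalRing.residue O).comp (rin_const O cO)).toAlgebra
  letI iW : Algebra ℂ (IsLocalRing.ResidueField W) :=
    ((IsLocalRing.residue W).comp (rin_const W cW)).toAlgebra
  letI iOW : Algebra (IsLocalRing.ResidueField O) (IsLocalRing.ResidueField W) :=
    (IsLocalRing.ResidueField.map (rin_incl hc)).toAlgebra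
  haveI : IsScalarTower ℂ (IsLocalRing.ResidueField O) (IsLocalRing.ResidueField W) := by
    refine IsScalarTower.of_algebraMap_eq' ?_
    ext c
    change IsLocalRing.residue W (rin_const W cW c) =
      IsLocalRing.ResidueField.map (rin_incl hc) (IsLocalRing.residue O (rin_const O cO c))
    have : rin_const W cW c = rin_incl hc (rin_const O cO c) := by
      apply Subtype.ext
      rw [rin_const_coe, rin_incl_coe, rin_const_coe, ← IsScalarTower.algebraMap_apply ℂ K F]
    rw [this]
    rfl
  have halg' : Algebra.IsAlgebraic (IsLocalRing.ResidueField O) (IsLocalRing.ResidueField W) := by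
    constructor
    intro x
    obtain ⟨w, rfl⟩ := IsLocalRing.residue_surjective x
    obtain ⟨q, hq, hq0⟩ := rin_alg hc halg w
    exact ⟨q, hq, hq0⟩
  have hmem : ∀ i, ε i ∈ W := fun i => hε.mem i
  have hind : AlgebraicIndependent ℂ fun i => IsLocalRing.residue W ⟨ε i, hmem i⟩ := by
    rw [algebraicIndependent_iff]
    intro P hP
    by_contra hP0
    exact (rin_iff cW fun i => ⟨ε i, hmem i⟩).1 hε P hP0 hP
  obtain ⟨y, hy⟩ := rin_field halg' _ hind
  choose z hz using fun i => IsLocalRing.residue_surjective (y i)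
  refine ⟨fun i => (z i : K), (rin_iff cO z).2 ?_⟩
  intro P hP h0
  apply hP
  rw [algebraicIndependent_iff] at hy
  apply hy
  have hyz : y = fun i => IsLocalRing.residue O (z i) := by
    funext i
    exact (hz i).symm
  rw [hyz]
  exact h0

end H5ML
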