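import Pool.Agent.H5.ML.Core
import Pool.Agent.H5.ML.PsiA
import Pool.Agent.H5.ML.Val
import Pool.Agent.H5.ML.GeoC
import Pool.Agent.H5.ML.Lb
import Pool.Agent.H5.ML.Eqc
import Pool.Agent.H5.ML.Jex
import Pool.Agent.H5.ML.Rh
import Pool.Agent.H5.ML.Exa
import Pool.Agent.H5.ML.Rin
import Pool.Agent.H5.ML.Ext
import Pool.Agent.H5.ML.InvC
import Pool.Agent.H5.ML.InvD
import Pool.Agent.H5.ML.Cen
import Pool.Agent.H5.ML.Cas
import Pool.Agent.H5.ML.Mon
import Pool.Agent.H5.ML.MonB
import Pool.Agent.H5.ML.MonC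
import Pool.Agent.H5.ML.HonA
import Pool.Agent.H5.ML.HonB
import Pool.Agent.H5.ML.HonC
import Pool.Agent.H5.ML.HonD
import Pool.Agent.H5.ML.OsvA
import Pool.Agent.H5.ML.OsvB
import Pool.Agent.H5.ML.OsvC

/-!
# Assembly
-/

open scoped TensorProduct

namespace H5ML

open MvPolynomial

theorem zc_basis : Algebra.IsAlgebraic (IntermediateField.adjoin ℂ (Set.range zc)) FA :=
  (tb_fin essFiniteType_FA trdeg_FA zc zc_indep).1

theorem algebraic_FA : Algebra.IsAlgebraic KR FA := by
  have := IsGaloisGroup.isGalois G KR FA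
  exact this.to_normal.toIsAlgebraic

/-- The map `R → FA`. -/
theorem map_R (r : R) :
    algebraMap KR FA (algebraMap R KR r) = algebraMap A FA (algebraMap R A r) := by
  rw [← IsScalarTower.algebraMap_apply R KR FA, ← IsScalarTower.algebraMap_apply R A FA]

theorem map_C (c : ℂ) :
    algebraMap KR FA (algebraMap R KR (algebraMap ℂ R c)) = algebraMap ℂ FA c := by
  rw [map_R, ← IsScalarTower.algebraMap_apply ℂ R A, ← IsScalarTower.algebraMap_apply ℂ A FA]

theorem map_C' (c : ℂ) : algebraMap ℂ KR c = algebraMap R KR (algebraMap ℂ R c) :=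
  IsScalarTower.algebraMap_apply ℂ R KR c

/-- Units of `O` have order zero in an extension. -/
theorem ordEq_map_unit {O : ValuationSubring KR} {W : ValuationSubring FA} {T : FA}
    (hc : ∀ x : KR, algebraMap KR FA x ∈ W ↔ x ∈ O) {x : KR} (h0 : x ≠ 0) (h1 : x ∈ O)
    (h2 : x⁻¹ ∈ O) : OrdEq W T (algebraMap KR FA x) 0 := by
  rw [ordEq_zero_iff]
  refine ⟨by simpa using h0, (hc x).2 h1, ?_⟩
  rw [← map_inv₀]
  exact (hc _).2 h2

/-- The order in an extension is the ramification index times the order. -/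
theorem ordEq_map {O : ValuationSubring KR} {W : ValuationSubring FA} {T : FA}
    (hT : IsUnif W T)
    (hc : ∀ x : KR, algebraMap KR FA x ∈ W ↔ x ∈ O) {t : KR} (ht : IsUnif O t) {e : ℤ}
    (he : OrdEq W T (algebraMap KR FA t) e) {x : KR} {n : ℤ} (hx : OrdEq O t x n) :
    OrdEq W T (algebraMap KR FA x) (e * n) := by
  have h1 : x = (x * t ^ (-n)) * t ^ n := by
    rw [mul_assoc, ← zpow_add₀ ht.1]
    simp
  rw [h1, map_mul, map_zpow₀]
  have h2 := ordEq_map_unit (T := T) hc (mul_ne_zero hx.1 (zpow_ne_zero _ ht.1)) hx.2.1 hx.2.2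
  have h3 := h2.mul (he.zpow hT n) hT
  rwa [zero_add, mul_comm n e] at h3

/-- The extension `W` of `O`, with ramification index the order of the inertia group. -/
theorem exists_ext (O : ValuationSubring KR) {t : KR} (ht : IsUnif O t) (hO : Over R O) :
    ∃ (W : ValuationSubring FA) (T : FA), IsUnif W T ∧
      (∀ x : KR, algebraMap KR FA x ∈ W ↔ x ∈ O) ∧
      ∀ t', IsUnif O t' → OrdEq W T (algebraMap KR FA t') (Nat.card (inert G W)) := by
  have hC : ∀ c : ℂ, algebraMap ℂ KR c ∈ O := fun c => by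
    rw [map_C']
    exact hO _
  obtain ⟨W, T, hT, hc, he⟩ := ext_val (F := FA) G ht hC
  refine ⟨W, T, hT, hc, fun t' ht' => ?_⟩
  have h1 : OrdEq O t t' 1 := (ordEq_self ht').congr_unif ht' ht
  simpa using ordEq_map hT hc ht he h1

theorem const_mem_W {O : ValuationSubring KR} {W : ValuationSubring FA}
    (hc : ∀ x : KR, algebraMap KR FA x ∈ W ↔ x ∈ O) (hO : Over R O) (c : ℂ) :
    algebraMap ℂ FA c ∈ W := by
  rw [← map_C, hc]
  exact hO _

theorem A_mem_W {O : ValuationSubring KR} {W : ValuationSubring FA}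
    (hc : ∀ x : KR, algebraMap KR FA x ∈ W ↔ x ∈ O) (hO : Over R O) (a : A) :
    algebraMap A FA a ∈ W := by
  refine contains_A W (fun r => ?_) a
  rw [← map_R, hc]
  exact hO _

theorem nonunit_map {O : ValuationSubring KR} {W : ValuationSubring FA}
    (hc : ∀ x : KR, algebraMap KR FA x ∈ W ↔ x ∈ O) (x : KR) :
    algebraMap KR FA x ∈ W.nonunits ↔ x ∈ O.nonunits := by
  rw [W.mem_nonunits_iff_or, O.mem_nonunits_iff_or, ← map_inv₀, hc]
  simp

theorem centre_W {O : ValuationSubring KR} {W : ValuationSubring FA}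
    (hc : ∀ x : KR, algebraMap KR FA x ∈ W ↔ x ∈ O) (hO : OverPoint x0 O) (v : Ix) :
    algebraMap A FA (X v) ∈ W.nonunits := by
  refine centre_A W (fun r => ?_) (fun r hr => ?_) v
  · rw [← map_R, hc]
    exact hO.1 _
  · rw [← map_R, nonunit_map hc]
    exact (hO.2 r).1 hr

theorem jac_mem {W : ValuationSubring FA} {T : FA} {D : Fin (10 + 1) → Derivation ℂ FA FA}
    (hD : IsFrame W T D) (hA : ∀ a : A, algebraMap A FA a ∈ W) : jac D zc ∈ W :=
  det_mem _ fun _ i => hD.2.1 i _ (hA _)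

theorem card_pos' (W : ValuationSubring FA) : 1 ≤ Nat.card (inert G W) := Nat.card_pos

theorem sum11 (f : Fin (10 + 1) → ℤ) :
    ∑ j, f j = f 0 + f 1 + f 2 + f 3 + f 4 + f 5 + f 6 + f 7 + f 8 + f 9 + f 10 := by
  simp only [Fin.sum_univ_succ, Fin.sum_univ_zero]
  simp only [Fin.succ_zero_eq_one, Fin.succ_one_eq_two, add_zero]
  change f 0 + (f 1 + (f 2 + (f 3 + (f 4 + (f 5 + (f 6 + (f 7 + (f 8 + (f 9 + f 10))))))))) = _
  ring

/-- Kawamata log terminal singularities. -/
theorem klt_R (ω : ⋀[KR]^(10 + 1) Ω[KR⁄ℂ]) (h0 : ω ≠ 0) (hω : IsPull zc ω) :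
    Klt R ω := by
  intro O hO hR
  obtain ⟨a, ha⟩ := exists_logDisc essFiniteType_KR trdeg_KR O hO ω h0
  refine ⟨a, ?_, ha, fun b hb => logDisc_unique essFiniteType_KR trdeg_KR O ω a b ha hb⟩
  obtain ⟨t, ht⟩ := hO.1
  obtain ⟨W, T, hT, hc, he⟩ := exists_ext O ht hR
  obtain ⟨D, hD, hJ⟩ := rh essFiniteType_FA trdeg_FA hc hT _ (card_pos' W) he zc ω hω a ha
  have h1 := (hJ.mem_iff hT).1 (jac_mem hD (A_mem_W hc hR))
  have h2 : (1 : ℤ) ≤ Nat.card (inert G W) * a := by omega
  by_contra hneg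
  push Not at hneg
  have h3 : (Nat.card (inert G W) : ℤ) * a ≤ 0 :=
    mul_nonpos_of_nonneg_of_nonpos (by positivity) hneg
  omega

theorem lin_ne_zero (k : ZMod 241) (v : Ix) : lin k v ≠ 0 := by
  intro h
  rcases v with i | i | l
  · have h1 := congrArg (MvPolynomial.eval (fun w : Ix => if w = .inl i then (1 : ℂ) else 0)) h
    simp [lin, xx, yy] at h1
  · have h1 := congrArg (MvPolynomial.eval (fun w : Ix => if w = .inl i then (1 : ℂ) else 0)) h
    simp [lin, xx, yy] at h1
  · have h1 := congrArg (MvPolynomial.eval (fun _ : Ix => (1 : ℂ))) h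
    simp [lin, tt] at h1

theorem zk_ne_zero (k : ZMod 241) (j : Fin (10 + 1)) : zk k j ≠ 0 := by
  unfold zk
  rw [Ne, FaithfulSMul.algebraMap_eq_zero_iff A FA]
  exact lin_ne_zero k _

theorem zc_ne_zero (j : Fin (10 + 1)) : zc j ≠ 0 := by
  unfold zc
  rw [Ne, FaithfulSMul.algebraMap_eq_zero_iff A FA]
  exact X_ne_zero (idx j)

/-- Lower bound in terms of the orders of a system of coordinates. -/
theorem lower {W : ValuationSubring FA} {T : FA} (hT : IsUnif W T)
    {D : Fin (10 + 1) → Derivation ℂ FA FA} (hD : IsFrame W T D) (ζ : Fin (10 + 1) → FA)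
    {a : Fin (10 + 1) → ℤ} (ha : ∀ j, OrdEq W T (ζ j) (a j)) {m : ℤ}
    (hJ : OrdEq W T (jac D ζ) m) : ∑ j, a j ≤ m + 1 := by
  have h1 := lb hD ζ a ha
  have h2 : (1 : ℤ) - ∑ j, a j = -(∑ j, a j - 1) := by ring
  rw [h2, hJ.mul_mem_iff hT] at h1
  omega

/-- Analysis of a prime divisor over the point `x0`: the log discrepancy is at least `7`, and if
it is `7` then we know the value of every invariant. -/
theorem analysis (ω : ⋀[KR]^(10 + 1) Ω[KR⁄ℂ]) (hω : IsPull zc ω) (O : ValuationSubring KR)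
    (hO : OverPoint x0 O) (a : ℤ) (h : HasLogDisc O ω a) :
    7 ≤ a ∧ (a = 7 → ∀ (r : R) (n : ℕ), OrdGe O n (algebraMap R KR r) ↔
      Polynomial.X ^ (2 * n) ∣ theta (algebraMap R A r)) := by
  obtain ⟨t, y, ε, ht, hy, -⟩ := id h
  obtain ⟨W, T, hT, hc, he⟩ := exists_ext O ht hO.1
  obtain ⟨D, hD, hJ⟩ := rh essFiniteType_FA trdeg_FA hc hT _ (card_pos' W) he zc ω hω a h
  have hC := const_mem_W hc hO.1
  have hA := A_mem_W hc hO.1
  have hcen := centre_W hc hO
  choose o ho using fun j => exists_ordEq hT (zc_ne_zero j)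
  have ho1 : ∀ j, 1 ≤ o j := fun j => ((ho j).nonunit_iff hT).1 (hcen _)
  have hlow := lower hT hD zc ho hJ
  rcases inert_cases W T hT hC hcen with h1 | ⟨h1, h2, h3⟩ | ⟨h1, k, hk⟩
  · have h2 : (11 : ℤ) ≤ ∑ j, o j := by
      have := Finset.sum_le_sum fun j (_ : j ∈ Finset.univ) => ho1 j
      simpa using this
    have h3 := h2.trans hlow
    rw [h1] at h3
    push_cast at h3
    exact ⟨by omega, fun ha => by omega⟩
  · have x0' := h2 0 (o 1) (o 4) (ho 1) (ho 4)
    have x1' := h2 1 (o 2) (o 5) (ho 2) (ho 5)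
    have x2' := h2 2 (o 3) (o 6) (ho 3) (ho 6)
    have y0 := h3 0 (o 0) (ho 0)
    have y1 := h3 1 (o 7) (ho 7)
    have y2 := h3 2 (o 8) (ho 8)
    have y3 := h3 3 (o 9) (ho 9)
    have y4 := h3 4 (o 10) (ho 10)
    rw [sum11] at hlow
    have h4 : 1928 ≤ (Nat.card (inert G W) : ℤ) * a := by omega
    have h5 : 8 ≤ a := by
      by_contra hneg
      push Not at hneg
      have h6 : (Nat.card (inert G W) : ℤ) ≤ 241 := by exact_mod_cast h1
      have h7 : (0 : ℤ) ≤ Nat.card (inert G W) := by positivity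
      nlinarith
    exact ⟨by omega, fun ha => by omega⟩
  · obtain ⟨c, hc0, hcJ⟩ := jac_zk k
    choose o' ho' using fun j => exists_ordEq hT (zk_ne_zero k j)
    have hJ' : OrdEq W T (jac D (zk k)) (Nat.card (inert G W) * a - 1) := by
      rw [hcJ]
      have := (OrdEq.of_ne_zero_of_const (t := T) hC c hc0).mul hJ hT
      rwa [zero_add] at this
    have hlow' := lower hT hD (zk k) ho' hJ'
    have hge : ∀ j, (wt (idx j) : ℤ) ≤ o' j := fun j => hk (idx j) (o' j) (ho' j)
    have hsum : (14 : ℤ) ≤ ∑ j, o' j := by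
      rw [← sum_wt]
      exact Finset.sum_le_sum fun j _ => hge j
    have hlow2 := hsum.trans hlow'
    rw [h1] at hlow2
    push_cast at hlow2
    refine ⟨by omega, fun ha => ?_⟩
    subst ha
    have heq : ∀ j, o' j = wt (idx j) := by
      have h14 : ∑ j, (o' j - wt (idx j)) = 0 := by
        rw [Finset.sum_sub_distrib, sum_wt]
        rw [h1] at hlow'
        have h15 := le_antisymm hlow' hsum
        rw [h15]
        norm_num
      have := (Finset.sum_eq_zero_iff_of_nonneg fun j _ => sub_nonneg.2 (hge j)).1 h14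
      intro j
      have := this j (Finset.mem_univ _)
      omega
    have hT0 : IsUnif W t0 := by
      have h2 := ho' 0
      rw [heq 0, zk_zero] at h2
      exact (h2.isUnif_iff hT).2 rfl
    have hord : ∀ j, OrdEq W t0 (zk k j) (wt (idx j)) := fun j => by
      have := ho' j
      rw [heq j] at this
      exact this.congr_unif hT hT0
    have he' : ∀ t', IsUnif O t' → OrdEq W t0 (algebraMap KR FA t') (Nat.card (inert G W)) :=
      fun t' ht' => (he t' ht').congr_unif hT hT0
    obtain ⟨D', hD', hJ2⟩ :=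
      rh essFiniteType_FA trdeg_FA hc hT0 _ (card_pos' W) he' zc ω hω 7 h
    have hJ3 : OrdEq W t0 (jac D' (zk k)) (∑ j, (wt (idx j) : ℤ) - 1) := by
      rw [hcJ, sum_wt]
      have := (OrdEq.of_ne_zero_of_const (t := t0) hC c hc0).mul hJ2 hT0
      rw [h1] at this
      simpa using this
    have hres : ResIndep W (zq k) := by
      have := eqc hD' (zk k) (zk_zero k) (fun j => (wt (idx j) : ℤ)) hord hJ3
      exact this
    intro r n
    rcases eq_or_ne r 0 with rfl | hr
    · simp only [map_zero, dvd_zero, iff_true]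
      exact ⟨t, ht, by rw [zero_mul]; exact O.zero_mem⟩
    · have hr' : algebraMap R KR r ≠ 0 := by
        rwa [Ne, FaithfulSMul.algebraMap_eq_zero_iff R KR]
      obtain ⟨N, hN⟩ := exists_ordEq ht hr'
      have h2 := ordEq_map hT0 hc ht (he' t ht) hN
      rw [h1, map_R] at h2
      rw [hN.ordGe_iff ht, ← thetak_dvd_iff k _ (fun j => R_smul _ r) (2 * n),
        ← mono_val W k hT0 hres, h2.mul_mem_iff hT0]
      push_cast
      omega

/-- The constant term of `psi H k a` is the constant term of `a`. -/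
theorem psi_coeff_zero (H k : ℕ) (hH : 1 ≤ H) (a : A) :
    (psi H k a).coeff 0 = Polynomial.C (MvPolynomial.C (MvPolynomial.constantCoeff a)) := by
  have h : (Polynomial.constantCoeff (R := Polynomial A)).comp (psi H k : A →+* Polynomial (Polynomial A)) =
      ((Polynomial.C (R := A)).comp (MvPolynomial.C (σ := Ix) (R := ℂ))).comp
        (MvPolynomial.constantCoeff (σ := Ix) (R := ℂ)) := by
    apply MvPolynomial.ringHom_ext
    · intro c
      simp [psi]
    · rintro (i | i | l)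
      · have hl : lw H i ≠ 0 := by
          have h1 : 15 ≤ u i := by fin_cases i <;> simp [u]
          have h2 : H * (15 + 241) ≤ H * (u i + 241) := Nat.mul_le_mul_left H (by omega)
          unfold lw
          split_ifs <;> omega
        simp [psi, psiX, hl.symm]
      · have hl : lw H i ≠ 0 := by
          have h1 : 15 ≤ u i := by fin_cases i <;> simp [u]
          have h2 : H * (15 + 241) ≤ H * (u i + 241) := Nat.mul_le_mul_left H (by omega)
          unfold lw
          split_ifs <;> omega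
        simp [psi, psiX, hl.symm]
      · have hl : lt H ≠ 0 := by
          unfold lt
          omega
        simp [psi, psiX, hl.symm]
  have := congrArg (fun φ : A →+* Polynomial A => φ a) h
  simpa using this

/-- The valuation which shows that the sections of `𝒪(-qE)` are not bounded below. -/
theorem exists_bad_val (ω : ⋀[KR]^(10 + 1) Ω[KR⁄ℂ]) (hω : IsPull zc ω) (O : ValuationSubring KR)
    (hO : OverPoint x0 O) (h : HasLogDisc O ω 7) (q : ℕ) (hq : 1 ≤ q) (I : Finset R)
    (hI : ∀ s ∈ I, OrdGe O q (algebraMap R KR s)) :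
    ∃ V : ValuationSubring KR, (∀ r : R, algebraMap R KR r ∈ V) ∧
      (∀ g : R, g ∉ x0 → (algebraMap R KR g)⁻¹ ∈ V) ∧
      ∃ (j : ℕ) (b : R), OrdGe O (q * j) (algebraMap R KR b) ∧
        ∀ s ∈ I, ∀ c ∈ V, algebraMap R KR b ≠ algebraMap R KR s ^ j * c := by
  classical
  have huniq := (analysis ω hω O hO 7 h).2 rfl
  obtain ⟨H, k, j, M, b, hH, hk, hj, hb, hbθ, hIM, hbM⟩ := core q hq (I.image (algebraMap R A)) (by
    intro s hs
    obtain ⟨r, hr, rfl⟩ := Finset.mem_image.1 hs
    exact ⟨fun k => R_smul _ r, (huniq r q).1 (hI r hr)⟩)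
  obtain ⟨rb, rfl⟩ := exists_R b hb
  obtain ⟨V, hV⟩ := exists_val (F₀ := FA) (psi H k : A →+* Polynomial (Polynomial A))
    (psi_injective H k)
  have hVA : ∀ a : A, algebraMap A FA a ∈ V := fun a => by
    have := (hV a 1 one_ne_zero).2 (by
      intro M hM
      have hM0 : M = 0 := by
        rw [map_one] at hM
        by_contra hne
        have h2 := dvd_trans (dvd_pow_self Polynomial.X hne) hM
        exact Polynomial.not_isUnit_X (isUnit_of_dvd_one h2)
      subst hM0
      simp)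
    simpa using this
  refine ⟨V.comap (algebraMap KR FA), fun r => ?_, fun g hg => ?_, j, rb, (huniq rb _).2 hbθ, ?_⟩
  · change algebraMap KR FA _ ∈ V
    rw [map_R]
    exact hVA _
  · change algebraMap KR FA _ ∈ V
    have hg0 : MvPolynomial.constantCoeff (algebraMap R A g) ≠ 0 := hg
    have hgA : algebraMap R A g ≠ 0 := fun h0 => hg0 (by rw [h0, map_zero])
    have h1 := (hV 1 (algebraMap R A g) hgA).2 (by
      intro M hM
      have hM0 : M = 0 := by
        by_contra hne
        have h2 : Polynomial.X ∣ psi H k (algebraMap R A g) :=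
          dvd_trans (dvd_pow_self Polynomial.X hne) hM
        rw [Polynomial.X_dvd_iff, psi_coeff_zero H k hH] at h2
        apply hg0
        have h3 := Polynomial.C_injective (h2.trans Polynomial.C_0.symm)
        exact MvPolynomial.C_injective Ix ℂ (h3.trans (map_zero _).symm)
      subst hM0
      simp)
    rw [map_one, one_div] at h1
    rwa [map_inv₀, map_R]
  · intro s hs c hcV hc
    have hcV' : algebraMap KR FA c ∈ V := hcV
    have h1 := congrArg (algebraMap KR FA) hc
    rw [map_mul, map_pow, map_R, map_R] at h1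
    have hsM := hIM _ (Finset.mem_image_of_mem (algebraMap R A) hs)
    rcases eq_or_ne (algebraMap R A s) 0 with hs0 | hs0
    · rw [hs0, map_zero, zero_pow (by omega), zero_mul,
        FaithfulSMul.algebraMap_eq_zero_iff A FA] at h1
      apply hbM
      rw [h1, map_zero]
      exact dvd_zero _
    · have hs1 : (algebraMap R A s) ^ j ≠ 0 := pow_ne_zero _ hs0
      have hs2 : algebraMap A FA ((algebraMap R A s) ^ j) ≠ 0 := by
        rwa [Ne, FaithfulSMul.algebraMap_eq_zero_iff A FA]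
      have h2 : algebraMap KR FA c =
          algebraMap A FA (algebraMap R A rb) / algebraMap A FA ((algebraMap R A s) ^ j) := by
        rw [eq_div_iff hs2, h1, map_pow, mul_comm]
      rw [h2, hV _ _ hs1] at hcV'
      apply hbM
      refine hcV' _ ?_
      rw [map_pow, pow_mul]
      exact pow_dvd_pow_of_dvd hsM j

/-- No prime divisor over the point which computes the minimal log discrepancy admits a
divisorial contraction, over any affine open neighbourhood `Spec S` of the point. -/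
theorem no_contraction (ω : ⋀[KR]^(10 + 1) Ω[KR⁄ℂ]) (hω : IsPull zc ω) (O : ValuationSubring KR)
    (hO : OverPoint x0 O) (h : HasLogDisc O ω 7) (g : R) (hg : g ∉ x0) (S : Type) [CommRing S]
    [Algebra R S] [IsLocalization.Away g S] [Algebra S KR] [IsScalarTower R S KR]
    (C : DivisorialContraction S O) : False := by
  classical
  obtain ⟨t, y, ε, ht, hy, -⟩ := id h
  obtain ⟨q, hq, I, hI, hgeo⟩ := geo C ⟨t, ht⟩
  have hg0 : algebraMap R KR g ≠ 0 := by
    intro h0
    apply hg
    have : g = 0 := IsFractionRing.injective R KR (h0.trans (map_zero _).symm)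
    rw [this]
    exact x0.zero_mem
  choose n r hr using fun z : S => IsLocalization.Away.surj g z
  have hrK : ∀ z : S, algebraMap R KR (r z) = algebraMap S KR z * algebraMap R KR g ^ n z := by
    intro z
    rw [IsScalarTower.algebraMap_apply R S KR, ← hr z, map_mul, map_pow,
      ← IsScalarTower.algebraMap_apply R S KR]
  obtain ⟨V, hVR, hVg, j, b, hb, hVb⟩ := exists_bad_val ω hω O hO h q hq (I.image r) (by
    intro s hs
    obtain ⟨z, hz, rfl⟩ := Finset.mem_image.1 hs
    obtain ⟨t', ht', hzt⟩ := hI z hz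
    refine ⟨t', ht', ?_⟩
    rw [hrK, mul_right_comm]
    exact mul_mem hzt (pow_mem (hO.1 g) _))
  obtain ⟨s, hs, hsj⟩ := hgeo V (fun z => by
    have h1 : algebraMap S KR z = algebraMap R KR (r z) * ((algebraMap R KR g)⁻¹) ^ n z := by
      rw [hrK, inv_pow, mul_assoc, mul_inv_cancel₀ (pow_ne_zero _ hg0), mul_one]
    rw [h1]
    exact mul_mem (hVR _) (pow_mem (hVg g hg) _))
  obtain ⟨c, hcV, hc⟩ := hsj j (algebraMap R S b) (by
    rwa [← IsScalarTower.algebraMap_apply R S KR])
  rw [← IsScalarTower.algebraMap_apply R S KR] at hc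
  refine hVb (r s) (Finset.mem_image_of_mem r hs) (((algebraMap R KR g)⁻¹) ^ (n s * j) * c)
    (mul_mem (pow_mem (hVg g hg) _) hcV) ?_
  rw [hc, hrK, mul_pow, ← pow_mul]
  have h2 : algebraMap R KR g ^ (n s * j) * (algebraMap R KR g)⁻¹ ^ (n s * j) = 1 := by
    rw [inv_pow, mul_inv_cancel₀ (pow_ne_zero _ hg0)]
  rw [mul_assoc, ← mul_assoc (algebraMap R KR g ^ (n s * j)), h2, one_mul]

/-- The minimal log discrepancy is attained with value `7`. -/
theorem exists_seven (ω : ⋀[KR]^(10 + 1) Ω[KR⁄ℂ]) (h0 : ω ≠ 0) (hω : IsPull zc ω) :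
    ∃ O : ValuationSubring KR, IsDiv 10 O ∧ OverPoint x0 O ∧ HasLogDisc O ω 7 := by
  obtain ⟨W, hT, hres, hW⟩ := exists_W
  obtain ⟨⟨t, ht⟩, hram⟩ := ramified W hT hW
  have hc : ∀ x : KR, algebraMap KR FA x ∈ W ↔ x ∈ W.comap (algebraMap KR FA) :=
    fun x => Iff.rfl
  obtain ⟨y, hy⟩ := rindep hc algebraic_FA _ hres
  have hdiv : IsDiv 10 (W.comap (algebraMap KR FA)) := ⟨⟨t, ht⟩, y, hy⟩
  refine ⟨W.comap (algebraMap KR FA), hdiv, overPoint_W W hT hW, ?_⟩
  obtain ⟨a, ha⟩ := exists_logDisc essFiniteType_KR trdeg_KR _ hdiv ω h0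
  obtain ⟨D, hD, hJ⟩ := rh essFiniteType_FA trdeg_FA hc hT 2 (by norm_num) hram zc ω hω a ha
  obtain ⟨D2, hD2W, hD2⟩ := exists_frame essFiniteType_FA trdeg_FA hT hres
  have hfr : IsFrame W t0 D2 := ⟨hT, hD2W, zq 0, hres, hD2⟩
  obtain ⟨ε, e0, e1, e2, hε⟩ := frame_cmp essFiniteType_FA trdeg_FA hD hfr (zk 0)
  have hex := jac_exact hT.1 hD2 (fun j => (wt (idx j.succ) : ℤ)) (zk 0) (zk_zero 0) (fun j => by
    unfold zq
    rw [mul_comm (zk 0 j.succ), ← mul_assoc, ← zpow_add₀ hT.1]
    simp)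
  obtain ⟨c, hc0, hcJ⟩ := jac_zk 0
  have h13 : ∑ j : Fin 10, (wt (idx j.succ) : ℤ) = 13 := by decide
  have h1 : OrdEq W t0 (jac D (zk 0)) 13 := by
    rw [hε, hex, h13]
    exact (ordEq_zpow hT 13).unit_mul e0 e1 e2 hT
  have h2 : OrdEq W t0 (jac D (zk 0)) (((2 : ℕ) : ℤ) * a - 1) := by
    rw [hcJ]
    have := (OrdEq.of_ne_zero_of_const (t := t0) hres.const_mem c hc0).mul hJ hT
    rwa [zero_add] at this
  have h3 := h1.unique h2 hT
  have h4 : a = 7 := by
    push_cast at h3
    omega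
  rwa [h4] at ha

/-- The canonical form. -/
theorem canonical_R (ω : ⋀[KR]^(10 + 1) Ω[KR⁄ℂ]) (h0 : ω ≠ 0) (hω : IsPull zc ω) :
    CanonicalGen R ω := by
  intro p hp hp1
  obtain ⟨f, hf, hfp⟩ := exists_irreducible p hp hp1
  obtain ⟨W, hT, hW⟩ := exists_adic f hf
  obtain ⟨ε, hε⟩ := adic_resIndep f hf W hW
  obtain ⟨hloc, t, ht⟩ := comap_eq_locAt finiteType_R isIntegrallyClosed_R p hp hp1 f hf hfp W hW
  have hc : ∀ x : KR, algebraMap KR FA x ∈ W ↔ x ∈ W.comap (algebraMap KR FA) :=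
    fun x => Iff.rfl
  obtain ⟨y, hy⟩ := rindep hc algebraic_FA _ hε
  have hdiv : IsDiv 10 (W.comap (algebraMap KR FA)) := ⟨⟨t, ht⟩, y, hy⟩
  refine ⟨W.comap (algebraMap KR FA), hloc, ?_⟩
  obtain ⟨a, ha⟩ := exists_logDisc essFiniteType_KR trdeg_KR _ hdiv ω h0
  -- the ramification index
  obtain ⟨e, he⟩ := exists_ordEq hT (h := algebraMap KR FA t) (by simpa using ht.1)
  have he1 : 1 ≤ e := by
    refine (he.nonunit_iff hT).1 ?_
    rw [nonunit_map hc, ValuationSubring.mem_nonunits_iff_or]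
    exact Or.inr ht.2.2.1
  obtain ⟨e', rfl⟩ := Int.eq_ofNat_of_zero_le (show 0 ≤ e by omega)
  have he2 : ∀ t', IsUnif (W.comap (algebraMap KR FA)) t' →
      OrdEq W (algebraMap A FA f) (algebraMap KR FA t') e' := fun t' ht' => by
    have h1 : OrdEq (W.comap (algebraMap KR FA)) t t' 1 := (ordEq_self ht').congr_unif ht' ht
    simpa using ordEq_map hT hc ht he h1
  obtain ⟨D, hD, hJ⟩ := rh essFiniteType_FA trdeg_FA hc hT e' (by exact_mod_cast he1) he2 zc ω
    hω a ha
  have h2 := adic_jac zc_indep zc_basis f hf W hW _ D hD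
  have h3 := hJ.unique h2 hT
  have h4 : (e' : ℤ) * a = 1 := by omega
  have h5 : a = 1 := by
    rcases Int.eq_one_or_neg_one_of_mul_eq_one' h4 with h | h
    · exact h.2
    · omega
  rwa [h5] at ha

end H5ML
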