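import Pool.Agent.H5.ML.Defs

/-!
# Auxiliary notions (not used in the final statement)
-/

open scoped TensorProduct

namespace H5ML

attribute [instance] DivisorialContraction.integral DivisorialContraction.proper

section Ord

variable {K : Type} [Field K]

/-- The value of `h ≠ 0` with respect to the uniformizer `t` is `n`. -/
def OrdEq (O : ValuationSubring K) (t h : K) (n : ℤ) : Prop :=
  h ≠ 0 ∧ h * t ^ (-n) ∈ O ∧ (h * t ^ (-n))⁻¹ ∈ O

end Ord

section Inert

variable {F : Type} [Field F]

theorem nonunit_mem {W : ValuationSubring F} {x : F} (hx : x ∈ W.nonunits) : x ∈ W :=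
  W.nonunits_subset hx

theorem nonunit_mul {W : ValuationSubring F} {x y : F} (hx : x ∈ W.nonunits) (hy : y ∈ W) :
    x * y ∈ W.nonunits := by
  rw [W.mem_nonunits_iff] at hx ⊢
  rw [map_mul]
  exact mul_lt_one_of_lt_of_le hx ((W.valuation_le_one_iff y).mpr hy)

/-- The inertia group of `W`: the elements which act trivially on the residue field. -/
def inert (G : Type) [Group G] [MulSemiringAction G F] (W : ValuationSubring F) : Subgroup G where
  carrier := {g | ∀ h ∈ W, g • h - h ∈ W.nonunits}
  one_mem' := by
    intro h _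
    simp [W.nonunits.zero_mem]
  mul_mem' := by
    intro a b ha hb h hh
    have h1 : b • h ∈ W := by
      have := W.add_mem _ _ (nonunit_mem (hb h hh)) hh
      simpa using this
    have h2 := W.nonunits.add_mem (ha _ h1) (hb h hh)
    simpa [mul_smul] using h2
  inv_mem' := by
    intro a ha h hh
    have key : a⁻¹ • h ∈ W := by
      by_contra hc
      have h0 : a⁻¹ • h ≠ 0 := by
        intro h0
        exact hc (h0 ▸ W.zero_mem)
      have h1 : (a⁻¹ • h)⁻¹ ∈ W.nonunits := W.inv_mem_nonunits_iff.mpr (Or.inr hc)
      have h2 : a • (a⁻¹ • h)⁻¹ ∈ W.nonunits := by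
        have := W.nonunits.add_mem (ha _ (nonunit_mem h1)) h1
        simpa using this
      rw [smul_inv'', smul_inv_smul] at h2
      rw [W.inv_mem_nonunits_iff] at h2
      rcases h2 with h2 | h2
      · exact h0 (by rw [h2, smul_zero])
      · exact h2 hh
    have h3 := ha _ key
    rw [smul_inv_smul] at h3
    have := W.nonunits.neg_mem h3
    simpa using this

theorem mem_inert {G : Type} [Group G] [MulSemiringAction G F] {W : ValuationSubring F} {g : G} :
    g ∈ inert G W ↔ ∀ h ∈ W, g • h - h ∈ W.nonunits := Iff.rfl

variable [Algebra ℂ F]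

/-- `D` is the tuple of derivations dual to a system `(T, y_1, …, y_n)`, `T` a uniformizer of `W`
and the `y_i` with independent residues; the derivations preserve `W`. -/
def IsFrame {n : ℕ} (W : ValuationSubring F) (T : F) (D : Fin (n + 1) → Derivation ℂ F F) : Prop :=
  IsUnif W T ∧ (∀ i, ∀ h ∈ W, D i h ∈ W) ∧ ∃ y : Fin n → F, ResIndep W y ∧
    ∀ i j, D i ((Fin.cons T y : Fin (n + 1) → F) j) = if i = j then 1 else 0

end Inert

section Jac

variable {K F : Type} [Field K] [Field F] [Algebra ℂ K] [Algebra ℂ F] [Algebra K F]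
  [IsScalarTower ℂ K F]

/-- The Jacobian determinant of `z` with respect to the derivations `D`. -/
noncomputable def jac {N : ℕ} (D : Fin N → Derivation ℂ F F) (z : Fin N → F) : F :=
  Matrix.det (Matrix.of fun j i => D i (z j))

/-- The alternating map behind `detFun`. -/
noncomputable def detAlt (K : Type) {F : Type} [Field K] [Field F] [Algebra ℂ K] [Algebra ℂ F]
    [Algebra K F] [IsScalarTower ℂ K F] {N : ℕ} (D : Fin N → Derivation ℂ F F) :
    Ω[K⁄ℂ] [⋀^Fin N]→ₗ[K] F :=
  { (MultilinearMap.restrictScalars K
      (Matrix.detRowAlternating (R := F) (n := Fin N)).toMultilinearMap).compLinearMap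
      (fun _ => LinearMap.pi fun i => ((D i).compAlgebraMap K).liftKaehlerDifferential) with
    map_eq_zero_of_eq' := by
      intro v i j h hij
      refine Matrix.det_zero_of_row_eq hij ?_
      funext k
      simp [h] }

/-- The functional on top forms of `K` given by `N` derivations of `F`. -/
noncomputable def detFun {N : ℕ} (D : Fin N → Derivation ℂ F F) : ⋀[K]^N Ω[K⁄ℂ] →ₗ[K] F :=
  exteriorPower.alternatingMapLinearEquiv (detAlt K D)

theorem detFun_dwedge {N : ℕ} (D : Fin N → Derivation ℂ F F) (z : Fin N → K) :
    detFun D (dwedge z) = jac D fun j => algebraMap K F (z j) := by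
  unfold detFun dwedge jac
  rw [exteriorPower.alternatingMapLinearEquiv_apply_ιMulti]
  change Matrix.det _ = _
  congr 1
  ext j i
  simp

end Jac

end H5ML
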