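import Pool.Agent.H5.ML.Coo
import Pool.Agent.H5.ML.Ord

/-!
# CASA: the character of the inertia group
-/

namespace H5ML

open MvPolynomial

section General

variable {F : Type} [Field F] [Algebra ℂ F] {G₀ : Type} [Group G₀] [MulSemiringAction G₀ F]

omit [Algebra ℂ F] in
theorem casa_zpow (g : G₀) (x : F) (k : ℤ) : g • (x ^ k) = (g • x) ^ k :=
  map_zpow₀ (MulSemiringAction.toRingHom G₀ F g) x k

omit [Algebra ℂ F] in
theorem casa_mem {W : ValuationSubring F} {g : G₀} (hg : g ∈ inert G₀ W) {x : F} (hx : x ∈ W) :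
    g • x ∈ W := by
  have := W.add_mem _ _ (nonunit_mem (hg x hx)) hx
  simpa using this

omit [Algebra ℂ F] in
theorem casa_unit {W : ValuationSubring F} {T : F} {g : G₀} (hg : g ∈ inert G₀ W) {x : F}
    (hx : OrdEq W T x 0) : OrdEq W T (g • x) 0 := by
  rw [ordEq_zero_iff] at hx ⊢
  refine ⟨fun h => hx.1 ((smul_eq_zero_iff_eq g).mp h), casa_mem hg hx.2.1, ?_⟩
  rw [← smul_inv'']
  exact casa_mem hg hx.2.2

omit [Algebra ℂ F] in
theorem casa_pos {W : ValuationSubring F} {T : F} (hT : IsUnif W T) {g : G₀}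
    (hg : g ∈ inert G₀ W) : ∃ k : ℤ, 1 ≤ k ∧ OrdEq W T (g • T) k := by
  have h0 : g • T ≠ 0 := fun h => hT.1 ((smul_eq_zero_iff_eq g).mp h)
  obtain ⟨k, hk⟩ := exists_ordEq hT h0
  refine ⟨k, ?_, hk⟩
  have hTn : T ∈ W.nonunits := by
    rw [(ordEq_self hT).nonunit_iff hT]
  have h1 := W.nonunits.add_mem (hg T hT.2.1) hTn
  rw [sub_add_cancel] at h1
  exact (hk.nonunit_iff hT).mp h1

/-- Proof. `g` and `g⁻¹` map `W` to `W` and nonunits to nonunits (`inert` is a subgroup), so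
`g • T` has order `1`: it is a nonunit, and `g • T = T ^ 2 * h`, `h ∈ W`, would give
`T = (g⁻¹ • T) ^ 2 * (g⁻¹ • h)`, of order `≥ 2`. -/
theorem inert_ord {W : ValuationSubring F} {T : F} (hT : IsUnif W T) {g : G₀}
    (hg : g ∈ inert G₀ W) : OrdEq W T (g • T) 1 := by
  obtain ⟨k, hk1, hk⟩ := casa_pos hT hg
  obtain ⟨j, hj1, hj⟩ := casa_pos hT ((inert G₀ W).inv_mem hg)
  have hε : OrdEq W T ((g • T) * T ^ (-k)) 0 := by
    have := hk.mul (ordEq_zpow hT (-k)) hT
    rwa [add_neg_cancel] at this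
  have hε' := casa_unit ((inert G₀ W).inv_mem hg) hε
  have e : T = (g⁻¹ • ((g • T) * T ^ (-k))) * (g⁻¹ • T) ^ k := by
    have hz : g⁻¹ • T ≠ 0 := fun h => hT.1 ((smul_eq_zero_iff_eq g⁻¹).mp h)
    rw [smul_mul', inv_smul_smul, casa_zpow]
    rw [mul_assoc, ← zpow_add₀ hz]
    simp
  have h1 := hε'.mul (hj.zpow hT k) hT
  rw [← e] at h1
  have h2 := h1.unique (ordEq_self hT) hT
  have h3 : k * j = 1 := by linarith
  have h4 : k = 1 := by nlinarith
  rw [← h4]
  exact hk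

/-- The character of the inertia group: multiplicativity modulo the maximal ideal.

Proof. `(g * h) • T / T = g • (h • T / T) * (g • T / T)` and `g • x ≡ x` modulo nonunits for
`x = h • T / T ∈ W`. -/
theorem inert_mul {W : ValuationSubring F} {T : F} (hT : IsUnif W T) {g h : G₀}
    (hg : g ∈ inert G₀ W) (hh : h ∈ inert G₀ W) :
    ((g * h) • T) / T - ((g • T) / T) * ((h • T) / T) ∈ W.nonunits := by
  have hh1 := inert_ord hT hh
  have hg1 := inert_ord hT hg
  set x := (h • T) / T with hx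
  have hxW : x ∈ W := by
    have := hh1.2.1
    rwa [zpow_neg_one, ← div_eq_mul_inv] at this
  have hgW : (g • T) / T ∈ W := by
    have := hg1.2.1
    rwa [zpow_neg_one, ← div_eq_mul_inv] at this
  have e1 : h • T = x * T := by
    rw [hx, div_mul_cancel₀ _ hT.1]
  have e2 : ((g * h) • T) / T - ((g • T) / T) * x = (g • x - x) * ((g • T) / T) := by
    rw [mul_smul, e1, smul_mul']
    field_simp
  rw [e2]
  exact nonunit_mul (hg x hxW) hgW

/-- Proof. `z = ε T^a` with a unit `ε`; `c = g z / z = (g ε / ε) (g T / T)^a` and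
`g ε / ε ≡ 1` modulo nonunits. -/
theorem inert_eig {W : ValuationSubring F} {T : F} (hT : IsUnif W T) {g : G₀}
    (hg : g ∈ inert G₀ W) (z : F) (c : ℂ) (hz : g • z = algebraMap ℂ F c * z) (a : ℤ)
    (ha : OrdEq W T z a) : algebraMap ℂ F c - ((g • T) / T) ^ a ∈ W.nonunits := by
  have hg1 := inert_ord hT hg
  set ε := z * T ^ (-a) with hε
  have hε0 : OrdEq W T ε 0 := by
    have := ha.mul (ordEq_zpow hT (-a)) hT
    rwa [add_neg_cancel] at this
  have hε1 := ordEq_zero_iff.mp hε0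
  have hgT : OrdEq W T ((g • T) / T) 0 := by
    have := hg1.mul (ordEq_self hT).inv hT
    rwa [← div_eq_mul_inv, add_neg_cancel] at this
  have hgTa : ((g • T) / T) ^ a ∈ W := by
    have := hgT.zpow hT a
    rw [mul_zero] at this
    exact (ordEq_zero_iff.mp this).2.1
  have hT0 : T ^ a ≠ 0 := zpow_ne_zero _ hT.1
  have e1 : z = ε * T ^ a := by
    rw [hε, mul_assoc, ← zpow_add₀ hT.1]
    simp
  have e2 : algebraMap ℂ F c * (ε * T ^ a) = (g • ε) * (g • T) ^ a := by
    rw [← e1, ← hz, e1, smul_mul', casa_zpow]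
  have e3 : algebraMap ℂ F c = (g • ε) * ε⁻¹ * ((g • T) / T) ^ a := by
    rw [div_zpow]
    have := hε1.1
    field_simp
    linear_combination e2
  have e4 : algebraMap ℂ F c - ((g • T) / T) ^ a = (g • ε - ε) * (ε⁻¹ * ((g • T) / T) ^ a) := by
    rw [e3, sub_mul, ← mul_assoc ε, mul_inv_cancel₀ hε1.1]
    ring
  rw [e4]
  exact nonunit_mul (hg ε hε1.2.1) (W.mul_mem _ _ hε1.2.2 hgTa)

end General

end H5ML
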