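import Mathlib

/-!
# NNV: existence of polynomials with support in a lattice and a multiple point at `(1,1,1)`
-/

namespace H5ML

/-- The weight `15 b_0 + 20 b_1 + 24 b_2`. -/
def hgt (b : Fin 3 → ℕ) : ℕ := 15 * b 0 + 20 * b 1 + 24 * b 2


open MvPolynomial in
/-- Shift by an integer vector. -/
noncomputable def nnv_sh (v : Fin 3 → ℤ) : MvPolynomial (Fin 3) ℂ →ₐ[ℂ] MvPolynomial (Fin 3) ℂ :=
  aeval (fun i => X i + C (v i : ℂ))

open MvPolynomial in
theorem nnv_sh_eval (v : Fin 3 → ℤ) (φ : MvPolynomial (Fin 3) ℂ) (b : Fin 3 → ℤ) :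
    eval (fun i => (b i : ℂ)) (nnv_sh v φ) = eval (fun i => ((b i + v i : ℤ) : ℂ)) φ := by
  have h : ((eval (fun i => (b i : ℂ))).comp (nnv_sh v : MvPolynomial (Fin 3) ℂ →+* _)) =
      (eval (fun i => ((b i + v i : ℤ) : ℂ)) : MvPolynomial (Fin 3) ℂ →+* ℂ) := by
    apply MvPolynomial.ringHom_ext
    · intro r
      simp [nnv_sh]
    · intro i
      simp [nnv_sh]
  exact congrArg (fun g : MvPolynomial (Fin 3) ℂ →+* ℂ => g φ) h

open MvPolynomial in
theorem nnv_mon (v : Fin 3 → ℤ) : ∀ (s : Fin 3 →₀ ℕ) (a : ℂ),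
    nnv_sh v (monomial s a) - monomial s a = 0 ∨
    (nnv_sh v (monomial s a) - monomial s a).totalDegree < (monomial s a).totalDegree := by
  intro s a
  refine induction_on_monomial (motive := fun q : MvPolynomial (Fin 3) ℂ =>
    nnv_sh v q - q = 0 ∨ (nnv_sh v q - q).totalDegree < q.totalDegree) ?_ ?_ s a
  · intro a
    left
    simp [nnv_sh]
  · intro p n hp
    by_cases hp0 : p = 0
    · left
      simp [hp0]
    have hdeg : (p * X n).totalDegree = p.totalDegree + 1 := by
      rw [totalDegree_mul_of_isDomain hp0 (X_ne_zero n), totalDegree_X]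
    have hS : (nnv_sh v p).totalDegree ≤ p.totalDegree := by
      have h1 : nnv_sh v p = p + (nnv_sh v p - p) := by ring
      rw [h1]
      refine (totalDegree_add _ _).trans (max_le le_rfl ?_)
      rcases hp with h | h
      · rw [h]
        simp
      · exact h.le
    have hX : nnv_sh v (X n) = X n + C (v n : ℂ) := by simp [nnv_sh]
    have h2 : nnv_sh v (p * X n) - p * X n = (nnv_sh v p - p) * X n + nnv_sh v p * C (v n : ℂ) := by
      rw [map_mul, hX]
      ring
    right
    rw [h2, hdeg, Nat.lt_succ_iff]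
    refine (totalDegree_add _ _).trans (max_le ?_ ?_)
    · rcases hp with h | h
      · rw [h]
        simp
      · refine (totalDegree_mul _ _).trans ?_
        rw [totalDegree_X]
        omega
    · refine (totalDegree_mul _ _).trans ?_
      rw [totalDegree_C]
      simpa using hS

open MvPolynomial in
theorem nnv_diff (v : Fin 3 → ℤ) (φ : MvPolynomial (Fin 3) ℂ) :
    (nnv_sh v φ - φ).totalDegree ≤ φ.totalDegree - 1 := by
  have h : nnv_sh v φ - φ = ∑ s ∈ φ.support, (nnv_sh v (monomial s (coeff s φ)) -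
      monomial s (coeff s φ)) := by
    rw [Finset.sum_sub_distrib, ← map_sum, ← MvPolynomial.as_sum φ]
  rw [h]
  refine (totalDegree_finsetSum _ _).trans ?_
  apply Finset.sup_le
  intro s hs
  have h1 : (monomial s (coeff s φ)).totalDegree ≤ φ.totalDegree := by
    rw [totalDegree_monomial _ (mem_support_iff.mp hs)]
    exact le_totalDegree hs
  rcases nnv_mon v s (coeff s φ) with h2 | h2
  · rw [h2]
    simp
  · omega

theorem nnv_pt (o d : Fin 3 → ℤ) (K : ℤ) (h0 : 8 ≤ d 0) (h1 : 6 ≤ d 1) (h2 : 5 ≤ d 2)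
    (hd : 360 < 15 * d 0 + 20 * d 1 + 24 * d 2)
    (hK1 : 15 * o 0 + 20 * o 1 + 24 * o 2 + 180 ≤ K)
    (hK2 : K ≤ 15 * (o 0 + d 0) + 20 * (o 1 + d 1) + 24 * (o 2 + d 2) - 180) :
    ∃ b : Fin 3 → ℤ, (∀ i, o i ≤ b i ∧ b i ≤ o i + d i) ∧
      15 * b 0 + 20 * b 1 + 24 * b 2 = K := by
  have hKq1 : 15 * (o 0 : ℚ) + 20 * o 1 + 24 * o 2 + 180 ≤ K := by exact_mod_cast hK1
  have hKq2 : (K : ℚ) ≤ 15 * (o 0 + d 0) + 20 * (o 1 + d 1) + 24 * (o 2 + d 2) - 180 := by
    exact_mod_cast hK2
  have hdq : 0 < 15 * (d 0 : ℚ) + 20 * d 1 + 24 * d 2 - 360 := by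
    have : (360 : ℚ) < 15 * d 0 + 20 * d 1 + 24 * d 2 := by exact_mod_cast hd
    linarith
  have h0q : (8 : ℚ) ≤ d 0 := by exact_mod_cast h0
  have h1q : (6 : ℚ) ≤ d 1 := by exact_mod_cast h1
  have h2q : (5 : ℚ) ≤ d 2 := by exact_mod_cast h2
  obtain ⟨l, hl0, hl1, hl⟩ : ∃ l : ℚ, 0 ≤ l ∧ l ≤ 1 ∧
      15 * (o 0 + 4 + l * (d 0 - 8)) + 20 * (o 1 + 3 + l * (d 1 - 6)) +
        24 * (o 2 + 5 / 2 + l * (d 2 - 5)) = (K : ℚ) := by
    refine ⟨(K - (15 * (o 0 : ℚ) + 20 * o 1 + 24 * o 2 + 180)) /
      (15 * (d 0 : ℚ) + 20 * d 1 + 24 * d 2 - 360), ?_, ?_, ?_⟩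
    · apply div_nonneg
      · linarith
      · exact hdq.le
    · rw [div_le_one hdq]
      linarith
    · have hne : (15 * (d 0 : ℚ) + 20 * d 1 + 24 * d 2 - 360) ≠ 0 := ne_of_gt hdq
      field_simp
      ring
  set x0 : ℚ := o 0 + 4 + l * (d 0 - 8) with hx0
  set x1 : ℚ := o 1 + 3 + l * (d 1 - 6) with hx1
  set x2 : ℚ := o 2 + 5 / 2 + l * (d 2 - 5) with hx2
  have hx0a : (o 0 : ℚ) + 4 ≤ x0 := by
    have := mul_nonneg hl0 (by linarith : (0 : ℚ) ≤ d 0 - 8)
    linarith
  have hx0b : x0 ≤ (o 0 : ℚ) + d 0 - 4 := by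
    have := mul_le_mul_of_nonneg_right hl1 (by linarith : (0 : ℚ) ≤ d 0 - 8)
    linarith
  have hx1a : (o 1 : ℚ) + 3 ≤ x1 := by
    have := mul_nonneg hl0 (by linarith : (0 : ℚ) ≤ d 1 - 6)
    linarith
  have hx1b : x1 ≤ (o 1 : ℚ) + d 1 - 3 := by
    have := mul_le_mul_of_nonneg_right hl1 (by linarith : (0 : ℚ) ≤ d 1 - 6)
    linarith
  have hx2a : (o 2 : ℚ) + 5 / 2 ≤ x2 := by
    have := mul_nonneg hl0 (by linarith : (0 : ℚ) ≤ d 2 - 5)
    linarith
  have hx2b : x2 ≤ (o 2 : ℚ) + d 2 - 5 / 2 := by
    have := mul_le_mul_of_nonneg_right hl1 (by linarith : (0 : ℚ) ≤ d 2 - 5)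
    linarith
  clear_value x0 x1 x2
  -- offsets
  obtain ⟨i, hi⟩ : ∃ i : ℤ, |(-(x2 + K) / 5) - i| ≤ 1 / 2 := ⟨round (-(x2 + K) / 5), abs_sub_round _⟩
  obtain ⟨j, hj⟩ : ∃ j : ℤ, |((x0 - 7 * K) / 4 + (x2 + K) / 5) - j| ≤ 1 / 2 :=
    ⟨round ((x0 - 7 * K) / 4 + (x2 + K) / 5), abs_sub_round _⟩
  rw [abs_le] at hi hj
  obtain ⟨hi1, hi2⟩ := hi
  obtain ⟨hj1, hj2⟩ := hj
  refine ⟨![7 * K + 4 * i + 4 * j, -4 * K + 3 * i - 3 * j, -K - 5 * i], ?_, ?_⟩
  · intro t
    fin_cases t
    · constructor
      · have : (o 0 : ℚ) ≤ 7 * K + 4 * i + 4 * j := by linarith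
        have h : o 0 ≤ 7 * K + 4 * i + 4 * j := by exact_mod_cast this
        simpa using h
      · have : (7 : ℚ) * K + 4 * i + 4 * j ≤ o 0 + d 0 := by linarith
        have h : 7 * K + 4 * i + 4 * j ≤ o 0 + d 0 := by exact_mod_cast this
        simpa using h
    · constructor
      · have : (o 1 : ℚ) ≤ -4 * K + 3 * i - 3 * j := by linarith
        have h : o 1 ≤ -4 * K + 3 * i - 3 * j := by exact_mod_cast this
        simpa using h
      · have : (-4 : ℚ) * K + 3 * i - 3 * j ≤ o 1 + d 1 := by linarith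
        have h : -4 * K + 3 * i - 3 * j ≤ o 1 + d 1 := by exact_mod_cast this
        simpa using h
    · constructor
      · have : (o 2 : ℚ) ≤ -K - 5 * i := by linarith
        have h : o 2 ≤ -K - 5 * i := by exact_mod_cast this
        simpa using h
      · have : (-K : ℚ) - 5 * i ≤ o 2 + d 2 := by linarith
        have h : -K - 5 * i ≤ o 2 + d 2 := by exact_mod_cast this
        simpa using h
  · simp
    ring

theorem nnv_dec (b : Fin 3 → ℤ) : ∃ i j : ℤ,
    b 0 = 7 * (15 * b 0 + 20 * b 1 + 24 * b 2) + 4 * i + 4 * j ∧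
    b 1 = -4 * (15 * b 0 + 20 * b 1 + 24 * b 2) + 3 * i - 3 * j ∧
    b 2 = -(15 * b 0 + 20 * b 1 + 24 * b 2) - 5 * i := by
  set k := 15 * b 0 + 20 * b 1 + 24 * b 2 with hk
  obtain ⟨z', hz⟩ : ∃ z' : ℤ, b 2 + k = 5 * z' := ⟨(b 2 + k) / 5, by omega⟩
  obtain ⟨x', hx⟩ : ∃ x' : ℤ, b 0 - 7 * k = 4 * x' := ⟨(b 0 - 7 * k) / 4, by omega⟩
  refine ⟨-z', x' + z', ?_, ?_, ?_⟩
  · omega
  · omega
  · omega

/-- Key lemma: a polynomial function of degree `< m` which vanishes on all lattice points
(`241 ∣ 15 b_0 + 20 b_1 + 24 b_2`) of a large box vanishes on `ℤ³`.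

Proof. Induction on `m`; `m = 0`: `φ.totalDegree < 0` is impossible (so the statement is vacuous;
the hypothesis `totalDegree < m` with `m ≥ 1` allows `φ = 0`). Step `m + 1` (so
`totalDegree φ ≤ m`). Let `v = (4, 3, -5)`, `c = (4, -3, 0)`; both are orthogonal to
`u = (15, 20, 24)`. If `m = 0`, `φ` is constant, and it is enough to find one lattice point in
the box (see the last step). If `m ≥ 1`: the difference `Δ_v φ (b) = φ (b + v) - φ (b)` is given
by a polynomial of total degree `< m`; it vanishes at the lattice points of the box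
`{b : b, b + v ∈ Box}`, which is the box with offset `o + (0,0,5)` and size `d - (4,3,5)`;
here `u·(4,3,5) = 240 ≤ 241`, so the hypotheses hold for `m` and `Δ_v φ = 0` on `ℤ³`. The same
for `c` (box with offset `o + (0,3,0)` and size `d - (4,3,0)`, use the smaller box of size
`d - (4,3,5)`). So `φ (b + i v + j c) = φ (b)` for all integers `i, j`.
Let `w = (7, -4, -1)`, `u·w = 1`. The kernel of `u·` on `ℤ³` is `ℤ v + ℤ c` (if
`15 a + 20 b + 24 c = 0` then `5 ∣ c`, `4 ∣ a` and so on; explicitly `v × c = -u`). So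
`φ (b) = φ ((u·b) w) = g (u·b)` with `g (k) = φ (k w)` a polynomial in `k` of degree `≤ m`.
It remains to see that `g` has more than `m` zeros: every multiple `241 a` in the interval
`[u·o + 180, u·(o + d) - 180]` is the height `u·b` of a lattice point `b` of the box. Namely
(real argument) choose `x = o + (4,3,5/2) + λ (d - (8,6,5))`, `0 ≤ λ ≤ 1`, with `u·x = 241 a`
(`u·(4,3,5/2) = 180`; needs `d ≥ (8,6,5)`), write `x - 241 a w = α v + β c` with real (rational)
`α, β`, round them to `i, j` with `|α - i|, |β - j| ≤ 1/2` and put `b = 241 a w + i v + j c`; then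
`|b - x| ≤ (4, 3, 5/2)` coordinatewise, so `b` lies in the box. The length of the interval is
`u·d - 360 ≥ 241 (m + 1)`, so it contains at least `m + 1` multiples of `241`. Hence `g = 0`. -/
theorem nnv (m : ℕ) (φ : MvPolynomial (Fin 3) ℂ) (hφ : φ.totalDegree < m) (o d : Fin 3 → ℤ)
    (h0 : 4 * m + 8 ≤ d 0) (h1 : 3 * m + 6 ≤ d 1) (h2 : 5 * m + 5 ≤ d 2)
    (hu : 241 * m + 360 ≤ 15 * d 0 + 20 * d 1 + 24 * d 2)
    (hv : ∀ b : Fin 3 → ℤ, (∀ i, o i ≤ b i ∧ b i ≤ o i + d i) →
      241 ∣ 15 * b 0 + 20 * b 1 + 24 * b 2 → MvPolynomial.eval (fun i => (b i : ℂ)) φ = 0) :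
    ∀ b : Fin 3 → ℤ, MvPolynomial.eval (fun i => (b i : ℂ)) φ = 0 := by
  induction m generalizing φ o d with
  | zero => exact absurd hφ (Nat.not_lt_zero _)
  | succ m ih =>
    push_cast at h0 h1 h2 hu
    -- the two differences
    have hper : ∀ v : Fin 3 → ℤ, (v = ![4, 3, -5] ∨ v = ![4, -3, 0]) → ∀ b : Fin 3 → ℤ,
        MvPolynomial.eval (fun i => ((b i + v i : ℤ) : ℂ)) φ =
          MvPolynomial.eval (fun i => (b i : ℂ)) φ := by
      intro v hv' b
      rw [← nnv_sh_eval]
      have hdf := nnv_diff v φ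
      rcases Nat.eq_zero_or_pos m with hm | hm
      · subst hm
        have hφ0 : φ.totalDegree = 0 := by omega
        rw [MvPolynomial.totalDegree_eq_zero_iff_eq_C] at hφ0
        rw [hφ0]
        simp [nnv_sh]
      · rw [← sub_eq_zero, ← map_sub]
        have hdeg : (nnv_sh v φ - φ).totalDegree < m := by omega
        rcases hv' with hv' | hv'
        · refine ih (nnv_sh v φ - φ) hdeg ![o 0, o 1, o 2 + 5] ![d 0 - 4, d 1 - 3, d 2 - 5] ?_ ?_ ?_ ?_
            ?_ b
          · simp
            omega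
          · simp
            omega
          · simp
            omega
          · simp
            omega
          · intro b' hb' hdvd
            have hb0 := hb' 0
            have hb1 := hb' 1
            have hb2 := hb' 2
            simp at hb0 hb1 hb2
            rw [map_sub, nnv_sh_eval]
            rw [hv (fun i => b' i + v i) ?_ ?_, hv b' ?_ hdvd, sub_zero]
            · intro i
              fin_cases i
              · simp
                omega
              · simp
                omega
              · simp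
                omega
            · intro i
              subst hv'
              fin_cases i
              · simp
                omega
              · simp
                omega
              · simp
                omega
            · subst hv'
              simp
              omega
        · refine ih (nnv_sh v φ - φ) hdeg ![o 0, o 1 + 3, o 2] ![d 0 - 4, d 1 - 3, d 2 - 5] ?_ ?_ ?_ ?_
            ?_ b
          · simp
            omega
          · simp
            omega
          · simp
            omega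
          · simp
            omega
          · intro b' hb' hdvd
            have hb0 := hb' 0
            have hb1 := hb' 1
            have hb2 := hb' 2
            simp at hb0 hb1 hb2
            rw [map_sub, nnv_sh_eval]
            rw [hv (fun i => b' i + v i) ?_ ?_, hv b' ?_ hdvd, sub_zero]
            · intro i
              fin_cases i
              · simp
                omega
              · simp
                omega
              · simp
                omega
            · intro i
              subst hv'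
              fin_cases i
              · simp
                omega
              · simp
                omega
              · simp
                omega
            · subst hv'
              simp
              omega
    -- periodicity
    have hperZ : ∀ v : Fin 3 → ℤ, (v = ![4, 3, -5] ∨ v = ![4, -3, 0]) → ∀ (k : ℤ) (b : Fin 3 → ℤ),
        MvPolynomial.eval (fun i => ((b i + k * v i : ℤ) : ℂ)) φ =
          MvPolynomial.eval (fun i => (b i : ℂ)) φ := by
      intro v hv' k
      induction k using Int.induction_on with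
      | zero => intro b; simp
      | succ k ihk =>
        intro b
        rw [← ihk b, ← hper v hv' (fun i => b i + (k : ℤ) * v i)]
        congr 1
        congr 1
        funext i
        congr 1
        ring
      | pred k ihk =>
        intro b
        rw [← ihk b, ← hper v hv' (fun i => b i + (-(k : ℤ) - 1) * v i)]
        congr 1
        congr 1
        funext i
        congr 1
        ring
    -- reduction to the line
    have hline : ∀ b : Fin 3 → ℤ, MvPolynomial.eval (fun i => (b i : ℂ)) φ =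
        MvPolynomial.eval (fun i => (((15 * b 0 + 20 * b 1 + 24 * b 2) *
          (![7, -4, -1] : Fin 3 → ℤ) i : ℤ) : ℂ)) φ := by
      intro b
      obtain ⟨i, j, e0, e1, e2⟩ := nnv_dec b
      rw [← hperZ ![4, 3, -5] (Or.inl rfl) (-i), ← hperZ ![4, -3, 0] (Or.inr rfl) (-j)]
      congr 1
      congr 1
      funext t
      congr 1
      fin_cases t
      · simp
        linarith
      · simp
        linarith
      · simp
        linarith
    set G : Polynomial ℂ := MvPolynomial.aeval
      (fun i => Polynomial.C (((![7, -4, -1] : Fin 3 → ℤ) i : ℤ) : ℂ) * Polynomial.X) φ with hG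
    have hGe : ∀ k : ℤ, G.eval (k : ℂ) = MvPolynomial.eval (fun i => ((k *
          (![7, -4, -1] : Fin 3 → ℤ) i : ℤ) : ℂ)) φ := by
      intro k
      have h : ((Polynomial.evalRingHom (k : ℂ)).comp ((MvPolynomial.aeval
          (fun i => Polynomial.C (((![7, -4, -1] : Fin 3 → ℤ) i : ℤ) : ℂ) * Polynomial.X) :
            MvPolynomial (Fin 3) ℂ →ₐ[ℂ] Polynomial ℂ) : MvPolynomial (Fin 3) ℂ →+* _)) =
          (MvPolynomial.eval (fun i => ((k * (![7, -4, -1] : Fin 3 → ℤ) i : ℤ) : ℂ)) :
            MvPolynomial (Fin 3) ℂ →+* ℂ) := by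
        apply MvPolynomial.ringHom_ext
        · intro r
          simp
        · intro i
          simp [mul_comm]
      exact congrArg (fun g : MvPolynomial (Fin 3) ℂ →+* ℂ => g φ) h
    have hGd : G.natDegree < m + 1 := by
      have := MvPolynomial.aeval_natDegree_le (m := m) (n := 1) φ (by omega)
        (fun i => Polynomial.C (((![7, -4, -1] : Fin 3 → ℤ) i : ℤ) : ℂ) * Polynomial.X)
        (fun i => (Polynomial.natDegree_C_mul_le _ _).trans (Polynomial.natDegree_X_le))
      rw [← hG] at this
      omega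
    -- zeros
    have hG0 : G = 0 := by
      obtain ⟨a0, ha0, ha1⟩ : ∃ a0 : ℤ, 15 * o 0 + 20 * o 1 + 24 * o 2 + 180 ≤ 241 * a0 ∧
          241 * a0 ≤ 15 * o 0 + 20 * o 1 + 24 * o 2 + 180 + 240 :=
        ⟨(15 * o 0 + 20 * o 1 + 24 * o 2 + 180 + 240) / 241, by omega, by omega⟩
      apply Polynomial.eq_zero_of_natDegree_lt_card_of_eval_eq_zero G
        (ι := Fin (m + 1)) (f := fun t => ((241 * (a0 + (t : ℕ)) : ℤ) : ℂ))
      · intro s t hst
        simp only [Int.cast_inj] at hst
        apply Fin.ext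
        omega
      · intro t
        have ht : ((t : ℕ) : ℤ) ≤ m := by
          have := t.2
          omega
        obtain ⟨b, hb, hbu⟩ := nnv_pt o d (241 * (a0 + (t : ℕ))) (by omega) (by omega) (by omega)
          (by omega) (by omega) (by omega)
        have h1 := hv b hb (by rw [hbu]; exact Dvd.intro _ rfl)
        rw [hline b, hbu] at h1
        rw [hGe]
        exact h1
      · simpa using hGd
    intro b
    rw [hline b, ← hGe, hG0]
    simp

end H5ML
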