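import Pool.Agent.H5.ML.Grp
import Pool.Agent.H5.ML.Nnv

/-!
# Definitions for the combinatorial part
-/

namespace H5ML

open MvPolynomial

/-- The exponent of the monomial `x^b y^c t^e`. -/
noncomputable def mon (b c : Fin 3 → ℕ) (e : Fin 5 → ℕ) : Ix →₀ ℕ :=
  Finsupp.equivFunOnFinite.symm (Sum.elim b (Sum.elim c e))

/-- The polynomial `∑_b f_b (-1)^{|b|} x^b y^{d-b}`. -/
noncomputable def ftil (d : Fin 3 → ℕ) (f : (Fin 3 → ℕ) → ℂ) : A :=
  ∑ b ∈ Finset.Iic d, C (f b * (-1) ^ (∑ i, b i)) * ∏ i, (xx i ^ b i * yy i ^ (d i - b i))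

/-- The polynomial `∑_b f_b (-1)^{|b|} y^b x^{d-b}`. -/
noncomputable def gtil (d : Fin 3 → ℕ) (f : (Fin 3 → ℕ) → ℂ) : A :=
  ∑ b ∈ Finset.Iic d, C (f b * (-1) ^ (∑ i, b i)) * ∏ i, (yy i ^ b i * xx i ^ (d i - b i))

/-- The restriction of the part of multidegree `(d, e)` of `s` to the curve
`x_i = - τ^{u_i}`, `y_i = 1`. -/
noncomputable def resPoly (s : A) (d : Fin 3 → ℕ) (e : Fin 5 → ℕ) : Polynomial ℂ :=
  ∑ b ∈ Finset.Iic d, Polynomial.C ((-1) ^ (∑ i, b i) * coeff (mon b (d - b) e) s) *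
    Polynomial.X ^ hgt b

theorem hgt_eq (b : Fin 3 → ℕ) : hgt b = ∑ i, u i * b i := by
  simp [hgt, u, Fin.sum_univ_three]

/-- The weight of `x_i` and `y_i` for the valuation `w`. -/
def lw (H : ℕ) (i : Fin 3) : ℕ := H * (u i + 241) - (4 + if i = 2 then 1 else 0)

/-- The weight of `t_l` for the valuation `w`. -/
def lt (H : ℕ) : ℕ := H * 241 - 4

/-- The images of the variables under `psi`. -/
noncomputable def psiX (H k : ℕ) : Ix → Polynomial (Polynomial A)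
  | .inl i => -(Polynomial.C (Polynomial.C (yy i)) * Polynomial.X ^ lw H i *
      (Polynomial.C (Polynomial.X ^ u i) + Polynomial.C (Polynomial.C (xx i)) * Polynomial.X ^ k))
  | .inr (.inl i) => Polynomial.C (Polynomial.C (yy i)) * Polynomial.X ^ lw H i
  | .inr (.inr l) => Polynomial.C (Polynomial.C (tt l)) * Polynomial.X ^ lt H

/-- The substitution `y_i = λ_i ϖ^{ℓ_i}`, `x_i = -λ_i ϖ^{ℓ_i} (τ^{u_i} + σ_i ϖ^k)`,
`t_l = t_l ϖ^{ℓ'}`; here `λ_i` is `yy i`, `σ_i` is `xx i`, `τ` is the variable of the inner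
polynomial ring and `ϖ` the variable of the outer one. -/
noncomputable def psi (H k : ℕ) : A →ₐ[ℂ] Polynomial (Polynomial A) := aeval (psiX H k)

/-- `∑ ℓ_i d_i + ℓ' |e|`. -/
def wgt (H : ℕ) (d : Fin 3 → ℕ) (e : Fin 5 → ℕ) : ℕ := ∑ i, lw H i * d i + lt H * ∑ l, e l

end H5ML
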