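import Pool.Agent.H5.ML.Pull
import Pool.Agent.H5.ML.Pol

/-!
# Coordinates on `FA`
-/

namespace H5ML

open MvPolynomial

/-- An enumeration of the variables starting with `t_0`. -/
def idx : Fin (10 + 1) → Ix :=
  ![.inr (.inr 0), .inl 0, .inl 1, .inl 2, .inr (.inl 0), .inr (.inl 1), .inr (.inl 2),
    .inr (.inr 1), .inr (.inr 2), .inr (.inr 3), .inr (.inr 4)]

theorem idx_bijective : Function.Bijective idx := by
  decide

/-- The coordinates. -/
noncomputable def zc (j : Fin (10 + 1)) : FA := algebraMap A FA (X (idx j))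

/-- The linear forms `x_i - χ (u_i k) y_i`, `x_i + χ (u_i k) y_i`, `t_l`, eigenvectors of the
reflection `sr k` with eigenvalues `-1, 1, -1`. -/
noncomputable def lin (k : ZMod 241) : Ix → A
  | .inl i => xx i - C (chi (u i * k)) * yy i
  | .inr (.inl i) => xx i + C (chi (u i * k)) * yy i
  | .inr (.inr l) => tt l

/-- The coordinates given by the linear forms. -/
noncomputable def zk (k : ZMod 241) (j : Fin (10 + 1)) : FA := algebraMap A FA (lin k (idx j))

/-- The weights of the linear forms. -/
def wt : Ix → ℕ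
  | .inl _ => 1
  | .inr (.inl _) => 2
  | .inr (.inr _) => 1

/-- The image of `t_0` in `FA`. -/
noncomputable def t0 : FA := algebraMap A FA (tt 0)

theorem zk_zero (k : ZMod 241) : zk k 0 = t0 := rfl

theorem zc_zero : zc 0 = t0 := rfl

theorem sum_wt : ∑ j, (wt (idx j) : ℤ) = 14 := by
  decide

end H5ML
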