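import Pool.Agent.H5.ML.Pol

/-!
# PSIB: lower bound for the order of `psi s`
-/

namespace H5ML

open MvPolynomial

section Gen

variable {B : Type} [CommRing B] [Algebra ℂ B]

/-- The substitution with values in a general ring. -/
noncomputable def psib_X (H k : ℕ) (w τ : B) (L σ : Fin 3 → B) (T : Fin 5 → B) : Ix → B
  | .inl i => -(L i * w ^ lw H i * (τ ^ u i + σ i * w ^ k))
  | .inr (.inl i) => L i * w ^ lw H i
  | .inr (.inr l) => T l * w ^ lt H

/-- The truncated substitution. -/
noncomputable def psib_Y (H : ℕ) (w τ : B) (L : Fin 3 → B) (T : Fin 5 → B) : Ix → B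
  | .inl i => -(L i * w ^ lw H i * τ ^ u i)
  | .inr (.inl i) => L i * w ^ lw H i
  | .inr (.inr l) => T l * w ^ lt H

/-- Two homomorphisms which agree on the variables modulo an ideal agree modulo the ideal. -/
theorem psib_congr (I : Ideal B) (f g : A →ₐ[ℂ] B)
    (h : ∀ v : Ix, f (X v) - g (X v) ∈ I) (s : A) : f s - g s ∈ I := by
  have h1 : (Ideal.Quotient.mkₐ ℂ I).comp f = (Ideal.Quotient.mkₐ ℂ I).comp g := by
    apply MvPolynomial.algHom_ext
    intro v
    change Ideal.Quotient.mk I (f (X v)) = Ideal.Quotient.mk I (g (X v))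
    rw [Ideal.Quotient.eq]
    exact h v
  have h2 := congrArg (fun φ : A →ₐ[ℂ] B ⧸ I => φ s) h1
  change Ideal.Quotient.mk I (f s) = Ideal.Quotient.mk I (g s) at h2
  rwa [Ideal.Quotient.eq] at h2

theorem psib_sub (H k M : ℕ) (hk : M ≤ k) (w τ : B) (L σ : Fin 3 → B) (T : Fin 5 → B) (s : A) :
    w ^ M ∣ aeval (psib_X H k w τ L σ T) s - aeval (psib_Y H w τ L T) s := by
  rw [← Ideal.mem_span_singleton]
  apply psib_congr
  intro v
  rw [Ideal.mem_span_singleton, aeval_X, aeval_X]
  rcases v with i | i | l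
  · change w ^ M ∣ -(L i * w ^ lw H i * (τ ^ u i + σ i * w ^ k)) - -(L i * w ^ lw H i * τ ^ u i)
    have e : -(L i * w ^ lw H i * (τ ^ u i + σ i * w ^ k)) - -(L i * w ^ lw H i * τ ^ u i) =
        w ^ k * (-(L i * w ^ lw H i * σ i)) := by ring
    rw [e]
    exact Dvd.dvd.mul_right (pow_dvd_pow _ hk) _
  · change w ^ M ∣ L i * w ^ lw H i - L i * w ^ lw H i
    rw [sub_self]
    exact dvd_zero _
  · change w ^ M ∣ T l * w ^ lt H - T l * w ^ lt H
    rw [sub_self]
    exact dvd_zero _

/-- The monomial `λ^d T^e`. -/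
noncomputable def psib_L (L : Fin 3 → B) (T : Fin 5 → B) (d : Fin 3 → ℕ) (e : Fin 5 → ℕ) : B :=
  (∏ i, L i ^ d i) * ∏ l, T l ^ e l

/-- The image of a monomial. -/
theorem psib_mon (H : ℕ) (w τ : B) (L : Fin 3 → B) (T : Fin 5 → B) (b c : Fin 3 → ℕ)
    (e : Fin 5 → ℕ) (a : ℂ) :
    aeval (psib_Y H w τ L T) (monomial (mon b c e) a) =
      psib_L L T (b + c) e * w ^ wgt H (b + c) e *
        Polynomial.aeval τ (Polynomial.C ((-1) ^ (∑ i, b i) * a) * Polynomial.X ^ hgt b) := by
  rw [aeval_monomial, Finsupp.prod_fintype _ _ (fun v => pow_zero _),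
    Fintype.prod_sum_type, Fintype.prod_sum_type]
  have e1 : ∀ i : Fin 3, psib_Y H w τ L T (.inl i) ^ (mon b c e) (.inl i) =
      (-1) ^ b i * (L i ^ b i * w ^ (lw H i * b i) * τ ^ (u i * b i)) := by
    intro i
    change (-(L i * w ^ lw H i * τ ^ u i)) ^ b i = _
    rw [neg_pow, mul_pow, mul_pow, ← pow_mul, ← pow_mul]
  have e2 : ∀ i : Fin 3, psib_Y H w τ L T (.inr (.inl i)) ^ (mon b c e) (.inr (.inl i)) =
      L i ^ c i * w ^ (lw H i * c i) := by
    intro i
    change (L i * w ^ lw H i) ^ c i = _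
    rw [mul_pow, ← pow_mul]
  have e3 : ∀ l : Fin 5, psib_Y H w τ L T (.inr (.inr l)) ^ (mon b c e) (.inr (.inr l)) =
      T l ^ e l * w ^ (lt H * e l) := by
    intro l
    change (T l * w ^ lt H) ^ e l = _
    rw [mul_pow, ← pow_mul]
  simp only [e1, e2, e3, Finset.prod_mul_distrib, Finset.prod_pow_eq_pow_sum]
  have e6 : psib_L L T (b + c) e = (∏ i, L i ^ b i) * (∏ i, L i ^ c i) * ∏ l, T l ^ e l := by
    rw [psib_L, ← Finset.prod_mul_distrib]
    congr 1
    refine Finset.prod_congr rfl fun i _ => ?_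
    rw [Pi.add_apply, pow_add]
  have e7 : wgt H (b + c) e = (∑ i, lw H i * b i) + (∑ i, lw H i * c i) + ∑ l, lt H * e l := by
    rw [wgt, ← Finset.sum_add_distrib, Finset.mul_sum]
    congr 1
    refine Finset.sum_congr rfl fun i _ => ?_
    rw [Pi.add_apply, mul_add]
  rw [← hgt_eq, e6, e7, pow_add, pow_add, map_mul, Polynomial.aeval_C, map_pow, Polynomial.aeval_X,
    map_mul, map_pow, map_neg, map_one]
  ring

/-- The bidegree of an exponent. -/
def psib_key (m : Ix →₀ ℕ) : (Fin 3 → ℕ) × (Fin 5 → ℕ) :=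
  (fun i => m (.inl i) + m (.inr (.inl i)), fun l => m (.inr (.inr l)))

theorem psib_mon_key (m : Ix →₀ ℕ) :
    mon (fun i => m (.inl i)) ((psib_key m).1 - fun i => m (.inl i)) (psib_key m).2 = m := by
  ext v
  rcases v with i | i | l
  · rfl
  · change m (.inl i) + m (.inr (.inl i)) - m (.inl i) = m (.inr (.inl i))
    omega
  · rfl

theorem psib_gen (H k M : ℕ) (hk : M ≤ k) (w τ : B) (L σ : Fin 3 → B) (T : Fin 5 → B) (s : A)
    (h : ∀ (d : Fin 3 → ℕ) (e : Fin 5 → ℕ), resPoly s d e ≠ 0 → M ≤ wgt H d e) :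
    w ^ M ∣ aeval (psib_X H k w τ L σ T) s := by
  classical
  suffices hmain : w ^ M ∣ aeval (psib_Y H w τ L T) s by
    have h1 := dvd_add (psib_sub H k M hk w τ L σ T s) hmain
    rwa [sub_add_cancel] at h1
  have hsum : aeval (psib_Y H w τ L T) s =
      ∑ m ∈ s.support, aeval (psib_Y H w τ L T) (monomial m (coeff m s)) := by
    conv_lhs => rw [s.as_sum]
    rw [map_sum]
  rw [hsum, ← Finset.sum_fiberwise_of_maps_to
    (t := s.support.image psib_key) (g := psib_key) (fun x hx => Finset.mem_image_of_mem _ hx)]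
  apply Finset.dvd_sum
  rintro ⟨d, e⟩ _
  -- the sum over one fibre
  have hinj : ∀ b ∈ Finset.Iic d, ∀ b' ∈ Finset.Iic d,
      mon b (d - b) e = mon b' (d - b') e → b = b' := by
    intro b _ b' _ hbb
    funext i
    exact DFunLike.congr_fun hbb (Sum.inl i)
  have hfib : (∑ x ∈ s.support with psib_key x = (d, e),
      aeval (psib_Y H w τ L T) (monomial x (coeff x s))) =
      ∑ b ∈ Finset.Iic d, aeval (psib_Y H w τ L T)
        (monomial (mon b (d - b) e) (coeff (mon b (d - b) e) s)) := by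
    rw [← Finset.sum_image (f := fun x => aeval (psib_Y H w τ L T) (monomial x (coeff x s)))
      (g := fun b => mon b (d - b) e) hinj]
    apply Finset.sum_subset
    · intro x hx
      rw [Finset.mem_filter] at hx
      rw [Finset.mem_image]
      refine ⟨fun i => x (.inl i), ?_, ?_⟩
      · rw [Finset.mem_Iic]
        intro i
        have h2 : (psib_key x).1 i = d i := by rw [hx.2]
        rw [← h2]
        exact Nat.le_add_right _ _
      · have h2 := psib_mon_key x
        rw [hx.2] at h2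
        exact h2
    · intro x hx hx'
      rw [Finset.mem_image] at hx
      obtain ⟨b, hb, rfl⟩ := hx
      rw [Finset.mem_Iic] at hb
      have h2 : psib_key (mon b (d - b) e) = (d, e) := by
        have h3 : (psib_key (mon b (d - b) e)).1 = d := by
          funext i
          change b i + (d i - b i) = d i
          have : b i ≤ d i := hb i
          omega
        exact Prod.ext h3 rfl
      rw [Finset.mem_filter, not_and] at hx'
      have h4 : mon b (d - b) e ∉ s.support := fun h5 => hx' h5 h2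
      rw [notMem_support_iff] at h4
      rw [h4, monomial_zero, map_zero]
  rw [hfib]
  have hterm : ∀ b ∈ Finset.Iic d,
      aeval (psib_Y H w τ L T) (monomial (mon b (d - b) e) (coeff (mon b (d - b) e) s)) =
      (psib_L L T d e * w ^ wgt H d e) *
        Polynomial.aeval τ (Polynomial.C ((-1) ^ (∑ i, b i) *
          coeff (mon b (d - b) e) s) * Polynomial.X ^ hgt b) := by
    intro b hb
    rw [Finset.mem_Iic] at hb
    have h2 : b + (d - b) = d := by
      funext i
      change b i + (d i - b i) = d i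
      have : b i ≤ d i := hb i
      omega
    rw [psib_mon, h2]
  rw [Finset.sum_congr rfl hterm, ← Finset.mul_sum, ← map_sum]
  change _ ∣ _ * Polynomial.aeval τ (resPoly s d e)
  by_cases hres : resPoly s d e = 0
  · rw [hres, map_zero, mul_zero]
    exact dvd_zero _
  · apply Dvd.dvd.mul_right
    apply Dvd.dvd.mul_left
    exact pow_dvd_pow _ (h d e hres)

end Gen

/-- Proof. Group the monomials of `s` by `(d, e)`, `d = b + c`: `psi` maps `x^b y^(d-b) t^e` to
`(-1)^{|b|} λ^d T^e ϖ^{wgt H d e} ∏ (τ^{u_i} + σ_i ϖ^k)^{b_i}` and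
`∏ (τ^{u_i} + σ_i ϖ^k)^{b_i} ≡ τ^{hgt b}` modulo `ϖ^k`. So the part of degree `(d, e)` of `s` is
mapped to an element congruent to `λ^d T^e ϖ^{wgt H d e} * resPoly s d e (τ)` modulo `ϖ^k`; this is
divisible by `ϖ^M` if `resPoly s d e = 0` (because `M ≤ k`) and also if `M ≤ wgt H d e`
(in the second case the whole image is divisible by `ϖ^{wgt H d e}`). -/
theorem psi_dvd (H k M : ℕ) (hk : M ≤ k) (s : A)
    (h : ∀ (d : Fin 3 → ℕ) (e : Fin 5 → ℕ), resPoly s d e ≠ 0 → M ≤ wgt H d e) :
    Polynomial.X ^ M ∣ psi H k s := by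
  have h1 : psiX H k = psib_X H k (Polynomial.X : Polynomial (Polynomial A))
      (Polynomial.C Polynomial.X) (fun i => Polynomial.C (Polynomial.C (yy i)))
      (fun i => Polynomial.C (Polynomial.C (xx i))) (fun l => Polynomial.C (Polynomial.C (tt l))) := by
    funext v
    rcases v with i | i | l
    · change -(Polynomial.C (Polynomial.C (yy i)) * Polynomial.X ^ lw H i *
        (Polynomial.C (Polynomial.X ^ u i) + Polynomial.C (Polynomial.C (xx i)) *
          Polynomial.X ^ k)) = -(Polynomial.C (Polynomial.C (yy i)) * Polynomial.X ^ lw H i *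
        (Polynomial.C Polynomial.X ^ u i + Polynomial.C (Polynomial.C (xx i)) * Polynomial.X ^ k))
      rw [Polynomial.C_pow]
    · rfl
    · rfl
  rw [psi, h1]
  exact psib_gen (B := Polynomial (Polynomial A)) H k M hk _ _ _ _ _ s h

end H5ML
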