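import Pool.Agent.H5.ML.Pol

/-!
# PSIC: the order of `psi` on `ftil * gtil`
-/

namespace H5ML

open MvPolynomial

section Gen

variable {P : Type} [CommRing P]

theorem psic_alg (Y Z : Fin 3 → P) (W : P) (l e g : Fin 3 → ℕ) :
    ∏ i, ((-(Y i * W ^ l i * Z i)) ^ e i * (Y i * W ^ l i) ^ g i) =
      (-1) ^ (∑ i, e i) * W ^ (∑ i, l i * (e i + g i)) *
        (∏ i, Y i ^ (e i + g i)) * ∏ i, Z i ^ e i := by
  rw [← Finset.prod_pow_eq_pow_sum, ← Finset.prod_pow_eq_pow_sum, ← Finset.prod_mul_distrib,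
    ← Finset.prod_mul_distrib, ← Finset.prod_mul_distrib]
  refine Finset.prod_congr rfl fun i _ => ?_
  rw [neg_pow]
  ring

theorem psic_F (Y Z : Fin 3 → P) (W : P) (l d : Fin 3 → ℕ) (a : (Fin 3 → ℕ) → P) :
    ∑ b ∈ Finset.Iic d, (a b * (-1) ^ (∑ i, b i)) *
      ∏ i, ((-(Y i * W ^ l i * Z i)) ^ b i * (Y i * W ^ l i) ^ (d i - b i)) =
    W ^ (∑ i, l i * d i) * ((∏ i, Y i ^ d i) *
        ∑ b ∈ Finset.Iic d, a b * ∏ i, Z i ^ b i) := by
  rw [Finset.mul_sum, Finset.mul_sum]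
  refine Finset.sum_congr rfl fun b hb => ?_
  have hb' : b ≤ d := Finset.mem_Iic.mp hb
  have h1 : ∀ i, b i + (d i - b i) = d i := fun i => Nat.add_sub_cancel' (hb' i)
  have hs : ((-1 : P) ^ (∑ i, b i)) * (-1) ^ (∑ i, b i) = 1 := by
    rw [← mul_pow]; simp
  rw [psic_alg Y Z W l b (fun i => d i - b i)]
  simp only [h1]
  calc _ = ((-1 : P) ^ (∑ i, b i) * (-1) ^ (∑ i, b i)) *
      (a b * (W ^ (∑ i, l i * d i) * (∏ i, Y i ^ d i) * ∏ i, Z i ^ b i)) := by ring
    _ = _ := by rw [hs]; ring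

theorem psic_G (Y Z : Fin 3 → P) (W : P) (l d : Fin 3 → ℕ) (a : (Fin 3 → ℕ) → P) :
    ∑ b ∈ Finset.Iic d, (a b * (-1) ^ (∑ i, b i)) *
      ∏ i, ((Y i * W ^ l i) ^ b i * (-(Y i * W ^ l i * Z i)) ^ (d i - b i)) =
    W ^ (∑ i, l i * d i) * ((∏ i, Y i ^ d i) * ((-1) ^ (∑ i, d i) *
        ∑ b ∈ Finset.Iic d, a b * ∏ i, Z i ^ (d i - b i))) := by
  rw [Finset.mul_sum, Finset.mul_sum, Finset.mul_sum]
  refine Finset.sum_congr rfl fun b hb => ?_
  have hb' : b ≤ d := Finset.mem_Iic.mp hb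
  have h1 : ∀ i, (d i - b i) + b i = d i := fun i => Nat.sub_add_cancel (hb' i)
  have h2 : ∑ i, b i + ∑ i, (d i - b i) = ∑ i, d i := by
    rw [← Finset.sum_add_distrib]
    exact Finset.sum_congr rfl fun i _ => by rw [add_comm]; exact h1 i
  have h3 : ∏ i, ((Y i * W ^ l i) ^ b i * (-(Y i * W ^ l i * Z i)) ^ (d i - b i)) =
      ∏ i, ((-(Y i * W ^ l i * Z i)) ^ (d i - b i) * (Y i * W ^ l i) ^ b i) :=
    Finset.prod_congr rfl fun i _ => mul_comm _ _
  rw [h3, psic_alg Y Z W l (fun i => d i - b i) b]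
  simp only [h1]
  rw [← h2, pow_add]
  ring

end Gen

theorem psic_hgt0 (b : Fin 3 → ℕ) : hgt b = 0 ↔ b = 0 := by
  constructor
  · intro h
    simp only [hgt] at h
    funext i
    fin_cases i
    · change b 0 = 0; omega
    · change b 1 = 0; omega
    · change b 2 = 0; omega
  · rintro rfl
    simp [hgt]

section Dom

variable {B : Type} [CommRing B]

/-- The element `τ^{u_i} + σ_i ϖ^k`. -/
noncomputable def psicZ (s : Fin 3 → B) (k : ℕ) (i : Fin 3) : Polynomial (Polynomial B) :=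
  Polynomial.C (Polynomial.X ^ u i) + Polynomial.C (Polynomial.C (s i)) * Polynomial.X ^ k

/-- The constant coefficient of a product of powers of the `psicZ`. -/
theorem psic_const (s : Fin 3 → B) (k : ℕ) (hk : 1 ≤ k) (b : Fin 3 → ℕ) :
    Polynomial.constantCoeff (∏ i, psicZ s k i ^ b i) = Polynomial.X ^ hgt b := by
  have h : ∀ i, Polynomial.constantCoeff (psicZ s k i) = (Polynomial.X : Polynomial B) ^ u i := by
    intro i
    have h2 : Polynomial.constantCoeff ((Polynomial.X : Polynomial (Polynomial B)) ^ k) = 0 := by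
      rw [map_pow, Polynomial.constantCoeff_apply, Polynomial.coeff_X_zero]
      exact zero_pow (by omega)
    rw [psicZ, map_add, map_mul, h2, mul_zero, add_zero, Polynomial.constantCoeff_apply,
      Polynomial.coeff_C_zero]
  rw [map_prod]
  simp only [map_pow, h]
  rw [hgt_eq, ← Finset.prod_pow_eq_pow_sum]
  refine Finset.prod_congr rfl fun i _ => ?_
  rw [pow_mul]

/-- The image of `ftil`. -/
noncomputable def psicFt (y s : Fin 3 → B) (k : ℕ) (l d : Fin 3 → ℕ)
    (a : (Fin 3 → ℕ) → B) : Polynomial (Polynomial B) :=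
  ∑ b ∈ Finset.Iic d, (Polynomial.C (Polynomial.C (a b)) * (-1) ^ (∑ i, b i)) *
        ∏ i, ((-(Polynomial.C (Polynomial.C (y i)) * Polynomial.X ^ l i * psicZ s k i)) ^ b i *
          (Polynomial.C (Polynomial.C (y i)) * Polynomial.X ^ l i) ^ (d i - b i))

/-- The image of `gtil`. -/
noncomputable def psicGt (y s : Fin 3 → B) (k : ℕ) (l d : Fin 3 → ℕ)
    (a : (Fin 3 → ℕ) → B) : Polynomial (Polynomial B) :=
  ∑ b ∈ Finset.Iic d, (Polynomial.C (Polynomial.C (a b)) * (-1) ^ (∑ i, b i)) *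
        ∏ i, ((Polynomial.C (Polynomial.C (y i)) * Polynomial.X ^ l i) ^ b i *
          (-(Polynomial.C (Polynomial.C (y i)) * Polynomial.X ^ l i * psicZ s k i)) ^
            (d i - b i))

/-- The image of `xx i`. -/
noncomputable def psicX (y s : Fin 3 → B) (k : ℕ) (l : Fin 3 → ℕ) (i : Fin 3) :
    Polynomial (Polynomial B) :=
  -(Polynomial.C (Polynomial.C (y i)) * Polynomial.X ^ l i * psicZ s k i)

/-- The image of `yy i`. -/
noncomputable def psicY (y : Fin 3 → B) (l : Fin 3 → ℕ) (i : Fin 3) :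
    Polynomial (Polynomial B) :=
  Polynomial.C (Polynomial.C (y i)) * Polynomial.X ^ l i

theorem psic_sign (j : ℂ →+* B) (c : ℂ) (n : ℕ) :
    (Polynomial.C (Polynomial.C (j (c * (-1) ^ n))) : Polynomial (Polynomial B)) =
      Polynomial.C (Polynomial.C (j c)) * (-1) ^ n := by
  rw [map_mul, map_mul, map_mul, map_pow, map_pow, map_pow, map_neg, map_neg, map_neg, map_one,
    map_one, map_one]

theorem psic_homF (Ψ : A →+* Polynomial (Polynomial B)) (j : ℂ →+* B) (y s : Fin 3 → B) (k : ℕ)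
    (l : Fin 3 → ℕ) (hx : ∀ i, Ψ (xx i) = psicX y s k l i) (hy : ∀ i, Ψ (yy i) = psicY y l i)
    (hC : ∀ c, Ψ (C c) = Polynomial.C (Polynomial.C (j c))) (d : Fin 3 → ℕ)
    (f : (Fin 3 → ℕ) → ℂ) : Ψ (ftil d f) = psicFt y s k l d (fun b => j (f b)) := by
  rw [ftil, map_sum, psicFt]
  refine Finset.sum_congr rfl fun b _ => ?_
  rw [map_mul, hC, psic_sign j, map_prod]
  congr 1
  refine Finset.prod_congr rfl fun i _ => ?_
  rw [map_mul, map_pow, map_pow, hx, hy, psicX, psicY]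

theorem psic_homG (Ψ : A →+* Polynomial (Polynomial B)) (j : ℂ →+* B) (y s : Fin 3 → B) (k : ℕ)
    (l : Fin 3 → ℕ) (hx : ∀ i, Ψ (xx i) = psicX y s k l i) (hy : ∀ i, Ψ (yy i) = psicY y l i)
    (hC : ∀ c, Ψ (C c) = Polynomial.C (Polynomial.C (j c))) (d : Fin 3 → ℕ)
    (f : (Fin 3 → ℕ) → ℂ) : Ψ (gtil d f) = psicGt y s k l d (fun b => j (f b)) := by
  rw [gtil, map_sum, psicGt]
  refine Finset.sum_congr rfl fun b _ => ?_
  rw [map_mul, hC, psic_sign j, map_prod]
  congr 1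
  refine Finset.prod_congr rfl fun i _ => ?_
  rw [map_mul, map_pow, map_pow, hx, hy, psicX, psicY]

variable [IsDomain B]

theorem psic_Fne (s : Fin 3 → B) (k : ℕ) (hk : 1 ≤ k) (d : Fin 3 → ℕ) (a : (Fin 3 → ℕ) → B)
    (h0 : a 0 = 1) : Polynomial.constantCoeff (∑ b ∈ Finset.Iic d,
      (Polynomial.C (Polynomial.C (a b)) : Polynomial (Polynomial B)) *
        ∏ i, psicZ s k i ^ b i) ≠ 0 := by
  intro hz
  have h1 := congrArg (fun q => Polynomial.coeff q 0) hz
  simp only [map_sum, map_mul, psic_const s k hk, Polynomial.coeff_zero] at h1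
  rw [Polynomial.finsetSum_coeff, Finset.sum_eq_single 0] at h1
  · rw [Polynomial.constantCoeff_apply, Polynomial.coeff_C_zero, Polynomial.coeff_C_mul, h0,
      (psic_hgt0 0).2 rfl, pow_zero, Polynomial.coeff_one_zero, mul_one] at h1
    exact one_ne_zero h1
  · intro b _ hb
    rw [Polynomial.constantCoeff_apply, Polynomial.coeff_C_zero, Polynomial.coeff_C_mul,
      Polynomial.coeff_X_pow, if_neg, mul_zero]
    intro h2
    exact hb ((psic_hgt0 b).1 h2.symm)
  · intro h2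
    exact absurd (Finset.mem_Iic.mpr (fun i => Nat.zero_le _)) h2

theorem psic_Gne (s : Fin 3 → B) (k : ℕ) (hk : 1 ≤ k) (d : Fin 3 → ℕ) (a : (Fin 3 → ℕ) → B)
    (h0 : a 0 = 1) : Polynomial.constantCoeff (∑ b ∈ Finset.Iic d,
      (Polynomial.C (Polynomial.C (a b)) : Polynomial (Polynomial B)) *
        ∏ i, psicZ s k i ^ (d i - b i)) ≠ 0 := by
  intro hz
  have h1 := congrArg (fun q => Polynomial.coeff q (hgt d)) hz
  have hc : ∀ b : Fin 3 → ℕ, Polynomial.constantCoeff (∏ i, psicZ s k i ^ (d i - b i)) =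
      Polynomial.X ^ hgt (d - b) := fun b => psic_const s k hk (d - b)
  simp only [map_sum, map_mul, hc, Polynomial.coeff_zero] at h1
  rw [Polynomial.finsetSum_coeff, Finset.sum_eq_single 0] at h1
  · rw [Polynomial.constantCoeff_apply, Polynomial.coeff_C_zero, Polynomial.coeff_C_mul, h0,
      tsub_zero, Polynomial.coeff_X_pow_self, mul_one] at h1
    exact one_ne_zero h1
  · intro b hb hb0
    rw [Polynomial.constantCoeff_apply, Polynomial.coeff_C_zero, Polynomial.coeff_C_mul,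
      Polynomial.coeff_X_pow, if_neg, mul_zero]
    intro h2
    apply hb0
    have hbd : b ≤ d := Finset.mem_Iic.mp hb
    have b0 : b 0 ≤ d 0 := hbd 0
    have b1 : b 1 ≤ d 1 := hbd 1
    have b2 : b 2 ≤ d 2 := hbd 2
    simp only [hgt, Pi.sub_apply] at h2
    funext i
    fin_cases i
    · change b 0 = 0; omega
    · change b 1 = 0; omega
    · change b 2 = 0; omega
  · intro h2
    exact absurd (Finset.mem_Iic.mpr (fun i => Nat.zero_le _)) h2

theorem psic_main (y s : Fin 3 → B) (hy : ∀ i, y i ≠ 0) (k : ℕ) (hk : 1 ≤ k) (l d : Fin 3 → ℕ)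
    (a : (Fin 3 → ℕ) → B) (h0 : a 0 = 1) :
    ¬ (Polynomial.X : Polynomial (Polynomial B)) ^ (2 * (∑ i, l i * d i) + 1) ∣
      psicFt y s k l d a * psicGt y s k l d a := by
  unfold psicFt psicGt
  intro h
  have hyne : Polynomial.constantCoeff
      (∏ i, (Polynomial.C (Polynomial.C (y i)) : Polynomial (Polynomial B)) ^ d i) ≠ 0 := by
    rw [map_prod]
    refine Finset.prod_ne_zero_iff.mpr fun i _ => ?_
    rw [map_pow]
    refine pow_ne_zero _ ?_
    rw [Polynomial.constantCoeff_apply, Polynomial.coeff_C_zero, Polynomial.C_ne_zero]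
    exact hy i
  have hF := psic_Fne s k hk d a h0
  have hG := psic_Gne s k hk d a h0
  rw [psic_F (P := Polynomial (Polynomial B)), psic_G (P := Polynomial (Polynomial B))] at h
  set N := ∑ i, l i * d i with hN
  set P1 := ∏ i, (Polynomial.C (Polynomial.C (y i)) : Polynomial (Polynomial B)) ^ d i
  set F1 := ∑ b ∈ Finset.Iic d,
      (Polynomial.C (Polynomial.C (a b)) : Polynomial (Polynomial B)) * ∏ i, psicZ s k i ^ b i
  set G1 := ∑ b ∈ Finset.Iic d,
      (Polynomial.C (Polynomial.C (a b)) : Polynomial (Polynomial B)) *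
        ∏ i, psicZ s k i ^ (d i - b i)
  have e1 : Polynomial.X ^ N * (P1 * F1) * (Polynomial.X ^ N * (P1 * ((-1) ^ (∑ i, d i) * G1)))
      = Polynomial.X ^ (2 * N) * (P1 * F1 * (P1 * ((-1) ^ (∑ i, d i) * G1))) := by ring
  rw [e1, pow_succ] at h
  have h2 : (Polynomial.X : Polynomial (Polynomial B)) ∣
      P1 * F1 * (P1 * ((-1) ^ (∑ i, d i) * G1)) :=
    (mul_dvd_mul_iff_left (pow_ne_zero _ Polynomial.X_ne_zero)).1 h
  rw [Polynomial.X_dvd_iff, ← Polynomial.constantCoeff_apply] at h2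
  simp only [map_mul, map_pow, map_neg, map_one] at h2
  have h3 : ((-1 : Polynomial B) ^ (∑ i, d i)) ≠ 0 := pow_ne_zero _ (neg_ne_zero.mpr one_ne_zero)
  exact mul_ne_zero (mul_ne_zero hyne hF) (mul_ne_zero hyne (mul_ne_zero h3 hG)) h2

end Dom

theorem psic_xx (H k : ℕ) (i : Fin 3) : psi H k (xx i) = psicX yy xx k (lw H) i := by
  have h : psi H k (X (Sum.inl i)) = psiX H k (Sum.inl i) := by rw [psi, aeval_X]
  exact h

theorem psic_yy (H k : ℕ) (i : Fin 3) : psi H k (yy i) = psicY yy (lw H) i := by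
  have h : psi H k (X (Sum.inr (Sum.inl i))) = psiX H k (Sum.inr (Sum.inl i)) := by
    rw [psi, aeval_X]
  exact h

theorem psic_C (H k : ℕ) (c : ℂ) : psi H k (C c) = Polynomial.C (Polynomial.C (C c)) := by
  rw [psi, aeval_C]
  rfl

/-- Proof. `psi (ftil d f) = λ^d ϖ^{N} ∑_b f b ∏ (τ^{u_i} + σ_i ϖ^k)^{b_i}` with
`N = ∑ lw H i * d i` (the signs cancel), whose coefficient at `ϖ^N` is
`λ^d ∑_b f b τ^{hgt b}` (here `k ≥ 1`), nonzero since its coefficient at `τ^0` is `f 0 = 1`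
(`hgt b = 0` only for `b = 0`). Similarly `psi (gtil d f) = (-1)^{|d|} λ^d ϖ^N ∑_b f b
∏ (τ^{u_i} + σ_i ϖ^k)^{d_i - b_i}`, whose coefficient at `ϖ^N` is
`± λ^d ∑_b f b τ^{hgt d - hgt b}`, nonzero since the coefficient at `τ^{hgt d}` is `f 0 = 1`.
Hence `ϖ^{2N+1}` does not divide the product (`Polynomial (Polynomial A)` is a domain, both are
`ϖ^N` times an element not divisible by the prime `ϖ`). -/
theorem psi_ftil_gtil (H k : ℕ) (hk : 1 ≤ k) (d : Fin 3 → ℕ) (f : (Fin 3 → ℕ) → ℂ)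
    (h0 : f 0 = 1) :
    ¬ Polynomial.X ^ (2 * (∑ i, lw H i * d i) + 1) ∣ psi H k (ftil d f * gtil d f) := by
  have h := psic_main (B := A) yy xx (fun i => X_ne_zero _) k hk (lw H) d (fun b => C (f b))
    (by rw [h0, C_1])
  have hF := psic_homF (B := A) (psi H k : A →+* Polynomial (Polynomial A)) C yy xx k (lw H)
    (psic_xx H k) (psic_yy H k) (psic_C H k) d f
  have hG := psic_homG (B := A) (psi H k : A →+* Polynomial (Polynomial A)) C yy xx k (lw H)
    (psic_xx H k) (psic_yy H k) (psic_C H k) d f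
  rw [← hF, ← hG] at h
  rw [map_mul]
  exact h

end H5ML
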