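import Mathlib

/-!
# FEW: a sparse polynomial cannot vanish to high order at `1`
-/

namespace H5ML

open Polynomial

theorem few_coeff (P : ℂ[X]) (k j : ℕ) :
    (X * derivative P - C (k : ℂ) * P).coeff j = ((j : ℂ) - k) * P.coeff j := by
  rw [coeff_sub, coeff_C_mul]
  cases j with
  | zero => simp
  | succ j =>
    rw [coeff_X_mul, coeff_derivative]
    push_cast
    ring

/-- A polynomial with at most `m` nonzero coefficients which is divisible by `(X - 1) ^ m`
vanishes. -/
theorem few (m : ℕ) (P : Polynomial ℂ) (hs : P.support.card ≤ m)
    (h : (Polynomial.X - 1) ^ m ∣ P) : P = 0 := by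
  induction m generalizing P with
  | zero =>
    have h1 : P.support = ∅ := Finset.card_eq_zero.1 (Nat.le_zero.1 hs)
    exact support_eq_empty.1 h1
  | succ m ih =>
    by_contra hP
    obtain ⟨k, hk⟩ : ∃ k, k ∈ P.support := by
      by_contra hc
      push Not at hc
      exact hP (support_eq_empty.1 (Finset.eq_empty_of_forall_notMem hc))
    have h0 : X * derivative P - C (k : ℂ) * P = 0 := by
      apply ih
      · have hsub : (X * derivative P - C (k : ℂ) * P).support ⊆ P.support.erase k := by
          intro j hj
          rw [mem_support_iff, few_coeff] at hj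
          rw [Finset.mem_erase, mem_support_iff]
          refine ⟨?_, right_ne_zero_of_mul hj⟩
          rintro rfl
          apply hj
          rw [sub_self, zero_mul]
        have h1 := Finset.card_le_card hsub
        rw [Finset.card_erase_of_mem hk] at h1
        omega
      · obtain ⟨Q, rfl⟩ := h
        have h1 : (X - 1 : ℂ[X]) ^ m ∣ derivative ((X - 1) ^ (m + 1) * Q) := by
          rw [derivative_mul, derivative_pow]
          refine dvd_add ?_ ?_
          · refine Dvd.dvd.mul_right (Dvd.dvd.mul_right (Dvd.dvd.mul_left ?_ _) _) _
            rw [Nat.add_sub_cancel]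
          · exact Dvd.dvd.mul_right (pow_dvd_pow _ (Nat.le_succ m)) _
        exact dvd_sub (Dvd.dvd.mul_left h1 _)
          (Dvd.dvd.mul_left (Dvd.dvd.mul_right (pow_dvd_pow _ (Nat.le_succ m)) _) _)
    have h2 : P = monomial k (P.coeff k) := by
      ext j
      rw [coeff_monomial]
      split_ifs with hj
      · rw [hj]
      · have h3 := few_coeff P k j
        rw [h0, coeff_zero] at h3
        rcases mul_eq_zero.1 h3.symm with h4 | h4
        · exfalso
          apply hj
          have : (j : ℂ) = k := sub_eq_zero.1 h4
          exact_mod_cast this.symm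
        · exact h4
    have h3 : P.eval 1 = 0 := by
      obtain ⟨Q, hQ⟩ := h
      rw [hQ]
      simp
    rw [h2, eval_monomial, one_pow, mul_one] at h3
    exact (mem_support_iff.1 hk) h3

end H5ML
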