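import Pool.Agent.H5.ML.ResA
import Pool.Agent.H5.ML.Few

/-!
# RES: the bound for the degrees
-/

namespace H5ML

open MvPolynomial

/-- Scaling the variables scales the coefficients. -/
theorem res_coeff_scale (a : Ix → ℂ) (s : A) (m : Ix →₀ ℕ) :
    coeff m (aeval (fun v => (C (a v) * X v : A)) s) = (m.prod fun v n => a v ^ n) * coeff m s := by
  induction s using MvPolynomial.induction_on' with
  | monomial n c =>
    rw [aeval_monomial, coeff_monomial]
    have h : (n.prod fun v k => (C (a v) * X v : A) ^ k) =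
        C (n.prod fun v k => a v ^ k) * monomial n 1 := by
      rw [monomial_eq, C_1, one_mul, Finsupp.prod, Finsupp.prod, Finsupp.prod, map_prod,
        ← Finset.prod_mul_distrib]
      refine Finset.prod_congr rfl fun v _ => ?_
      rw [mul_pow, ← C_pow]
    rw [h, ← mul_assoc, algebraMap_eq, ← C_mul, C_mul_monomial, mul_one, coeff_monomial]
    split_ifs with h1
    · rw [h1, mul_comm]
    · rw [mul_zero]
  | add p q hp hq => rw [map_add, coeff_add, coeff_add, hp, hq, mul_add]

theorem res_chi_pow (a : ZMod 241) (n : ℕ) : chi a ^ n = chi (n * a) := by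
  induction n with
  | zero => rw [pow_zero, Nat.cast_zero, zero_mul, chi_zero]
  | succ n ih => rw [pow_succ, ih, ← chi_add]; congr 1; push_cast; ring

/-- The character on the monomial `x^b y^c t^e`. -/
theorem res_chi_mon (k : ZMod 241) (b c : Fin 3 → ℕ) (e : Fin 5 → ℕ) (a : Ix → ℂ)
    (ha : ∀ v, actX (.r k) v = C (a v) * X v) (s : A) :
    coeff (mon b c e) (act (.r k) s) =
      chi ((hgt b : ZMod 241) * k - (hgt c : ZMod 241) * k) * coeff (mon b c e) s := by
  have h1 : act (.r k) s = aeval (fun v => (C (a v) * X v : A)) s := by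
    rw [act]
    congr 2
    funext v
    exact ha v
  rw [h1, res_coeff_scale]
  congr 1
  have hx : ∀ i : Fin 3, a (.inl i) = chi (u i * k) := by
    intro i
    have h := ha (.inl i)
    change C (chi (u i * k)) * X _ = C (a _) * X _ at h
    have := mul_right_cancel₀ (X_ne_zero (R := ℂ) (Sum.inl i : Ix)) h
    exact (C_injective Ix ℂ this).symm
  have hy : ∀ i : Fin 3, a (.inr (.inl i)) = chi (-(u i * k)) := by
    intro i
    have h := ha (.inr (.inl i))
    change C (chi (-(u i * k))) * X _ = C (a _) * X _ at h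
    have := mul_right_cancel₀ (X_ne_zero (R := ℂ) (Sum.inr (Sum.inl i) : Ix)) h
    exact (C_injective Ix ℂ this).symm
  have ht : ∀ l : Fin 5, a (.inr (.inr l)) = 1 := by
    intro l
    have h := ha (.inr (.inr l))
    change X _ = C (a _) * X _ at h
    have h2 : (C 1 : A) * X (Sum.inr (Sum.inr l) : Ix) =
        C (a (.inr (.inr l))) * X (Sum.inr (Sum.inr l) : Ix) := by
      rw [C_1, one_mul]; exact h
    have := mul_right_cancel₀ (X_ne_zero (R := ℂ) (Sum.inr (Sum.inr l) : Ix)) h2
    exact (C_injective Ix ℂ this).symm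
  rw [Finsupp.prod_fintype _ _ (fun v => pow_zero _), Fintype.prod_sum_type, Fintype.prod_sum_type]
  have e1 : ∀ i : Fin 3, a (.inl i) ^ (mon b c e) (.inl i) = chi (b i * (u i * k)) := by
    intro i
    rw [hx, res_chi_pow]; rfl
  have e2 : ∀ i : Fin 3, a (.inr (.inl i)) ^ (mon b c e) (.inr (.inl i)) =
      chi (c i * (-(u i * k))) := by
    intro i
    rw [hy, res_chi_pow]; rfl
  have e3 : ∀ l : Fin 5, a (.inr (.inr l)) ^ (mon b c e) (.inr (.inr l)) = 1 := by
    intro l
    rw [ht, one_pow]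
  simp only [e1, e2, e3, Finset.prod_const_one, mul_one, Fin.prod_univ_three, ← chi_add]
  congr 1
  simp only [hgt, u]
  simp only [Matrix.cons_val_zero, Matrix.cons_val_one, Matrix.cons_val]
  push_cast
  ring

theorem res_actX (k : ZMod 241) : ∃ a : Ix → ℂ, ∀ v, actX (.r k) v = C (a v) * X v := by
  refine ⟨fun v => match v with
    | .inl i => chi (u i * k)
    | .inr (.inl i) => chi (-(u i * k))
    | .inr (.inr _) => 1, ?_⟩
  rintro (i | i | l)
  · rfl
  · rfl
  · change X _ = C 1 * X _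
    rw [C_1, one_mul]

theorem res_hgt_sub {b d : Fin 3 → ℕ} (h : b ≤ d) : hgt (d - b) + hgt b = hgt d := by
  have h0 : b 0 ≤ d 0 := h 0
  have h1 : b 1 ≤ d 1 := h 1
  have h2 : b 2 ≤ d 2 := h 2
  simp only [hgt, Pi.sub_apply]
  omega

theorem res_hgt_le {b d : Fin 3 → ℕ} (h : b ≤ d) : hgt b ≤ hgt d := by
  have := res_hgt_sub h
  omega

theorem res_hgt_inj {b d : Fin 3 → ℕ} (h : b ≤ d) (hh : hgt b = hgt d) : b = d := by
  have h0 : b 0 ≤ d 0 := h 0
  have h1 : b 1 ≤ d 1 := h 1
  have h2 : b 2 ≤ d 2 := h 2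
  simp only [hgt] at hh
  funext i
  fin_cases i
  · change b 0 = d 0; omega
  · change b 1 = d 1; omega
  · change b 2 = d 2; omega

/-- Invariance under the rotations restricts the exponents. -/
theorem res_congr (s : A) (hs : ∀ k : ZMod 241, act (.r k) s = s) {b d : Fin 3 → ℕ}
    (hb : b ≤ d) (e : Fin 5 → ℕ) (hc : coeff (mon b (d - b) e) s ≠ 0) :
    (2 * hgt b : ZMod 241) = hgt d := by
  obtain ⟨a, ha⟩ := res_actX 1
  have h := res_chi_mon 1 b (d - b) e a ha s
  rw [hs 1] at h
  have h1 : chi ((hgt b : ZMod 241) * 1 - (hgt (d - b) : ZMod 241) * 1) = 1 := by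
    apply mul_right_cancel₀ hc
    rw [one_mul]
    exact h.symm
  rw [chi_eq_one_iff, mul_one, mul_one, sub_eq_zero] at h1
  have h2 : ((hgt (d - b) + hgt b : ℕ) : ZMod 241) = hgt d := by rw [res_hgt_sub hb]
  rw [← h2]
  push_cast
  rw [← h1]
  ring

theorem res_coeff (d : Fin 3 → ℕ) (w : (Fin 3 → ℕ) → ℂ) (k : ℕ) :
    (∑ b ∈ Finset.Iic d, Polynomial.C (w b) * Polynomial.X ^ hgt b).coeff k =
      ∑ b ∈ Finset.Iic d, if k = hgt b then w b else 0 := by
  rw [Polynomial.finsetSum_coeff]
  refine Finset.sum_congr rfl fun b _ => ?_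
  rw [Polynomial.coeff_C_mul_X_pow]

theorem res_coeff_ne (d : Fin 3 → ℕ) (w : (Fin 3 → ℕ) → ℂ) (k : ℕ)
    (h : (∑ b ∈ Finset.Iic d, Polynomial.C (w b) * Polynomial.X ^ hgt b).coeff k ≠ 0) :
    ∃ b, b ≤ d ∧ k = hgt b ∧ w b ≠ 0 := by
  rw [res_coeff] at h
  obtain ⟨b, hb, h1⟩ := Finset.exists_ne_zero_of_sum_ne_zero h
  rw [ne_eq, ite_eq_right_iff, not_forall] at h1
  obtain ⟨h2, h3⟩ := h1
  exact ⟨b, Finset.mem_Iic.1 hb, h2, h3⟩

theorem res_coeff_top (d : Fin 3 → ℕ) (w : (Fin 3 → ℕ) → ℂ) :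
    (∑ b ∈ Finset.Iic d, Polynomial.C (w b) * Polynomial.X ^ hgt b).coeff (hgt d) = w d := by
  rw [res_coeff, Finset.sum_eq_single d]
  · rw [if_pos rfl]
  · intro b hb hne
    rw [if_neg]
    intro h
    exact hne (res_hgt_inj (Finset.mem_Iic.1 hb) h.symm)
  · intro h
    exact absurd (Finset.mem_Iic.2 le_rfl) h

/-- Congruent numbers with the same quotient are equal. -/
theorem res_inj {k l c : ℕ} (hk : (2 * k : ZMod 241) = c) (hl : (2 * l : ZMod 241) = c)
    (h : k / 241 = l / 241) : k = l := by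
  have h1 : ((2 * k : ℕ) : ZMod 241) = ((2 * l : ℕ) : ZMod 241) := by
    push_cast
    rw [hk, hl]
  rw [ZMod.natCast_eq_natCast_iff, Nat.ModEq] at h1
  omega

theorem res_dvd {k μ : ℕ} (hk : (2 * k : ZMod 241) = ((241 * μ : ℕ) : ZMod 241)) : 241 ∣ k := by
  have h1 : ((2 * k : ℕ) : ZMod 241) = ((241 * μ : ℕ) : ZMod 241) := by
    push_cast at hk ⊢
    rw [hk]
  rw [ZMod.natCast_eq_natCast_iff, Nat.ModEq] at h1
  omega

theorem res_241 {b : Fin 3 → ℕ} (h : hgt b = 241) :
    (12 : ℤ) * b 0 + 16 * b 1 - 29 * b 2 = 0 := by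
  simp only [hgt] at h
  have h0 : b 0 ≤ 16 := by omega
  have h2 : b 2 ≤ 10 := by omega
  have h1 : b 1 ≤ 12 := by omega
  generalize b 0 = x at *
  generalize b 1 = y at *
  generalize b 2 = z at *
  interval_cases z <;> omega

/-- The bound for the degrees of the parts which do not vanish on the curve.

Proof. If `2 q ≤ |d| + |e|` the inequality is clear, and equality means `2 q = |d| + |e|` and
`hgt d = 0`, so `d = 0` and the second claim is `4 * 2 q = 8 q`. Otherwise put
`μ = 2 q - |d| - |e| ≥ 1`.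
By `hs` (invariance under the rotation `r 1`, whose action multiplies the monomial
`x^b y^{d-b} t^e` by `χ (2 hgt b - hgt d)`), a nonzero coefficient at `mon b (d - b) e` implies
`2 hgt b ≡ hgt d mod 241`. So the exponents occurring in `resPoly s d e` lie in one residue class
modulo `241` (`2` is invertible) and in `[0, hgt d]`. If `hgt d < 241 μ` there are at most `μ`
such exponents (`{k ≤ hgt d : k ≡ c mod 241}` has at most `μ` elements), and the first part of
`res_div` with `few` gives `resPoly s d e = 0`. Hence `hgt d ≥ 241 μ`, which is the first claim.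

Let `hgt d = 241 μ`. Then `2 hgt b ≡ 0`, so `241 ∣ hgt b` for the `b` which occur. The polynomial
`F = resPoly s d e` has its exponents in `{0, 241, ..., 241 μ}`; if one of these coefficients
vanished, `few` would give `F = 0`. So the coefficient of `X ^ (241 μ)` is nonzero; the only
`b ≤ d` with `hgt b = hgt d` is `b = d`. So `c_d := coeff (mon d 0 e) s ≠ 0`.
Take `θ = (12, 16, -29)`, `G` the sum in the second part of `res_div`, divisible by
`(X - 1) ^ (μ - 1)`. Its exponents lie in `{0, 241, ..., 241 μ}`; the coefficient at `0` is `0`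
(`hgt b = 0` implies `b = 0`, `θ·0 = 0`), the coefficient at `241` is `0` because
`hgt b = 241` implies `b = (3, 5, 4)` or `b = (7, 2, 4)` (finite check) and `θ·b = 0` for both.
So at most `μ - 1` exponents remain and `G = 0` by `few`. (For `μ = 1` everything is at exponents
`0, 241`.) The coefficient of `X ^ (241 μ)` of `G` is `± (θ·d) c_d`, so `θ·d = 0`:
`12 d_0 + 16 d_1 = 29 d_2`. With `15 d_0 + 20 d_1 + 24 d_2 = 241 μ`: multiplying by `4`,
`5 * 29 d_2 + 96 d_2 = 241 d_2 = 964 μ`, so `d_2 = 4 μ`, i.e.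
`d_2 + 4 (|d| + |e|) = 8 q`. -/
theorem res_bound (s : A) (hs : ∀ k : ZMod 241, act (.r k) s = s) (q : ℕ)
    (hq : Polynomial.X ^ (2 * q) ∣ theta s) (d : Fin 3 → ℕ) (e : Fin 5 → ℕ)
    (h : resPoly s d e ≠ 0) :
    241 * (2 * q) ≤ hgt d + 241 * (∑ i, d i + ∑ l, e l) ∧
    (241 * (2 * q) = hgt d + 241 * (∑ i, d i + ∑ l, e l) →
      d 2 + 4 * (∑ i, d i + ∑ l, e l) = 8 * q) := by
  obtain ⟨hdiv1, hdiv2⟩ := res_div s q hq d e ![12, 16, -29]
  obtain ⟨D, hD⟩ : ∃ D, D = ∑ i, d i + ∑ l, e l := ⟨_, rfl⟩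
  rw [← hD] at hdiv1 hdiv2 ⊢
  by_cases hle : 2 * q ≤ D
  · refine ⟨by omega, fun heq => ?_⟩
    have h0 : hgt d = 0 := by omega
    simp only [hgt] at h0
    omega
  push Not at hle
  obtain ⟨μ, hμ⟩ : ∃ μ, μ = 2 * q - D := ⟨_, rfl⟩
  rw [← hμ] at hdiv1 hdiv2
  have hμ1 : 1 ≤ μ := by omega
  -- the first polynomial
  obtain ⟨w, hw⟩ : ∃ w : (Fin 3 → ℕ) → ℂ,
      w = fun b => (-1) ^ (∑ i, b i) * coeff (mon b (d - b) e) s := ⟨_, rfl⟩
  have hF : resPoly s d e = ∑ b ∈ Finset.Iic d, Polynomial.C (w b) * Polynomial.X ^ hgt b := by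
    rw [hw]
    rfl
  have hwc : ∀ b, b ≤ d → w b ≠ 0 → (2 * hgt b : ZMod 241) = hgt d := by
    intro b hb hwb
    apply res_congr s hs hb e
    intro h0
    apply hwb
    rw [hw]
    change (-1) ^ (∑ i, b i) * coeff (mon b (d - b) e) s = 0
    rw [h0, mul_zero]
  have hexp : ∀ k, (resPoly s d e).coeff k ≠ 0 → k ≤ hgt d ∧ (2 * k : ZMod 241) = hgt d := by
    intro k hk
    rw [hF] at hk
    obtain ⟨b, hb, hkb, hwb⟩ := res_coeff_ne d w k hk
    rw [hkb]
    exact ⟨res_hgt_le hb, hwc b hb hwb⟩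
  -- a bound for the support
  have hcard : (∀ k, (resPoly s d e).coeff k ≠ 0 → k < 241 * μ) → False := by
    intro hlt
    apply h
    apply few μ _ _ hdiv1
    calc (resPoly s d e).support.card ≤ (Finset.range μ).card := by
          apply Finset.card_le_card_of_injOn (fun k => k / 241)
          · intro k hk
            rw [Finset.mem_coe, Polynomial.mem_support_iff] at hk
            rw [Finset.mem_coe, Finset.mem_range]
            exact Nat.div_lt_of_lt_mul (hlt k hk)
          · intro k hk l hl hkl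
            rw [Finset.mem_coe, Polynomial.mem_support_iff] at hk hl
            exact res_inj (hexp k hk).2 (hexp l hl).2 hkl
      _ = μ := Finset.card_range μ
  have hge : 241 * μ ≤ hgt d := by
    by_contra hlt
    push Not at hlt
    exact hcard fun k hk => lt_of_le_of_lt (hexp k hk).1 hlt
  refine ⟨by omega, fun heq => ?_⟩
  have heq' : hgt d = 241 * μ := by omega
  -- the top coefficient is nonzero
  have hwd : w d ≠ 0 := by
    intro h0
    apply hcard
    intro k hk
    have h1 := (hexp k hk).1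
    rcases Nat.lt_or_ge k (241 * μ) with h2 | h2
    · exact h2
    · exfalso
      have h3 : k = hgt d := by omega
      rw [h3, hF, res_coeff_top] at hk
      exact hk h0
  -- the second polynomial
  obtain ⟨w', hw'⟩ : ∃ w' : (Fin 3 → ℕ) → ℂ,
      w' = fun b => (∑ i, ((![12, 16, -29] : Fin 3 → ℤ) i : ℂ) * b i) * w b := ⟨_, rfl⟩
  obtain ⟨P, hP⟩ : ∃ P, P = ∑ b ∈ Finset.Iic d, Polynomial.C (w' b) * Polynomial.X ^ hgt b :=
    ⟨_, rfl⟩
  have hdivP : (Polynomial.X - 1) ^ (μ - 1) ∣ P := by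
    rw [hP, hw', hw]
    exact hdiv2
  have hth : ∀ b : Fin 3 → ℕ, (∑ i, ((![12, 16, -29] : Fin 3 → ℤ) i : ℂ) * b i) =
      (((12 : ℤ) * b 0 + 16 * b 1 - 29 * b 2 : ℤ) : ℂ) := by
    intro b
    rw [Fin.sum_univ_three]
    simp only [Matrix.cons_val_zero, Matrix.cons_val_one, Matrix.cons_val]
    push_cast
    ring
  have hexpP : ∀ k, P.coeff k ≠ 0 → k ≤ 241 * μ ∧ (2 * k : ZMod 241) = hgt d ∧ 2 ≤ k / 241 := by
    intro k hk
    rw [hP] at hk
    obtain ⟨b, hb, hkb, hwb⟩ := res_coeff_ne d w' k hk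
    have hwb0 : w b ≠ 0 := by
      intro h0
      apply hwb
      rw [hw']
      change _ * w b = 0
      rw [h0, mul_zero]
    have hthb : (12 : ℤ) * b 0 + 16 * b 1 - 29 * b 2 ≠ 0 := by
      intro h0
      apply hwb
      rw [hw']
      change (∑ i, ((![12, 16, -29] : Fin 3 → ℤ) i : ℂ) * b i) * w b = 0
      rw [hth, h0, Int.cast_zero, zero_mul]
    have hc := hwc b hb hwb0
    have hle2 := res_hgt_le hb
    rw [hkb]
    refine ⟨by omega, hc, ?_⟩
    have hdv : 241 ∣ hgt b := by
      apply res_dvd (μ := μ)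
      rw [hc, heq']
    obtain ⟨j, hj⟩ := hdv
    rw [hj, Nat.mul_div_cancel_left _ (by norm_num)]
    by_contra hlt
    push Not at hlt
    interval_cases j
    · have h0 : hgt b = 0 := by omega
      simp only [hgt] at h0
      omega
    · exact hthb (res_241 (by omega))
  have hP0 : P = 0 := by
    apply few (μ - 1) P _ hdivP
    calc P.support.card ≤ (Finset.range (μ - 1)).card := by
          apply Finset.card_le_card_of_injOn (fun k => k / 241 - 2)
          · intro k hk
            rw [Finset.mem_coe, Polynomial.mem_support_iff] at hk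
            rw [Finset.mem_coe, Finset.mem_range]
            obtain ⟨h1, h2, h3⟩ := hexpP k hk
            have h4 : k / 241 ≤ μ := Nat.div_le_of_le_mul h1
            change k / 241 - 2 < μ - 1
            omega
          · intro k hk l hl hkl
            rw [Finset.mem_coe, Polynomial.mem_support_iff] at hk hl
            have h1 := hexpP k hk
            have h2 := hexpP l hl
            apply res_inj h1.2.1 h2.2.1
            change k / 241 - 2 = l / 241 - 2 at hkl
            omega
      _ = μ - 1 := Finset.card_range _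
  have htop := res_coeff_top d w'
  rw [← hP, hP0, Polynomial.coeff_zero, hw'] at htop
  have h5 : (((12 : ℤ) * d 0 + 16 * d 1 - 29 * d 2 : ℤ) : ℂ) = 0 := by
    rw [← hth]
    rcases mul_eq_zero.1 htop.symm with h6 | h6
    · exact h6
    · exact absurd h6 hwd
  have h6 : (12 : ℤ) * d 0 + 16 * d 1 - 29 * d 2 = 0 := by exact_mod_cast h5
  simp only [hgt] at heq'
  omega

end H5ML
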