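import Pool.Agent.H5.ML.Pol

/-!
# THF: the value of `ftil` and `gtil`
-/

namespace H5ML

open MvPolynomial

theorem thf_one {B : Type*} [CommRing B] (U V Q : B) (hU : U = 2 * Q - V) (b d : ℕ) (hbd : b ≤ d) :
    U ^ b * V ^ (d - b) = (-1) ^ b * ∑ a ∈ Finset.range (d + 1),
      (-2 * Q) ^ a * V ^ (d - a) * ((b.choose a : ℕ) : B) := by
  have h1 : U = (-1) * ((-2 * Q) + V) := by
    rw [hU]
    ring
  rw [h1, mul_pow, add_pow, mul_assoc, Finset.sum_mul]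
  congr 1
  have h2 : Finset.range (b + 1) ⊆ Finset.range (d + 1) := by
    intro x hx
    rw [Finset.mem_range] at hx ⊢
    omega
  rw [← Finset.sum_subset h2]
  · apply Finset.sum_congr rfl
    intro a ha
    rw [Finset.mem_range] at ha
    have h3 : V ^ (d - a) = V ^ (b - a) * V ^ (d - b) := by
      rw [← pow_add]
      congr 1
      omega
    rw [h3]
    ring
  · intro a _ ha
    rw [Finset.mem_range] at ha
    rw [Nat.choose_eq_zero_of_lt (by omega)]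
    simp

theorem thf_gen {B : Type*} [CommRing B] (c : ℂ →+* B) (p : B) (U V Q v r : Fin 3 → B)
    (hU : ∀ i, U i = 2 * Q i - V i) (hV : ∀ i, V i = p * v i) (hQ : ∀ i, Q i = p ^ 2 * r i)
    (m : ℕ) (d : Fin 3 → ℕ) (f : (Fin 3 → ℕ) → ℂ)
    (hf : ∀ α : Fin 3 → ℕ, ∑ i, α i < m →
      ∑ b ∈ Finset.Iic d, f b * ∏ i, ((b i).choose (α i) : ℂ) = 0) :
    p ^ (∑ i, d i + m) ∣ ∑ b ∈ Finset.Iic d, c (f b * (-1) ^ (∑ i, b i)) *
      ∏ i, (U i ^ b i * V i ^ (d i - b i)) := by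
  classical
  have h1 : ∑ b ∈ Finset.Iic d, c (f b * (-1) ^ (∑ i, b i)) *
      ∏ i, (U i ^ b i * V i ^ (d i - b i)) =
      ∑ α ∈ Fintype.piFinset (fun i => Finset.range (d i + 1)),
        c (∑ b ∈ Finset.Iic d, f b * ∏ i, ((b i).choose (α i) : ℂ)) *
          ∏ i, ((-2 * Q i) ^ α i * V i ^ (d i - α i)) := by
    have h2 : ∀ b ∈ Finset.Iic d, c (f b * (-1) ^ (∑ i, b i)) *
        ∏ i, (U i ^ b i * V i ^ (d i - b i)) =
        ∑ α ∈ Fintype.piFinset (fun i => Finset.range (d i + 1)),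
          c (f b * ∏ i, ((b i).choose (α i) : ℂ)) *
            ∏ i, ((-2 * Q i) ^ α i * V i ^ (d i - α i)) := by
      intro b hb
      have hbd : ∀ i, b i ≤ d i := Finset.mem_Iic.mp hb
      rw [Finset.prod_congr rfl (fun i _ => thf_one (U i) (V i) (Q i) (hU i) (b i) (d i) (hbd i)),
        Finset.prod_mul_distrib, Finset.prod_pow_eq_pow_sum, Finset.prod_univ_sum, ← mul_assoc]
      have h3 : c (f b * (-1) ^ (∑ i, b i)) * (-1) ^ (∑ i, b i) = c (f b) := by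
        rw [map_mul, map_pow, map_neg, map_one, mul_assoc, ← mul_pow]
        simp
      rw [h3, Finset.mul_sum]
      apply Finset.sum_congr rfl
      intro α _
      rw [Finset.prod_mul_distrib, map_mul, map_prod]
      simp only [map_natCast]
      ring
    rw [Finset.sum_congr rfl h2, Finset.sum_comm]
    apply Finset.sum_congr rfl
    intro α _
    rw [← Finset.sum_mul, ← map_sum]
  rw [h1]
  apply Finset.dvd_sum
  intro α hα
  rcases Nat.lt_or_ge (∑ i, α i) m with hm | hm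
  · rw [hf α hm, map_zero, zero_mul]
    exact dvd_zero _
  · apply Dvd.dvd.mul_left
    have h4 : ∏ i, ((-2 * Q i) ^ α i * V i ^ (d i - α i)) =
        p ^ (∑ i, (d i + α i)) * ∏ i, ((-2 * r i) ^ α i * v i ^ (d i - α i)) := by
      rw [← Finset.prod_pow_eq_pow_sum, ← Finset.prod_mul_distrib]
      apply Finset.prod_congr rfl
      intro i _
      have hi : α i ≤ d i := by
        have := Fintype.mem_piFinset.mp hα i
        rw [Finset.mem_range] at this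
        omega
      rw [hQ, hV, mul_pow]
      have h5 : p ^ (d i + α i) = p ^ (2 * α i) * p ^ (d i - α i) := by
        rw [← pow_add]
        congr 1
        omega
      rw [h5, mul_pow, mul_pow, mul_pow, ← pow_mul]
      ring
    rw [h4]
    apply Dvd.dvd.mul_right
    apply pow_dvd_pow
    rw [Finset.sum_add_distrib]
    omega

theorem thf_map {A' B : Type*} [CommRing A'] [CommRing B] (T : A' →+* B) (c : ℂ →+* B)
    (c' : ℂ →+* A') (h : ∀ z, T (c' z) = c z) (x y : Fin 3 → A') (U V : Fin 3 → B)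
    (hU : ∀ i, U i = T (x i)) (hV : ∀ i, V i = T (y i)) (d : Fin 3 → ℕ)
    (f : (Fin 3 → ℕ) → ℂ) :
    T (∑ b ∈ Finset.Iic d, c' (f b * (-1) ^ (∑ i, b i)) * ∏ i, (x i ^ b i * y i ^ (d i - b i))) =
      ∑ b ∈ Finset.Iic d, c (f b * (-1) ^ (∑ i, b i)) * ∏ i, (U i ^ b i * V i ^ (d i - b i)) := by
  rw [map_sum]
  apply Finset.sum_congr rfl
  intro b _
  rw [map_mul, map_prod, h]
  congr 1
  apply Finset.prod_congr rfl
  intro i _
  rw [map_mul, map_pow, map_pow, hU, hV]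

/-- Proof. Put `Qᵢ = C (yy i) ϖ²`, `Yᵢ = theta (yy i) = Qᵢ - C (xx i) ϖ` (divisible by `ϖ`). Then
`theta (xx i) = 2 Qᵢ - Yᵢ = -(Yᵢ - 2 Qᵢ)`, so
`theta (xx i) ^ b * Yᵢ ^ (d - b) = (-1) ^ b ∑_a choose (b, a) (-2 Qᵢ) ^ a Yᵢ ^ (d - a)` (for
`b ≤ d`; the sum over `a ≤ b`, or over `a ≤ d` since `choose (b, a) = 0` for `a > b`). Taking the
product over `i` and the sum over `b` (the signs cancel):
`theta (ftil d f) = ∑_{α ≤ d} (∑_b f b ∏ choose (b i, α i)) ∏ (-2 Qᵢ) ^ α i Yᵢ ^ (d i - α i)`.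
The terms with `∑ α < m` vanish by `hf`, the others are divisible by
`ϖ ^ (2 |α| + |d| - |α|) = ϖ ^ (|d| + |α|)`. -/
theorem theta_ftil (m : ℕ) (d : Fin 3 → ℕ) (f : (Fin 3 → ℕ) → ℂ)
    (hf : ∀ α : Fin 3 → ℕ, ∑ i, α i < m →
      ∑ b ∈ Finset.Iic d, f b * ∏ i, ((b i).choose (α i) : ℂ) = 0) :
    Polynomial.X ^ (∑ i, d i + m) ∣ theta (ftil d f) := by
  obtain ⟨c, hc⟩ : ∃ c : ℂ →+* Polynomial A, ∀ z, c z = Polynomial.C (C z) :=
    ⟨(Polynomial.C : A →+* Polynomial A).comp (C : ℂ →+* A), fun z => rfl⟩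
  obtain ⟨T, hT⟩ : ∃ T : A →+* Polynomial A, ∀ x, T x = theta x :=
    ⟨(theta : A →+* Polynomial A), fun _ => rfl⟩
  obtain ⟨Q, hQ⟩ : ∃ Q : Fin 3 → Polynomial A, ∀ i, Q i = Polynomial.X ^ 2 * Polynomial.C (yy i) :=
    ⟨_, fun _ => rfl⟩
  obtain ⟨v, hv⟩ : ∃ v : Fin 3 → Polynomial A, ∀ i, v i =
    Polynomial.C (yy i) * Polynomial.X - Polynomial.C (xx i) := ⟨_, fun _ => rfl⟩
  obtain ⟨U, hU⟩ : ∃ U : Fin 3 → Polynomial A, ∀ i, U i = T (xx i) := ⟨_, fun _ => rfl⟩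
  obtain ⟨V, hV⟩ : ∃ V : Fin 3 → Polynomial A, ∀ i, V i = T (yy i) := ⟨_, fun _ => rfl⟩
  have hTC : ∀ z : ℂ, T (C z) = c z := fun z => by rw [hT, theta_C, hc]
  have e := thf_map T c (C : ℂ →+* A) hTC xx yy U V hU hV d f
  have e' : theta (ftil d f) = _ := (hT _).symm.trans e
  rw [e']
  refine thf_gen c Polynomial.X U V Q v (fun i => Polynomial.C (yy i)) ?_ ?_ hQ m d f hf
  · intro i
    rw [hU, hV, hQ, hT, hT, theta_xx, theta_yy]
    ring
  · intro i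
    rw [hV, hv, hT, theta_yy]
    ring

/-- Proof. The same as `theta_ftil` with the roles of `x` and `y` exchanged: with
`Zᵢ = theta (xx i)`, `theta (yy i) = 2 Qᵢ - Zᵢ`. (Or apply to `theta_ftil` the automorphism
`ϖ ↦ -ϖ` of `A[ϖ]`, which maps `theta (yy i)` to `theta (xx i)` and conversely.) -/
theorem theta_gtil (m : ℕ) (d : Fin 3 → ℕ) (f : (Fin 3 → ℕ) → ℂ)
    (hf : ∀ α : Fin 3 → ℕ, ∑ i, α i < m →
      ∑ b ∈ Finset.Iic d, f b * ∏ i, ((b i).choose (α i) : ℂ) = 0) :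
    Polynomial.X ^ (∑ i, d i + m) ∣ theta (gtil d f) := by
  obtain ⟨c, hc⟩ : ∃ c : ℂ →+* Polynomial A, ∀ z, c z = Polynomial.C (C z) :=
    ⟨(Polynomial.C : A →+* Polynomial A).comp (C : ℂ →+* A), fun z => rfl⟩
  obtain ⟨T, hT⟩ : ∃ T : A →+* Polynomial A, ∀ x, T x = theta x :=
    ⟨(theta : A →+* Polynomial A), fun _ => rfl⟩
  obtain ⟨Q, hQ⟩ : ∃ Q : Fin 3 → Polynomial A, ∀ i, Q i = Polynomial.X ^ 2 * Polynomial.C (yy i) :=
    ⟨_, fun _ => rfl⟩
  obtain ⟨v, hv⟩ : ∃ v : Fin 3 → Polynomial A, ∀ i, v i =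
    Polynomial.C (yy i) * Polynomial.X + Polynomial.C (xx i) := ⟨_, fun _ => rfl⟩
  obtain ⟨U, hU⟩ : ∃ U : Fin 3 → Polynomial A, ∀ i, U i = T (yy i) := ⟨_, fun _ => rfl⟩
  obtain ⟨V, hV⟩ : ∃ V : Fin 3 → Polynomial A, ∀ i, V i = T (xx i) := ⟨_, fun _ => rfl⟩
  have hTC : ∀ z : ℂ, T (C z) = c z := fun z => by rw [hT, theta_C, hc]
  have e := thf_map T c (C : ℂ →+* A) hTC yy xx U V hU hV d f
  have e' : theta (gtil d f) = _ := (hT _).symm.trans e
  rw [e']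
  refine thf_gen c Polynomial.X U V Q v (fun i => Polynomial.C (yy i)) ?_ ?_ hQ m d f hf
  · intro i
    rw [hU, hV, hQ, hT, hT, theta_xx, theta_yy]
    ring
  · intro i
    rw [hV, hv, hT, theta_xx]
    ring

end H5ML
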