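import Pool.Agent.H5.ML.Pol

/-!
# THG: invariance of `ftil * gtil`
-/

namespace H5ML

open MvPolynomial

/-- The common form of `ftil` and `gtil`. -/
noncomputable def thg_T (d : Fin 3 → ℕ) (f : (Fin 3 → ℕ) → ℂ) (α β : Fin 3 → A) : A :=
  ∑ b ∈ Finset.Iic d, C (f b * (-1) ^ (∑ i, b i)) * ∏ i, (α i ^ b i * β i ^ (d i - b i))

theorem thg_act (d : Fin 3 → ℕ) (f : (Fin 3 → ℕ) → ℂ) (α β : Fin 3 → A) (g : G) :
    act g (thg_T d f α β) = thg_T d f (fun i => act g (α i)) (fun i => act g (β i)) := by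
  have hC : ∀ (c : ℂ), act g (C c) = C c := fun c => by simp [act]
  simp only [thg_T, map_sum, map_mul, map_prod, map_pow, hC]

theorem thg_chi_pow (a : ZMod 241) (n : ℕ) : chi a ^ n = chi (n * a) := by
  induction n with
  | zero => simp [chi_zero]
  | succ n ih => rw [pow_succ, ih, ← chi_add]; congr 1; push_cast; ring

theorem thg_chi_sum (a : Fin 3 → ZMod 241) : ∏ i, chi (a i) = chi (∑ i, a i) := by
  simp only [Fin.prod_univ_three, Fin.sum_univ_three, chi_add]

theorem thg_scalar (d b : Fin 3 → ℕ) (hb : b ≤ d) (h : 241 ∣ hgt b) (k : ZMod 241) :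
    ∏ i, (chi (u i * k) ^ b i * chi (-(u i * k)) ^ (d i - b i)) = chi (-(k * hgt d)) := by
  have h1 : ((hgt b : ℕ) : ZMod 241) = 0 := (ZMod.natCast_eq_zero_iff _ _).2 h
  simp only [thg_chi_pow, ← chi_add]
  rw [thg_chi_sum]
  congr 1
  rw [hgt_eq] at h1
  rw [hgt_eq]
  push_cast at h1 ⊢
  have h2 : ∀ i, ((d i - b i : ℕ) : ZMod 241) = (d i : ZMod 241) - b i := fun i => by
    rw [Nat.cast_sub (hb i)]
  simp only [h2]
  rw [Fin.sum_univ_three] at h1 ⊢
  rw [Fin.sum_univ_three]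
  linear_combination (2 * k) * h1

theorem thg_smul (d : Fin 3 → ℕ) (f : (Fin 3 → ℕ) → ℂ) (hf : ∀ b, f b ≠ 0 → 241 ∣ hgt b)
    (α β : Fin 3 → A) (k : ZMod 241) :
    thg_T d f (fun i => C (chi (u i * k)) * α i) (fun i => C (chi (-(u i * k))) * β i) =
      C (chi (-(k * hgt d))) * thg_T d f α β := by
  unfold thg_T
  rw [Finset.mul_sum]
  refine Finset.sum_congr rfl fun b hb => ?_
  by_cases h : f b = 0
  · simp [h]
  · have h1 := thg_scalar d b (Finset.mem_Iic.1 hb) (hf b h) k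
    have h2 : ∏ i, ((C (chi (u i * k)) * α i) ^ b i * (C (chi (-(u i * k))) * β i) ^ (d i - b i)) =
        C (∏ i, (chi (u i * k) ^ b i * chi (-(u i * k)) ^ (d i - b i))) *
          ∏ i, (α i ^ b i * β i ^ (d i - b i)) := by
      rw [map_prod, ← Finset.prod_mul_distrib]
      refine Finset.prod_congr rfl fun i _ => ?_
      rw [C_mul, C_pow, C_pow]
      ring
    rw [h2, h1]
    ring

theorem thg_ftil (d : Fin 3 → ℕ) (f : (Fin 3 → ℕ) → ℂ) : ftil d f = thg_T d f xx yy := rfl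

theorem thg_gtil (d : Fin 3 → ℕ) (f : (Fin 3 → ℕ) → ℂ) : gtil d f = thg_T d f yy xx := rfl

/-- Proof. `act (r k)` multiplies `∏ xx i ^ b i * yy i ^ (d i - b i)` by
`χ (k (2 hgt b - hgt d)) = χ (- k hgt d)` because `241 ∣ hgt b` (and `hgt (d - b) = hgt d - hgt b`
for `b ≤ d`), and `∏ yy i ^ b i * xx i ^ (d i - b i)` by `χ (k hgt d)`. So
`act (r k) ftil = C (χ (-k hgt d)) ftil`, `act (r k) gtil = C (χ (k hgt d)) gtil`. Similarly
`act (sr k) ftil = C (χ (-k hgt d)) gtil` and `act (sr k) gtil = C (χ (k hgt d)) ftil`. -/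
theorem ftil_mul_gtil_inv (d : Fin 3 → ℕ) (f : (Fin 3 → ℕ) → ℂ)
    (hf : ∀ b, f b ≠ 0 → 241 ∣ hgt b) (g : G) : g • (ftil d f * gtil d f) = ftil d f * gtil d f := by
  rw [smul_eq, map_mul, thg_ftil, thg_gtil, thg_act, thg_act]
  have key : ∀ k : ZMod 241, (C (chi (-(k * hgt d))) : A) * C (chi (-(-k * hgt d))) = 1 := by
    intro k
    rw [← C_mul, ← chi_add]
    have : -(k * (hgt d : ZMod 241)) + -(-k * hgt d) = 0 := by ring
    rw [this, chi_zero, C_1]
  rcases g with k | k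
  · simp only [act_xx_r, act_yy_r]
    have e1 := thg_smul d f hf xx yy k
    have e2 := thg_smul d f hf yy xx (-k)
    have e3 : ∀ i, (u i : ZMod 241) * -k = -(u i * k) := fun i => by ring
    simp only [e3, neg_neg] at e2
    rw [e1, e2]
    linear_combination (thg_T d f xx yy * thg_T d f yy xx) * key k
  · simp only [act_xx_sr, act_yy_sr]
    have e1 := thg_smul d f hf yy xx k
    have e2 := thg_smul d f hf xx yy (-k)
    have e3 : ∀ i, (u i : ZMod 241) * -k = -(u i * k) := fun i => by ring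
    simp only [e3, neg_neg] at e2
    rw [e1, e2]
    linear_combination (thg_T d f xx yy * thg_T d f yy xx) * key k

end H5ML
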