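import Pool.Agent.H5.ML.Exf
import Pool.Agent.H5.ML.Thf
import Pool.Agent.H5.ML.Thg
import Pool.Agent.H5.ML.Res
import Pool.Agent.H5.ML.PsiB
import Pool.Agent.H5.ML.PsiC

/-!
# CORE: the graded ring of the valuation is not finitely generated
-/

namespace H5ML

open MvPolynomial

theorem mon_inj {b c b' c' : Fin 3 → ℕ} {e e' : Fin 5 → ℕ} (h : mon b c e = mon b' c' e') :
    b = b' ∧ c = c' ∧ e = e' := by
  have h1 : Sum.elim b (Sum.elim c e) = Sum.elim b' (Sum.elim c' e') := by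
    simpa [mon] using h
  refine ⟨?_, ?_, ?_⟩
  · funext i
    simpa using congrFun h1 (.inl i)
  · funext i
    simpa using congrFun h1 (.inr (.inl i))
  · funext i
    simpa using congrFun h1 (.inr (.inr i))

theorem degree_mon (b c : Fin 3 → ℕ) (e : Fin 5 → ℕ) :
    (mon b c e).sum (fun _ k => k) = ∑ i, b i + ∑ i, c i + ∑ l, e l := by
  rw [Finsupp.sum_fintype _ _ (fun _ => rfl)]
  simp [mon, Fintype.sum_sum_type, add_assoc]

/-- If the part of degree `(d, e)` is nonzero on the curve then `|d| + |e|` is at most the total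
degree. -/
theorem degree_le_of_resPoly (s : A) (d : Fin 3 → ℕ) (e : Fin 5 → ℕ) (h : resPoly s d e ≠ 0) :
    ∑ i, d i + ∑ l, e l ≤ s.totalDegree := by
  obtain ⟨b, hb, hne⟩ : ∃ b ∈ Finset.Iic d, coeff (mon b (d - b) e) s ≠ 0 := by
    by_contra hc
    push Not at hc
    apply h
    unfold resPoly
    refine Finset.sum_eq_zero fun b hb => ?_
    rw [hc b hb]
    simp
  have h1 := MvPolynomial.le_totalDegree (p := s) (MvPolynomial.mem_support_iff.mpr hne)
  rw [degree_mon] at h1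
  have h2 : ∑ i, b i + ∑ i, (d - b) i = ∑ i, d i := by
    rw [← Finset.sum_add_distrib]
    refine Finset.sum_congr rfl fun i _ => ?_
    have : b i ≤ d i := (Finset.mem_Iic.mp hb) i
    simp only [Pi.sub_apply]
    omega
  omega

theorem wgt_bound (H q : ℕ) (hH : 1 ≤ H) (d : Fin 3 → ℕ) (e : Fin 5 → ℕ)
    (h1 : 241 * (2 * q) ≤ hgt d + 241 * (∑ i, d i + ∑ l, e l))
    (h2 : 241 * (2 * q) = hgt d + 241 * (∑ i, d i + ∑ l, e l) →
      d 2 + 4 * (∑ i, d i + ∑ l, e l) = 8 * q)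
    (h3 : 5 * (∑ i, d i + ∑ l, e l) ≤ H) :
    482 * q * H - 8 * q ≤ wgt H d e := by
  set S := ∑ l, e l with hS
  have e0 : lw H 0 = 256 * H - 4 := by simp [lw, u]; ring_nf
  have e1 : lw H 1 = 261 * H - 4 := by simp [lw, u]; ring_nf
  have e2 : lw H 2 = 265 * H - 5 := by simp [lw, u]; ring_nf
  have e3 : lt H = 241 * H - 4 := by simp [lt]; ring_nf
  have hw : wgt H d e + (4 * d 0 + 4 * d 1 + 5 * d 2 + 4 * S) =
      H * (hgt d + 241 * (d 0 + d 1 + d 2 + S)) := by
    unfold wgt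
    rw [Fin.sum_univ_three, e0, e1, e2, e3, ← hS]
    obtain ⟨H', rfl⟩ : ∃ H', H = H' + 1 := ⟨H - 1, by omega⟩
    have a0 : 256 * (H' + 1) - 4 = 256 * H' + 252 := by omega
    have a1 : 261 * (H' + 1) - 4 = 261 * H' + 257 := by omega
    have a2 : 265 * (H' + 1) - 5 = 265 * H' + 260 := by omega
    have a3 : 241 * (H' + 1) - 4 = 241 * H' + 237 := by omega
    rw [a0, a1, a2, a3]
    unfold hgt
    ring
  rw [Fin.sum_univ_three] at h1 h2 h3
  rcases Nat.lt_or_ge (241 * (2 * q)) (hgt d + 241 * (d 0 + d 1 + d 2 + S)) with hlt | hge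
  · have h4 : H * (241 * (2 * q) + 1) ≤ H * (hgt d + 241 * (d 0 + d 1 + d 2 + S)) :=
      Nat.mul_le_mul_left H hlt
    have h5 : H * (241 * (2 * q) + 1) = 482 * q * H + H := by ring
    omega
  · have heq : 241 * (2 * q) = hgt d + 241 * (d 0 + d 1 + d 2 + S) := le_antisymm h1 hge
    have h4 := h2 heq
    rw [← heq] at hw
    have h5 : H * (241 * (2 * q)) = 482 * q * H := by ring
    omega

theorem core (q : ℕ) (hq : 1 ≤ q) (I : Finset A)
    (hI : ∀ s ∈ I, (∀ k : ZMod 241, act (.r k) s = s) ∧ Polynomial.X ^ (2 * q) ∣ theta s) :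
    ∃ (H k j : ℕ) (M : ℕ) (b : A), 1 ≤ H ∧ 1 ≤ k ∧ 1 ≤ j ∧ (∀ g : G, g • b = b) ∧
      Polynomial.X ^ (2 * (q * j)) ∣ theta b ∧ (∀ s ∈ I, Polynomial.X ^ M ∣ psi H k s) ∧
      ¬ Polynomial.X ^ (M * j) ∣ psi H k b := by
  classical
  set H : ℕ := 1 + 5 * ∑ s ∈ I, s.totalDegree with hH
  have hH1 : 1 ≤ H := by omega
  set M : ℕ := 482 * q * H - 8 * q with hM
  set r : ℕ := 10390 * H with hr
  set d : Fin 3 → ℕ := ![61 * (q * r) + 9, 45 * (q * r) + 6, 75 * (q * r) + 5] with hd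
  have hd0 : d 0 = 61 * (q * r) + 9 := rfl
  have hd1 : d 1 = 45 * (q * r) + 6 := rfl
  have hd2 : d 2 = 75 * (q * r) + 5 := rfl
  obtain ⟨f, f0, fs, fm⟩ := exists_f (15 * (q * r)) d (by omega) (by omega) (by omega)
    (by rw [hgt, hd0, hd1, hd2]; omega)
  refine ⟨H, M + 1, 196 * r, M, ftil d f * gtil d f, hH1, by omega, ?_, ?_, ?_, ?_, ?_⟩
  · omega
  · exact ftil_mul_gtil_inv d f fun b hb => (fs b hb).2
  · rw [map_mul]
    have h1 := theta_ftil _ d f fm
    have h2 := theta_gtil _ d f fm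
    refine dvd_trans (pow_dvd_pow _ ?_) (by
      have := mul_dvd_mul h1 h2
      rwa [← pow_add] at this)
    rw [Fin.sum_univ_three, hd0, hd1, hd2]
    have : q * (196 * r) = 196 * (q * r) := by ring
    omega
  · intro s hs
    refine psi_dvd H (M + 1) M (by omega) s fun d' e' hne => ?_
    have hb := res_bound s (hI s hs).1 q (hI s hs).2 d' e' hne
    refine wgt_bound H q hH1 d' e' hb.1 hb.2 ?_
    have h1 := degree_le_of_resPoly s d' e' hne
    have h2 : s.totalDegree ≤ ∑ s ∈ I, s.totalDegree :=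
      Finset.single_le_sum (f := fun s : A => s.totalDegree) (fun _ _ => Nat.zero_le _) hs
    omega
  · intro hdiv
    refine psi_ftil_gtil H (M + 1) (by omega) d f f0 (dvd_trans (pow_dvd_pow _ ?_) hdiv)
    have e0 : lw H 0 = 256 * H - 4 := by simp [lw, u]; ring_nf
    have e1 : lw H 1 = 261 * H - 4 := by simp [lw, u]; ring_nf
    have e2 : lw H 2 = 265 * H - 5 := by simp [lw, u]; ring_nf
    rw [Fin.sum_univ_three, e0, e1, e2, hd0, hd1, hd2]
    obtain ⟨H', hH'⟩ : ∃ H', H = H' + 1 := ⟨H - 1, by omega⟩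
    have a0 : 256 * H - 4 = 256 * H' + 252 := by omega
    have a1 : 261 * H - 4 = 261 * H' + 257 := by omega
    have a2 : 265 * H - 5 = 265 * H' + 260 := by omega
    rw [a0, a1, a2]
    have hMe : M + 8 * q = 482 * q * H := by
      have : 8 * q ≤ 482 * q * H := by
        calc 8 * q ≤ 482 * q * 1 := by omega
          _ ≤ 482 * q * H := Nat.mul_le_mul_left _ hH1
      omega
    have hMr : M * (196 * r) + 1568 * (q * r) = 94472 * (q * r) * H := by
      have : (M + 8 * q) * (196 * r) = 482 * q * H * (196 * r) := by rw [hMe]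
      nlinarith
    have hqr : 10390 * H ≤ q * r := by
      rw [hr]
      calc 10390 * H = 1 * (10390 * H) := by ring
        _ ≤ q * (10390 * H) := Nat.mul_le_mul_right _ hq
    set Q := q * r with hQ
    have hexp : 2 * ((256 * H' + 252) * (61 * Q + 9) + (261 * H' + 257) * (45 * Q + 6) +
        (265 * H' + 260) * (75 * Q + 5)) + 1598 * Q + 170 = 94472 * Q * H + 10390 * H := by
      rw [hH']
      ring
    omega

end H5ML
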