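import Pool.Agent.H5.ML.Base

/-!
# DUALA: differentials of a transcendence basis
-/

open scoped TensorProduct

namespace H5ML

variable {M : Type} [Field M] [Algebra ℂ M]

open scoped IntermediateField.algebraAdjoinAdjoin in
theorem exists_basis {N : ℕ} (z : Fin N → M) (hz : AlgebraicIndependent ℂ z)
    (halg : Algebra.IsAlgebraic (IntermediateField.adjoin ℂ (Set.range z)) M) :
    ∃ b : Module.Basis (Fin N) M Ω[M⁄ℂ], ∀ i, b i = KaehlerDifferential.D ℂ M (z i) := by
  let P := MvPolynomial (Fin N) ℂ
  let S₀ := Algebra.adjoin ℂ (Set.range z)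
  let E := IntermediateField.adjoin ℂ (Set.range z)
  let _ : Algebra P M := (MvPolynomial.aeval z).toAlgebra
  let _ : Algebra P S₀ := (hz.aevalEquiv : P →ₐ[ℂ] S₀).toAlgebra
  let _ : Algebra P E := ((algebraMap S₀ E).comp (algebraMap P S₀)).toAlgebra
  have t1 : IsScalarTower ℂ P M := IsScalarTower.of_algebraMap_eq fun c => by
    change algebraMap ℂ M c = MvPolynomial.aeval z (algebraMap ℂ P c)
    rw [AlgHom.commutes]
  have t2 : IsScalarTower P S₀ E := IsScalarTower.of_algebraMap_eq fun _ => rfl
  have t3 : IsScalarTower P E M := IsScalarTower.of_algebraMap_eq fun p => by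
    exact (hz.algebraMap_aevalEquiv p).symm
  have e1 : Algebra.FormallyEtale P S₀ := by
    let f : P ≃ₐ[P] S₀ := AlgEquiv.ofBijective (Algebra.ofId P S₀) hz.aevalEquiv.bijective
    exact Algebra.FormallyEtale.of_equiv f
  have e2 : Algebra.FormallyEtale S₀ E := .of_isLocalization (nonZeroDivisors _)
  have e3 : Algebra.FormallyEtale P E := .comp P S₀ E
  have e4 : Algebra.FormallyEtale E M := by
    have : CharZero E := charZero_of_injective_algebraMap (algebraMap ℂ E).injective
    exact Algebra.FormallyEtale.of_isSeparable _ M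
  have e5 : Algebra.FormallyEtale P M := .comp P E M
  let b₀ := (KaehlerDifferential.mvPolynomialBasis ℂ (Fin N)).baseChange M
  refine ⟨b₀.map (KaehlerDifferential.tensorKaehlerEquivOfFormallyEtale ℂ P M), fun i => ?_⟩
  rw [Module.Basis.map_apply, Module.Basis.baseChange_apply,
    KaehlerDifferential.mvPolynomialBasis_apply,
    ← KaehlerDifferential.tensorKaehlerEquivOfFormallyEtale_symm_D_algebraMap ℂ P M,
    LinearEquiv.apply_symm_apply]
  congr 1
  change MvPolynomial.aeval z (MvPolynomial.X i) = z i
  simp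

end H5ML
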