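import Pool.Agent.H5.ML.Nnv

/-!
# EXF: existence of polynomials with support in a lattice and a multiple point at `(1,1,1)`
-/

namespace H5ML

open MvPolynomial in
/-- The polynomial `choose (X i) k`. -/
noncomputable def exf_ch (i : Fin 3) (k : ℕ) : MvPolynomial (Fin 3) ℂ :=
  C ((k.factorial : ℂ)⁻¹) * ∏ j ∈ Finset.range k, (X i - C (j : ℂ))

open MvPolynomial in
theorem exf_ch_deg (i : Fin 3) (k : ℕ) : (exf_ch i k).totalDegree ≤ k := by
  unfold exf_ch
  refine (totalDegree_mul _ _).trans ?_
  rw [totalDegree_C, zero_add]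
  refine (totalDegree_finsetProd _ _).trans ?_
  refine (Finset.sum_le_card_nsmul _ _ 1 ?_).trans ?_
  · intro j _
    refine (totalDegree_sub _ _).trans ?_
    rw [totalDegree_X, totalDegree_C]
    simp
  · simp

open MvPolynomial in
theorem exf_ch_eval (i : Fin 3) (k : ℕ) (b : Fin 3 → ℕ) :
    eval (fun i => (b i : ℂ)) (exf_ch i k) = ((b i).choose k : ℂ) := by
  unfold exf_ch
  rw [map_mul, eval_C, map_prod]
  have h : ∏ j ∈ Finset.range k, eval (fun i => (b i : ℂ)) (X i - C (j : ℂ)) =
      ∏ j ∈ Finset.range k, ((b i : ℂ) - j) := by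
    refine Finset.prod_congr rfl fun j _ => ?_
    simp
  rw [h, ← descPochhammer_eval_eq_prod_range, descPochhammer_eval_eq_descFactorial,
    Nat.descFactorial_eq_factorial_mul_choose]
  push_cast
  have : (k.factorial : ℂ) ≠ 0 := by exact_mod_cast k.factorial_ne_zero
  field_simp

/-- There is `f` supported on the lattice points of the box `b ≤ d` with `f 0 = 1` all of whose
binomial moments of order `< m` vanish.

Proof. Let `P` be the set of the `b ≤ d`, `b ≠ 0`, `241 ∣ hgt b` and let `T` be the finite set of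
the `α` with `∑ α < m`. We look for `f : P → ℂ` with `∑_{b ∈ P} f b B (b, α) = - B (0, α)` for all
`α ∈ T`, where `B (b, α) = ∏ (b i).choose (α i)`. By linear algebra (a vector of a finite
dimensional space which is killed by every functional killing a family of vectors lies in the
span of the family) such an `f` exists as soon as every `c : T → ℂ` with
`∑_α c α B (b, α) = 0` for all `b ∈ P` satisfies `∑_α c α B (0, α) = 0`. Now
`φ (X) = ∑_α c α ∏ choose (X_i, α_i)` is a polynomial of total degree `< m` (if `m ≥ 1`; for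
`m = 0` take `f = Pi.single 0 1`), `choose (X, k) = (k!)⁻¹ X (X - 1) ⋯ (X - k + 1)`, which
vanishes on the lattice points of the box with offset `(1, 0, 0)` and size `d - (1, 0, 0)`, and
`nnv` applies, so `φ (0) = 0`. -/
theorem exists_f (m : ℕ) (d : Fin 3 → ℕ) (h0 : 4 * m + 9 ≤ d 0) (h1 : 3 * m + 6 ≤ d 1)
    (h2 : 5 * m + 5 ≤ d 2) (hu : 241 * m + 375 ≤ hgt d) :
    ∃ f : (Fin 3 → ℕ) → ℂ, f 0 = 1 ∧ (∀ b, f b ≠ 0 → b ≤ d ∧ 241 ∣ hgt b) ∧
      ∀ α : Fin 3 → ℕ, ∑ i, α i < m →
        ∑ b ∈ Finset.Iic d, f b * ∏ i, ((b i).choose (α i) : ℂ) = 0 := by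
  classical
  rcases Nat.eq_zero_or_pos m with hm | hm
  · subst hm
    refine ⟨Pi.single 0 1, by simp, ?_, ?_⟩
    · intro b hb
      have hb0 : b = 0 := by
        by_contra hne
        exact hb (by rw [Pi.single_eq_of_ne hne])
      subst hb0
      exact ⟨fun i => Nat.zero_le _, by simp [hgt]⟩
    · intro α hα
      exact absurd hα (Nat.not_lt_zero _)
  -- the index sets
  set T : Finset (Fin 3 → ℕ) := (Finset.Iic (fun _ => m)).filter fun α => ∑ i, α i < m with hT
  have hTm : ∀ α : Fin 3 → ℕ, ∑ i, α i < m → α ∈ T := by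
    intro α hα
    rw [hT, Finset.mem_filter, Finset.mem_Iic]
    refine ⟨fun i => ?_, hα⟩
    have := Finset.single_le_sum (f := α) (fun j _ => Nat.zero_le _) (Finset.mem_univ i)
    show α i ≤ m
    omega
  set P : Finset (Fin 3 → ℕ) := (Finset.Iic d).filter fun b => b ≠ 0 ∧ 241 ∣ hgt b with hP
  set B : (Fin 3 → ℕ) → (T → ℂ) := fun b α => ∏ i, ((b i).choose ((α : Fin 3 → ℕ) i) : ℂ) with hB
  have key : B 0 ∈ Submodule.span ℂ (B '' (P : Set (Fin 3 → ℕ))) := by
    by_contra hnot
    obtain ⟨L, hL0, hL⟩ := Submodule.exists_le_ker_of_notMem hnot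
    apply hL0
    set φ : MvPolynomial (Fin 3) ℂ := ∑ α : T, MvPolynomial.C (L (fun j => if α = j then 1 else 0)) *
      ∏ i, exf_ch i ((α : Fin 3 → ℕ) i) with hφ
    have hφe : ∀ b : Fin 3 → ℕ, MvPolynomial.eval (fun i => (b i : ℂ)) φ = L (B b) := by
      intro b
      rw [LinearMap.pi_apply_eq_sum_univ L (B b), hφ, map_sum]
      refine Finset.sum_congr rfl fun α _ => ?_
      rw [map_mul, MvPolynomial.eval_C, map_prod, smul_eq_mul, mul_comm]
      congr 1
      rw [hB]
      refine Finset.prod_congr rfl fun i _ => ?_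
      exact exf_ch_eval i _ b
    have hφd : φ.totalDegree < m := by
      rw [hφ]
      refine lt_of_le_of_lt (MvPolynomial.totalDegree_finsetSum _ _) ?_
      rw [Finset.sup_lt_iff (by simpa using hm)]
      intro α _
      refine lt_of_le_of_lt (MvPolynomial.totalDegree_mul _ _) ?_
      rw [MvPolynomial.totalDegree_C, zero_add]
      refine lt_of_le_of_lt (MvPolynomial.totalDegree_finsetProd _ _) ?_
      refine lt_of_le_of_lt (Finset.sum_le_sum fun i _ => exf_ch_deg i _) ?_
      exact (Finset.mem_filter.mp α.2).2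
    have hh : hgt d = 15 * d 0 + 20 * d 1 + 24 * d 2 := rfl
    have hv := nnv m φ hφd ![1, 0, 0] ![(d 0 : ℤ) - 1, d 1, d 2]
      (by simp; omega) (by simp; omega) (by simp; omega) (by simp; omega) (by
        intro b hb hdvd
        have hb0 := hb 0
        have hb1 := hb 1
        have hb2 := hb 2
        simp at hb0 hb1 hb2
        have hn : ∀ i, 0 ≤ b i := by
          intro i
          fin_cases i
          · simp; omega
          · simp; omega
          · simp; omega
        have hbb : (fun i => (b i : ℂ)) = fun i => (((b i).toNat : ℕ) : ℂ) := by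
          funext i
          have : ((b i).toNat : ℤ) = b i := Int.toNat_of_nonneg (hn i)
          exact_mod_cast congrArg (fun z : ℤ => (z : ℂ)) this.symm
        rw [hbb, hφe (fun i => (b i).toNat)]
        have hmem : (fun i => (b i).toNat) ∈ P := by
          rw [hP, Finset.mem_filter, Finset.mem_Iic]
          refine ⟨?_, ?_, ?_⟩
          · intro i
            fin_cases i
            · simp; omega
            · simp; omega
            · simp; omega
          · intro h
            have := congrFun h 0
            simp at this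
            omega
          · have : ((hgt fun i => (b i).toNat : ℕ) : ℤ) = 15 * b 0 + 20 * b 1 + 24 * b 2 := by
              unfold hgt
              have e0 := Int.toNat_of_nonneg (hn 0)
              have e1 := Int.toNat_of_nonneg (hn 1)
              have e2 := Int.toNat_of_nonneg (hn 2)
              push_cast
              rw [e0, e1, e2]
            rw [← this] at hdvd
            exact_mod_cast hdvd
        exact hL (Submodule.subset_span ⟨_, hmem, rfl⟩)) 0
    rw [← hφe 0]
    simpa using hv
  rw [Submodule.mem_span_image_finset_iff_exists_fun] at key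
  obtain ⟨c, hc⟩ := key
  have h0P : (0 : Fin 3 → ℕ) ∉ P := by
    rw [hP, Finset.mem_filter]
    rintro ⟨_, h, _⟩
    exact h rfl
  refine ⟨fun b => if b = 0 then 1 else if h : b ∈ P then - c ⟨b, h⟩ else 0, by simp, ?_, ?_⟩
  · intro b hb
    by_cases hb0 : b = 0
    · subst hb0
      exact ⟨fun i => Nat.zero_le _, by simp [hgt]⟩
    · by_cases hbP : b ∈ P
      · have := hbP
        rw [hP, Finset.mem_filter, Finset.mem_Iic] at this
        exact ⟨this.1, this.2.2⟩
      · exact absurd (by simp [hb0, hbP]) hb
  · intro α hα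
    have hsub : insert 0 P ⊆ Finset.Iic d := by
      intro b hb
      rw [Finset.mem_insert] at hb
      rcases hb with rfl | hb
      · rw [Finset.mem_Iic]
        exact fun i => Nat.zero_le _
      · rw [hP, Finset.mem_filter] at hb
        exact hb.1
    rw [← Finset.sum_subset hsub, Finset.sum_insert h0P]
    · have h1 := congrFun hc ⟨α, hTm α hα⟩
      rw [Finset.sum_apply] at h1
      have h2 : ∑ b ∈ P, (if b = 0 then (1 : ℂ) else if h : b ∈ P then - c ⟨b, h⟩ else 0) *
          ∏ i, ((b i).choose (α i) : ℂ) = - ∑ b : P, c b * B b ⟨α, hTm α hα⟩ := by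
        rw [← Finset.sum_coe_sort, ← Finset.sum_neg_distrib]
        refine Finset.sum_congr rfl fun b _ => ?_
        have hb0 : (b : Fin 3 → ℕ) ≠ 0 := fun h => h0P (h ▸ b.2)
        rw [if_neg hb0, dif_pos b.2]
        ring
      rw [h2]
      have h3 : ∑ b : P, c b * B b ⟨α, hTm α hα⟩ = B 0 ⟨α, hTm α hα⟩ := by
        rw [← h1]
        rfl
      rw [h3]
      simp [hB]
    · intro b _ hb
      rw [Finset.mem_insert, not_or] at hb
      simp only [hb.1, hb.2, if_false, dif_neg, not_false_eq_true, zero_mul]

end H5ML
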