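import Pool.Agent.H5.ML.Ord

/-!
# GEOA: the valuative criterion for a divisorial contraction
-/

open AlgebraicGeometry CategoryTheory

namespace H5ML

variable {R K : Type} [CommRing R] [Field K] [Algebra R K]

/-- Valuative criterion: every valuation ring of `K` containing `R` dominates the local ring of
some point of `Y`. -/
theorem exists_center {O : ValuationSubring K}
    (C : DivisorialContraction R O) (V : ValuationSubring K) (hV : Over R V) :
    ∃ y : C.Y, ∀ h ∈ locRing C.Y C.φ y, h ∈ V := by
  -- the ring homomorphisms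
  let a : R →+* V :=
    { toFun := fun r => ⟨algebraMap R K r, hV r⟩
      map_one' := Subtype.ext (map_one _)
      map_mul' := fun x y => Subtype.ext (map_mul _ x y)
      map_zero' := Subtype.ext (map_zero _)
      map_add' := fun x y => Subtype.ext (map_add _ x y) }
  let φ' : C.Y.functionField ⟶ CommRingCat.of K := CommRingCat.ofHom (C.φ : C.Y.functionField →+* K)
  let i₁ : Spec (.of K) ⟶ C.Y := Spec.map φ' ≫ C.Y.fromSpecStalk (genericPoint C.Y)
  let i₂ : Spec (.of V) ⟶ Spec (.of R) := Spec.map (CommRingCat.ofHom a)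
  have hsq : CommSq i₁ (Spec.map (CommRingCat.ofHom (algebraMap V K))) C.f i₂ := by
    constructor
    refine ext_of_isAffine ?_
    rw [← cancel_epi (Scheme.ΓSpecIso (.of R)).inv]
    have e1 : (C.Y.fromSpecStalk (genericPoint C.Y)).appTop =
        C.Y.presheaf.germ ⊤ (genericPoint C.Y) trivial ≫
          (Scheme.ΓSpecIso (C.Y.presheaf.stalk (genericPoint C.Y))).inv := by
      rw [Scheme.fromSpecStalk_appTop]
      have : (Spec (C.Y.presheaf.stalk (genericPoint C.Y))).presheaf.map (homOfLE le_top).op =
        𝟙 _ := CategoryTheory.Functor.map_id _ _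
      rw [this, Category.comp_id]
    have e2 : (Scheme.ΓSpecIso (.of R)).inv ≫ (i₁ ≫ C.f).appTop =
        ((Scheme.ΓSpecIso (.of R)).inv ≫ C.f.appTop ≫
          C.Y.presheaf.germ ⊤ (genericPoint C.Y) trivial ≫ φ') ≫
            (Scheme.ΓSpecIso (.of K)).inv := by
      simp only [i₁, Scheme.Hom.comp_appTop, e1, Category.assoc]
      congr 3
      exact (Scheme.ΓSpecIso_inv_naturality φ').symm
    have e3 : (Scheme.ΓSpecIso (.of R)).inv ≫ C.f.appTop ≫
          C.Y.presheaf.germ ⊤ (genericPoint C.Y) trivial ≫ φ' =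
        CommRingCat.ofHom (algebraMap R K) := by
      ext r
      exact C.φ_comp r
    rw [e2, e3]
    have e4 : (Spec.map (CommRingCat.ofHom (algebraMap V K)) ≫ i₂) =
        Spec.map (CommRingCat.ofHom (algebraMap R K)) := by
      rw [← Spec.map_comp, ← CommRingCat.ofHom_comp]
      rfl
    rw [e4]
    exact Scheme.ΓSpecIso_inv_naturality _
  have hex : ValuativeCriterion.Existence C.f := by
    have h1 : UniversallyClosed C.f := inferInstance
    rw [UniversallyClosed.eq_valuativeCriterion] at h1
    exact h1.1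
  obtain ⟨⟨ℓ, hℓ1, hℓ2⟩⟩ := (hex ⟨V, K, i₁, i₂, hsq⟩).exists_lift
  refine ⟨ℓ (IsLocalRing.closedPoint V), ?_⟩
  set y := ℓ (IsLocalRing.closedPoint V) with hy
  let s := Scheme.stalkClosedPointTo ℓ
  have hspec : genericPoint C.Y ⤳ y := (genericPoint_spec C.Y).specializes trivial
  have key : s ≫ CommRingCat.ofHom (algebraMap V K) =
      C.Y.presheaf.stalkSpecializes hspec ≫ φ' := by
    apply Spec.map_injective
    rw [Spec.map_comp, Spec.map_comp, ← cancel_mono (C.Y.fromSpecStalk y), Category.assoc,
      Category.assoc, Scheme.SpecMap_stalkSpecializes_fromSpecStalk]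
    rw [Scheme.Spec_stalkClosedPointTo_fromSpecStalk]
    exact hℓ1
  intro h hh
  obtain ⟨z, rfl⟩ := hh
  have h1 := congrArg (fun m => m.hom z) key
  have h2 : algebraMap V K (s.hom z) = C.φ (algebraMap _ C.Y.functionField z) := h1
  change C.φ (algebraMap _ C.Y.functionField z) ∈ V
  rw [← h2]
  exact (s.hom z).2

end H5ML
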