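import Pool.Agent.H5.ML.Base

/-!
# The dihedral group of order 482 acting on the polynomial ring in 11 variables
-/

namespace H5ML

open MvPolynomial

/-- The index set of the variables: `x_i` (`i < 3`), `y_i` (`i < 3`), `t_l` (`l < 5`). -/
abbrev Ix := Fin 3 ⊕ Fin 3 ⊕ Fin 5

/-- The polynomial ring. -/
abbrev A := MvPolynomial Ix ℂ

/-- The group. -/
abbrev G := DihedralGroup 241

/-- The weights of the rotation. -/
def u : Fin 3 → ℕ := ![15, 20, 24]

/-- The variable `x_i`. -/
noncomputable def xx (i : Fin 3) : A := X (Sum.inl i)

/-- The variable `y_i`. -/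
noncomputable def yy (i : Fin 3) : A := X (Sum.inr (Sum.inl i))

/-- The variable `t_l`. -/
noncomputable def tt (l : Fin 5) : A := X (Sum.inr (Sum.inr l))

/-- The additive character `k ↦ ζ^k`, `ζ = exp (2 π i / 241)`. -/
noncomputable def chi (k : ZMod 241) : ℂ := ZMod.stdAddChar k

theorem chi_zero : chi 0 = 1 := by simp [chi]

theorem chi_add (a b : ZMod 241) : chi (a + b) = chi a * chi b := by
  simp [chi, AddChar.map_add_eq_mul]

theorem chi_neg_mul (a : ZMod 241) : chi (-a) * chi a = 1 := by
  rw [← chi_add]
  simp [chi_zero]

theorem chi_eq_one_iff (a : ZMod 241) : chi a = 1 ↔ a = 0 := by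
  constructor
  · intro h
    have := ZMod.injective_stdAddChar (N := 241) (show ZMod.stdAddChar a = ZMod.stdAddChar 0 by
      simpa [chi] using h)
    exact this
  · rintro rfl
    exact chi_zero

/-- The images of the variables. -/
noncomputable def actX : G → Ix → A
  | .r k, .inl i => C (chi (u i * k)) * xx i
  | .r k, .inr (.inl i) => C (chi (-(u i * k))) * yy i
  | .r _, .inr (.inr l) => tt l
  | .sr k, .inl i => C (chi (u i * k)) * yy i
  | .sr k, .inr (.inl i) => C (chi (-(u i * k))) * xx i
  | .sr _, .inr (.inr l) => -tt l

/-- The algebra endomorphism of `A` given by a group element. -/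
noncomputable def act (g : G) : A →ₐ[ℂ] A := aeval (actX g)

theorem act_one : act 1 = AlgHom.id ℂ A := by
  have h : ∀ v, actX (.r 0) v = X v := by
    rintro (i | i | l)
    · change C (chi (u i * 0)) * xx i = X _
      simp [chi_zero, xx]
    · change C (chi (-(u i * 0))) * yy i = X _
      simp [chi_zero, yy]
    · rfl
  apply MvPolynomial.algHom_ext
  intro v
  rw [← DihedralGroup.r_zero, act, aeval_X, h]
  rfl

theorem act_mul (g h : G) : act (g * h) = (act g).comp (act h) := by
  have hx : ∀ g i, act g (xx i) = actX g (.inl i) := fun g i => by simp [act, xx]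
  have hy : ∀ g i, act g (yy i) = actX g (.inr (.inl i)) := fun g i => by simp [act, yy]
  have ht : ∀ g i, act g (tt i) = actX g (.inr (.inr i)) := fun g i => by simp [act, tt]
  have hC : ∀ g (c : ℂ), act g (C c) = C c := fun g c => by simp [act]
  apply MvPolynomial.algHom_ext
  rintro (i | i | l)
  · change act (g * h) (xx i) = act g (act h (xx i))
    rcases g with a | a <;> rcases h with b | b <;>
      simp only [DihedralGroup.r_mul_r, DihedralGroup.r_mul_sr, DihedralGroup.sr_mul_r,
        DihedralGroup.sr_mul_sr, hx, actX, map_mul, hC, hy] <;>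
      rw [← mul_assoc, ← C_mul, ← chi_add] <;> ring_nf
  · change act (g * h) (yy i) = act g (act h (yy i))
    rcases g with a | a <;> rcases h with b | b <;>
      simp only [DihedralGroup.r_mul_r, DihedralGroup.r_mul_sr, DihedralGroup.sr_mul_r,
        DihedralGroup.sr_mul_sr, hx, actX, map_mul, hC, hy] <;>
      rw [← mul_assoc, ← C_mul, ← chi_add] <;> ring_nf
  · change act (g * h) (tt l) = act g (act h (tt l))
    rcases g with a | a <;> rcases h with b | b <;>
      simp [DihedralGroup.r_mul_r, DihedralGroup.r_mul_sr, DihedralGroup.sr_mul_r,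
        DihedralGroup.sr_mul_sr, actX, ht]

noncomputable instance : MulSemiringAction G A where
  smul g a := act g a
  one_smul a := by
    change act 1 a = a
    rw [act_one]
    rfl
  mul_smul g h a := by
    change act (g * h) a = act g (act h a)
    rw [act_mul]
    rfl
  smul_zero g := map_zero (act g)
  smul_add g a b := map_add (act g) a b
  smul_one g := map_one (act g)
  smul_mul g a b := map_mul (act g) a b

theorem smul_eq (g : G) (a : A) : g • a = act g a := rfl

instance : SMulCommClass G ℂ A where
  smul_comm g c a := by
    rw [smul_eq, smul_eq, map_smul]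

/-- The subalgebra of invariants. -/
noncomputable abbrev Rsub : Subalgebra ℂ A := FixedPoints.subalgebra ℂ A G

/-- The ring of invariants `ℂ[x, y, t]^G` as a type. -/
def R : Type := Rsub

noncomputable instance : CommRing R := inferInstanceAs (CommRing Rsub)

instance : IsDomain R := inferInstanceAs (IsDomain Rsub)

noncomputable instance : Algebra ℂ R := inferInstanceAs (Algebra ℂ Rsub)

noncomputable instance : Algebra R A := inferInstanceAs (Algebra Rsub A)

instance : IsScalarTower ℂ R A := inferInstanceAs (IsScalarTower ℂ Rsub A)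

theorem R_injective : Function.Injective (algebraMap R A) := Subtype.val_injective

instance : FaithfulSMul R A := (faithfulSMul_iff_algebraMap_injective R A).mpr R_injective

theorem R_smul (g : G) (r : R) : g • algebraMap R A r = algebraMap R A r := r.2 g

theorem exists_R (a : A) (ha : ∀ g : G, g • a = a) : ∃ r : R, algebraMap R A r = a :=
  ⟨⟨a, ha⟩, rfl⟩

/-- The maximal ideal of `R` of the image of the origin: invariants without constant term. -/
noncomputable def x0 : Ideal R := RingHom.ker ((constantCoeff (σ := Ix) (R := ℂ)).comp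
  (algebraMap R A))

/-- The images of the variables under `theta`. -/
noncomputable def thetaX : Ix → Polynomial A
  | .inl i => Polynomial.C (yy i) * Polynomial.X ^ 2 + Polynomial.C (xx i) * Polynomial.X
  | .inr (.inl i) => Polynomial.C (yy i) * Polynomial.X ^ 2 - Polynomial.C (xx i) * Polynomial.X
  | .inr (.inr l) => Polynomial.C (tt l) * Polynomial.X

/-- The substitution `x_i = Q_i ϖ² + P_i ϖ`, `y_i = Q_i ϖ² - P_i ϖ`, `t_l = t_l ϖ` (here `P_i`
is the variable `xx i` of the coefficient ring and `Q_i` the variable `yy i`). The order of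
`theta f` in `ϖ` is the value of `f` for the monomial valuation with weight one on `x_i - y_i`
and on `t_l` and weight two on `x_i + y_i`. -/
noncomputable def theta : A →ₐ[ℂ] Polynomial A := aeval thetaX

/-- The images of the variables under `thetak`. -/
noncomputable def thetakX (k : ZMod 241) : Ix → Polynomial A
  | .inl i => Polynomial.C (yy i) * Polynomial.X ^ 2 + Polynomial.C (xx i) * Polynomial.X
  | .inr (.inl i) => Polynomial.C (C (chi (-(u i * k)))) *
      (Polynomial.C (yy i) * Polynomial.X ^ 2 - Polynomial.C (xx i) * Polynomial.X)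
  | .inr (.inr l) => Polynomial.C (tt l) * Polynomial.X

/-- The same substitution with `y_i` multiplied by `χ (- u_i k)`. The order of `thetak k f` in
`ϖ` is the value of `f` for the monomial valuation with weight one on `x_i - χ (u_i k) y_i` and
on `t_l` and weight two on `x_i + χ (u_i k) y_i`. -/
noncomputable def thetak (k : ZMod 241) : A →ₐ[ℂ] Polynomial A := aeval (thetakX k)

theorem theta_xx (i : Fin 3) : theta (xx i) =
    Polynomial.C (yy i) * Polynomial.X ^ 2 + Polynomial.C (xx i) * Polynomial.X := by
  rw [theta, xx, aeval_X]
  rfl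

theorem theta_yy (i : Fin 3) : theta (yy i) =
    Polynomial.C (yy i) * Polynomial.X ^ 2 - Polynomial.C (xx i) * Polynomial.X := by
  rw [theta, yy, aeval_X]
  rfl

theorem theta_tt (l : Fin 5) : theta (tt l) = Polynomial.C (tt l) * Polynomial.X := by
  rw [theta, tt, aeval_X]
  rfl

theorem theta_C (c : ℂ) : theta (C c) = Polynomial.C (C c) := by
  rw [theta, aeval_C]
  rfl

theorem act_xx_r (k : ZMod 241) (i : Fin 3) : act (.r k) (xx i) = C (chi (u i * k)) * xx i := by
  rw [act, xx, aeval_X]
  rfl

theorem act_yy_r (k : ZMod 241) (i : Fin 3) :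
    act (.r k) (yy i) = C (chi (-(u i * k))) * yy i := by
  rw [act, yy, aeval_X]
  rfl

theorem act_tt_r (k : ZMod 241) (l : Fin 5) : act (.r k) (tt l) = tt l := by
  rw [act, tt, aeval_X]
  rfl

theorem act_xx_sr (k : ZMod 241) (i : Fin 3) : act (.sr k) (xx i) = C (chi (u i * k)) * yy i := by
  rw [act, xx, aeval_X]
  rfl

theorem act_yy_sr (k : ZMod 241) (i : Fin 3) :
    act (.sr k) (yy i) = C (chi (-(u i * k))) * xx i := by
  rw [act, yy, aeval_X]
  rfl

theorem act_tt_sr (k : ZMod 241) (l : Fin 5) : act (.sr k) (tt l) = -tt l := by
  rw [act, tt, aeval_X]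
  rfl

/-- The fraction field of `A`. -/
abbrev FA := FractionRing A

/-- The fraction field of `R`. -/
abbrev KR := FractionRing R

noncomputable instance : MulSemiringAction G FA := IsFractionRing.mulSemiringAction G A FA

instance : SMulDistribClass G A FA := IsFractionRing.smulDistribClass G A FA

instance : FaithfulSMul R FA := by
  rw [faithfulSMul_iff_algebraMap_injective]
  have : (algebraMap R FA : R → FA) = fun r => algebraMap A FA (algebraMap R A r) := by
    funext r
    exact IsScalarTower.algebraMap_apply R A FA r
  rw [this]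
  exact (IsFractionRing.injective A FA).comp R_injective

noncomputable instance : Algebra KR FA := FractionRing.liftAlgebra R FA

instance : IsScalarTower R KR FA := FractionRing.isScalarTower_liftAlgebra R FA

end H5ML
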