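import Pool.Agent.H5.ML.Coo

/-!
# INVA: Galois groups
-/

namespace H5ML

open MvPolynomial

theorem inva_faithful : FaithfulSMul G A where
  eq_of_smul_eq_smul := by
    have ht : tt 0 ≠ 0 := X_ne_zero _
    have h2 : ∀ a b : ZMod 241, ¬ (DihedralGroup.r a • tt 0 : A) = DihedralGroup.sr b • tt 0 := by
      intro a b h
      rw [smul_eq, smul_eq, act_tt_r, act_tt_sr] at h
      exact ht (self_eq_neg.mp h)
    have h3 : ∀ a b : ZMod 241, chi (u 0 * a) = chi (u 0 * b) → a = b := by
      intro a b h
      have h1 : chi (u 0 * (a - b)) = 1 := by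
        have e : (u 0 : ZMod 241) * (a - b) = u 0 * a + -(u 0 * b) := by ring
        rw [e, chi_add, h, mul_comm, chi_neg_mul]
      rw [chi_eq_one_iff] at h1
      have h4 : (16 * (u 0 : ZMod 241)) * (a - b) = 0 := by
        rw [mul_assoc, h1, mul_zero]
      have h5 : (16 * (u 0 : ZMod 241)) = -1 := by
        decide
      rw [h5, neg_one_mul, neg_eq_zero] at h4
      exact sub_eq_zero.mp h4
    intro g h hgh
    rcases g with a | a <;> rcases h with b | b
    · have h1 := hgh (xx 0)
      rw [smul_eq, smul_eq, act_xx_r, act_xx_r] at h1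
      have h4 := C_injective _ _ (mul_right_cancel₀ (X_ne_zero _) h1)
      rw [h3 a b h4]
    · exact absurd (hgh (tt 0)) (h2 a b)
    · exact absurd (hgh (tt 0)).symm (h2 b a)
    · have h1 := hgh (xx 0)
      rw [smul_eq, smul_eq, act_xx_sr, act_xx_sr] at h1
      have h4 := C_injective _ _ (mul_right_cancel₀ (X_ne_zero _) h1)
      rw [h3 a b h4]

/-- Proof. Faithful: `r k` acts on `x_0` as multiplication by `χ (15 k)`, which is `≠ 1` for
`k ≠ 0` (`chi_eq_one_iff`, `15` is invertible modulo `241`), and `sr k` maps `t_0` to `-t_0`.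
Commutes with `R`: `R_smul` and `smul_mul'`. Invariants: `exists_R`. -/
instance isGaloisGroup_R : IsGaloisGroup G R A where
  faithful := inva_faithful
  commutes := ⟨fun g r a => by
    rw [Algebra.smul_def, Algebra.smul_def, smul_mul', R_smul]⟩
  isInvariant := ⟨fun a ha => exists_R a ha⟩

/-- Proof. `IsGaloisGroup.to_isFractionRing G R A KR FA` (or `IsGaloisGroup.toFractionRing`). -/
instance isGaloisGroup_K : IsGaloisGroup G KR FA :=
  IsGaloisGroup.to_isFractionRing G R A KR FA

/-- Proof. On elements of the form `r / s` with `r, s ∈ R`; or by the definition of the scalar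
actions on localizations. -/
instance isScalarTower_C : IsScalarTower ℂ KR FA := by
  have h : IsScalarTower ℂ R FA := inferInstance
  infer_instance

end H5ML
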