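import Pool.Agent.H5.ML.InvA

/-!
# INVB: the ring of invariants is finitely generated and normal
-/

namespace H5ML

open MvPolynomial

/-- Proof. `A` is a finitely generated `ℂ`-algebra and a finite `R`-module (it is integral over `R`
because `G` is finite: `Algebra.IsInvariant.isIntegral`), so `R` is a finitely generated
`ℂ`-algebra by Artin-Tate (`fg_of_fg_of_fg`). -/
theorem finiteType_R : Algebra.FiniteType ℂ R := by
  haveI : Algebra.IsInvariant R A G := IsGaloisGroup.isInvariant
  haveI : Algebra.IsIntegral R A := Algebra.IsInvariant.isIntegral R A G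
  haveI : Algebra.FiniteType ℂ A := inferInstance
  haveI : Algebra.FiniteType R A := Algebra.FiniteType.of_restrictScalars_finiteType ℂ R A
  haveI : Module.Finite R A := Algebra.IsIntegral.finite
  exact ⟨fg_of_fg_of_fg ℂ R A Algebra.FiniteType.out Module.Finite.fg_top R_injective⟩

/-- Proof. Let `h ∈ KR` be integral over `R`. Its image in `FA` is integral over `A`, hence in `A`
(`A` is a UFD), `h = a ∈ A`, and `a` is `G`-invariant since its image in `FA` comes from `KR`. So
`a ∈ R`. -/
theorem isIntegrallyClosed_R : IsIntegrallyClosed R := by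
  rw [isIntegrallyClosed_iff KR]
  intro h hh
  have h1 : IsIntegral R (algebraMap KR FA h) := hh.map (IsScalarTower.toAlgHom R KR FA)
  have h2 : IsIntegral A (algebraMap KR FA h) := h1.tower_top
  obtain ⟨a, ha⟩ := IsIntegrallyClosed.algebraMap_eq_of_integral h2
  haveI : SMulCommClass G KR FA := isGaloisGroup_K.commutes
  have h3 : ∀ g : G, g • a = a := by
    intro g
    apply IsFractionRing.injective A FA
    rw [algebraMap.smul', ha, smul_algebraMap]
  obtain ⟨r, hr⟩ := exists_R a h3
  refine ⟨r, ?_⟩
  apply (algebraMap KR FA).injective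
  rw [← IsScalarTower.algebraMap_apply R KR FA, IsScalarTower.algebraMap_apply R A FA, hr, ha]

end H5ML
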