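import Pool.Agent.H5.ML.Asm
import Pool.Agent.H5.MD.Stmt

/-!
# Main theorem
-/

open scoped TensorProduct
open AlgebraicGeometry CategoryTheory

namespace H5ML

section Bridge

variable {K : Type} [Field K] [Algebra ℂ K]

theorem hasLogDisc_iff {n : ℕ} (O : ValuationSubring K) (ω : ⋀[K]^(n + 1) Ω[K⁄ℂ]) (a : ℤ) :
    MLD.HasLogDisc n O ((ω : ExteriorAlgebra K Ω[K⁄ℂ]) : ExteriorAlgebra K (MLD.Om K)) a ↔
      HasLogDisc O ω a := by
  constructor
  · rintro ⟨t, y, ε, ht, hy, h1, h2, h3, h4⟩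
    exact ⟨t, y, ε, ht, hy, h1, h2, h3, Subtype.ext h4⟩
  · rintro ⟨t, y, ε, ht, hy, h1, h2, h3, h4⟩
    exact ⟨t, y, ε, ht, hy, h1, h2, h3, congrArg Subtype.val h4⟩

end Bridge

section Geo

variable {R K : Type} [CommRing R] [Field K] [Algebra R K]

theorem gen_key (B : CommRingCat) {C : CommRingCat} (g : B ⟶ C) (h : (⊤ : (Spec B).Opens) ≤ ⊤) :
    (Scheme.ΓSpecIso B).inv ≫ (Spec B).presheaf.map (homOfLE h).op ≫
      (Scheme.ΓSpecIso B).hom ≫ g = g := by
  have h1 : (homOfLE h).op = 𝟙 _ := rfl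
  rw [h1, (Spec B).presheaf.map_id]
  simp

theorem gen_apply (M : MLD.Model R K) (r : R) :
    M.φ ((M.Y.presheaf.germ ⊤ (genericPoint M.Y) trivial).hom
      (M.f.appTop.hom ((Scheme.ΓSpecIso (.of R)).inv.hom r))) = algebraMap R K r := by
  have h := congrArg (fun g => Scheme.Hom.appTop g ≫ (Scheme.ΓSpecIso (CommRingCat.of K)).hom) M.gen
  simp only [MLD.genPt, Scheme.Hom.comp_appTop, Category.assoc, Scheme.ΓSpecIso_naturality,
    Scheme.fromSpecStalk_appTop] at h
  have h2 := congrArg (fun g => (Scheme.ΓSpecIso (CommRingCat.of R)).inv ≫ g) h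
  simp only [Iso.inv_hom_id_assoc] at h2
  have h3 := gen_key (M.Y.presheaf.stalk (genericPoint M.Y))
    (CommRingCat.ofHom (M.φ : M.Y.functionField →+* K)) le_rfl
  have h4 : (Scheme.ΓSpecIso (CommRingCat.of R)).inv ≫ M.f.appTop ≫
      M.Y.presheaf.germ ⊤ (genericPoint M.Y) trivial ≫
        CommRingCat.ofHom (M.φ : M.Y.functionField →+* K) = CommRingCat.ofHom (algebraMap R K) := by
    refine Eq.trans ?_ h2
    congr 3
    exact h3.symm
  have h5 := congrArg (fun g : CommRingCat.of R ⟶ CommRingCat.of K => g.hom r) h4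
  exact h5

/-- The contraction in the terms of the other definitions. -/
noncomputable def transfer {O : ValuationSubring K} (C : MLD.DivisorialContraction R O) :
    DivisorialContraction R O where
  Y := C.Y
  f := C.f
  integral := C.integral
  proper := C.proper
  φ := C.φ
  φ_comp := gen_apply C.toModel
  normal := C.normal
  η := C.η
  loc_η := C.loc_η
  exc := C.exc
  ample := C.ample

end Geo

theorem main : ∃ (R K : Type) (_ : CommRing R) (_ : IsDomain R) (_ : Field K) (_ : Algebra ℂ R)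
    (_ : Algebra R K) (_ : Algebra ℂ K) (_ : IsScalarTower ℂ R K) (_ : IsFractionRing R K)
    (x : Ideal R) (ω : ExteriorAlgebra K (MLD.Om K)),
    Algebra.FiniteType ℂ R ∧ IsIntegrallyClosed R ∧ Algebra.trdeg ℂ K = 11 ∧ x.IsMaximal ∧
    MLD.CanonicalGen 10 R ω ∧ MLD.Klt 10 R ω ∧ MLD.IsMld 10 x ω 7 ∧
    ∀ O : ValuationSubring K, MLD.OverPoint x O → MLD.HasLogDisc 10 O ω 7 →
      ¬ MLD.Extractable x O := by
  have hfin : Finite G := inferInstance
  obtain ⟨ω, h0, hω⟩ := exists_pull (K := KR) (F := FA) G trdeg_KR trdeg_FA essFiniteType_FA zc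
    zc_indep linear_action
  refine ⟨R, KR, inferInstance, inferInstance, inferInstance, inferInstance, inferInstance,
    inferInstance, inferInstance, inferInstance, x0,
    ((ω : ExteriorAlgebra KR Ω[KR⁄ℂ]) : ExteriorAlgebra KR (MLD.Om KR)), finiteType_R,
    isIntegrallyClosed_R, ?_, isMaximal_x0, ?_, ?_, ?_, ?_⟩
  · have := trdeg_KR
    norm_num at this
    exact this
  · intro p hp hp1
    obtain ⟨O, hO, h⟩ := canonical_R ω h0 hω p hp hp1
    exact ⟨O, hO, (hasLogDisc_iff O ω 1).2 h⟩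
  · intro O hO hR
    obtain ⟨a, ha, h, hu⟩ := klt_R ω h0 hω O hO hR
    exact ⟨a, ha, (hasLogDisc_iff O ω a).2 h, fun b hb => hu b ((hasLogDisc_iff O ω b).1 hb)⟩
  · constructor
    · obtain ⟨O, hO, hx, h⟩ := exists_seven ω h0 hω
      exact ⟨O, hO, hx, (hasLogDisc_iff O ω 7).2 h⟩
    · intro O _ hO a ha
      exact (analysis ω hω O hO a ((hasLogDisc_iff O ω a).1 ha)).1
  · rintro O hO h ⟨g, S, _, _, _, _, hg, _, ⟨C⟩⟩
    exact no_contraction ω hω O hO ((hasLogDisc_iff O ω 7).1 h) g hg S (transfer C)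

end H5ML
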