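import Pool.Agent.H5.ML.Coo
import Pool.Agent.H5.ML.Frame

/-!
# MONA: linear change of coordinates
-/

namespace H5ML

open MvPolynomial

/-- The ten elements `lin k v / t_0 ^ wt v`, `v ≠ t_0`. -/
noncomputable def zq (k : ZMod 241) (j : Fin 10) : FA :=
  zk k j.succ * t0 ^ (-(wt (idx j.succ) : ℤ))

/-- The constants in the next statement. -/
noncomputable def thc : Ix → A
  | .inl _ => 2
  | .inr (.inl _) => 2
  | .inr (.inr _) => 1

/-- The inverse substitution. -/
noncomputable def mona_inv (k : ZMod 241) : Ix → A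
  | .inl i => C (1 / 2) * (xx i + yy i)
  | .inr (.inl i) => C (chi (-(u i * k)) / 2) * (yy i - xx i)
  | .inr (.inr l) => tt l

theorem mona_chi (a : ZMod 241) : chi a * chi (-a) = 1 := by
  rw [mul_comm]; exact chi_neg_mul a

theorem mona_comp (k : ZMod 241) (h : A) : aeval (lin k) (aeval (mona_inv k) h) = h := by
  have e : (aeval (lin k)).comp (aeval (mona_inv k)) = AlgHom.id ℂ A := by
    apply MvPolynomial.algHom_ext
    intro v
    rw [AlgHom.comp_apply, aeval_X, AlgHom.id_apply]
    rcases v with i | i | l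
    · simp only [mona_inv, map_mul, map_add, aeval_C, xx, yy, aeval_X, lin, algebraMap_eq]
      have : (C (1 / 2 : ℂ) : A) * 2 = 1 := by
        rw [← map_ofNat (C : ℂ →+* A) 2, ← C_mul, ← C_1]
        norm_num
      linear_combination (X (Sum.inl i)) * this
    · simp only [mona_inv, map_mul, map_sub, aeval_C, xx, yy, aeval_X, lin, algebraMap_eq]
      have : (C (chi (-(u i * k)) / 2) : A) * (2 * C (chi (u i * k))) = 1 := by
        rw [← map_ofNat (C : ℂ →+* A) 2, ← C_mul, ← C_mul]
        have h1 := mona_chi (u i * k)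
        rw [show chi (-(u i * k)) / 2 * (2 * chi (u i * k)) = 1 by linear_combination h1, C_1]
      linear_combination (X (Sum.inr (Sum.inl i))) * this
    · simp only [mona_inv, tt, aeval_X, lin]
  exact DFunLike.congr_fun e h

theorem mona_thetak (k : ZMod 241) (v : Ix) :
    thetak k (lin k v) = Polynomial.C (thc v * X v) * Polynomial.X ^ wt v := by
  have hC : ∀ c : ℂ, thetak k (C c) = Polynomial.C (C c) := by
    intro c
    rw [thetak, aeval_C]
    rfl
  have hx : ∀ i, thetak k (xx i) = thetakX k (.inl i) := fun i => by rw [thetak, xx, aeval_X]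
  have hy : ∀ i, thetak k (yy i) = thetakX k (.inr (.inl i)) := fun i => by
    rw [thetak, yy, aeval_X]
  have ht : ∀ l, thetak k (tt l) = thetakX k (.inr (.inr l)) := fun l => by
    rw [thetak, tt, aeval_X]
  have hc : ∀ i, (Polynomial.C (C (chi (u i * k))) : Polynomial A) *
      Polynomial.C (C (chi (-(u i * k)))) = 1 := by
    intro i
    rw [← Polynomial.C_mul, ← C_mul, mona_chi, C_1, Polynomial.C_1]
  rcases v with i | i | l
  · simp only [lin, map_sub, map_mul, hC, hx, hy]
    simp only [thetakX, thc, wt, xx, yy, map_mul]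
    rw [map_ofNat (Polynomial.C : A →+* Polynomial A) 2]
    linear_combination (-(Polynomial.C (X (Sum.inr (Sum.inl i))) * Polynomial.X ^ 2 -
      Polynomial.C (X (Sum.inl i)) * Polynomial.X)) * hc i
  · simp only [lin, map_add, map_mul, hC, hx, hy]
    simp only [thetakX, thc, wt, xx, yy, map_mul]
    rw [map_ofNat (Polynomial.C : A →+* Polynomial A) 2]
    linear_combination (Polynomial.C (X (Sum.inr (Sum.inl i))) * Polynomial.X ^ 2 -
      Polynomial.C (X (Sum.inl i)) * Polynomial.X) * hc i
  · simp only [lin, ht]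
    simp [thetakX, thc, wt, tt]

/-- Proof. `p_i = x_i - χ y_i`, `q_i = x_i + χ y_i` (`χ = χ (u_i k) ≠ 0`) give
`x_i = (p_i + q_i) / 2`, `y_i = (q_i - p_i) / (2 χ)`: there is an algebra automorphism `L` of `A`
with `L (X v) = lin k v`. Moreover `thetak k (lin k v) = C (2 X_v) ϖ^{wt v}` for `v` an `x` or `y`
index (`chi_neg_mul`) and `= C (X_v) ϖ` for `v = t_l`. -/
theorem exists_lin (k : ZMod 241) (h : A) :
    ∃ H : A, h = aeval (lin k) H ∧
      thetak k h = aeval (fun v : Ix => Polynomial.C (thc v * X v) * Polynomial.X ^ wt v) H := by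
  refine ⟨aeval (mona_inv k) h, (mona_comp k h).symm, ?_⟩
  conv_lhs => rw [← mona_comp k h]
  have e : (thetak k).comp (aeval (lin k)) =
      aeval (fun v : Ix => Polynomial.C (thc v * X v) * Polynomial.X ^ wt v) := by
    apply MvPolynomial.algHom_ext
    intro v
    rw [AlgHom.comp_apply, aeval_X, aeval_X, mona_thetak]
  exact DFunLike.congr_fun e _

end H5ML
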