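import Pool.Agent.H5.ML.Coo

/-!
# MONC: the Jacobian of the linear forms
-/

namespace H5ML

open MvPolynomial

/-- The matrix of the linear forms. -/
noncomputable def monc_M (k : ZMod 241) : Matrix Ix Ix ℂ
  | .inl i, .inl j => if i = j then 1 else 0
  | .inl i, .inr (.inl j) => if i = j then -chi (u i * k) else 0
  | .inl _, .inr (.inr _) => 0
  | .inr (.inl i), .inl j => if i = j then 1 else 0
  | .inr (.inl i), .inr (.inl j) => if i = j then chi (u i * k) else 0
  | .inr (.inl _), .inr (.inr _) => 0
  | .inr (.inr _), .inl _ => 0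
  | .inr (.inr _), .inr (.inl _) => 0
  | .inr (.inr l), .inr (.inr l') => if l = l' then 1 else 0

theorem monc_chi_ne (a : ZMod 241) : chi a ≠ 0 := by
  intro h
  have := chi_neg_mul a
  rw [h, mul_zero] at this
  exact zero_ne_one this

theorem monc_det (k : ZMod 241) : (monc_M k).det ≠ 0 := by
  intro h0
  obtain ⟨v, hv, hv0⟩ := Matrix.exists_mulVec_eq_zero_iff.2 h0
  apply hv
  have h1 : ∀ i, v (.inl i) + -chi (u i * k) * v (.inr (.inl i)) = 0 := by
    intro i
    have := congrFun hv0 (.inl i)
    simpa [Matrix.mulVec, dotProduct, Fintype.sum_sum_type, monc_M] using this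
  have h2 : ∀ i, v (.inl i) + chi (u i * k) * v (.inr (.inl i)) = 0 := by
    intro i
    have := congrFun hv0 (.inr (.inl i))
    simpa [Matrix.mulVec, dotProduct, Fintype.sum_sum_type, monc_M] using this
  have h3 : ∀ l, v (.inr (.inr l)) = 0 := by
    intro l
    have := congrFun hv0 (.inr (.inr l))
    simpa [Matrix.mulVec, dotProduct, Fintype.sum_sum_type, monc_M] using this
  funext s
  rcases s with i | i | l
  · have h4 : 2 * v (.inl i) = 0 := by linear_combination h1 i + h2 i
    simpa using h4
  · have h4 : 2 * (chi (u i * k) * v (.inr (.inl i))) = 0 := by linear_combination h2 i - h1 i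
    have h5 := monc_chi_ne (u i * k)
    simpa [h5] using h4
  · exact h3 l

theorem monc_lin (k : ZMod 241) (r : Ix) : lin k r = ∑ s, (monc_M k r s) • (X s : A) := by
  rcases r with i | i | l
  · simp [lin, Fintype.sum_sum_type, monc_M, xx, yy, ite_smul]
    simp [MvPolynomial.smul_eq_C_mul, sub_eq_add_neg]
  · simp [lin, Fintype.sum_sum_type, monc_M, xx, yy, ite_smul]
    simp [MvPolynomial.smul_eq_C_mul]
  · simp [lin, Fintype.sum_sum_type, monc_M, tt, ite_smul]

/-- Proof. `zk k j = ∑ l, m j l • zc l` with an invertible matrix `m` over `ℂ` (entries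
`1, ± χ (u_i k)`; inverse entries `1/2, ± 1 / (2 χ)`), so
`D i (zk k j) = ∑ l, m j l • D i (zc l)` and `jac D (zk k) = det m * jac D zc`. To see
`det m ≠ 0` exhibit the inverse matrix, or: both families are expressed linearly by the other and
`zc` is linearly independent over `ℂ`. -/
theorem jac_zk (k : ZMod 241) : ∃ c : ℂ, c ≠ 0 ∧
    ∀ D : Fin (10 + 1) → Derivation ℂ FA FA, jac D (zk k) = algebraMap ℂ FA c * jac D zc := by
  refine ⟨(monc_M k).det, monc_det k, fun D => ?_⟩
  set e : Fin (10 + 1) ≃ Ix := Equiv.ofBijective idx idx_bijective with he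
  have hz : ∀ j, zk k j = ∑ l, (monc_M k (idx j) (idx l)) • zc l := by
    intro j
    unfold zk zc
    rw [monc_lin, map_sum, ← Equiv.sum_comp e]
    refine Finset.sum_congr rfl fun l _ => ?_
    exact map_smul (IsScalarTower.toAlgHom ℂ A FA) (monc_M k (idx j) (idx l)) (X (idx l))
  have h1 : (Matrix.of fun j i => D i (zk k j)) =
      ((monc_M k).submatrix idx idx).map (algebraMap ℂ FA) *
        (Matrix.of fun j i => D i (zc j)) := by
    ext j i
    rw [Matrix.mul_apply, Matrix.of_apply, hz, map_sum]
    refine Finset.sum_congr rfl fun l _ => ?_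
    rw [Derivation.map_smul, Algebra.smul_def]
    rfl
  unfold jac
  rw [h1, Matrix.det_mul]
  congr 1
  have h2 := (algebraMap ℂ FA).map_det ((monc_M k).submatrix idx idx)
  rw [RingHom.mapMatrix_apply] at h2
  rw [← h2]
  congr 1
  exact Matrix.det_submatrix_equiv_self e (monc_M k)

end H5ML
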