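import Pool.Agent.H5.ML.PresC

/-!
# PRES: derivations which are regular on a parameter system preserve the valuation ring
-/

namespace H5ML

variable {M : Type} [Field M] [Algebra ℂ M]

theorem pres_eval {n : ℕ} (h : M) (y : Fin n → M) (P : MvPolynomial (Fin (n + 1)) ℂ) :
    MvPolynomial.aeval (Fin.cons h y : Fin (n + 1) → M) P =
      Polynomial.eval₂ ((MvPolynomial.aeval y : MvPolynomial (Fin n) ℂ →ₐ[ℂ] M) :
        MvPolynomial (Fin n) ℂ →+* M) h (MvPolynomial.finSuccEquiv ℂ n P) := by
  induction P using MvPolynomial.induction_on with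
  | C a =>
    rw [MvPolynomial.finSuccEquiv_apply]
    simp
  | add p q hp hq => rw [map_add, map_add, Polynomial.eval₂_add, hp, hq]
  | mul_X p i hp =>
    rw [map_mul, map_mul, Polynomial.eval₂_mul, hp]
    congr 1
    refine Fin.cases ?_ (fun j => ?_) i
    · rw [MvPolynomial.finSuccEquiv_X_zero]
      simp
    · rw [MvPolynomial.finSuccEquiv_X_succ]
      simp

omit [Algebra ℂ M] in
theorem pres_eval_mem {R : Type} [CommRing R] {W : ValuationSubring M} (φ : R →+* M)
    (hφ : ∀ r, φ r ∈ W) (t : M) (ht : t ∈ W) (q : Polynomial R) : Polynomial.eval₂ φ t q ∈ W := by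
  rw [Polynomial.eval₂_eq_sum_range]
  exact sum_mem fun i _ => W.mul_mem _ _ (hφ _) (pow_mem ht _)

omit [Algebra ℂ M] in
theorem pres_lowest {R : Type} [CommRing R] {W : ValuationSubring M} (φ : R →+* M)
    (hφ : ∀ r, φ r ∈ W) (t : M) (ht : t ∈ W) (ht0 : t ≠ 0) (k : ℕ) :
    ∀ q : Polynomial R, q.natDegree ≤ k → q ≠ 0 → Polynomial.eval₂ φ t q = 0 →
      ∃ c : R, c ≠ 0 ∧ t⁻¹ * φ c ∈ W := by
  induction k with
  | zero =>
    intro q hq hq0 he
    have h1 : q = Polynomial.C (q.coeff 0) :=
      Polynomial.eq_C_of_natDegree_le_zero hq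
    refine ⟨q.coeff 0, ?_, ?_⟩
    · intro h
      rw [h, map_zero] at h1
      exact hq0 h1
    · rw [h1, Polynomial.eval₂_C] at he
      rw [he, mul_zero]
      exact W.zero_mem
  | succ k ih =>
    intro q hq hq0 he
    have h1 := Polynomial.divX_mul_X_add q
    have h2 : Polynomial.eval₂ φ t (q.divX) * t + φ (q.coeff 0) = 0 := by
      rw [← he]
      conv_rhs => rw [← h1]
      rw [Polynomial.eval₂_add, Polynomial.eval₂_mul_X, Polynomial.eval₂_C]
    by_cases hc : q.coeff 0 = 0
    · rw [hc, map_zero, add_zero] at h2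
      have h3 : Polynomial.eval₂ φ t q.divX = 0 := by
        rcases mul_eq_zero.1 h2 with h | h
        · exact h
        · exact absurd h ht0
      refine ih q.divX ?_ ?_ h3
      · rw [Polynomial.natDegree_divX_eq_natDegree_tsub_one]
        omega
      · intro h
        rw [h, hc, zero_mul, map_zero, add_zero] at h1
        exact hq0 h1.symm
    · refine ⟨q.coeff 0, hc, ?_⟩
      have h3 : φ (q.coeff 0) = -(Polynomial.eval₂ φ t q.divX * t) := by
        linear_combination h2
      have h4 : t⁻¹ * φ (q.coeff 0) = -Polynomial.eval₂ φ t q.divX := by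
        rw [h3]
        field_simp
      rw [h4]
      exact W.neg_mem _ (pres_eval_mem φ hφ t ht _)

theorem pres_resmem {n : ℕ} {W : ValuationSubring M} {y : Fin n → M} (hy : ResIndep W y)
    (P : MvPolynomial (Fin n) ℂ) : MvPolynomial.aeval y P ∈ W := by
  rcases eq_or_ne P 0 with rfl | h
  · rw [map_zero]; exact W.zero_mem
  · exact (hy P h).2.1

omit [Algebra ℂ M] in
/-- an element of `W` which is not in `T W` is a unit. -/
theorem pres_unit {W : ValuationSubring M} {T : M} (hT : IsUnif W T) {x : M} (hx : x ∈ W)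
    (hx' : T⁻¹ * x ∉ W) : x⁻¹ ∈ W := by
  have hx0 : x ≠ 0 := by
    rintro rfl
    rw [mul_zero] at hx'
    exact hx' W.zero_mem
  obtain ⟨m, hm⟩ := exists_ordEq hT hx0
  have h1 := (hm.mem_iff hT).1 hx
  have h2 : ¬ (1 ≤ m) := by
    intro h3
    apply hx'
    have := (hm.mul_mem_iff hT 1).2 h3
    rwa [zpow_neg_one, mul_comm] at this
  have h3 : m = 0 := by omega
  subst h3
  exact (ordEq_zero_iff.1 hm).2.2

omit [Algebra ℂ M] in
theorem pres_mem_add {W : ValuationSubring M} {T a b : M} (ha : T⁻¹ * a ∈ W) (hb : T⁻¹ * b ∈ W) :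
    T⁻¹ * (a + b) ∈ W := by
  rw [mul_add]; exact W.add_mem _ _ ha hb

omit [Algebra ℂ M] in
theorem pres_mem_sub {W : ValuationSubring M} {T a b : M} (ha : T⁻¹ * a ∈ W) (hb : T⁻¹ * b ∈ W) :
    T⁻¹ * (a - b) ∈ W := by
  rw [mul_sub, sub_eq_add_neg]; exact W.add_mem _ _ ha (W.neg_mem _ hb)

omit [Algebra ℂ M] in
theorem pres_mem_mul {W : ValuationSubring M} {T a b : M} (ha : T⁻¹ * a ∈ W) (hb : b ∈ W) :
    T⁻¹ * (a * b) ∈ W := by
  rw [← mul_assoc]; exact W.mul_mem _ _ ha hb

/-- one step of the induction on `c`. -/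
theorem pres_step {n : ℕ} (htr : Algebra.trdeg ℂ M = (n + 1 : ℕ))
    {W : ValuationSubring M} {T : M} (hT : IsUnif W T) {y : Fin n → M} (hy : ResIndep W y)
    (D : Derivation ℂ M M) (h0 : T⁻¹ * D T ∈ W) (h1 : ∀ j, T⁻¹ * D (y j) ∈ W)
    (hD : ∀ h ∈ W, D h ∈ W) (h : M) (hh : h ∈ W) : T⁻¹ * D h ∈ W := by
  classical
  set φ : MvPolynomial (Fin n) ℂ →+* M :=
    ((MvPolynomial.aeval y : MvPolynomial (Fin n) ℂ →ₐ[ℂ] M) : MvPolynomial (Fin n) ℂ →+* M)
    with hφdef
  have hφ : ∀ r, φ r ∈ W := fun r => pres_resmem hy r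
  have hDφ : ∀ r, T⁻¹ * D (φ r) ∈ W := by
    intro r
    induction r using MvPolynomial.induction_on with
    | C a =>
      have : φ (MvPolynomial.C a) = algebraMap ℂ M a := by simp [hφdef]
      rw [this, D.map_algebraMap, mul_zero]
      exact W.zero_mem
    | add p q hp hq =>
      rw [map_add, map_add]
      exact pres_mem_add hp hq
    | mul_X p i hp =>
      have : φ (MvPolynomial.X i) = y i := by simp [hφdef]
      rw [map_mul, this, D.leibniz, smul_eq_mul, smul_eq_mul]
      refine pres_mem_add ?_ ?_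
      · rw [mul_comm (φ p)]
        exact pres_mem_mul (h1 i) (hφ p)
      · rw [mul_comm (y i)]
        refine pres_mem_mul hp ?_
        rw [← this]
        exact hφ _
  -- the derivation modulo `T W`
  have hmod : ∀ q : Polynomial (MvPolynomial (Fin n) ℂ),
      T⁻¹ * (D (Polynomial.eval₂ φ h q) - Polynomial.eval₂ φ h (Polynomial.derivative q) * D h)
        ∈ W := by
    intro q
    induction q using Polynomial.induction_on' with
    | add p q hp hq =>
      have : D (Polynomial.eval₂ φ h (p + q)) -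
          Polynomial.eval₂ φ h (Polynomial.derivative (p + q)) * D h
          = (D (Polynomial.eval₂ φ h p) - Polynomial.eval₂ φ h (Polynomial.derivative p) * D h) +
            (D (Polynomial.eval₂ φ h q) -
              Polynomial.eval₂ φ h (Polynomial.derivative q) * D h) := by
        rw [Polynomial.eval₂_add, map_add, map_add, Polynomial.eval₂_add]
        ring
      rw [this]
      exact pres_mem_add hp hq
    | monomial k a =>
      have : D (Polynomial.eval₂ φ h (Polynomial.monomial k a)) -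
          Polynomial.eval₂ φ h (Polynomial.derivative (Polynomial.monomial k a)) * D h
          = D (φ a) * h ^ k := by
        rw [Polynomial.derivative_monomial, Polynomial.eval₂_monomial, Polynomial.eval₂_monomial,
          D.leibniz, D.leibniz_pow, smul_eq_mul, smul_eq_mul, map_mul, map_natCast]
        simp only [nsmul_eq_mul, smul_eq_mul]
        ring
      rw [this]
      exact pres_mem_mul (hDφ a) (pow_mem hh k)
  -- a relation
  have hex : ∃ k, ∃ q : Polynomial (MvPolynomial (Fin n) ℂ), q ≠ 0 ∧ q.natDegree = k ∧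
      T⁻¹ * Polynomial.eval₂ φ h q ∈ W := by
    have hdep : ¬ AlgebraicIndependent ℂ
        (Fin.cons T (Fin.cons h y : Fin (n + 1) → M) : Fin (n + 2) → M) := by
      intro hi
      have hcard := hi.lift_cardinalMk_le_trdeg
      rw [htr] at hcard
      simp only [Cardinal.mk_fin, Cardinal.lift_natCast, Nat.cast_le] at hcard
      omega
    rw [algebraicIndependent_iff] at hdep
    push Not at hdep
    obtain ⟨Q, hQ, hQ0⟩ := hdep
    rw [pres_eval] at hQ
    have hQ1 : MvPolynomial.finSuccEquiv ℂ (n + 1) Q ≠ 0 := by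
      rw [Ne, EmbeddingLike.map_eq_zero_iff]
      exact hQ0
    have hψ : ∀ r : MvPolynomial (Fin (n + 1)) ℂ,
        ((MvPolynomial.aeval (Fin.cons h y : Fin (n + 1) → M) :
          MvPolynomial (Fin (n + 1)) ℂ →ₐ[ℂ] M) : MvPolynomial (Fin (n + 1)) ℂ →+* M) r ∈ W := by
      intro r
      change MvPolynomial.aeval (Fin.cons h y : Fin (n + 1) → M) r ∈ W
      rw [pres_eval]
      exact pres_eval_mem φ hφ h hh _
    obtain ⟨c, hc0, hc⟩ := pres_lowest _ hψ T hT.2.1 hT.1 _ _ le_rfl hQ1 hQ
    refine ⟨_, MvPolynomial.finSuccEquiv ℂ n c, ?_, rfl, ?_⟩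
    · rw [Ne, EmbeddingLike.map_eq_zero_iff]
      exact hc0
    · have hc' : T⁻¹ * MvPolynomial.aeval (Fin.cons h y : Fin (n + 1) → M) c ∈ W := hc
      rwa [pres_eval] at hc'
  obtain ⟨q, hq0, hqd, hq⟩ := Nat.find_spec hex
  have hmin := fun m hm => Nat.find_min hex (m := m) hm
  -- positive degree
  have hpos : 0 < q.natDegree := by
    by_contra hc
    have hq1 : q = Polynomial.C (q.coeff 0) :=
      Polynomial.eq_C_of_natDegree_le_zero (by omega)
    have hq2 : q.coeff 0 ≠ 0 := by
      intro h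
      rw [h, map_zero] at hq1
      exact hq0 hq1
    rw [hq1, Polynomial.eval₂_C] at hq
    obtain ⟨a1, a2, a3⟩ := hy _ hq2
    have hne : φ (q.coeff 0) ≠ 0 := a1
    have hinv : (φ (q.coeff 0))⁻¹ ∈ W := a3
    apply hT.2.2.1
    have := W.mul_mem _ _ hq hinv
    rwa [mul_assoc, mul_inv_cancel₀ hne, mul_one] at this
  have hder0 : Polynomial.derivative q ≠ 0 := by
    intro h
    have := Polynomial.derivative_eq_zero.1 h
    omega
  have hderdeg : (Polynomial.derivative q).natDegree < q.natDegree :=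
    Polynomial.natDegree_derivative_lt hpos.ne'
  have hder : T⁻¹ * Polynomial.eval₂ φ h (Polynomial.derivative q) ∉ W := by
    intro hc
    exact hmin _ (by rw [← hqd]; exact hderdeg) ⟨_, hder0, rfl, hc⟩
  have hderW := pres_eval_mem φ hφ h hh (Polynomial.derivative q)
  have hderU := pres_unit hT hderW hder
  have hdne : Polynomial.eval₂ φ h (Polynomial.derivative q) ≠ 0 := by
    intro h
    rw [h, mul_zero] at hder
    exact hder W.zero_mem
  -- `D (q (h)) ∈ T W`
  have hDq : T⁻¹ * D (Polynomial.eval₂ φ h q) ∈ W := by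
    set w := T⁻¹ * Polynomial.eval₂ φ h q with hw
    have hqw : Polynomial.eval₂ φ h q = T * w := by
      rw [hw, ← mul_assoc, mul_inv_cancel₀ hT.1, one_mul]
    rw [hqw, D.leibniz, smul_eq_mul, smul_eq_mul]
    refine pres_mem_add ?_ ?_
    · rw [← mul_assoc, inv_mul_cancel₀ hT.1, one_mul]
      exact hD _ hq
    · rw [mul_comm w]
      exact pres_mem_mul h0 hq
  have h5 := pres_mem_sub hDq (hmod q)
  rw [sub_sub_cancel] at h5
  have h6 := W.mul_mem _ _ h5 hderU
  have h7 : T⁻¹ * (Polynomial.eval₂ φ h (Polynomial.derivative q) * D h) *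
      (Polynomial.eval₂ φ h (Polynomial.derivative q))⁻¹ = T⁻¹ * D h := by
    field_simp
  rwa [h7] at h6

/-- Proof. Let `c` be minimal with the property of `bounded`. Suppose `c ≥ 1`. Then
`D' = T ^ c • D` maps `W` to `W`, and `D' T ∈ 𝔪`, `D' y_j ∈ 𝔪` (`𝔪 = T W`), so
`D' (𝔪) ⊆ 𝔪`. Claim: `D' h ∈ 𝔪` for all `h ∈ W`; then `T ^ (c - 1) * D h ∈ W`, contradicting the
minimality. Proof of the claim: for `P` a polynomial over `ℂ`, `D' (P (y)) ∈ 𝔪`. The element `h`
is algebraic over `ℂ(T, y)` (`tb_indep`, `tb_fin`), hence there is a nonzero polynomial `Q` in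
`X, T, y` with `Q (h, T, y) = 0`; dividing by a power of `T` we may assume that `Q` is not
divisible by the variable `T`, so its constant term `q (X, y)` with respect to `T` is a nonzero
polynomial and `q (h, y) ∈ 𝔪` (`Q (h, T, y) = q (h, y) + T (…)`, `(…) ∈ W`). (So the residue of `h`
is algebraic over `ℂ(ȳ)`.) Choose a nonzero polynomial `q (X, y)` with `q (h, y) ∈ 𝔪` of minimal
degree in `X`. The degree is positive by `hy` (a polynomial of degree zero in `X` is a unit at
`y`). Then `D' (q (h, y)) ∈ 𝔪` and it is congruent modulo `𝔪` to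
`(∂q/∂X) (h, y) * D' h`, where `(∂q/∂X)` is nonzero of smaller degree, so `(∂q/∂X) (h, y) ∉ 𝔪` is a
unit. Hence `D' h ∈ 𝔪`. -/
theorem pres {n : ℕ} (hM : Algebra.EssFiniteType ℂ M) (htr : Algebra.trdeg ℂ M = (n + 1 : ℕ))
    {W : ValuationSubring M} {T : M} (hT : IsUnif W T) {y : Fin n → M} (hy : ResIndep W y)
    (D : Derivation ℂ M M) (h0 : D T ∈ W) (h1 : ∀ j, D (y j) ∈ W) :
    ∀ h ∈ W, D h ∈ W := by
  classical
  obtain ⟨c, hc⟩ := bounded hM htr hT hy D h0 h1
  induction c with
  | zero => simpa using hc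
  | succ c ih =>
    apply ih
    intro h hh
    have key : ∀ x : M, T⁻¹ * (T ^ (c + 1) * x) = T ^ c * x := by
      intro x
      rw [pow_succ', ← mul_assoc, ← mul_assoc, inv_mul_cancel₀ hT.1, one_mul]
    have := pres_step htr hT hy (T ^ (c + 1) • D) (by
      rw [Derivation.smul_apply, smul_eq_mul, key]
      exact W.mul_mem _ _ (pow_mem hT.2.1 c) h0) (by
      intro j
      rw [Derivation.smul_apply, smul_eq_mul, key]
      exact W.mul_mem _ _ (pow_mem hT.2.1 c) (h1 j)) (by
      intro g hg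
      rw [Derivation.smul_apply, smul_eq_mul]
      exact hc g hg) h hh
    rwa [Derivation.smul_apply, smul_eq_mul, key] at this

end H5ML
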