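import Pool.Agent.H5.ML.Tb

/-!
# PRESA: elements of `W` in the field generated by a parameter system
-/

namespace H5ML

variable {M : Type} [Field M] [Algebra ℂ M]

/-- The evaluation of polynomials in `y`. -/
noncomputable def presa_e {n : ℕ} (y : Fin n → M) : MvPolynomial (Fin n) ℂ →+* M :=
  ((MvPolynomial.aeval y : MvPolynomial (Fin n) ℂ →ₐ[ℂ] M) : MvPolynomial (Fin n) ℂ →+* M)

theorem presa_eval {n : ℕ} (T : M) (y : Fin n → M) (P : MvPolynomial (Fin (n + 1)) ℂ) :
    MvPolynomial.aeval (Fin.cons T y : Fin (n + 1) → M) P =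
      Polynomial.eval₂ (presa_e y) T (MvPolynomial.finSuccEquiv ℂ n P) := by
  have h : ((MvPolynomial.aeval (Fin.cons T y : Fin (n + 1) → M) :
      MvPolynomial (Fin (n + 1)) ℂ →ₐ[ℂ] M) : MvPolynomial (Fin (n + 1)) ℂ →+* M) =
      (Polynomial.eval₂RingHom (presa_e y) T).comp
        (MvPolynomial.finSuccEquiv ℂ n : MvPolynomial (Fin (n + 1)) ℂ →+*
          Polynomial (MvPolynomial (Fin n) ℂ)) := by
    apply MvPolynomial.ringHom_ext
    · intro c
      simp [MvPolynomial.finSuccEquiv_apply, presa_e]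
    · intro j
      refine Fin.cases ?_ (fun j => ?_) j
      · simp [MvPolynomial.finSuccEquiv_X_zero]
      · simp [MvPolynomial.finSuccEquiv_X_succ, presa_e]
  exact congrArg (fun f : MvPolynomial (Fin (n + 1)) ℂ →+* M => f P) h

theorem presa_const {n : ℕ} {W : ValuationSubring M} {y : Fin n → M} (hy : ResIndep W y)
    (c : ℂ) : algebraMap ℂ M c ∈ W := by
  rcases eq_or_ne c 0 with rfl | hc
  · rw [map_zero]
    exact W.zero_mem
  · have := (hy (MvPolynomial.C c) (by simpa using hc)).2.1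
    simpa using this

theorem presa_y {n : ℕ} {W : ValuationSubring M} {y : Fin n → M} (hy : ResIndep W y)
    (j : Fin n) : y j ∈ W := by
  have := (hy (MvPolynomial.X j) (MvPolynomial.X_ne_zero j)).2.1
  simpa using this

theorem presa_e_mem {n : ℕ} {W : ValuationSubring M} {y : Fin n → M} (hy : ResIndep W y)
    (b : MvPolynomial (Fin n) ℂ) : presa_e y b ∈ W := by
  rcases eq_or_ne b 0 with rfl | hb
  · rw [map_zero]
    exact W.zero_mem
  · exact (hy b hb).2.1

theorem presa_eval_mem {n : ℕ} {W : ValuationSubring M} {T : M} (hT : IsUnif W T)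
    {y : Fin n → M} (hy : ResIndep W y) (F : Polynomial (MvPolynomial (Fin n) ℂ)) :
    Polynomial.eval₂ (presa_e y) T F ∈ W := by
  rw [Polynomial.eval₂_eq_sum_range]
  exact sum_mem fun i _ => mul_mem (presa_e_mem hy _) (pow_mem hT.2.1 _)

theorem presa_fac {B : Type*} [CommRing B] : ∀ (d : ℕ) (F : Polynomial B), F ≠ 0 →
    F.natDegree ≤ d → ∃ (i : ℕ) (F' : Polynomial B), F = Polynomial.X ^ i * F' ∧
      F'.coeff 0 ≠ 0 := by
  intro d
  induction d with
  | zero =>
    intro F hF hd
    refine ⟨0, F, by simp, fun h0 => hF ?_⟩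
    rw [Polynomial.eq_C_of_natDegree_le_zero hd, h0, Polynomial.C_0]
  | succ d ih =>
    intro F hF hd
    by_cases h0 : F.coeff 0 = 0
    · have h1 := Polynomial.divX_mul_X_add F
      rw [h0, Polynomial.C_0, add_zero] at h1
      have h2 : F.divX ≠ 0 := by
        intro h2
        rw [h2, zero_mul] at h1
        exact hF h1.symm
      obtain ⟨i, F', hF', hc⟩ := ih F.divX h2 (by
        rw [Polynomial.natDegree_divX_eq_natDegree_tsub_one]
        omega)
      refine ⟨i + 1, F', ?_, hc⟩
      rw [← h1, hF', pow_succ]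
      ring
    · exact ⟨0, F, by simp, h0⟩

theorem presa_unit {n : ℕ} {W : ValuationSubring M} {T : M} (hT : IsUnif W T)
    {y : Fin n → M} (hy : ResIndep W y) (F : Polynomial (MvPolynomial (Fin n) ℂ))
    (hF : F.coeff 0 ≠ 0) :
    Polynomial.eval₂ (presa_e y) T F ≠ 0 ∧ (Polynomial.eval₂ (presa_e y) T F)⁻¹ ∈ W := by
  have h1 : Polynomial.eval₂ (presa_e y) T F =
      presa_e y (F.coeff 0) + Polynomial.eval₂ (presa_e y) T F.divX * T := by
    conv_lhs => rw [← Polynomial.divX_mul_X_add F]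
    rw [Polynomial.eval₂_add, Polynomial.eval₂_mul, Polynomial.eval₂_X, Polynomial.eval₂_C,
      add_comm]
  obtain ⟨hu0, hu1, hu2⟩ := hy _ hF
  have hw := presa_eval_mem hT hy F.divX
  set e0 : M := presa_e y (F.coeff 0) with he0
  set w : M := Polynomial.eval₂ (presa_e y) T F.divX with hwd
  have he0' : e0 ≠ 0 := hu0
  have hv1 : W.valuation e0 = 1 := by
    apply le_antisymm
    · exact (W.valuation_le_one_iff _).2 hu1
    · have h2 : W.valuation e0⁻¹ ≤ 1 := (W.valuation_le_one_iff _).2 hu2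
      rw [map_inv₀] at h2
      have h3 : W.valuation e0 ≠ 0 := (Valuation.ne_zero_iff _).2 he0'
      exact (inv_le_one₀ (zero_lt_iff.2 h3)).1 h2
  have hvT : W.valuation T < 1 := by
    by_contra hcon
    push Not at hcon
    apply hT.2.2.1
    rw [← W.valuation_le_one_iff, map_inv₀]
    exact inv_le_one_of_one_le₀ hcon
  have hvw : W.valuation (w * T) < 1 := by
    rw [map_mul, mul_comm]
    exact mul_lt_one_of_lt_of_le hvT ((W.valuation_le_one_iff _).2 hw)
  have hv : W.valuation (Polynomial.eval₂ (presa_e y) T F) = 1 := by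
    rw [h1, Valuation.map_add_eq_of_lt_left _ (by rw [hv1]; exact hvw), hv1]
  constructor
  · intro h0
    rw [h0, map_zero] at hv
    exact zero_ne_one hv
  · rw [← W.valuation_le_one_iff, map_inv₀, hv, inv_one]

/-- Proof. Write `g = P (T, y) / Q (T, y)` with polynomials `P, Q`, `Q (T, y) ≠ 0` (elements of the
adjoined field are fractions, e.g. `IntermediateField.mem_adjoin_range_iff`). A polynomial in
`T, y` which is not divisible by the variable `0` (that of `T`) has a unit value in `W`: its part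
of degree zero in this variable is a nonzero polynomial in the other variables, with a unit value
by `hy`, and the rest is `T` times an element of `W` (polynomials in `T, y` have values in
`W`). Factor the largest powers of the variable `0` out of `P` and `Q` (if `P ≠ 0`):
`P = X_0^i P'`, `Q = X_0^j Q'`; then `g = T^(i-j) * unit`, and `g ∈ W` gives `i ≥ j`. Take
`X_0^(i-j) P'` and `Q'`. -/
theorem frac0 {n : ℕ} {W : ValuationSubring M} {T : M} (hT : IsUnif W T) {y : Fin n → M}
    (hy : ResIndep W y) (g : M)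
    (hg : g ∈ IntermediateField.adjoin ℂ (Set.range (Fin.cons T y : Fin (n + 1) → M)))
    (hW : g ∈ W) :
    ∃ P Q : MvPolynomial (Fin (n + 1)) ℂ,
      MvPolynomial.aeval (Fin.cons T y : Fin (n + 1) → M) Q ≠ 0 ∧
      (MvPolynomial.aeval (Fin.cons T y : Fin (n + 1) → M) Q)⁻¹ ∈ W ∧
      g * MvPolynomial.aeval (Fin.cons T y : Fin (n + 1) → M) Q =
        MvPolynomial.aeval (Fin.cons T y : Fin (n + 1) → M) P := by
  rw [IntermediateField.mem_adjoin_range_iff] at hg
  obtain ⟨P, Q, hPQ⟩ := hg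
  by_cases hQ0 : MvPolynomial.aeval (Fin.cons T y : Fin (n + 1) → M) Q = 0
  · rw [hQ0, div_zero] at hPQ
    exact ⟨0, 1, by simp, by simp, by simp [hPQ]⟩
  by_cases hP0 : MvPolynomial.aeval (Fin.cons T y : Fin (n + 1) → M) P = 0
  · rw [hP0, zero_div] at hPQ
    exact ⟨0, 1, by simp, by simp, by simp [hPQ]⟩
  rw [presa_eval] at hPQ hP0 hQ0
  rw [presa_eval] at hPQ
  set E := MvPolynomial.finSuccEquiv ℂ n with hE
  have hPne : E P ≠ 0 := by
    intro h
    rw [h, Polynomial.eval₂_zero] at hP0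
    exact hP0 rfl
  have hQne : E Q ≠ 0 := by
    intro h
    rw [h, Polynomial.eval₂_zero] at hQ0
    exact hQ0 rfl
  obtain ⟨i, P', hP', hPc⟩ := presa_fac _ (E P) hPne le_rfl
  obtain ⟨j, Q', hQ', hQc⟩ := presa_fac _ (E Q) hQne le_rfl
  obtain ⟨hp1, hp2⟩ := presa_unit hT hy P' hPc
  obtain ⟨hq1, hq2⟩ := presa_unit hT hy Q' hQc
  have hqm := presa_eval_mem hT hy Q'
  have hT0 : T ≠ 0 := hT.1
  rw [hP', hQ', Polynomial.eval₂_mul, Polynomial.eval₂_mul, Polynomial.eval₂_X_pow,
    Polynomial.eval₂_X_pow] at hPQ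
  set p' := Polynomial.eval₂ (presa_e y) T P' with hp'
  set q' := Polynomial.eval₂ (presa_e y) T Q' with hq'
  have hij : j ≤ i := by
    by_contra hlt
    push Not at hlt
    apply hT.2.2.1
    obtain ⟨m, rfl⟩ := Nat.exists_eq_add_of_lt hlt
    have : T⁻¹ = g * T ^ m * q' * p'⁻¹ := by
      rw [hPQ, pow_add, pow_add]
      field_simp
    rw [this]
    exact mul_mem (mul_mem (mul_mem hW (pow_mem hT.2.1 _)) hqm) hp2
  obtain ⟨m, rfl⟩ := Nat.exists_eq_add_of_le hij
  refine ⟨E.symm (Polynomial.X ^ m * P'), E.symm Q', ?_, ?_, ?_⟩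
  · rw [presa_eval, AlgEquiv.apply_symm_apply]
    exact hq1
  · rw [presa_eval, AlgEquiv.apply_symm_apply]
    exact hq2
  · rw [presa_eval, presa_eval, AlgEquiv.apply_symm_apply, AlgEquiv.apply_symm_apply,
      Polynomial.eval₂_mul, Polynomial.eval₂_X_pow, ← hp', ← hq', hPQ, pow_add]
    field_simp

/-- Proof. By `frac0` `g = P / Q` with `P, Q` polynomial values, `Q` a unit of `W`;
`D g = (D P - g D Q) / Q`, and `D` of a polynomial value is in `W` because `D T`, `D y_j ∈ W`
(`Derivation` of `aeval`, or induction on polynomials). -/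
theorem deriv0 {n : ℕ} {W : ValuationSubring M} {T : M} (hT : IsUnif W T) {y : Fin n → M}
    (hy : ResIndep W y) (D : Derivation ℂ M M) (h0 : D T ∈ W) (h1 : ∀ j, D (y j) ∈ W) (g : M)
    (hg : g ∈ IntermediateField.adjoin ℂ (Set.range (Fin.cons T y : Fin (n + 1) → M)))
    (hW : g ∈ W) : D g ∈ W := by
  obtain ⟨P, Q, hQ0, hQW, hPQ⟩ := frac0 hT hy g hg hW
  set z : Fin (n + 1) → M := Fin.cons T y with hz
  have hzm : ∀ j, z j ∈ W := by
    intro j
    refine Fin.cases ?_ (fun j => ?_) j
    · exact hT.2.1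
    · exact presa_y hy j
  have hzD : ∀ j, D (z j) ∈ W := by
    intro j
    refine Fin.cases ?_ (fun j => ?_) j
    · exact h0
    · exact h1 j
  have hmem : ∀ F : MvPolynomial (Fin (n + 1)) ℂ, MvPolynomial.aeval z F ∈ W := by
    intro F
    rw [hz, presa_eval]
    exact presa_eval_mem hT hy _
  have hD : ∀ F : MvPolynomial (Fin (n + 1)) ℂ, D (MvPolynomial.aeval z F) ∈ W := by
    intro F
    induction F using MvPolynomial.induction_on with
    | C c =>
      rw [MvPolynomial.aeval_C, Derivation.map_algebraMap]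
      exact W.zero_mem
    | add p q hp hq =>
      rw [map_add, map_add]
      exact add_mem hp hq
    | mul_X p j hp =>
      rw [map_mul, MvPolynomial.aeval_X, Derivation.leibniz]
      simp only [smul_eq_mul]
      exact add_mem (mul_mem (hmem _) (hzD j)) (mul_mem (hzm j) hp)
  have h2 := congrArg D hPQ
  rw [Derivation.leibniz] at h2
  simp only [smul_eq_mul] at h2
  have h3 : D g = (D (MvPolynomial.aeval z P) - g * D (MvPolynomial.aeval z Q)) *
      (MvPolynomial.aeval z Q)⁻¹ := by
    rw [eq_mul_inv_iff_mul_eq₀ hQ0, ← h2]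
    ring
  rw [h3]
  exact mul_mem (sub_mem (hD P) (mul_mem hW (hD Q))) hQW

end H5ML
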