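import Pool.Agent.H5.ML.Ord

/-!
# PRESB: a valuation ring is a localization of the integral closure of its trace
-/

namespace H5ML

/-- `W` is a valuation ring of `M`, `O₀` its trace on the subfield `M₀`, `M` algebraic over `M₀`.
Every element of `W` is `b / s` with `b`, `s` integral over `O₀` and `s` a unit of `W`.

Proof. `h` is a root of a nonzero polynomial over `M₀`; dividing by a coefficient of largest value
we get `a_d h^d + … + a_0 = 0` with `a_i ∈ O₀`, some `a_i = 1`. Let `k` be the largest index such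
that `a_k` is a unit of `O₀`, and `c = a_d h^(d-k) + … + a_(k+1) h + a_k`. As
`a_i ∈ 𝔪` for `i > k` and `h ∈ W`, `c` is a unit of `W`. Claim: `c` and `c h` are integral over
`O₀`. (First proof: an element of `M` which lies in all valuation rings `V` of `M` containing `O₀`
is integral over `O₀`. If `h ∈ V` clear. If `h ∉ V` then `h⁻¹ ∈ V`, and
`c = -(a_(k-1) h⁻¹ + … + a_0 h^(-k)) ∈ V`, `c h = -(a_(k-1) + a_(k-2) h⁻¹ + …) ∈ V`.
Second proof (elementary): by descending induction `c_j = a_d h^(d-j) + … + a_j` and `c_j h` are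
integral: `c_d = a_d` and `a_d h` is integral (multiply the equation by `a_d^(d-1)`);
`c_(j) = c_(j+1) h + a_j` is integral, and `c_j h` is integral:
`c_j` satisfies `c_j h^j + a_(j-1) h^(j-1) + … + a_0 = 0`, an equation of degree
`j` with leading coefficient `c_j` over the ring `O₀[c_j]` (integral over `O₀`), so `c_j h` is
integral over `O₀[c_j]`, hence over `O₀`.) Take `s = c`, `b = c h`. -/
theorem frac_int {M₀ M : Type} [Field M₀] [Field M] [Algebra M₀ M]
    (halg : Algebra.IsAlgebraic M₀ M) (W : ValuationSubring M) (h : M) (hh : h ∈ W) :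
    ∃ b s : M, s ≠ 0 ∧ s⁻¹ ∈ W ∧ h * s = b ∧
      (∃ P : Polynomial M₀, P.Monic ∧ (∀ i, algebraMap M₀ M (P.coeff i) ∈ W) ∧
        Polynomial.aeval b P = 0) ∧
      ∃ P : Polynomial M₀, P.Monic ∧ (∀ i, algebraMap M₀ M (P.coeff i) ∈ W) ∧
        Polynomial.aeval s P = 0 := by
  classical
  obtain ⟨P, hP0, hPh⟩ := halg.isAlgebraic h
  -- normalisation
  obtain ⟨i₀, hi₀, hmax⟩ := Finset.exists_max_image P.support
    (fun i => W.valuation (algebraMap M₀ M (P.coeff i))) (Polynomial.support_nonempty.2 hP0)
  have hc0 : P.coeff i₀ ≠ 0 := Polynomial.mem_support_iff.1 hi₀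
  have hv0 : W.valuation (algebraMap M₀ M (P.coeff i₀)) ≠ 0 := by
    rw [Valuation.ne_zero_iff]
    simpa using hc0
  set d := P.natDegree with hd
  set a : ℕ → M₀ := fun i => (P.coeff i₀)⁻¹ * P.coeff i with ha
  have haW : ∀ i, algebraMap M₀ M (a i) ∈ W := by
    intro i
    rw [← W.valuation_le_one_iff]
    simp only [ha]
    rw [map_mul, map_mul, map_inv₀, map_inv₀]
    by_cases hi : i ∈ P.support
    · rw [inv_mul_le_one₀ (zero_lt_iff.2 hv0)]
      exact hmax i hi
    · rw [Polynomial.notMem_support_iff.1 hi, map_zero, map_zero, mul_zero]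
      exact zero_le_one
  have ha1 : a i₀ = 1 := by
    simp only [ha]
    exact inv_mul_cancel₀ hc0
  have hi₀d : i₀ ≤ d := Polynomial.le_natDegree_of_mem_supp _ hi₀
  have hsum : ∑ i ∈ Finset.range (d + 1), algebraMap M₀ M (a i) * h ^ i = 0 := by
    have h1 : ∑ i ∈ Finset.range (d + 1), algebraMap M₀ M (a i) * h ^ i
        = algebraMap M₀ M (P.coeff i₀)⁻¹ * Polynomial.aeval h P := by
      rw [Polynomial.aeval_eq_sum_range, Finset.mul_sum]
      refine Finset.sum_congr rfl fun i _ => ?_
      simp only [ha]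
      rw [map_mul, Algebra.smul_def]
      ring
    rw [h1, hPh, mul_zero]
  -- the largest unit coefficient
  set S := (Finset.range (d + 1)).filter (fun i => W.valuation (algebraMap M₀ M (a i)) = 1) with hS
  have hSne : S.Nonempty := ⟨i₀, by
    rw [hS, Finset.mem_filter, Finset.mem_range, ha1]
    exact ⟨by omega, by simp⟩⟩
  set k := S.max' hSne with hk
  have hkS : k ∈ S := Finset.max'_mem _ _
  have hkd : k ≤ d := by
    have := (Finset.mem_filter.1 hkS).1
    rw [Finset.mem_range] at this
    omega
  have hk1 : W.valuation (algebraMap M₀ M (a k)) = 1 := (Finset.mem_filter.1 hkS).2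
  have hkgt : ∀ i, k < i → i ≤ d → algebraMap M₀ M (a i) ∈ W.nonunits := by
    intro i hi hid
    rw [W.mem_nonunits_iff]
    refine lt_of_le_of_ne ((W.valuation_le_one_iff _).2 (haW i)) fun h1 => ?_
    have : i ∈ S := by
      rw [hS, Finset.mem_filter, Finset.mem_range]
      exact ⟨by omega, h1⟩
    have := Finset.le_max' S i this
    omega
  set c : M := ∑ l ∈ Finset.range (d - k + 1), algebraMap M₀ M (a (l + k)) * h ^ l with hc
  have hcv : W.valuation c = 1 := by
    rw [hc, Finset.sum_range_succ', zero_add, pow_zero, mul_one]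
    have hrest : (∑ l ∈ Finset.range (d - k), algebraMap M₀ M (a (l + 1 + k)) * h ^ (l + 1))
        ∈ W.nonunits := by
      refine sum_mem fun l hl => ?_
      rw [Finset.mem_range] at hl
      exact nonunit_mul (hkgt _ (by omega) (by omega)) (pow_mem hh _)
    rw [W.mem_nonunits_iff] at hrest
    rw [Valuation.map_add_eq_of_lt_right _ (by rw [hk1]; exact hrest), hk1]
  have hcne : c ≠ 0 := by
    intro h0
    rw [h0, map_zero] at hcv
    exact zero_ne_one hcv
  have hcinv : c⁻¹ ∈ W := by
    rw [← W.valuation_le_one_iff, map_inv₀, hcv, inv_one]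
  have hck : c * h ^ k = -∑ l ∈ Finset.range k, algebraMap M₀ M (a l) * h ^ l := by
    have h1 : c * h ^ k = ∑ l ∈ Finset.range (d - k + 1), algebraMap M₀ M (a (k + l)) * h ^ (k + l) := by
      rw [hc, Finset.sum_mul]
      refine Finset.sum_congr rfl fun l _ => ?_
      rw [add_comm l k, pow_add]
      ring
    have h2 : d + 1 = k + (d - k + 1) := by omega
    rw [h2, Finset.sum_range_add, ← h1] at hsum
    linear_combination hsum
  have hd1 : 1 ≤ d := by
    by_contra hlt
    have hd0 : d = 0 := by omega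
    have hk0 : k = 0 := by omega
    rw [hk0] at hck
    simp at hck
    exact hcne hck
  -- the trace and the module
  let O₀ : ValuationSubring M₀ := W.comap (algebraMap M₀ M)
  let : Algebra O₀ M := ((algebraMap M₀ M).comp (algebraMap O₀ M₀)).toAlgebra
  have : IsScalarTower O₀ M₀ M := IsScalarTower.of_algebraMap_eq (fun _ => rfl)
  let A : ℕ → O₀ := fun i => ⟨a i, haW i⟩
  have hA : ∀ i (x : M), algebraMap M₀ M (a i) * x = A i • x := by
    intro i x
    rw [Algebra.smul_def]
    rfl
  set N : Submodule O₀ M := Submodule.span O₀ ((fun j : ℕ => h ^ j) '' (Set.Iio d)) with hN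
  have hNmem : ∀ j, j < d → h ^ j ∈ N := fun j hj => Submodule.subset_span ⟨j, hj, rfl⟩
  have hNfg : N.FG := Submodule.fg_span ((Set.finite_Iio d).image _)
  have hNne : N ≠ ⊥ := by
    intro h0
    have h1 : h ^ 0 ∈ N := hNmem 0 (by omega)
    rw [h0, Submodule.mem_bot, pow_zero] at h1
    exact one_ne_zero h1
  have hcpow : ∀ i, i ≤ d → (i < d ∨ k ≤ i) → c * h ^ i ∈ N := by
    intro i hid hor
    by_cases hik : i < k
    · have h1 : c * h ^ i = ∑ l ∈ Finset.range (d - k + 1), A (l + k) • h ^ (l + i) := by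
        rw [hc, Finset.sum_mul]
        refine Finset.sum_congr rfl fun l _ => ?_
        rw [← hA, pow_add]
        ring
      rw [h1]
      refine sum_mem fun l hl => ?_
      rw [Finset.mem_range] at hl
      exact N.smul_mem _ (hNmem _ (by omega))
    · push Not at hik
      have h1 : c * h ^ i = -∑ l ∈ Finset.range k, A l • h ^ (l + (i - k)) := by
        have h2 : h ^ i = h ^ k * h ^ (i - k) := by
          rw [← pow_add]
          congr 1
          omega
        rw [h2, ← mul_assoc, hck, neg_mul, Finset.sum_mul]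
        congr 1
        refine Finset.sum_congr rfl fun l _ => ?_
        rw [← hA, pow_add]
        ring
      rw [h1]
      refine N.neg_mem (sum_mem fun l hl => ?_)
      rw [Finset.mem_range] at hl
      exact N.smul_mem _ (hNmem _ (by omega))
  have hint : ∀ x : M, (∀ j, j < d → x * h ^ j ∈ N) → IsIntegral O₀ x := by
    intro x hx
    refine isIntegral_of_smul_mem_submodule N hNne hNfg x ?_
    intro n hn
    rw [smul_eq_mul]
    refine Submodule.span_induction (p := fun n _ => x * n ∈ N) ?_ ?_ ?_ ?_ hn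
    · rintro _ ⟨j, hj, rfl⟩
      exact hx j hj
    · rw [mul_zero]
      exact N.zero_mem
    · intro u v _ _ hu hv
      rw [mul_add]
      exact N.add_mem hu hv
    · intro r u _ hu
      rw [mul_smul_comm]
      exact N.smul_mem _ hu
  have hconv : ∀ x : M, IsIntegral O₀ x → ∃ P : Polynomial M₀, P.Monic ∧
      (∀ i, algebraMap M₀ M (P.coeff i) ∈ W) ∧ Polynomial.aeval x P = 0 := by
    rintro x ⟨Q, hQm, hQx⟩
    refine ⟨Q.map (algebraMap O₀ M₀), hQm.map _, fun i => ?_, ?_⟩
    · rw [Polynomial.coeff_map]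
      exact (Q.coeff i).2
    · rw [Polynomial.aeval_map_algebraMap]
      exact hQx
  refine ⟨h * c, c, hcne, hcinv, rfl, hconv _ (hint _ fun j hj => ?_),
    hconv _ (hint _ fun j hj => hcpow j hj.le (Or.inl hj))⟩
  have h1 : h * c * h ^ j = c * h ^ (j + 1) := by
    rw [pow_succ]
    ring
  rw [h1]
  refine hcpow (j + 1) (by omega) ?_
  by_cases h2 : j + 1 < d
  · exact Or.inl h2
  · right
    omega

end H5ML
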