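import Pool.Agent.H5.ML.PresA
import Pool.Agent.H5.ML.PresB

/-!
# PRESC: derivations are bounded on divisorial valuation rings
-/

namespace H5ML

/-- Integral elements are combinations of finitely many fixed elements. -/
theorem presc_gen {A K L : Type} [CommRing A] [IsDomain A] [IsIntegrallyClosed A] [Field K]
    [Field L] [Algebra A K] [IsFractionRing A K] [Algebra K L] [Algebra A L]
    [IsScalarTower A K L] [FiniteDimensional K L] [Algebra.IsSeparable K L] :
    ∃ (r : ℕ) (e : Fin r → L), ∀ x : L, IsIntegral A x →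
      ∃ g : Fin r → A, x = ∑ i, algebraMap A L (g i) * e i := by
  classical
  obtain ⟨s, b, hb⟩ := FiniteDimensional.exists_is_basis_integral A K L
  let b' := (Algebra.traceForm K L).dualBasis (traceForm_nondegenerate K L) b
  have hle := integralClosure_le_span_dualBasis (A := A) b hb
  let φ := Fintype.equivFin s
  refine ⟨Fintype.card s, fun i => b' (φ.symm i), fun x hx => ?_⟩
  have h1 : x ∈ Submodule.span A (Set.range b') := hle (show x ∈ integralClosure A L from hx)
  rw [Submodule.mem_span_range_iff_exists_fun] at h1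
  obtain ⟨c, hc⟩ := h1
  refine ⟨fun i => c (φ.symm i), ?_⟩
  rw [← hc]
  rw [← Equiv.sum_comp φ.symm (fun j => c j • b' j)]
  refine Finset.sum_congr rfl fun i _ => ?_
  rw [Algebra.smul_def]

variable {M : Type} [Field M]

theorem presc_mono {W : ValuationSubring M} {T : M} (hT : IsUnif W T) {h : M} {c d : ℕ}
    (hc : T ^ c * h ∈ W) (hcd : c ≤ d) : T ^ d * h ∈ W := by
  obtain ⟨k, rfl⟩ := Nat.exists_eq_add_of_le hcd
  have : T ^ (c + k) * h = T ^ k * (T ^ c * h) := by ring
  rw [this]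
  exact W.mul_mem _ _ (pow_mem hT.2.1 k) hc

theorem presc_one {W : ValuationSubring M} {T : M} (hT : IsUnif W T) (h : M) :
    ∃ c : ℕ, T ^ c * h ∈ W := by
  by_cases h0 : h = 0
  · exact ⟨0, by rw [h0, mul_zero]; exact W.zero_mem⟩
  · obtain ⟨n, hn⟩ := exists_ordEq hT h0
    refine ⟨n.natAbs, ?_⟩
    have h1 := (ordEq_zpow hT (n.natAbs : ℤ)).mul hn hT
    rw [zpow_natCast] at h1
    rw [h1.mem_iff hT]
    omega

theorem presc_fin {W : ValuationSubring M} {T : M} (hT : IsUnif W T) {r : ℕ} (e : Fin r → M) :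
    ∃ c : ℕ, ∀ i, T ^ c * e i ∈ W := by
  choose c hc using fun i => presc_one hT (e i)
  refine ⟨∑ i, c i, fun i => presc_mono hT (hc i) ?_⟩
  exact Finset.single_le_sum (f := c) (fun j _ => Nat.zero_le _) (Finset.mem_univ i)

variable [Algebra ℂ M]

/-- Boundedness of a derivation on a divisorial valuation ring.

Proof. Let `M₀ = ℂ(T, y)` (`IntermediateField.adjoin`), `M / M₀` is finite by `tb_indep`, `tb_fin`.
Let `O₀` be the trace of `W` on `M₀` (comap). By `frac0` it is a discrete valuation ring with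
uniformizer `T` (every element of `M₀` is a power of `T` times a unit: apply `frac0` to
`g * T^m`), so `O₀` is Noetherian and integrally closed. By `deriv0` `D g ∈ W` for `g ∈ O₀`.
Let `B` be the integral closure of `O₀` in `M`; it is a finite `O₀`-module
(`IsIntegralClosure.finite`: `M / M₀` finite separable), generated by `b_1, …, b_r`; `B ⊆ W`
because `W` is integrally closed. Take `c` with `T ^ c * D b_i ∈ W` for all `i`; then
`T ^ c * D b ∈ W` for `b ∈ B` (`b = ∑ g_i b_i`, `D b = ∑ g_i D b_i + b_i D g_i`). Every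
`h ∈ W` is `b / s` with `b, s ∈ B`, `s` a unit of `W` (`frac_int`), and
`D h = (s D b - b D s) / s ^ 2`, so `T ^ c * D h ∈ W`. -/
theorem bounded {n : ℕ} (hM : Algebra.EssFiniteType ℂ M) (htr : Algebra.trdeg ℂ M = (n + 1 : ℕ))
    {W : ValuationSubring M} {T : M} (hT : IsUnif W T) {y : Fin n → M} (hy : ResIndep W y)
    (D : Derivation ℂ M M) (h0 : D T ∈ W) (h1 : ∀ j, D (y j) ∈ W) :
    ∃ c : ℕ, ∀ h ∈ W, T ^ c * D h ∈ W := by
  obtain ⟨halg, hfin⟩ := tb_fin hM htr (Fin.cons T y : Fin (n + 1) → M) (tb_indep hT hy)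
  set M₀ := IntermediateField.adjoin ℂ (Set.range (Fin.cons T y : Fin (n + 1) → M)) with hM₀
  let O₀ : ValuationSubring M₀ := W.comap (algebraMap M₀ M)
  letI : Algebra O₀ M := ((algebraMap M₀ M).comp (algebraMap O₀ M₀)).toAlgebra
  haveI : IsScalarTower O₀ M₀ M := IsScalarTower.of_algebraMap_eq (fun _ => rfl)
  haveI : CharZero M₀ := inferInstance
  haveI : Algebra.IsSeparable M₀ M := inferInstance
  haveI : IsIntegrallyClosed O₀ := inferInstance
  haveI : IsFractionRing O₀ M₀ := inferInstance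
  obtain ⟨r, e, he⟩ := presc_gen (A := O₀) (K := M₀) (L := M)
  obtain ⟨c₁, hc₁⟩ := presc_fin hT e
  obtain ⟨c₂, hc₂⟩ := presc_fin hT (fun i => D (e i))
  have hg : ∀ g : O₀, algebraMap O₀ M g ∈ W ∧ D (algebraMap O₀ M g) ∈ W := by
    intro g
    have a1 : algebraMap O₀ M g ∈ W := g.2
    refine ⟨a1, deriv0 hT hy D h0 h1 _ ?_ a1⟩
    exact (g : M₀).2
  have hint : ∀ x : M, IsIntegral O₀ x → T ^ (c₁ + c₂) * D x ∈ W := by
    intro x hx
    obtain ⟨g, hgx⟩ := he x hx
    have hd : T ^ (c₁ + c₂) * D x = ∑ i, (algebraMap O₀ M (g i) * (T ^ (c₁ + c₂) * D (e i))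
        + (T ^ (c₁ + c₂) * e i) * D (algebraMap O₀ M (g i))) := by
      rw [hgx, map_sum, Finset.mul_sum]
      refine Finset.sum_congr rfl fun i _ => ?_
      rw [D.leibniz, smul_eq_mul, smul_eq_mul]
      ring
    rw [hd]
    refine sum_mem fun i _ => ?_
    apply W.add_mem
    · exact W.mul_mem _ _ (hg (g i)).1 (presc_mono hT (hc₂ i) (Nat.le_add_left _ _))
    · exact W.mul_mem _ _ (presc_mono hT (hc₁ i) (Nat.le_add_right _ _)) (hg (g i)).2
  have hconv : ∀ x : M, (∃ P : Polynomial M₀, P.Monic ∧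
      (∀ i, algebraMap M₀ M (P.coeff i) ∈ W) ∧ Polynomial.aeval x P = 0) → IsIntegral O₀ x := by
    rintro x ⟨P, hPm, hPc, hPx⟩
    have hl : P ∈ Polynomial.lifts (algebraMap O₀ M₀) := by
      rw [Polynomial.lifts_iff_coeff_lifts]
      intro i
      exact ⟨⟨P.coeff i, hPc i⟩, rfl⟩
    obtain ⟨Q, hQ, _, hQm⟩ := Polynomial.lifts_and_natDegree_eq_and_monic hl hPm
    refine ⟨Q, hQm, ?_⟩
    rw [← hQ, Polynomial.aeval_map_algebraMap] at hPx
    exact hPx
  refine ⟨c₁ + c₂, fun h hh => ?_⟩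
  obtain ⟨b, s, hs, hsW, hb, hP, hQ⟩ := frac_int halg W h hh
  have hDb := hint b (hconv b hP)
  have hDs := hint s (hconv s hQ)
  have hD : D b = h * D s + s * D h := by
    rw [← hb, D.leibniz, smul_eq_mul, smul_eq_mul]
  have hfinal : T ^ (c₁ + c₂) * D h = (T ^ (c₁ + c₂) * D b - h * (T ^ (c₁ + c₂) * D s)) * s⁻¹ := by
    rw [hD]
    field_simp
    ring
  rw [hfinal]
  exact W.mul_mem _ _ (sub_mem hDb (W.mul_mem _ _ hh hDs)) hsW

end H5ML
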