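import Pool.Agent.H5.ML.Pol

/-!
# RESA: the restriction to the curve of elements of large value
-/

namespace H5ML

open MvPolynomial


/-- Dual numbers over `ℂ[X]`. -/
abbrev resa_S := DualNumber (Polynomial ℂ)

/-- The inclusion. -/
noncomputable def resa_i : Polynomial ℂ →+* resa_S := TrivSqZeroExt.inlHom (Polynomial ℂ) (Polynomial ℂ)

/-- The dual element. -/
noncomputable def resa_e : resa_S := DualNumber.eps

theorem resa_e_sq : resa_e * resa_e = 0 := DualNumber.eps_mul_eps

/-- `z_i`. -/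
noncomputable def resa_z (θ : Fin 3 → ℤ) (i : Fin 3) : resa_S :=
  resa_i (Polynomial.X ^ u i) * (1 + resa_i ((Polynomial.X - 1) * Polynomial.C (θ i : ℂ)) * resa_e)

theorem resa_w (θ : Fin 3 → ℤ) (i : Fin 3) :
    ∃ w : resa_S, resa_i (Polynomial.X - 1) * w = resa_z θ i - 1 := by
  obtain ⟨g, hg⟩ := sub_dvd_pow_sub_pow (Polynomial.X : Polynomial ℂ) 1 (u i)
  rw [one_pow] at hg
  refine ⟨resa_i g + resa_i (Polynomial.X ^ u i * Polynomial.C (θ i : ℂ)) * resa_e, ?_⟩
  have h1 : resa_i (Polynomial.X - 1) * resa_i g = resa_i (Polynomial.X ^ u i) - 1 := by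
    rw [← map_mul, ← hg, map_sub, map_one]
  rw [mul_add, h1, resa_z, mul_add, map_mul, map_mul]
  ring

/-- The polynomial ring over the dual numbers. -/
abbrev resa_M := MvPolynomial (Fin 3 ⊕ Fin 5) resa_S

/-- Images of the variables under the first substitution. -/
noncomputable def resa_gX (θ : Fin 3 → ℤ) (w : Fin 3 → resa_S) : Ix → resa_M
  | .inl i => X (Sum.inl i) * C (resa_i (Polynomial.C (1 / 2)) * (resa_z θ i + 1))
  | .inr (.inl i) => X (Sum.inl i) * C (resa_i (Polynomial.C (1 / 2)) * w i)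
  | .inr (.inr l) => X (Sum.inr l)

/-- Images of the variables under the second substitution. -/
noncomputable def resa_pX (θ : Fin 3 → ℤ) : Ix → resa_M
  | .inl i => X (Sum.inl i) * C (resa_i (Polynomial.X - 1) * resa_z θ i)
  | .inr (.inl i) => X (Sum.inl i) * C (-resa_i (Polynomial.X - 1))
  | .inr (.inr l) => X (Sum.inr l) * C (resa_i (Polynomial.X - 1))

/-- The coefficient map. -/
noncomputable def resa_c : ℂ →+* resa_M := (C : resa_S →+* resa_M).comp (resa_i.comp Polynomial.C)

/-- The second substitution. -/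
noncomputable def resa_P (θ : Fin 3 → ℤ) : A →+* resa_M := eval₂Hom resa_c (resa_pX θ)

theorem resa_comp (θ : Fin 3 → ℤ) (w : Fin 3 → resa_S)
    (hw : ∀ i, resa_i (Polynomial.X - 1) * w i = resa_z θ i - 1) (s : A) :
    Polynomial.eval₂RingHom (eval₂Hom resa_c (resa_gX θ w)) (C (resa_i (Polynomial.X - 1)))
      (theta s) = resa_P θ s := by
  have h2 : resa_i (Polynomial.C (1 / 2)) * 2 = 1 := by
    have : (2 : resa_S) = resa_i (Polynomial.C 2) := by
      rw [map_ofNat, map_ofNat]
    rw [this, ← map_mul, ← Polynomial.C_mul]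
    norm_num
  have h : ((Polynomial.eval₂RingHom (eval₂Hom resa_c (resa_gX θ w))
      (C (resa_i (Polynomial.X - 1)))).comp (theta : A →+* Polynomial A)) = resa_P θ := by
    apply MvPolynomial.ringHom_ext
    · intro r
      show Polynomial.eval₂RingHom (eval₂Hom resa_c (resa_gX θ w))
        (C (resa_i (Polynomial.X - 1))) (theta (C r)) = resa_P θ (C r)
      rw [theta_C, Polynomial.coe_eval₂RingHom, Polynomial.eval₂_C, resa_P, eval₂Hom_C, eval₂Hom_C]
    · rintro (i | i | l)
      · show Polynomial.eval₂RingHom (eval₂Hom resa_c (resa_gX θ w))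
          (C (resa_i (Polynomial.X - 1))) (theta (xx i)) = resa_P θ (xx i)
        rw [theta_xx, Polynomial.coe_eval₂RingHom, Polynomial.eval₂_add, Polynomial.eval₂_mul,
          Polynomial.eval₂_mul, Polynomial.eval₂_C, Polynomial.eval₂_C, Polynomial.eval₂_pow,
          Polynomial.eval₂_X, resa_P, xx, yy, eval₂Hom_X', eval₂Hom_X', eval₂Hom_X']
        show X (Sum.inl i) * C (resa_i (Polynomial.C (1 / 2)) * w i) *
          C (resa_i (Polynomial.X - 1)) ^ 2 +
          X (Sum.inl i) * C (resa_i (Polynomial.C (1 / 2)) * (resa_z θ i + 1)) *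
          C (resa_i (Polynomial.X - 1)) = X (Sum.inl i) * C (resa_i (Polynomial.X - 1) * resa_z θ i)
        have e : (resa_i (Polynomial.C (1 / 2)) * w i) * resa_i (Polynomial.X - 1) ^ 2 +
            (resa_i (Polynomial.C (1 / 2)) * (resa_z θ i + 1)) * resa_i (Polynomial.X - 1) =
            resa_i (Polynomial.X - 1) * resa_z θ i := by
          linear_combination (resa_i (Polynomial.C (1 / 2)) * resa_i (Polynomial.X - 1)) * hw i +
            (resa_i (Polynomial.X - 1) * resa_z θ i) * h2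
        rw [← e]
        simp only [map_mul, map_add, map_pow]
        ring
      · show Polynomial.eval₂RingHom (eval₂Hom resa_c (resa_gX θ w))
          (C (resa_i (Polynomial.X - 1))) (theta (yy i)) = resa_P θ (yy i)
        rw [theta_yy, Polynomial.coe_eval₂RingHom, Polynomial.eval₂_sub, Polynomial.eval₂_mul,
          Polynomial.eval₂_mul, Polynomial.eval₂_C, Polynomial.eval₂_C, Polynomial.eval₂_pow,
          Polynomial.eval₂_X, resa_P, xx, yy, eval₂Hom_X', eval₂Hom_X', eval₂Hom_X']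
        show X (Sum.inl i) * C (resa_i (Polynomial.C (1 / 2)) * w i) *
          C (resa_i (Polynomial.X - 1)) ^ 2 -
          X (Sum.inl i) * C (resa_i (Polynomial.C (1 / 2)) * (resa_z θ i + 1)) *
          C (resa_i (Polynomial.X - 1)) = X (Sum.inl i) * C (-resa_i (Polynomial.X - 1))
        have e : (resa_i (Polynomial.C (1 / 2)) * w i) * resa_i (Polynomial.X - 1) ^ 2 -
            (resa_i (Polynomial.C (1 / 2)) * (resa_z θ i + 1)) * resa_i (Polynomial.X - 1) =
            -resa_i (Polynomial.X - 1) := by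
          linear_combination (resa_i (Polynomial.C (1 / 2)) * resa_i (Polynomial.X - 1)) * hw i -
            (resa_i (Polynomial.X - 1)) * h2
        rw [← e]
        simp only [map_mul, map_add, map_sub, map_pow]
        ring
      · show Polynomial.eval₂RingHom (eval₂Hom resa_c (resa_gX θ w))
          (C (resa_i (Polynomial.X - 1))) (theta (tt l)) = resa_P θ (tt l)
        rw [theta_tt, Polynomial.coe_eval₂RingHom, Polynomial.eval₂_mul,
          Polynomial.eval₂_C, Polynomial.eval₂_X, resa_P, tt, eval₂Hom_X', eval₂Hom_X']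
        rfl
  exact congrArg (fun F : A →+* resa_M => F s) h

/-- The exponent of the monomial `λ^d T^e`. -/
noncomputable def resa_m (d : Fin 3 → ℕ) (e : Fin 5 → ℕ) : (Fin 3 ⊕ Fin 5) →₀ ℕ :=
  Finsupp.equivFunOnFinite.symm (Sum.elim d e)

theorem resa_mono (θ : Fin 3 → ℤ) (σ : Ix →₀ ℕ) (a : ℂ) :
    resa_P θ (monomial σ a) = monomial (resa_m (fun i => σ (.inl i) + σ (.inr (.inl i)))
      (fun l => σ (.inr (.inr l))))
      (resa_i (Polynomial.C a) * (resa_i (Polynomial.X - 1) ^ (∑ i, (σ (.inl i) + σ (.inr (.inl i))) +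
        ∑ l, σ (.inr (.inr l))) * (-1) ^ (∑ i, σ (.inr (.inl i))) *
        ∏ i, resa_z θ i ^ σ (.inl i))) := by
  rw [resa_P, coe_eval₂Hom, eval₂_monomial, Finsupp.prod_fintype _ _ (fun _ => pow_zero _),
    Fintype.prod_sum_type, Fintype.prod_sum_type, monomial_eq,
    Finsupp.prod_fintype _ _ (fun _ => pow_zero _), Fintype.prod_sum_type]
  have h1 : ∀ i : Fin 3, resa_pX θ (Sum.inl i) ^ σ (Sum.inl i) =
      X (Sum.inl i) ^ σ (Sum.inl i) * (C (resa_i (Polynomial.X - 1)) ^ σ (Sum.inl i) *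
        C (resa_z θ i ^ σ (Sum.inl i))) := by
    intro i
    rw [map_pow, ← mul_pow, ← mul_pow, ← map_mul]
    rfl
  have h2 : ∀ i : Fin 3, resa_pX θ (Sum.inr (Sum.inl i)) ^ σ (Sum.inr (Sum.inl i)) =
      X (Sum.inl i) ^ σ (Sum.inr (Sum.inl i)) * (C (resa_i (Polynomial.X - 1)) ^ σ (Sum.inr (Sum.inl i)) *
        (-1) ^ σ (Sum.inr (Sum.inl i))) := by
    intro i
    have h0 : resa_pX θ (Sum.inr (Sum.inl i)) = X (Sum.inl i) * (C (resa_i (Polynomial.X - 1)) * -1) := by
      show X (Sum.inl i) * C (-resa_i (Polynomial.X - 1)) = _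
      rw [map_neg]
      ring
    rw [← mul_pow, ← mul_pow, h0]
  have h3 : ∀ l : Fin 5, resa_pX θ (Sum.inr (Sum.inr l)) ^ σ (Sum.inr (Sum.inr l)) =
      X (Sum.inr l) ^ σ (Sum.inr (Sum.inr l)) * C (resa_i (Polynomial.X - 1)) ^ σ (Sum.inr (Sum.inr l)) := by
    intro l
    rw [← mul_pow]
    rfl
  rw [Finset.prod_congr rfl (fun i _ => h1 i), Finset.prod_congr rfl (fun i _ => h2 i),
    Finset.prod_congr rfl (fun l _ => h3 l)]
  rw [Finset.prod_mul_distrib, Finset.prod_mul_distrib, Finset.prod_mul_distrib,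
    Finset.prod_mul_distrib, Finset.prod_mul_distrib, Finset.prod_pow_eq_pow_sum,
    Finset.prod_pow_eq_pow_sum, Finset.prod_pow_eq_pow_sum, Finset.prod_pow_eq_pow_sum]
  have h4 : ∀ i : Fin 3, (X (Sum.inl i) : resa_M) ^ (resa_m (fun i => σ (.inl i) + σ (.inr (.inl i)))
      (fun l => σ (.inr (.inr l)))) (Sum.inl i) = X (Sum.inl i) ^ σ (Sum.inl i) *
        X (Sum.inl i) ^ σ (Sum.inr (Sum.inl i)) := by
    intro i
    rw [← pow_add]
    rfl
  have h5 : ∀ l : Fin 5, (X (Sum.inr l) : resa_M) ^ (resa_m (fun i => σ (.inl i) + σ (.inr (.inl i)))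
      (fun l => σ (.inr (.inr l)))) (Sum.inr l) = X (Sum.inr l) ^ σ (Sum.inr (Sum.inr l)) := by
    intro l
    rfl
  rw [Finset.prod_congr rfl (fun i _ => h4 i), Finset.prod_congr rfl (fun i _ => h5 i),
    Finset.prod_mul_distrib, Finset.sum_add_distrib, pow_add, pow_add]
  simp only [map_mul, map_pow, map_neg, map_one, map_prod]
  have h6 : resa_c a = C (resa_i (Polynomial.C a)) := rfl
  rw [h6]
  ring

theorem resa_coeff (θ : Fin 3 → ℤ) (d : Fin 3 → ℕ) (e : Fin 5 → ℕ) (s : A) :
    coeff (resa_m d e) (resa_P θ s) = ∑ b ∈ Finset.Iic d,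
      resa_i (Polynomial.C (coeff (mon b (d - b) e) s)) *
        (resa_i (Polynomial.X - 1) ^ (∑ i, d i + ∑ l, e l) * (-1) ^ (∑ i, (d - b) i) *
        ∏ i, resa_z θ i ^ b i) := by
  classical
  induction s using MvPolynomial.induction_on' with
  | add p q hp hq =>
    rw [map_add, coeff_add, hp, hq, ← Finset.sum_add_distrib]
    apply Finset.sum_congr rfl
    intro b _
    rw [coeff_add, Polynomial.C_add, RingHom.map_add, add_mul]
  | monomial σ a =>
    rw [resa_mono, coeff_monomial]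
    split_ifs with h
    · have hd : ∀ i, σ (.inl i) + σ (.inr (.inl i)) = d i := by
        intro i
        have := congrArg (fun f : (Fin 3 ⊕ Fin 5) →₀ ℕ => f (Sum.inl i)) h
        exact this
      have he : ∀ l, σ (.inr (.inr l)) = e l := by
        intro l
        have := congrArg (fun f : (Fin 3 ⊕ Fin 5) →₀ ℕ => f (Sum.inr l)) h
        exact this
      have hσ : σ = mon (fun i => σ (.inl i)) (d - fun i => σ (.inl i)) e := by
        ext v
        rcases v with i | i | l
        · rfl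
        · show σ (.inr (.inl i)) = d i - σ (.inl i)
          have := hd i
          omega
        · exact he l
      have e1 : ∑ i, (σ (.inl i) + σ (.inr (.inl i))) = ∑ i, d i :=
        Finset.sum_congr rfl (fun i _ => hd i)
      have e2 : ∑ l, σ (.inr (.inr l)) = ∑ l, e l := Finset.sum_congr rfl (fun l _ => he l)
      have e3 : ∑ i, σ (.inr (.inl i)) = ∑ i, (d - fun i => σ (.inl i)) i := by
        apply Finset.sum_congr rfl
        intro i _
        show σ (.inr (.inl i)) = d i - σ (.inl i)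
        have := hd i
        omega
      have e4 : coeff (mon (fun i => σ (.inl i)) (d - fun i => σ (.inl i)) e)
          (monomial σ a) = a := by
        rw [← hσ, coeff_monomial, if_pos rfl]
      rw [Finset.sum_eq_single (fun i => σ (.inl i))]
      · rw [e4, e1, e2, e3]
      · intro b _ hb
        rw [coeff_monomial, if_neg, map_zero, map_zero, zero_mul]
        intro h'
        apply hb
        funext i
        have := congrArg (fun f : Ix →₀ ℕ => f (Sum.inl i)) h'
        exact this.symm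
      · intro hb
        exfalso
        apply hb
        rw [Finset.mem_Iic]
        intro i
        have := hd i
        show σ (.inl i) ≤ d i
        omega
    · symm
      apply Finset.sum_eq_zero
      intro b hb
      rw [coeff_monomial, if_neg, map_zero, map_zero, zero_mul]
      intro h'
      apply h
      subst h'
      ext v
      rcases v with i | l
      · show b i + (d i - b i) = d i
        have : b i ≤ d i := (Finset.mem_Iic.mp hb) i
        omega
      · rfl

theorem resa_pow (a : Polynomial ℂ) (n : ℕ) :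
    (1 + resa_i a * resa_e) ^ n = 1 + resa_i ((n : Polynomial ℂ) * a) * resa_e := by
  induction n with
  | zero => simp
  | succ n ih =>
    rw [pow_succ, ih]
    have h := resa_e_sq
    push_cast
    simp only [map_mul, map_add, map_one]
    linear_combination (resa_i (n : Polynomial ℂ) * resa_i a * resa_i a) * h

theorem resa_mul3 (a b c : Polynomial ℂ) :
    (1 + resa_i a * resa_e) * (1 + resa_i b * resa_e) * (1 + resa_i c * resa_e) =
      1 + resa_i (a + b + c) * resa_e := by
  have h := resa_e_sq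
  simp only [map_add]
  linear_combination (resa_i a * resa_i b + resa_i a * resa_i c + resa_i b * resa_i c +
    resa_i a * resa_i b * resa_i c * resa_e) * h

theorem resa_prod (θ : Fin 3 → ℤ) (b : Fin 3 → ℕ) :
    ∏ i, resa_z θ i ^ b i = resa_i (Polynomial.X ^ hgt b) *
      (1 + resa_i ((Polynomial.X - 1) * Polynomial.C (∑ i, (θ i : ℂ) * b i)) * resa_e) := by
  rw [Fin.prod_univ_three]
  simp only [resa_z, mul_pow, resa_pow]
  have h := resa_mul3 ((b 0 : Polynomial ℂ) * ((Polynomial.X - 1) * Polynomial.C (θ 0 : ℂ)))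
    ((b 1 : Polynomial ℂ) * ((Polynomial.X - 1) * Polynomial.C (θ 1 : ℂ)))
    ((b 2 : Polynomial ℂ) * ((Polynomial.X - 1) * Polynomial.C (θ 2 : ℂ)))
  have h2 : (b 0 : Polynomial ℂ) * ((Polynomial.X - 1) * Polynomial.C (θ 0 : ℂ)) +
      (b 1 : Polynomial ℂ) * ((Polynomial.X - 1) * Polynomial.C (θ 1 : ℂ)) +
      (b 2 : Polynomial ℂ) * ((Polynomial.X - 1) * Polynomial.C (θ 2 : ℂ)) =
      (Polynomial.X - 1) * Polynomial.C (∑ i, (θ i : ℂ) * b i) := by
    rw [Fin.sum_univ_three]
    simp only [map_add, map_mul, map_natCast]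
    ring
  rw [h2] at h
  rw [← h]
  have h3 : (Polynomial.X : Polynomial ℂ) ^ hgt b = (Polynomial.X ^ u 0) ^ b 0 * (Polynomial.X ^ u 1) ^ b 1 *
      (Polynomial.X ^ u 2) ^ b 2 := by
    rw [← pow_mul, ← pow_mul, ← pow_mul, ← pow_add, ← pow_add]
    rfl
  rw [h3]
  simp only [map_mul, map_pow]
  ring

/-- The value of `s` controls the order at `τ = 1` of the restriction to the curve and of its
logarithmic derivative in the direction `θ`.

Proof. Write `D = |d| + |e|`, `θ = (θ_0, θ_1, θ_2)` integers. If `2 q ≤ D` both claims are trivial.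
Consider the polynomial ring `S = ℂ[κ][ϖ]` (`Polynomial (Polynomial ℂ)`) and the ring homomorphism
from `A[ϖ]` to `MvPolynomial (Fin 3 ⊕ Fin 5) S`, `ϖ ↦ ϖ`,
`xx i ↦ λ_i (z_i + 1) / 2`, `yy i ↦ λ_i (z_i - 1) / (2 ϖ)`, `tt l ↦ T_l`, where `λ_i`, `T_l` are the
new variables and `z_i = (1 + ϖ) ^ u_i * (1 + ϖ κ θ_i)`, so `z_i - 1` is divisible by `ϖ` in `S`.
The composition with `theta` maps `x_i` to
`λ_i (z_i - 1) ϖ / 2 + λ_i (z_i + 1) ϖ / 2 = λ_i ϖ z_i`, `y_i` to
`λ_i (z_i - 1) ϖ / 2 - λ_i (z_i + 1) ϖ / 2 = - λ_i ϖ` and `t_l` to `T_l ϖ`. The coefficient of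
`λ^d T^e` of the image of `s` is therefore
`ϖ^D ∑_{b ≤ d} coeff (mon b (d - b) e) s * (-1)^{|d - b|} z^b`. If `ϖ^{2q} ∣ theta s` then
`ϖ^{2q}` divides the image, hence this coefficient (`MvPolynomial.C_dvd_iff_dvd_coeff`), so
`ϖ^{2q - D}` divides `∑_b (-1)^{|b|} coeff (..) s * z^b` (up to the sign `(-1)^{|d|}`).
Setting `κ = 0` gives the first claim after the substitution `τ = 1 + ϖ`. The coefficient of
`κ^1` of `z^b` is `ϖ (θ·b) (1 + ϖ)^{u·b}`; this gives the second claim. -/
theorem res_div (s : A) (q : ℕ) (hq : Polynomial.X ^ (2 * q) ∣ theta s) (d : Fin 3 → ℕ)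
    (e : Fin 5 → ℕ) (θ : Fin 3 → ℤ) :
    (Polynomial.X - 1) ^ (2 * q - (∑ i, d i + ∑ l, e l)) ∣ resPoly s d e ∧
    (Polynomial.X - 1) ^ (2 * q - (∑ i, d i + ∑ l, e l) - 1) ∣
      ∑ b ∈ Finset.Iic d, Polynomial.C ((∑ i, (θ i : ℂ) * b i) *
        ((-1) ^ (∑ i, b i) * coeff (mon b (d - b) e) s)) * Polynomial.X ^ hgt b := by
  classical
  rcases Nat.lt_or_ge (∑ i, d i + ∑ l, e l) (2 * q) with hD | hD
  swap
  · rw [Nat.sub_eq_zero_of_le hD]
    simp
  choose w hw using resa_w θ
  set D := ∑ i, d i + ∑ l, e l with hDdef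
  have hdvd : resa_i (Polynomial.X - 1) ^ (2 * q) ∣ coeff (resa_m d e) (resa_P θ s) := by
    have h1 : (C (resa_i (Polynomial.X - 1)) : resa_M) ^ (2 * q) ∣ resa_P θ s := by
      rw [← resa_comp θ w hw s]
      have h2 := map_dvd (Polynomial.eval₂RingHom (eval₂Hom resa_c (resa_gX θ w))
        (C (resa_i (Polynomial.X - 1)))) hq
      rw [map_pow, Polynomial.coe_eval₂RingHom, Polynomial.eval₂_X] at h2
      exact h2
    rw [← map_pow] at h1
    exact (MvPolynomial.C_dvd_iff_dvd_coeff _ _).mp h1 _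
  rw [resa_coeff, ← hDdef] at hdvd
  -- the two components
  set P1 : Polynomial ℂ := resPoly s d e with hP1
  set P2 : Polynomial ℂ := ∑ b ∈ Finset.Iic d, Polynomial.C ((∑ i, (θ i : ℂ) * b i) *
        ((-1) ^ (∑ i, b i) * coeff (mon b (d - b) e) s)) * Polynomial.X ^ hgt b with hP2
  have hsum : (∑ b ∈ Finset.Iic d,
      resa_i (Polynomial.C (coeff (mon b (d - b) e) s)) *
        (resa_i (Polynomial.X - 1) ^ D * (-1) ^ (∑ i, (d - b) i) *
        ∏ i, resa_z θ i ^ b i)) = resa_i (Polynomial.X - 1) ^ D * ((-1) ^ (∑ i, d i) *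
        (resa_i P1 + resa_i ((Polynomial.X - 1) * P2) * resa_e)) := by
    rw [hP1, hP2, resPoly, map_sum, Finset.mul_sum, map_sum, Finset.sum_mul,
      ← Finset.sum_add_distrib, Finset.mul_sum, Finset.mul_sum]
    apply Finset.sum_congr rfl
    intro b hb
    have hbd : b ≤ d := Finset.mem_Iic.mp hb
    rw [resa_prod]
    have hsg : ((-1 : resa_S)) ^ (∑ i, (d - b) i) = (-1) ^ (∑ i, d i) * (-1) ^ (∑ i, b i) := by
      have h1 : ∑ i, d i = ∑ i, (d - b) i + ∑ i, b i := by
        rw [← Finset.sum_add_distrib]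
        apply Finset.sum_congr rfl
        intro i _
        have : b i ≤ d i := hbd i
        rw [Pi.sub_apply]
        omega
      rw [h1, pow_add, mul_assoc, ← mul_pow]
      simp
    rw [hsg]
    simp only [map_mul, map_pow, map_neg, map_one]
    ring
  rw [hsum] at hdvd
  obtain ⟨Q, hQ⟩ := hdvd
  have hreg : ∀ a : resa_S, resa_i ((Polynomial.X - 1) ^ D) * a = 0 → a = 0 := by
    intro a ha
    have hne : ((Polynomial.X - 1 : Polynomial ℂ)) ^ D ≠ 0 :=
      pow_ne_zero _ (by simpa using Polynomial.X_sub_C_ne_zero (1 : ℂ))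
    have h1 : TrivSqZeroExt.fst (resa_i ((Polynomial.X - 1) ^ D) * a) = 0 := by rw [ha]; rfl
    have h2 : TrivSqZeroExt.snd (resa_i ((Polynomial.X - 1) ^ D) * a) = 0 := by rw [ha]; rfl
    simp only [resa_i, TrivSqZeroExt.inlHom_apply, TrivSqZeroExt.fst_mul, TrivSqZeroExt.snd_mul,
      TrivSqZeroExt.fst_inl, TrivSqZeroExt.snd_inl, smul_zero, add_zero, smul_eq_mul,
      mul_eq_zero, hne, false_or] at h1 h2
    exact TrivSqZeroExt.ext h1 h2
  have hsq : ((-1 : resa_S)) ^ (∑ i, d i) * (-1) ^ (∑ i, d i) = 1 := by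
    rw [← mul_pow]
    simp
  have hkey : resa_i P1 + resa_i ((Polynomial.X - 1) * P2) * resa_e =
      resa_i ((Polynomial.X - 1) ^ (2 * q - D)) * ((-1) ^ (∑ i, d i) * Q) := by
    rw [← sub_eq_zero]
    apply hreg
    have h1 : (Polynomial.X - 1 : Polynomial ℂ) ^ (2 * q) = (Polynomial.X - 1) ^ D *
        (Polynomial.X - 1) ^ (2 * q - D) := by
      rw [← pow_add]
      congr 1
      omega
    rw [← map_pow, ← map_pow, h1] at hQ
    simp only [map_mul] at hQ ⊢
    linear_combination ((-1 : resa_S)) ^ (∑ i, d i) * hQ -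
      (resa_i ((Polynomial.X - 1) ^ D) * (resa_i P1 + resa_i (Polynomial.X - 1) * resa_i P2 * resa_e)) * hsq
  have hf := congrArg TrivSqZeroExt.fst hkey
  have hs := congrArg TrivSqZeroExt.snd hkey
  set Q' := (-1 : resa_S) ^ (∑ i, d i) * Q with hQ'
  clear_value Q'
  simp only [resa_i, resa_e, TrivSqZeroExt.inlHom_apply, TrivSqZeroExt.fst_mul,
    TrivSqZeroExt.snd_mul, TrivSqZeroExt.fst_add, TrivSqZeroExt.snd_add,
    TrivSqZeroExt.fst_inl, TrivSqZeroExt.snd_inl, smul_zero, add_zero, smul_eq_mul,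
    DualNumber.fst_eps, DualNumber.snd_eps, mul_zero, mul_one, zero_add] at hf hs
  constructor
  · exact ⟨_, hf⟩
  · obtain ⟨n, hn⟩ : ∃ n, 2 * q - D = n + 1 := ⟨2 * q - D - 1, by omega⟩
    rw [hn] at hs ⊢
    rw [Nat.add_sub_cancel]
    have hne : (Polynomial.X - 1 : Polynomial ℂ) ≠ 0 := by
      simpa using Polynomial.X_sub_C_ne_zero (1 : ℂ)
    refine ⟨Q'.snd, ?_⟩
    apply mul_left_cancel₀ hne
    rw [hs, pow_succ]
    ring

end H5ML
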