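import Pool.Agent.H5.ML.Ord

/-!
# TB: parameter systems are transcendence bases
-/

namespace H5ML

variable {M : Type} [Field M] [Algebra ℂ M]

theorem tb_mem {n : ℕ} {W : ValuationSubring M} {y : Fin n → M} (hy : ResIndep W y)
    (c : MvPolynomial (Fin n) ℂ) : MvPolynomial.aeval y c ∈ W := by
  by_cases hc : c = 0
  · rw [hc, map_zero]
    exact W.zero_mem
  · exact (hy c hc).2.1

theorem tb_mem' {n : ℕ} {W : ValuationSubring M} {T : M} {y : Fin n → M} (hT : IsUnif W T)
    (hy : ResIndep W y) (Q : Polynomial (MvPolynomial (Fin n) ℂ)) :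
    Polynomial.eval₂ (MvPolynomial.aeval y : MvPolynomial (Fin n) ℂ →ₐ[ℂ] M).toRingHom T Q ∈ W := by
  rw [Polynomial.eval₂_eq_sum_range]
  refine sum_mem fun i _ => W.mul_mem _ _ (tb_mem hy _) (pow_mem hT.2.1 i)

theorem tb_poly {n : ℕ} {W : ValuationSubring M} {T : M} {y : Fin n → M} (hT : IsUnif W T)
    (hy : ResIndep W y) : ∀ (k : ℕ) (Q : Polynomial (MvPolynomial (Fin n) ℂ)),
      Q.natDegree ≤ k → Q ≠ 0 →
      Polynomial.eval₂ (MvPolynomial.aeval y : MvPolynomial (Fin n) ℂ →ₐ[ℂ] M).toRingHom T Q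
        ≠ 0 := by
  intro k
  induction k with
  | zero =>
    intro Q hQ hQ0
    rw [Polynomial.eq_C_of_natDegree_le_zero hQ] at hQ0 ⊢
    rw [Polynomial.eval₂_C]
    exact (hy _ (by simpa using hQ0)).1
  | succ k ih =>
    intro Q hQ hQ0
    have hdec : Q = Q.divX * Polynomial.X + Polynomial.C (Q.coeff 0) :=
      (Polynomial.divX_mul_X_add Q).symm
    have hev : Polynomial.eval₂ (MvPolynomial.aeval y : MvPolynomial (Fin n) ℂ →ₐ[ℂ] M).toRingHom
        T Q = Polynomial.eval₂ (MvPolynomial.aeval y : MvPolynomial (Fin n) ℂ →ₐ[ℂ] M).toRingHom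
        T Q.divX * T + MvPolynomial.aeval y (Q.coeff 0) := by
      conv_lhs => rw [hdec]
      rw [Polynomial.eval₂_add, Polynomial.eval₂_mul, Polynomial.eval₂_X, Polynomial.eval₂_C]
      rfl
    rw [hev]
    by_cases hc : Q.coeff 0 = 0
    · rw [hc, map_zero, add_zero]
      refine mul_ne_zero (ih _ ?_ ?_) hT.1
      · rw [Polynomial.natDegree_divX_eq_natDegree_tsub_one]
        omega
      · intro h0
        apply hQ0
        rw [hdec, h0, hc]
        simp
    · intro h0
      obtain ⟨h1, h2, h3⟩ := hy _ hc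
      apply hT.2.2.1
      set e := Polynomial.eval₂ (MvPolynomial.aeval y : MvPolynomial (Fin n) ℂ →ₐ[ℂ] M).toRingHom
        T Q.divX with he
      have he' : e ∈ W := tb_mem' hT hy _
      have h4 : T⁻¹ = -(e * (MvPolynomial.aeval y (Q.coeff 0))⁻¹) := by
        have h5 : MvPolynomial.aeval y (Q.coeff 0) = -(e * T) := by
          rw [eq_neg_iff_add_eq_zero, add_comm]
          exact h0
        have h6 : e * T ≠ 0 := by
          intro h7
          rw [h7, neg_zero] at h5
          exact h1 h5
        have h8 : e ≠ 0 := left_ne_zero_of_mul h6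
        rw [h5]
        field_simp [hT.1]
      rw [h4]
      exact neg_mem (W.mul_mem _ _ he' h3)

/-- Proof. Let `P ≠ 0` be a polynomial in `n + 1` variables with `P (T, y) = 0`. View it as a
polynomial in the variable `0` with coefficients in the polynomial ring in the others
(`MvPolynomial.finSuccEquiv`): `P = ∑ c_j X_0 ^ j`, let `j` be minimal with `c_j ≠ 0`. Then
`0 = T ^ j (c_j (y) + T (…))` with `(…) ∈ W`, and `c_j (y)` is a unit of `W` by `hy`, so the
parenthesis is a unit; contradiction. -/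
theorem tb_indep {n : ℕ} {W : ValuationSubring M} {T : M} {y : Fin n → M} (hT : IsUnif W T)
    (hy : ResIndep W y) : AlgebraicIndependent ℂ (Fin.cons T y : Fin (n + 1) → M) := by
  rw [algebraicIndependent_iff]
  intro P hP
  by_contra hP0
  have hQ : MvPolynomial.finSuccEquiv ℂ n P ≠ 0 := by
    intro h0
    apply hP0
    exact (MvPolynomial.finSuccEquiv ℂ n).injective (by rw [h0, map_zero])
  refine tb_poly hT hy _ _ le_rfl hQ ?_
  rw [← hP]
  have hcomp : ((MvPolynomial.aeval (Fin.cons T y : Fin (n + 1) → M)).toRingHom :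
      MvPolynomial (Fin (n + 1)) ℂ →+* M) =
      (Polynomial.eval₂RingHom (MvPolynomial.aeval y : MvPolynomial (Fin n) ℂ →ₐ[ℂ] M).toRingHom
        T).comp (MvPolynomial.finSuccEquiv ℂ n).toAlgHom.toRingHom := by
    apply MvPolynomial.ringHom_ext
    · intro r
      simp [MvPolynomial.finSuccEquiv_apply]
    · intro i
      refine Fin.cases ?_ (fun j => ?_) i
      · simp [MvPolynomial.finSuccEquiv_apply]
      · simp [MvPolynomial.finSuccEquiv_apply]
  exact (congrArg (fun g : MvPolynomial (Fin (n + 1)) ℂ →+* M => g P) hcomp).symm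

/-- `z` is a transcendence basis because its cardinality is the transcendence degree, so `M` is
algebraic over `ℂ(z)`; it is finitely generated as a field (`EssFiniteType` over `ℂ`, hence over
`ℂ(z)`), so finite. -/
theorem tb_fin {N : ℕ} (hM : Algebra.EssFiniteType ℂ M) (htr : Algebra.trdeg ℂ M = N)
    (z : Fin N → M) (hz : AlgebraicIndependent ℂ z) :
    Algebra.IsAlgebraic (IntermediateField.adjoin ℂ (Set.range z)) M ∧
      FiniteDimensional (IntermediateField.adjoin ℂ (Set.range z)) M := by
  have h1 : IsTranscendenceBasis ℂ z :=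
    hz.isTranscendenceBasis_of_lift_trdeg_le_of_finite (by simp [htr])
  have h2 := h1.isAlgebraic_field
  refine ⟨h2, ?_⟩
  have h3 : Algebra.EssFiniteType (IntermediateField.adjoin ℂ (Set.range z)) M :=
    Algebra.EssFiniteType.of_comp ℂ _ M
  exact Algebra.finite_of_essFiniteType_of_isAlgebraic

end H5ML
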